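import Mathlib

/-!
# MP_b92fc8_an : cubic systems with a fine focus of order 5.  Basic definitions.

Normal form (time reversed), on the cone `U ^ 2 = Y ^ 2 + w ^ 2`, `U > 0`
(`U = 4|z|^2`, `w = 4 Re z^2`, `Y = -4 Im z^2`), parameters `k = kappa`, `l`.

Ray a : `w = 0, Y = U`;  ray b : `w = 0, Y = -U`.
`A = (k U - Y) / 2`, `S = U - k Y`, `S ^ 2 = 4 A ^ 2 + (1 - k ^ 2) w ^ 2`,
`h = (1 - A) ^ 2 + (1 - k ^ 2) w ^ 2 / 2 + l w S / 2`, `eta = 1 - k ^ 2 - l ^ 2`,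
`u = 2 h + eta w ^ 2`.
-/

noncomputable section

namespace B92

/-- `U`-component of the vector field. -/
def XU (k l U Y w : ℝ) : ℝ := -2 * w * (U + k * Y) + l * (w ^ 2 - Y ^ 2)

/-- `Y`-component of the vector field. -/
def XY (k l U Y w : ℝ) : ℝ := -w * (2 + k * U + 3 * Y) - l * U * Y

/-- `w`-component of the vector field. -/
def Xw (k l U Y w : ℝ) : ℝ := 2 * Y - 2 * U ^ 2 + 3 * Y ^ 2 - k * U * Y + l * U * w

/-- `A = (k U - Y) / 2`. -/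
def fA (k U Y : ℝ) : ℝ := (k * U - Y) / 2

/-- `S = U - k Y`. -/
def fS (k U Y : ℝ) : ℝ := U - k * Y

/-- The function `h` (called `F2` in the text). -/
def fh (k l U Y w : ℝ) : ℝ :=
  (1 - fA k U Y) ^ 2 + (1 - k ^ 2) * w ^ 2 / 2 + l * w * fS k U Y / 2

/-- `eta = 1 - k ^ 2 - l ^ 2`. -/
def eta (k l : ℝ) : ℝ := 1 - k ^ 2 - l ^ 2

/-- `u = 2 h + eta w ^ 2`. -/
def fu (k l U Y w : ℝ) : ℝ := 2 * fh k l U Y w + eta k l * w ^ 2

/-- A solution on the whole line of the (time reversed) normal form, on the cone, off the apex. -/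
structure Sol (k l : ℝ) (U Y w : ℝ → ℝ) : Prop where
  dU : ∀ t, HasDerivAt U (XU k l (U t) (Y t) (w t)) t
  dY : ∀ t, HasDerivAt Y (XY k l (U t) (Y t) (w t)) t
  dw : ∀ t, HasDerivAt w (Xw k l (U t) (Y t) (w t)) t
  cone : ∀ t, U t ^ 2 = Y t ^ 2 + w t ^ 2
  pos : ∀ t, 0 < U t

end B92
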