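import Mathlib
import Pool.Agent.Lib.B92.Defs

/-! Basic identities: `S ^ 2 = 4 A ^ 2 + nu w ^ 2`, `h' = - w u` along solutions, reflection. -/

noncomputable section

namespace B92

theorem cone_S {k U Y w : ℝ} (hc : U ^ 2 = Y ^ 2 + w ^ 2) :
    fS k U Y ^ 2 = 4 * fA k U Y ^ 2 + (1 - k ^ 2) * w ^ 2 := by
  unfold fS fA
  linear_combination (1 - k ^ 2) * hc

/-- The key identity `X h = - w u`. -/
theorem hasDerivAt_h {k l : ℝ} {U Y w : ℝ → ℝ} (hs : Sol k l U Y w) (t : ℝ) :
    HasDerivAt (fun s => fh k l (U s) (Y s) (w s))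
      (-(w t) * fu k l (U t) (Y t) (w t)) t := by
  have h1 := hs.dU t
  have h2 := hs.dY t
  have h3 := hs.dw t
  have hc := hs.cone t
  have hA : HasDerivAt (fun s => 1 - fA k (U s) (Y s))
      (-((k * XU k l (U t) (Y t) (w t) - XY k l (U t) (Y t) (w t)) / 2)) t :=
    ((h1.const_mul k).sub h2).div_const 2 |>.const_sub 1
  have hS : HasDerivAt (fun s => fS k (U s) (Y s))
      (XU k l (U t) (Y t) (w t) - k * XY k l (U t) (Y t) (w t)) t :=
    h1.sub (h2.const_mul k)
  have h4 := (hA.pow 2).add ((((h3.pow 2).const_mul (1 - k ^ 2)).div_const 2).add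
    (((h3.const_mul l).mul hS).div_const 2))
  refine (h4.congr_deriv ?_).congr_of_eventuallyEq (Filter.Eventually.of_forall fun s => ?_)
  · simp only [fA, fS, fu, fh, eta, XU, XY, Xw]
    linear_combination (Y t * k * l + 2 * k ^ 2 * w t + l ^ 2 * w t / 2 - U t * l - 2 * w t) * hc
  · simp only [fh, Pi.add_apply, Pi.pow_apply, Pi.mul_apply]
    ring

/-- Time reversal and reflection `w ↦ -w`, `l ↦ -l`. -/
theorem Sol.reflect {k l : ℝ} {U Y w : ℝ → ℝ} (hs : Sol k l U Y w) :
    Sol k (-l) (fun t => U (-t)) (fun t => Y (-t)) (fun t => -w (-t)) := by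
  refine ⟨fun t => ?_, fun t => ?_, fun t => ?_, fun t => ?_, fun t => hs.pos _⟩
  · have h := (hs.dU (-t)).scomp t (hasDerivAt_neg t)
    refine h.congr_deriv ?_
    simp only [XU, smul_eq_mul]; ring
  · have h := (hs.dY (-t)).scomp t (hasDerivAt_neg t)
    refine h.congr_deriv ?_
    simp only [XY, smul_eq_mul]; ring
  · have h := ((hs.dw (-t)).scomp t (hasDerivAt_neg t)).neg
    refine h.congr_deriv ?_
    simp only [Xw, smul_eq_mul]; ring
  · have := hs.cone (-t)
    simp only [this]; ring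

/-- Time translation. -/
theorem Sol.shift {k l : ℝ} {U Y w : ℝ → ℝ} (hs : Sol k l U Y w) (a : ℝ) :
    Sol k l (fun t => U (t + a)) (fun t => Y (t + a)) (fun t => w (t + a)) :=
  ⟨fun t => (hs.dU (t + a)).comp_add_const t a, fun t => (hs.dY (t + a)).comp_add_const t a,
    fun t => (hs.dw (t + a)).comp_add_const t a, fun t => hs.cone _, fun t => hs.pos _⟩

end B92
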