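import Mathlib

/-! Chain lemma: a strictly monotone sequence of entrances contradicts periodicity. -/

open Set Filter Topology

namespace B92

/-- Previous zero. -/
theorem exists_prev_zero {w : ℝ → ℝ} (hw : Continuous w) {a t : ℝ} (hat : a < t)
    (ha : w a = 0) (hiso : ∀ᶠ s in 𝓝[<] t, w s ≠ 0) :
    ∃ b, a ≤ b ∧ b < t ∧ w b = 0 ∧ ∀ s ∈ Ioo b t, w s ≠ 0 := by
  -- the set of zeros in [a, t) ; its sup is < t
  obtain ⟨c, hc, hcs⟩ := (mem_nhdsLT_iff_exists_Ioo_subset).1 hiso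
  have hct : c < t := hc
  set m := max a ((c + t) / 2) with hm
  have hmt : m < t := max_lt hat (by linarith)
  -- zeros of `w` in `[a, m]`
  have hcomp : IsCompact (Icc a m ∩ w ⁻¹' {0}) :=
    isCompact_Icc.inter_right (isClosed_singleton.preimage hw)
  have hne : (Icc a m ∩ w ⁻¹' {0}).Nonempty := ⟨a, ⟨le_rfl, le_max_left _ _⟩, ha⟩
  obtain ⟨b, hb, hbmax⟩ := hcomp.exists_isMaxOn hne continuousOn_id
  refine ⟨b, hb.1.1, lt_of_le_of_lt hb.1.2 hmt, hb.2, fun s hs h0 => ?_⟩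
  by_cases hsm : s ≤ m
  · have : s ≤ b := hbmax ⟨⟨hb.1.1.trans hs.1.le, hsm⟩, h0⟩
    exact absurd hs.1 (not_lt.2 this)
  · push Not at hsm
    have : s ∈ Ioo c t := ⟨by
      have := le_max_right a ((c + t) / 2); linarith, hs.2⟩
    exact hcs this h0

theorem sign_const {w : ℝ → ℝ} (hw : Continuous w) {b t : ℝ}
    (h : ∀ s ∈ Ioo b t, w s ≠ 0) :
    (∀ s ∈ Ioo b t, 0 < w s) ∨ (∀ s ∈ Ioo b t, w s < 0) := by
  by_contra hcon
  push Not at hcon
  obtain ⟨⟨s1, hs1, h1⟩, ⟨s2, hs2, h2⟩⟩ := hcon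
  have h1' : w s1 < 0 := lt_of_le_of_ne h1 (h s1 hs1)
  have h2' : 0 < w s2 := lt_of_le_of_ne h2 (Ne.symm (h s2 hs2))
  have hpre : IsPreconnected (Ioo b t) := isPreconnected_Ioo
  obtain ⟨s, hs, h0⟩ := hpre.intermediate_value hs1 hs2 hw.continuousOn
    (show (0 : ℝ) ∈ Icc (w s1) (w s2) from ⟨h1'.le, h2'.le⟩)
  exact h s hs h0

/-- At a zero with negative values on the left the derivative is nonnegative. -/
theorem deriv_nonneg_of_neg_left {w : ℝ → ℝ} {d b t : ℝ} (hbt : b < t) (hd : HasDerivAt w d t)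
    (h0 : w t = 0) (h : ∀ s ∈ Ioo b t, w s < 0) : 0 ≤ d := by
  by_contra hcon
  push Not at hcon
  have h1 : ∀ᶠ s in 𝓝[<] t, 0 < w s := by
    have := hd.hasDerivWithinAt (s := Iio t)
    have h2 := (hasDerivWithinAt_iff_tendsto_slope' (by simp)).1 this
    have h3 : ∀ᶠ s in 𝓝[<] t, slope w t s < 0 := h2.eventually (gt_mem_nhds hcon)
    filter_upwards [h3, self_mem_nhdsWithin] with s hs hst
    have hst' : s - t < 0 := by simpa using hst
    rw [slope_def_field, h0, sub_zero] at hs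
    by_contra hle
    push Not at hle
    have := div_nonneg_of_nonpos hle hst'.le
    linarith
  have h4 : ∀ᶠ s in 𝓝[<] t, s ∈ Ioo b t := Ioo_mem_nhdsLT hbt
  obtain ⟨s, hs1, hs2⟩ := (h1.and h4).exists
  exact absurd (h s hs2) (not_lt.2 hs1.le)

theorem deriv_nonpos_of_pos_left {w : ℝ → ℝ} {d b t : ℝ} (hbt : b < t) (hd : HasDerivAt w d t)
    (h0 : w t = 0) (h : ∀ s ∈ Ioo b t, 0 < w s) : d ≤ 0 := by
  have := deriv_nonneg_of_neg_left (w := fun s => -w s) hbt hd.neg (by simp [h0])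
    (fun s hs => by simpa using h s hs)
  linarith

/-- At a zero with positive values on the right the derivative is nonnegative. -/
theorem deriv_nonneg_of_pos_right {w : ℝ → ℝ} {d b t : ℝ} (hbt : t < b) (hd : HasDerivAt w d t)
    (h0 : w t = 0) (h : ∀ s ∈ Ioo t b, 0 < w s) : 0 ≤ d := by
  have hd2 : HasDerivAt (fun s => w (-s)) (-d) (-t) := by
    have h1 : HasDerivAt w d (-(-t)) := by simpa using hd
    have h2 := HasDerivAt.comp (-t) h1 (hasDerivAt_neg (-t))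
    have h3 : d * -1 = -d := by ring
    rw [h3] at h2
    exact h2
  have := deriv_nonpos_of_pos_left (w := fun s => w (-s)) (b := -b) (t := -t) (by linarith) hd2
    (by simpa using h0) (fun s hs => h (-s) ⟨by linarith [hs.2], by linarith [hs.1]⟩)
  linarith

theorem deriv_nonpos_of_neg_right {w : ℝ → ℝ} {d b t : ℝ} (hbt : t < b) (hd : HasDerivAt w d t)
    (h0 : w t = 0) (h : ∀ s ∈ Ioo t b, w s < 0) : d ≤ 0 := by
  have := deriv_nonneg_of_pos_right (w := fun s => -w s) hbt hd.neg (by simp [h0])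
    (fun s hs => by simpa using h s hs)
  linarith

/-- **Chain lemma.** If every zero of the periodic function `w` is transversal and, for consecutive
zeros `t1 < t2 < t3` with `w > 0` on `(t1, t2)` and `w < 0` on `(t2, t3)`, the periodic function `E`
satisfies `E t1 < E t3`, then `w` has no entrance (zero with positive derivative). -/
theorem chain {w wd E : ℝ → ℝ} {P : ℝ} (hP : 0 < P)
    (hw : ∀ t, HasDerivAt w (wd t) t)
    (per : ∀ t, w (t + P) = w t) (perd : ∀ t, wd (t + P) = wd t) (perE : ∀ t, E (t + P) = E t)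
    (hz : ∀ t, w t = 0 → wd t ≠ 0)
    (step : ∀ t1 t2 t3, t1 < t2 → t2 < t3 → w t1 = 0 → w t2 = 0 → w t3 = 0 →
      (∀ t ∈ Ioo t1 t2, 0 < w t) → (∀ t ∈ Ioo t2 t3, w t < 0) → E t1 < E t3)
    {t0 : ℝ} (h0 : w t0 = 0) (h0' : 0 < wd t0) : False := by
  have hc : Continuous w := continuous_iff_continuousAt.2 fun t => (hw t).continuousAt
  have hiso : ∀ t, w t = 0 → ∀ᶠ s in 𝓝[≠] t, w s ≠ 0 := fun t ht =>
    (hw t).eventually_ne (hz t ht)
  have hisoL : ∀ t, w t = 0 → ∀ᶠ s in 𝓝[<] t, w s ≠ 0 := fun t ht =>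
    (hiso t ht).filter_mono (nhdsWithin_mono _ (fun s hs => ne_of_lt hs))
  -- finiteness of the zeros in `[t0, t0 + P]`
  have hfin : (Icc t0 (t0 + P) ∩ w ⁻¹' {0}).Finite := by
    by_contra hinf
    obtain ⟨a, ha, hacc⟩ := Set.Infinite.exists_accPt_of_subset_isCompact hinf
      (isCompact_Icc.inter_right (isClosed_singleton.preimage hc)) subset_rfl
    have h1 := hiso a ha.2
    rw [accPt_iff_frequently] at hacc
    have h2 : ∀ᶠ s in 𝓝 a, s ≠ a → w s ≠ 0 := by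
      simpa [eventually_nhdsWithin_iff] using h1
    obtain ⟨s, ⟨hsa, hs⟩, hs2⟩ := (hacc.and_eventually h2).exists
    exact hs2 hsa hs.2
  set B : Set ℝ := {t | t ∈ Icc t0 (t0 + P) ∩ w ⁻¹' {0} ∧ t0 < t ∧ 0 < wd t ∧ E t ≤ E t0} with hB
  have hBfin : B.Finite := hfin.subset fun t ht => ht.1
  have hBne : B.Nonempty := by
    refine ⟨t0 + P, ⟨⟨⟨by linarith, le_rfl⟩, ?_⟩, by linarith, ?_, ?_⟩⟩
    · simpa [per t0] using h0
    · rw [perd]; exact h0'
    · rw [perE]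
  obtain ⟨t, ht, htmin⟩ := hBfin.exists_minimalFor id B hBne
  obtain ⟨⟨⟨ht1, ht2⟩, htz⟩, ht0, htd, htE⟩ := ht
  have htz' : w t = 0 := htz
  -- the previous zero `s2`
  obtain ⟨s2, hs2a, hs2t, hs2z, hs2n⟩ := exists_prev_zero hc ht0 h0 (hisoL t htz')
  have hneg : ∀ s ∈ Ioo s2 t, w s < 0 := by
    rcases sign_const hc hs2n with h | h
    · exact absurd htd (not_lt.2 (deriv_nonpos_of_pos_left hs2t (hw t) htz' h))
    · exact h
  have hs2d : wd s2 ≤ 0 := deriv_nonpos_of_neg_right hs2t (hw s2) hs2z hneg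
  have hs2d' : wd s2 < 0 := lt_of_le_of_ne hs2d (hz s2 hs2z)
  have hs20 : t0 < s2 := by
    rcases lt_or_eq_of_le hs2a with h | h
    · exact h
    · rw [← h] at hs2d'; exact absurd h0' (not_lt.2 hs2d'.le)
  obtain ⟨s1, hs1a, hs1t, hs1z, hs1n⟩ := exists_prev_zero hc hs20 h0 (hisoL s2 hs2z)
  have hpos : ∀ s ∈ Ioo s1 s2, 0 < w s := by
    rcases sign_const hc hs1n with h | h
    · exact h
    · exact absurd hs2d' (not_lt.2 (deriv_nonneg_of_neg_left hs1t (hw s2) hs2z h))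
  have hs1d : 0 ≤ wd s1 := deriv_nonneg_of_pos_right hs1t (hw s1) hs1z hpos
  have hs1d' : 0 < wd s1 := lt_of_le_of_ne hs1d (Ne.symm (hz s1 hs1z))
  have hE : E s1 < E t := step s1 s2 t hs1t hs2t hs1z hs2z htz' hpos hneg
  rcases lt_or_eq_of_le hs1a with h | h
  · have hs1B : s1 ∈ B :=
      ⟨⟨⟨h.le, (hs1t.trans hs2t).le.trans ht2⟩, hs1z⟩, h, hs1d', hE.le.trans htE⟩
    have := htmin hs1B (show id s1 ≤ id t from (hs1t.trans hs2t).le)
    exact absurd (hs1t.trans hs2t) (not_lt.2 this)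
  · rw [← h] at hE
    exact absurd hE (not_lt.2 htE)

end B92
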