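import Mathlib
import Pool.Agent.Lib.B92.Defs
import Pool.Agent.Lib.B92.Alg
import Pool.Agent.Lib.B92.Chain

/-! Arcs in `w > 0` and values at `w = 0`. -/

open Set Filter Topology

noncomputable section

namespace B92

/-- An arc of a solution in `w > 0`, from the entrance `a` to the exit `b`, with `h > 0`.
Parameter `l` : for the upper half (`+`) it is `l`, for the mirror image of the lower half (`-`)
it is `-l`. -/
structure Arc (k l : ℝ) (U Y w : ℝ → ℝ) (a b : ℝ) : Prop where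
  sol : Sol k l U Y w
  lt : a < b
  wa : w a = 0
  wb : w b = 0
  wpos : ∀ t ∈ Ioo a b, 0 < w t
  hpos : ∀ t ∈ Icc a b, 0 < fh k l (U t) (Y t) (w t)

theorem Sol.contU {k l : ℝ} {U Y w : ℝ → ℝ} (hs : Sol k l U Y w) : Continuous U :=
  continuous_iff_continuousAt.2 fun t => (hs.dU t).continuousAt

theorem Sol.contY {k l : ℝ} {U Y w : ℝ → ℝ} (hs : Sol k l U Y w) : Continuous Y :=
  continuous_iff_continuousAt.2 fun t => (hs.dY t).continuousAt

theorem Sol.contw {k l : ℝ} {U Y w : ℝ → ℝ} (hs : Sol k l U Y w) : Continuous w :=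
  continuous_iff_continuousAt.2 fun t => (hs.dw t).continuousAt

/-- At `w = 0` one is on ray a (`Y = U`) or on ray b (`Y = -U`). -/
theorem Sol.ray {k l : ℝ} {U Y w : ℝ → ℝ} (hs : Sol k l U Y w) {t : ℝ} (h0 : w t = 0) :
    Y t = U t ∨ Y t = -U t := by
  have h := hs.cone t
  rw [h0] at h
  have h1 : (Y t - U t) * (Y t + U t) = 0 := by linear_combination -h
  rcases mul_eq_zero.1 h1 with h2 | h2
  · left; linarith
  · right; linarith

theorem h_at_zero {k l U Y w : ℝ} (h0 : w = 0) : fh k l U Y w = (1 - fA k U Y) ^ 2 := by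
  subst h0; simp [fh]

/-- `w'` on ray a is `2 U (1 - A)`. -/
theorem Xw_rayA {k l U Y w : ℝ} (h0 : w = 0) (hY : Y = U) :
    Xw k l U Y w = 2 * U * (1 - fA k U Y) := by
  subst h0; subst hY; simp only [Xw, fA]; ring

/-- `w'` on ray b is `-2 U (1 - A)`. -/
theorem Xw_rayB {k l U Y w : ℝ} (h0 : w = 0) (hY : Y = -U) :
    Xw k l U Y w = -(2 * U * (1 - fA k U Y)) := by
  subst h0; subst hY; simp only [Xw, fA]; ring

/-- At a zero of `w` with `h > 0` the crossing is transversal. -/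
theorem Sol.transversal {k l : ℝ} {U Y w : ℝ → ℝ} (hs : Sol k l U Y w) {t : ℝ} (h0 : w t = 0)
    (hh : 0 < fh k l (U t) (Y t) (w t)) : Xw k l (U t) (Y t) (w t) ≠ 0 := by
  rw [h_at_zero h0] at hh
  have h1 : 1 - fA k (U t) (Y t) ≠ 0 := by
    intro h; rw [h] at hh; simp at hh
  have hU := (hs.pos t).ne'
  rcases hs.ray h0 with h | h
  · rw [Xw_rayA h0 h]; positivity
  · rw [Xw_rayB h0 h]; exact neg_ne_zero.2 (by positivity)

/-- Entrances: ray a with `A < 1` or ray b with `A > 1`. -/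
theorem Arc.entrance {k l : ℝ} {U Y w : ℝ → ℝ} {a b : ℝ} (ha : Arc k l U Y w a b) :
    (Y a = U a ∧ fA k (U a) (Y a) < 1) ∨ (Y a = -U a ∧ 1 < fA k (U a) (Y a)) := by
  have h1 := ha.sol.transversal ha.wa (ha.hpos a ⟨le_rfl, ha.lt.le⟩)
  have h2 : 0 ≤ Xw k l (U a) (Y a) (w a) :=
    deriv_nonneg_of_pos_right ha.lt (ha.sol.dw a) ha.wa ha.wpos
  have h3 : 0 < Xw k l (U a) (Y a) (w a) := lt_of_le_of_ne h2 (Ne.symm h1)
  have hU := ha.sol.pos a
  rcases ha.sol.ray ha.wa with h | h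
  · left
    refine ⟨h, ?_⟩
    rw [Xw_rayA ha.wa h] at h3
    have := pos_of_mul_pos_right h3 (by positivity : (0:ℝ) ≤ 2 * U a)
    linarith
  · right
    refine ⟨h, ?_⟩
    rw [Xw_rayB ha.wa h] at h3
    by_contra hcon
    push Not at hcon
    have : 0 ≤ 2 * U a * (1 - fA k (U a) (Y a)) := by
      apply mul_nonneg <;> linarith
    linarith

/-- Exits: ray b with `A < 1` or ray a with `A > 1`. -/
theorem Arc.exit {k l : ℝ} {U Y w : ℝ → ℝ} {a b : ℝ} (ha : Arc k l U Y w a b) :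
    (Y b = -U b ∧ fA k (U b) (Y b) < 1) ∨ (Y b = U b ∧ 1 < fA k (U b) (Y b)) := by
  have h1 := ha.sol.transversal ha.wb (ha.hpos b ⟨ha.lt.le, le_rfl⟩)
  have h2 : Xw k l (U b) (Y b) (w b) ≤ 0 :=
    deriv_nonpos_of_pos_left ha.lt (ha.sol.dw b) ha.wb ha.wpos
  have h3 : Xw k l (U b) (Y b) (w b) < 0 := lt_of_le_of_ne h2 h1
  have hU := ha.sol.pos b
  rcases ha.sol.ray ha.wb with h | h
  · right
    refine ⟨h, ?_⟩
    rw [Xw_rayA ha.wb h] at h3
    by_contra hcon
    push Not at hcon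
    have : 0 ≤ 2 * U b * (1 - fA k (U b) (Y b)) := by
      apply mul_nonneg <;> linarith
    linarith
  · left
    refine ⟨h, ?_⟩
    rw [Xw_rayB ha.wb h] at h3
    have h4 : 0 < 2 * U b * (1 - fA k (U b) (Y b)) := by linarith
    have := pos_of_mul_pos_right h4 (by positivity : (0:ℝ) ≤ 2 * U b)
    linarith

/-- The mirror image of a lower half. -/
theorem Sol.arc_of_neg {k l : ℝ} {U Y w : ℝ → ℝ} (hs : Sol k l U Y w) {b c : ℝ} (hbc : b < c)
    (hb : w b = 0) (hc : w c = 0) (hneg : ∀ t ∈ Ioo b c, w t < 0)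
    (hh : ∀ t, 0 < fh k l (U t) (Y t) (w t)) :
    Arc k (-l) (fun t => U (-t)) (fun t => Y (-t)) (fun t => -w (-t)) (-c) (-b) := by
  refine ⟨hs.reflect, by linarith, by simp [hc], by simp [hb], fun t ht => ?_, fun t _ => ?_⟩
  · have := hneg (-t) ⟨by linarith [ht.2], by linarith [ht.1]⟩
    simpa using this
  · have := hh (-t)
    have h2 : fh k (-l) (U (-t)) (Y (-t)) (-w (-t)) = fh k l (U (-t)) (Y (-t)) (w (-t)) := by
      simp only [fh]; ring
    rw [h2]; exact this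

end B92
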