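import Mathlib
import Pool.Agent.Lib.B92.Defs
import Pool.Agent.Lib.B92.Alg
import Pool.Agent.Lib.B92.Chain
import Pool.Agent.Lib.B92.Arc

/-! `h > 0` on every closed orbit which meets `w = 0`. -/

open Set Filter Topology

noncomputable section

namespace B92

/-- Neighbouring zeros of a periodic function. -/
theorem exists_zeros_around {w : ℝ → ℝ} (hw : Continuous w) {P t0 t : ℝ} (hP : 0 < P)
    (per : ∀ t, w (t + P) = w t) (h0 : w t0 = 0) (ht : w t ≠ 0) :
    ∃ a b, a < t ∧ t < b ∧ w a = 0 ∧ w b = 0 ∧ ∀ s ∈ Ioo a b, w s ≠ 0 := by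
  have hz : ∀ n : ℤ, w (t0 + n * P) = 0 := by
    have hper : Function.Periodic w P := per
    intro n
    have := hper.int_mul n t0
    rw [this, h0]
  -- a zero to the left and a zero to the right
  obtain ⟨n, hn⟩ := exists_int_gt ((t - t0) / P)
  obtain ⟨m, hm⟩ := exists_int_lt ((t - t0) / P)
  have hb0 : t < t0 + n * P := by
    rw [div_lt_iff₀ hP] at hn; linarith
  have ha0 : t0 + m * P < t := by
    rw [lt_div_iff₀ hP] at hm; linarith
  set a0 := t0 + m * P with ha0d
  set b0 := t0 + n * P with hb0d
  have hza : w a0 = 0 := hz m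
  have hzb : w b0 = 0 := hz n
  -- last zero in [a0, t]
  have hc1 : IsCompact (Icc a0 t ∩ w ⁻¹' {0}) :=
    isCompact_Icc.inter_right (isClosed_singleton.preimage hw)
  have hne1 : (Icc a0 t ∩ w ⁻¹' {0}).Nonempty := ⟨a0, ⟨le_rfl, ha0.le⟩, hza⟩
  obtain ⟨a, ha, hamax⟩ := hc1.exists_isMaxOn hne1 continuousOn_id
  have hc2 : IsCompact (Icc t b0 ∩ w ⁻¹' {0}) :=
    isCompact_Icc.inter_right (isClosed_singleton.preimage hw)
  have hne2 : (Icc t b0 ∩ w ⁻¹' {0}).Nonempty := ⟨b0, ⟨hb0.le, le_rfl⟩, hzb⟩
  obtain ⟨b, hb, hbmin⟩ := hc2.exists_isMinOn hne2 continuousOn_id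
  have hat : a < t := lt_of_le_of_ne ha.1.2 (fun h => ht (by rw [← h]; exact ha.2))
  have htb : t < b := lt_of_le_of_ne hb.1.1 (fun h => ht (by rw [h]; exact hb.2))
  refine ⟨a, b, hat, htb, ha.2, hb.2, fun s hs h => ?_⟩
  rcases le_total s t with hst | hst
  · have : s ≤ a := hamax ⟨⟨ha.1.1.trans hs.1.le, hst⟩, h⟩
    exact absurd hs.1 (not_lt.2 this)
  · have : b ≤ s := hbmin ⟨⟨hst, hs.2.le.trans hb.1.2⟩, h⟩
    exact absurd hs.2 (not_lt.2 this)

/-- Second derivative test, strict local form. -/
theorem eventually_pos_of_second {w w1 : ℝ → ℝ} {c t : ℝ} (h1 : ∀ s, HasDerivAt w (w1 s) s)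
    (h0 : w t = 0) (h10 : w1 t = 0) (h2 : HasDerivAt w1 c t) (hc : 0 < c) :
    ∃ e > 0, ∀ s, s ≠ t → |s - t| < e → 0 < w s := by
  have h3 : Tendsto (fun s => slope w1 t s) (𝓝[≠] t) (𝓝 c) := hasDerivAt_iff_tendsto_slope.1 h2
  have h4 : ∀ᶠ s in 𝓝[≠] t, c / 2 < slope w1 t s := h3.eventually (lt_mem_nhds (by linarith))
  rw [eventually_nhdsWithin_iff, Metric.eventually_nhds_iff] at h4
  obtain ⟨e, he, h5⟩ := h4
  refine ⟨e, he, fun s hst hse => ?_⟩
  -- `psi = w - (c/4) (s - t)^2`
  set psi : ℝ → ℝ := fun s => w s - c / 4 * (s - t) ^ 2 with hpsi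
  have hd : ∀ s, HasDerivAt psi (w1 s - c / 2 * (s - t)) s := by
    intro s
    have ha : HasDerivAt (fun s => c / 4 * (s - t) ^ 2) (c / 2 * (s - t)) s := by
      have := (((hasDerivAt_id s).sub_const t).pow 2).const_mul (c / 4)
      refine this.congr_deriv ?_
      simp; ring
    exact (h1 s).sub ha
  have hpt : psi t = 0 := by simp [hpsi, h0]
  have hslope : ∀ x, x ≠ t → |x - t| < e → c / 2 < (w1 x) / (x - t) := by
    intro x hx hxe
    have := h5 (y := x) (by rw [Real.dist_eq]; exact hxe) hx
    rw [slope_def_field, h10, sub_zero] at this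
    exact this
  have hpos : 0 < psi s := by
    rcases lt_or_gt_of_ne hst with hlt | hgt
    · -- s < t : psi' < 0 on (s, t)
      have hanti : StrictAntiOn psi (Icc s t) := by
        apply strictAntiOn_of_deriv_neg (convex_Icc s t)
          (fun x _ => (hd x).continuousAt.continuousWithinAt)
        intro x hx
        rw [interior_Icc] at hx
        rw [(hd x).deriv]
        have hxt : x - t < 0 := by linarith [hx.2]
        have habs : |x - t| < e := by
          rw [abs_of_neg hxt]; rw [abs_of_neg (by linarith : s - t < 0)] at hse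
          linarith [hx.1]
        have h6 := hslope x (by linarith [hx.2] : x < t).ne habs
        rw [lt_div_iff_of_neg hxt] at h6
        linarith
      have := hanti ⟨le_rfl, hlt.le⟩ ⟨hlt.le, le_rfl⟩ hlt
      rw [hpt] at this; exact this
    · have hmono : StrictMonoOn psi (Icc t s) := by
        apply strictMonoOn_of_deriv_pos (convex_Icc t s)
          (fun x _ => (hd x).continuousAt.continuousWithinAt)
        intro x hx
        rw [interior_Icc] at hx
        rw [(hd x).deriv]
        have hxt : 0 < x - t := by linarith [hx.1]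
        have habs : |x - t| < e := by
          rw [abs_of_pos hxt]; rw [abs_of_pos (by linarith : 0 < s - t)] at hse
          linarith [hx.2]
        have h6 := hslope x (by linarith [hx.1] : t < x).ne' habs
        rw [lt_div_iff₀ hxt] at h6
        linarith
      have := hmono ⟨le_rfl, hgt.le⟩ ⟨hgt.le, le_rfl⟩ hgt
      rw [hpt] at this; exact this
  have hsq : 0 ≤ c / 4 * (s - t) ^ 2 := by positivity
  have : w s = psi s + c / 4 * (s - t) ^ 2 := by simp [hpsi]
  rw [this]; linarith

/-- The integrating factor `phi = h exp (2 int w)`, `phi' = - eta w^3 exp (2 int w)`. -/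
theorem Sol.exists_phi {k l : ℝ} {U Y w : ℝ → ℝ} (hs : Sol k l U Y w) :
    ∃ E : ℝ → ℝ, (∀ t, 0 < E t) ∧ ∀ t, HasDerivAt
      (fun s => fh k l (U s) (Y s) (w s) * E s) (-(eta k l) * w t ^ 3 * E t) t := by
  have hW : ∀ t, HasDerivAt (fun s => ∫ x in (0:ℝ)..s, w x) (w t) t := fun t =>
    intervalIntegral.integral_hasDerivAt_right (hs.contw.intervalIntegrable _ _)
      (hs.contw.stronglyMeasurableAtFilter _ _) hs.contw.continuousAt
  refine ⟨fun t => Real.exp (2 * ∫ x in (0:ℝ)..t, w x), fun t => Real.exp_pos _, fun t => ?_⟩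
  have h1 := hasDerivAt_h hs t
  have h2 := ((hW t).const_mul 2).exp
  refine (h1.mul h2).congr_deriv ?_
  simp only [fu]; ring

/-- `X` of `Xw` at a contact point. -/
theorem Sol.second_deriv {k l : ℝ} {U Y w : ℝ → ℝ} (hs : Sol k l U Y w) (t : ℝ) :
    HasDerivAt (fun s => Xw k l (U s) (Y s) (w s))
      (2 * XY k l (U t) (Y t) (w t) - 4 * U t * XU k l (U t) (Y t) (w t)
        + 6 * Y t * XY k l (U t) (Y t) (w t)
        - k * (XU k l (U t) (Y t) (w t) * Y t + U t * XY k l (U t) (Y t) (w t))
        + l * (XU k l (U t) (Y t) (w t) * w t + U t * Xw k l (U t) (Y t) (w t))) t := by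
  have h1 := hs.dU t
  have h2 := hs.dY t
  have h3 := hs.dw t
  have h4 := ((((h2.const_mul 2).sub ((h1.pow 2).const_mul 2)).add ((h2.pow 2).const_mul 3)).sub
    ((h1.mul h2).const_mul k)).add ((h1.mul h3).const_mul l)
  refine (h4.congr_deriv ?_).congr_of_eventuallyEq (Eventually.of_forall fun s => ?_)
  · simp only [Nat.cast_ofNat]; ring
  · simp only [Xw, Pi.add_apply, Pi.sub_apply, Pi.mul_apply, Pi.pow_apply]; ring

theorem phi_pos {k l : ℝ} {U Y w : ℝ → ℝ} (hs : Sol k l U Y w) (he : eta k l ≠ 0)
    {a b t : ℝ} (hat : a < t) (htb : t < b) (ha : w a = 0) (hb : w b = 0)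
    (hne : ∀ s ∈ Ioo a b, w s ≠ 0) : 0 < fh k l (U t) (Y t) (w t) := by
  obtain ⟨E, hE, hphi⟩ := hs.exists_phi
  set phi : ℝ → ℝ := fun s => fh k l (U s) (Y s) (w s) * E s with hphid
  have hcont : ContinuousOn phi (Icc a b) := fun x _ => (hphi x).continuousAt.continuousWithinAt
  have hpa : 0 ≤ phi a := by
    simp only [hphid]; rw [h_at_zero ha]; exact mul_nonneg (sq_nonneg _) (hE a).le
  have hpb : 0 ≤ phi b := by
    simp only [hphid]; rw [h_at_zero hb]; exact mul_nonneg (sq_nonneg _) (hE b).le
  have hpt : 0 < phi t := by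
    have hcase : (∀ s ∈ Ioo a b, 0 < -(eta k l) * w s ^ 3) ∨
        (∀ s ∈ Ioo a b, -(eta k l) * w s ^ 3 < 0) := by
      rcases sign_const hs.contw hne with h | h <;> rcases lt_or_gt_of_ne he with h' | h'
      · left; intro s hs'; exact mul_pos (by linarith) (pow_pos (h s hs') 3)
      · right; intro s hs'; exact mul_neg_of_neg_of_pos (by linarith) (pow_pos (h s hs') 3)
      · right; intro s hs'
        have : w s ^ 3 < 0 := by
          have := h s hs'
          exact Odd.pow_neg (by decide) this
        exact mul_neg_of_pos_of_neg (by linarith) this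
      · left; intro s hs'
        have : w s ^ 3 < 0 := by
          have := h s hs'
          exact Odd.pow_neg (by decide) this
        exact mul_pos_of_neg_of_neg (by linarith) this
    rcases hcase with h | h
    · have hmono : StrictMonoOn phi (Icc a b) := by
        apply strictMonoOn_of_deriv_pos (convex_Icc a b) hcont
        intro x hx
        rw [interior_Icc] at hx
        rw [(hphi x).deriv]
        exact mul_pos (h x hx) (hE x)
      exact lt_of_le_of_lt hpa (hmono ⟨le_rfl, (hat.trans htb).le⟩ ⟨hat.le, htb.le⟩ hat)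
    · have hanti : StrictAntiOn phi (Icc a b) := by
        apply strictAntiOn_of_deriv_neg (convex_Icc a b) hcont
        intro x hx
        rw [interior_Icc] at hx
        rw [(hphi x).deriv]
        exact mul_neg_of_neg_of_pos (h x hx) (hE x)
      exact lt_of_le_of_lt hpb (hanti ⟨hat.le, htb.le⟩ ⟨(hat.trans htb).le, le_rfl⟩ htb)
  by_contra hcon
  push Not at hcon
  exact absurd hpt (not_lt.2 (mul_nonpos_of_nonpos_of_nonneg hcon (hE t).le))

/-- **`h > 0` on every closed orbit which meets `w = 0`.** -/
theorem hpos_of_periodic {k l P t0 : ℝ} {U Y w : ℝ → ℝ} (hs : Sol k l U Y w) (hl : l ≠ 0)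
    (he : eta k l ≠ 0) (hP : 0 < P) (per : ∀ t, w (t + P) = w t) (h0 : w t0 = 0) (t : ℝ) :
    0 < fh k l (U t) (Y t) (w t) := by
  have hgen : ∀ s, w s ≠ 0 → 0 < fh k l (U s) (Y s) (w s) := by
    intro s hsn
    obtain ⟨a, b, h1, h2, h3, h4, h5⟩ := exists_zeros_around hs.contw hP per h0 hsn
    exact phi_pos hs he h1 h2 h3 h4 h5
  by_cases hwt : w t = 0
  · -- at a zero
    rw [h_at_zero hwt]
    by_contra hcon
    have hA : 1 - fA k (U t) (Y t) = 0 := by
      by_contra hne
      exact hcon (by positivity)
    -- contact point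
    have hw1 : Xw k l (U t) (Y t) (w t) = 0 := by
      rcases hs.ray hwt with h | h
      · rw [Xw_rayA hwt h, hA]; ring
      · rw [Xw_rayB hwt h, hA]; ring
    have h2 := hs.second_deriv t
    -- the value of the second derivative
    have hval : ∃ c, c ≠ 0 ∧ HasDerivAt (fun s => Xw k l (U s) (Y s) (w s)) c t := by
      refine ⟨_, ?_, h2⟩
      have hU := (hs.pos t)
      rw [hw1]
      simp only [XU, XY, hwt]
      rcases hs.ray hwt with h | h
      · have hk : k * U t = 2 + U t := by
          have : fA k (U t) (Y t) = 1 := by linarith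
          simp only [fA, h] at this; linarith
        rw [h]
        have : (2 * (-0 * (2 + k * U t + 3 * U t) - l * U t * U t) -
              4 * U t * (-2 * 0 * (U t + k * U t) + l * (0 ^ 2 - U t ^ 2)) +
            6 * U t * (-0 * (2 + k * U t + 3 * U t) - l * U t * U t) -
          k * ((-2 * 0 * (U t + k * U t) + l * (0 ^ 2 - U t ^ 2)) * U t +
            U t * (-0 * (2 + k * U t + 3 * U t) - l * U t * U t)) +
          l * ((-2 * 0 * (U t + k * U t) + l * (0 ^ 2 - U t ^ 2)) * 0 + U t * 0))
            = 2 * l * U t ^ 2 := by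
          linear_combination (2 * l * U t ^ 2) * hk
        rw [this]
        positivity
      · have hk : k * U t = 2 - U t := by
          have : fA k (U t) (Y t) = 1 := by linarith
          simp only [fA, h] at this; linarith
        rw [h]
        have : (2 * (-0 * (2 + k * U t + 3 * -U t) - l * U t * -U t) -
              4 * U t * (-2 * 0 * (U t + k * -U t) + l * (0 ^ 2 - (-U t) ^ 2)) +
            6 * -U t * (-0 * (2 + k * U t + 3 * -U t) - l * U t * -U t) -
          k * ((-2 * 0 * (U t + k * -U t) + l * (0 ^ 2 - (-U t) ^ 2)) * -U t +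
            U t * (-0 * (2 + k * U t + 3 * -U t) - l * U t * -U t)) +
          l * ((-2 * 0 * (U t + k * -U t) + l * (0 ^ 2 - (-U t) ^ 2)) * 0 + U t * 0))
            = -(2 * l * U t ^ 2) := by
          linear_combination (-2 * l * U t ^ 2) * hk
        rw [this]
        exact neg_ne_zero.2 (by positivity)
    obtain ⟨c, hc, hcd⟩ := hval
    -- `w` has a constant strict sign on a punctured neighbourhood
    obtain ⟨e, he0, hsgn⟩ : ∃ e > 0, (∀ s, s ≠ t → |s - t| < e → 0 < w s) ∨
        (∀ s, s ≠ t → |s - t| < e → w s < 0) := by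
      rcases lt_or_gt_of_ne hc with h | h
      · obtain ⟨e, he0, h3⟩ := eventually_pos_of_second (w := fun s => -w s)
          (w1 := fun s => -Xw k l (U s) (Y s) (w s)) (c := -c) (t := t)
          (fun s => (hs.dw s).neg) (by simp [hwt]) (by simp [hw1]) hcd.neg (by linarith)
        exact ⟨e, he0, Or.inr fun s h4 h5 => by have := h3 s h4 h5; linarith⟩
      · obtain ⟨e, he0, h3⟩ := eventually_pos_of_second (w := w)
          (w1 := fun s => Xw k l (U s) (Y s) (w s)) (c := c) (t := t)
          (fun s => hs.dw s) hwt hw1 hcd h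
        exact ⟨e, he0, Or.inl h3⟩
    obtain ⟨E, hE, hphi⟩ := hs.exists_phi
    set phi : ℝ → ℝ := fun s => fh k l (U s) (Y s) (w s) * E s with hphid
    have hpt : phi t = 0 := by
      simp only [hphid]; rw [h_at_zero hwt, hA]; ring
    -- derivative has constant strict sign on both sides
    have hcase : (∀ s, s ≠ t → |s - t| < e → 0 < -(eta k l) * w s ^ 3) ∨
        (∀ s, s ≠ t → |s - t| < e → -(eta k l) * w s ^ 3 < 0) := by
      rcases hsgn with h | h <;> rcases lt_or_gt_of_ne he with h' | h'
      · left; intro s h4 h5; exact mul_pos (by linarith) (pow_pos (h s h4 h5) 3)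
      · right; intro s h4 h5; exact mul_neg_of_neg_of_pos (by linarith) (pow_pos (h s h4 h5) 3)
      · right; intro s h4 h5
        have : w s ^ 3 < 0 := Odd.pow_neg (by decide) (h s h4 h5)
        exact mul_neg_of_pos_of_neg (by linarith) this
      · left; intro s h4 h5
        have : w s ^ 3 < 0 := Odd.pow_neg (by decide) (h s h4 h5)
        exact mul_pos_of_neg_of_neg (by linarith) this
    have hneg : ∃ s, w s ≠ 0 ∧ phi s < 0 := by
      rcases hcase with h | h
      · -- increasing : negative on the left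
        have hmono : StrictMonoOn phi (Icc (t - e / 2) t) := by
          apply strictMonoOn_of_deriv_pos (convex_Icc _ _)
            (fun x _ => (hphi x).continuousAt.continuousWithinAt)
          intro x hx
          rw [interior_Icc] at hx
          rw [(hphi x).deriv]
          refine mul_pos (h x hx.2.ne ?_) (hE x)
          rw [abs_of_neg (by linarith [hx.2])]; linarith [hx.1]
        refine ⟨t - e / 2, ?_, ?_⟩
        · have hab : |t - e / 2 - t| < e := by
            rw [abs_of_neg (by linarith)]; linarith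
          rcases hsgn with h' | h'
          · exact (h' _ (by linarith) hab).ne'
          · exact (h' _ (by linarith) hab).ne
        · have := hmono ⟨le_rfl, by linarith⟩ ⟨by linarith, le_rfl⟩ (by linarith : t - e / 2 < t)
          rw [hpt] at this; exact this
      · have hanti : StrictAntiOn phi (Icc t (t + e / 2)) := by
          apply strictAntiOn_of_deriv_neg (convex_Icc _ _)
            (fun x _ => (hphi x).continuousAt.continuousWithinAt)
          intro x hx
          rw [interior_Icc] at hx
          rw [(hphi x).deriv]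
          refine mul_neg_of_neg_of_pos (h x hx.1.ne' ?_) (hE x)
          rw [abs_of_pos (by linarith [hx.1])]; linarith [hx.2]
        refine ⟨t + e / 2, ?_, ?_⟩
        · have hab : |t + e / 2 - t| < e := by
            rw [abs_of_pos (by linarith)]; linarith
          rcases hsgn with h' | h'
          · exact (h' _ (by linarith) hab).ne'
          · exact (h' _ (by linarith) hab).ne
        · have := hanti ⟨le_rfl, by linarith⟩ ⟨by linarith, le_rfl⟩ (by linarith : t < t + e / 2)
          rw [hpt] at this; exact this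
    obtain ⟨s, hsn, hsphi⟩ := hneg
    have h6 := hgen s hsn
    exact absurd (mul_pos h6 (hE s)) (not_lt.2 hsphi.le)
  · exact hgen t hwt

end B92
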