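import Mathlib
import Pool.Agent.Lib.B92.Defs
import Pool.Agent.Lib.B92.Alg
import Pool.Agent.Lib.B92.Chain
import Pool.Agent.Lib.B92.Arc
import Pool.Agent.Lib.B92.HPos

/-! From the comparison of arcs to no periodic orbit on which `w` changes sign. -/

open Set Filter Topology

noncomputable section

namespace B92

theorem exists_zero_of_signs {w : ℝ → ℝ} (hw : Continuous w) (hneg : ∃ t, w t < 0)
    (hpos : ∃ t, 0 < w t) : ∃ t, w t = 0 := by
  obtain ⟨a, ha⟩ := hneg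
  obtain ⟨b, hb⟩ := hpos
  have := (isPreconnected_univ (α := ℝ)).intermediate_value (mem_univ a) (mem_univ b)
    hw.continuousOn (show (0:ℝ) ∈ Icc (w a) (w b) from ⟨ha.le, hb.le⟩)
  obtain ⟨t, -, ht⟩ := this
  exact ⟨t, ht⟩

/-- The zero before a transversal zero. -/
theorem exists_prev_arc {w wd : ℝ → ℝ} {P t0 : ℝ} (hw : ∀ t, HasDerivAt w (wd t) t)
    (hP : 0 < P) (per : ∀ t, w (t + P) = w t) (hz : wd t0 ≠ 0) (h0 : w t0 = 0) :
    ∃ a, a < t0 ∧ w a = 0 ∧ ∀ s ∈ Ioo a t0, w s ≠ 0 := by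
  have hc : Continuous w := continuous_iff_continuousAt.2 fun t => (hw t).continuousAt
  have hiso : ∀ᶠ s in 𝓝[<] t0, w s ≠ 0 :=
    ((hw t0).eventually_ne hz).filter_mono (nhdsWithin_mono _ (fun s hs => ne_of_lt hs))
  have hz2 : w (t0 - P) = 0 := by
    have := per (t0 - P); rw [sub_add_cancel] at this; rw [← this, h0]
  obtain ⟨b, _, hb2, hb3, hb4⟩ := exists_prev_zero hc (by linarith : t0 - P < t0) hz2 hiso
  exact ⟨b, hb2, hb3, hb4⟩

/-- **Assembly, common exit.** -/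
theorem no_orbit_exit {k l : ℝ} (hl : 0 < l) (he : eta k l ≠ 0)
    (Good : ℝ → ℝ → Prop) (Psi : ℝ → ℝ → ℝ)
    (H1 : ∀ (U Y w : ℝ → ℝ) (a b : ℝ), Arc k (-l) U Y w a b → Good (U a) (Y a))
    (Hc : ∀ (U Y w : ℝ → ℝ) (a b : ℝ) (U' Y' w' : ℝ → ℝ) (a' b' : ℝ),
      Arc k l U Y w a b → Arc k (-l) U' Y' w' a' b' → U b = U' b' → Y b = Y' b' →
      Good (U a) (Y a) → Good (U' a') (Y' a') → Psi (U a) (Y a) < Psi (U' a') (Y' a'))
    {U Y w : ℝ → ℝ} {P : ℝ} (hs : Sol k l U Y w) (hP : 0 < P)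
    (pU : ∀ t, U (t + P) = U t) (pY : ∀ t, Y (t + P) = Y t) (pw : ∀ t, w (t + P) = w t)
    (hneg : ∃ t, w t < 0) (hpos : ∃ t, 0 < w t) : False := by
  obtain ⟨z, hz⟩ := exists_zero_of_signs hs.contw hneg hpos
  have hh : ∀ t, 0 < fh k l (U t) (Y t) (w t) :=
    hpos_of_periodic hs hl.ne' he hP pw hz
  have htr : ∀ t, w t = 0 → Xw k l (U t) (Y t) (w t) ≠ 0 := fun t h0 => hs.transversal h0 (hh t)
  have hgood : ∀ t, w t = 0 → 0 < Xw k l (U t) (Y t) (w t) → Good (U t) (Y t) := by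
    intro t ht htd
    obtain ⟨a, hat, ha0, hne⟩ := exists_prev_arc hs.dw hP pw htd.ne' ht
    have hn : ∀ s ∈ Ioo a t, w s < 0 := by
      rcases sign_const hs.contw hne with h | h
      · exact absurd htd (not_lt.2 (deriv_nonpos_of_pos_left hat (hs.dw t) ht h))
      · exact h
    have harc := hs.arc_of_neg hat ha0 ht hn hh
    have := H1 _ _ _ _ _ harc
    simpa using this
  -- an entrance
  obtain ⟨s, hsn⟩ := hneg
  obtain ⟨a, b, h1, h2, h3, h4, h5⟩ := exists_zeros_around hs.contw hP pw hz hsn.ne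
  have hn : ∀ x ∈ Ioo a b, w x < 0 := by
    rcases sign_const hs.contw h5 with h | h
    · exact absurd hsn (not_lt.2 (h s ⟨h1, h2⟩).le)
    · exact h
  have hbd : 0 ≤ Xw k l (U b) (Y b) (w b) :=
    deriv_nonneg_of_neg_left (h1.trans h2) (hs.dw b) h4 hn
  have hbd' : 0 < Xw k l (U b) (Y b) (w b) := lt_of_le_of_ne hbd (Ne.symm (htr b h4))
  refine chain (w := w) (wd := fun t => Xw k l (U t) (Y t) (w t))
    (E := fun t => Psi (U t) (Y t)) hP hs.dw pw ?_ ?_ htr ?_ h4 hbd'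
  · intro t; simp only [pU, pY, pw]
  · intro t; simp only [pU, pY]
  · intro t1 t2 t3 h12 h23 hz1 hz2 hz3 hp hn'
    have harc : Arc k l U Y w t1 t2 := ⟨hs, h12, hz1, hz2, hp, fun t _ => hh t⟩
    have harc' := hs.arc_of_neg h23 hz2 hz3 hn' hh
    have h1d : 0 ≤ Xw k l (U t1) (Y t1) (w t1) := deriv_nonneg_of_pos_right h12 (hs.dw t1) hz1 hp
    have h1d' : 0 < Xw k l (U t1) (Y t1) (w t1) := lt_of_le_of_ne h1d (Ne.symm (htr t1 hz1))
    have hg3 := H1 _ _ _ _ _ harc'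
    have := Hc _ _ _ _ _ _ _ _ _ _ harc harc' (by simp) (by simp) (hgood t1 hz1 h1d') hg3
    simpa using this

/-- **Assembly, common entrance.** -/
theorem no_orbit_entrance {k l : ℝ} (hl : 0 < l) (he : eta k l ≠ 0)
    (Good : ℝ → ℝ → Prop) (Psi : ℝ → ℝ → ℝ)
    (H1 : ∀ (U Y w : ℝ → ℝ) (a b : ℝ), Arc k (-l) U Y w a b → Good (U b) (Y b))
    (Hc : ∀ (U Y w : ℝ → ℝ) (a b : ℝ) (U' Y' w' : ℝ → ℝ) (a' b' : ℝ),
      Arc k l U Y w a b → Arc k (-l) U' Y' w' a' b' → U a = U' a' → Y a = Y' a' →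
      Good (U b) (Y b) → Good (U' b') (Y' b') → Psi (U b) (Y b) < Psi (U' b') (Y' b'))
    {U Y w : ℝ → ℝ} {P : ℝ} (hs : Sol k l U Y w) (hP : 0 < P)
    (pU : ∀ t, U (t + P) = U t) (pY : ∀ t, Y (t + P) = Y t) (pw : ∀ t, w (t + P) = w t)
    (hneg : ∃ t, w t < 0) (hpos : ∃ t, 0 < w t) : False := by
  obtain ⟨z, hz⟩ := exists_zero_of_signs hs.contw hneg hpos
  have hh : ∀ t, 0 < fh k l (U t) (Y t) (w t) :=
    hpos_of_periodic hs hl.ne' he hP pw hz
  have htr : ∀ t, w t = 0 → Xw k l (U t) (Y t) (w t) ≠ 0 := fun t h0 => hs.transversal h0 (hh t)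
  have hdn : ∀ t, HasDerivAt (fun s => -w s) (-Xw k l (U t) (Y t) (w t)) t :=
    fun t => (hs.dw t).neg
  have pwn : ∀ t, -w (t + P) = -w t := fun t => by rw [pw]
  -- an exit
  obtain ⟨s, hsp⟩ := hpos
  obtain ⟨a, b, h1, h2, h3, h4, h5⟩ := exists_zeros_around hs.contw hP pw hz hsp.ne'
  have hp : ∀ x ∈ Ioo a b, 0 < w x := by
    rcases sign_const hs.contw h5 with h | h
    · exact h
    · exact absurd hsp (not_lt.2 (h s ⟨h1, h2⟩).le)
  have hbd : Xw k l (U b) (Y b) (w b) ≤ 0 :=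
    deriv_nonpos_of_pos_left (h1.trans h2) (hs.dw b) h4 hp
  have hbd' : Xw k l (U b) (Y b) (w b) < 0 := lt_of_le_of_ne hbd (htr b h4)
  refine chain (w := fun t => -w t) (wd := fun t => -Xw k l (U t) (Y t) (w t))
    (E := fun t => -Psi (U t) (Y t)) hP hdn pwn ?_ ?_ ?_ ?_ (t0 := b) (by simp [h4])
    (by linarith)
  · intro t; simp only [pU, pY, pw]
  · intro t; simp only [pU, pY]
  · intro t ht; exact neg_ne_zero.2 (htr t (by simpa using ht))
  · intro t1 t2 t3 h12 h23 hz1 hz2 hz3 hn' hp'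
    have hz1' : w t1 = 0 := by simpa using hz1
    have hz2' : w t2 = 0 := by simpa using hz2
    have hz3' : w t3 = 0 := by simpa using hz3
    have harc : Arc k l U Y w t2 t3 :=
      ⟨hs, h23, hz2', hz3', fun t ht => by simpa using hp' t ht, fun t _ => hh t⟩
    have harc' := hs.arc_of_neg h12 hz1' hz2' (fun t ht => by simpa using hn' t ht) hh
    have hg1 := H1 _ _ _ _ _ harc'
    -- goodness of the exit `t3` : it is the exit of the next mirrored arc
    have h3d : Xw k l (U t3) (Y t3) (w t3) ≤ 0 :=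
      deriv_nonpos_of_pos_left h23 (hs.dw t3) hz3' (fun t ht => by simpa using hp' t ht)
    have h3d' : Xw k l (U t3) (Y t3) (w t3) < 0 := lt_of_le_of_ne h3d (htr t3 hz3')
    have hg3 : Good (U t3) (Y t3) := by
      -- next zero after `t3`, by reversing time
      have hd2 : ∀ t, HasDerivAt (fun s => w (-s)) (-Xw k l (U (-t)) (Y (-t)) (w (-t))) t := by
        intro t
        have h6 := HasDerivAt.comp t (hs.dw (-t)) (hasDerivAt_neg t)
        refine h6.congr_deriv ?_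
        ring
      have pw2 : ∀ t, w (-(t + P)) = w (-t) := by
        intro t
        have := pw (-(t + P))
        rw [← this]; congr 1; ring
      obtain ⟨c, hc1, hc2, hc3⟩ := exists_prev_arc (w := fun s => w (-s)) (t0 := -t3) hd2 hP pw2
        (by simpa using h3d'.ne) (by simpa using hz3')
      have hc2' : w (-c) = 0 := hc2
      have hlt : t3 < -c := by linarith
      have hne : ∀ s ∈ Ioo t3 (-c), w s ≠ 0 := by
        intro s hs'
        have := hc3 (-s) ⟨by linarith [hs'.2], by linarith [hs'.1]⟩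
        simpa using this
      have hn3 : ∀ s ∈ Ioo t3 (-c), w s < 0 := by
        rcases sign_const hs.contw hne with h | h
        · exact absurd h3d' (not_lt.2 (deriv_nonneg_of_pos_right hlt (hs.dw t3) hz3' h))
        · exact h
      have harc3 := hs.arc_of_neg hlt hz3' hc2' hn3 hh
      have := H1 _ _ _ _ _ harc3
      simpa using this
    have := Hc _ _ _ _ _ _ _ _ _ _ harc harc' (by simp) (by simp) hg3 hg1
    simp only [neg_neg] at this
    linarith

end B92
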