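import Mathlib

/-!
# MP_b92fc8_an: definitions for the statement

Planar systems `(S)`:  `x' = lam x + y + p(x,y)`, `y' = -x + lam y + q(x,y)` with `p`, `q`
homogeneous polynomials of degree `3`.
-/

set_option autoImplicit false

open MvPolynomial

namespace B92

/-- First component of the field of system `(S)`, as a polynomial in `x = X 0`, `y = X 1`. -/
noncomputable def fieldX (lam : ℝ) (p : MvPolynomial (Fin 2) ℝ) : MvPolynomial (Fin 2) ℝ :=
  C lam * X 0 + X 1 + p

/-- Second component of the field of system `(S)`, as a polynomial. -/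
noncomputable def fieldY (lam : ℝ) (q : MvPolynomial (Fin 2) ℝ) : MvPolynomial (Fin 2) ℝ :=
  -X 0 + C lam * X 1 + q

/-- The rate of change of a polynomial `V` along the orbits of `(S)`. -/
noncomputable def orbitalDerivative (lam : ℝ) (p q V : MvPolynomial (Fin 2) ℝ) :
    MvPolynomial (Fin 2) ℝ :=
  pderiv 0 V * fieldX lam p + pderiv 1 V * fieldY lam q

/-- `f` has no terms of total degree less than `n`. -/
def OrderGE (n : ℕ) (f : MvPolynomial (Fin 2) ℝ) : Prop :=
  ∀ m ∈ f.support, n ≤ m.degree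

/-- The origin is a *fine focus of order `k`* of `(S)`: there are a polynomial
`V = x² + y² + (terms of degree ≥ 3)` and a number `c ≠ 0` (the first nonvanishing focal
value `η_{2k+2}`, i.e. the Liapunov quantity `L(k)`) such that the rate of change of `V`
along the orbits of `(S)` is `c (x² + y²)^(k+1) + (terms of degree ≥ 2k+3)`; in other words
`L(0) = ... = L(k-1) = 0` and `L(k) ≠ 0`. -/
def IsFineFocus (lam : ℝ) (p q : MvPolynomial (Fin 2) ℝ) (k : ℕ) : Prop :=
  ∃ (V : MvPolynomial (Fin 2) ℝ) (c : ℝ), c ≠ 0 ∧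
    OrderGE 3 (V - (X 0 ^ 2 + X 1 ^ 2)) ∧
    OrderGE (2 * k + 3)
      (orbitalDerivative lam p q V - C c * (X 0 ^ 2 + X 1 ^ 2) ^ (k + 1))

/-- `(x, y)` is a solution of `(S)` defined for all times. -/
def IsSolution (lam : ℝ) (p q : MvPolynomial (Fin 2) ℝ) (x y : ℝ → ℝ) : Prop :=
  ∀ t : ℝ, HasDerivAt x (lam * x t + y t + eval ![x t, y t] p) t ∧
    HasDerivAt y (-x t + lam * y t + eval ![x t, y t] q) t

/-- `G` is a periodic orbit of `(S)`: the trajectory of a nonconstant periodic solution. -/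
def IsPeriodicOrbit (lam : ℝ) (p q : MvPolynomial (Fin 2) ℝ) (G : Set (ℝ × ℝ)) : Prop :=
  ∃ x y : ℝ → ℝ, IsSolution lam p q x y ∧
    (∃ T : ℝ, 0 < T ∧ ∀ t, x (t + T) = x t ∧ y (t + T) = y t) ∧
    (∃ t, (x t, y t) ≠ (x 0, y 0)) ∧
    G = Set.range fun t => (x t, y t)

/-- `G` is a limit cycle of `(S)`: a periodic orbit which is isolated among the periodic
orbits, i.e. which has a neighbourhood containing no other periodic orbit. -/
def IsLimitCycle (lam : ℝ) (p q : MvPolynomial (Fin 2) ℝ) (G : Set (ℝ × ℝ)) : Prop :=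
  IsPeriodicOrbit lam p q G ∧
    ∃ U : Set (ℝ × ℝ), IsOpen U ∧ G ⊆ U ∧
      ∀ G' : Set (ℝ × ℝ), IsPeriodicOrbit lam p q G' → G' ⊆ U → G' = G

end B92
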