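import Mathlib

/-!
# MP_b92fc8_an, module Rec: the recursion for the coefficients of a Liapunov function

Field `z' = -i z + A z³ + B z² z̄ + C z z̄² + D z̄³` (`A' B' C' D'` play the role of the complex
conjugates), `V = ∑ v̂ j k z^j z̄^k`, `V' = ∑ η̂ j k z^j z̄^k`; here `v j k = i^((j+k)/2-1) v̂ j k`
and `η j k = i^((j+k)/2-2) η̂ j k` (only `j + k` even matters), which removes `i` from the
recursion.
-/

set_option autoImplicit false
set_option linter.unusedSimpArgs false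

namespace B92

/-- The recursion satisfied (in even total degree at most `12`) by the coefficients of a
polynomial `V` and of its orbital derivative. -/
def FocRec (A A' B B' C C' D D' : ℂ) (v η : ℤ → ℤ → ℂ) : Prop :=
  ∀ j k : ℤ, 0 ≤ j → 0 ≤ k → j + k ≤ 12 → Even (j + k) →
    ((j : ℂ) - (k : ℂ)) * v j k =
      (A * ((j : ℂ) - 2) + C' * (k : ℂ)) * v (j - 2) k
        + (B * ((j : ℂ) - 1) + B' * ((k : ℂ) - 1)) * v (j - 1) (k - 1)
        + (C * (j : ℂ) + A' * ((k : ℂ) - 2)) * v j (k - 2)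
        + D * ((j : ℂ) + 1) * v (j + 1) (k - 3)
        + D' * ((k : ℂ) + 1) * v (j - 3) (k + 1) - η j k

/-- Normalisation: `v` vanishes for negative indices and starts with `z z̄`; the orbital
derivative is `c (z z̄)^6` up to degree `12`. -/
structure FocNorm (v η : ℤ → ℤ → ℂ) (c : ℂ) : Prop where
  neg₁ : ∀ j k : ℤ, j < 0 → v j k = 0
  neg₂ : ∀ j k : ℤ, k < 0 → v j k = 0
  v11 : v 1 1 = 1
  v20 : v 2 0 = 0
  v02 : v 0 2 = 0
  η0 : ∀ j k : ℤ, 0 ≤ j → 0 ≤ k → j + k ≤ 12 → ¬ (j = 6 ∧ k = 6) → η j k = 0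
  η66 : η 6 6 = c

section

variable {A A' B B' C C' D D' c : ℂ} {v η : ℤ → ℤ → ℂ}

/-- Solving one equation of the recursion for an off-diagonal coefficient. -/
theorem solve_off (h : FocRec A A' B B' C C' D D' v η) (hn : FocNorm v η c)
    (j k : ℤ) (hj : 0 ≤ j) (hk : 0 ≤ k) (hs : j + k ≤ 11) (he : Even (j + k))
    (hjk : (j : ℂ) - k ≠ 0) :
    v j k = (1 / ((j : ℂ) - k)) *
      ((A * ((j : ℂ) - 2) + C' * (k : ℂ)) * v (j - 2) k
        + (B * ((j : ℂ) - 1) + B' * ((k : ℂ) - 1)) * v (j - 1) (k - 1)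
        + (C * (j : ℂ) + A' * ((k : ℂ) - 2)) * v j (k - 2)
        + D * ((j : ℂ) + 1) * v (j + 1) (k - 3)
        + D' * ((k : ℂ) + 1) * v (j - 3) (k + 1)) := by
  have h0 := h j k hj hk (by linarith) he
  have h1 : η j k = 0 := hn.η0 j k hj hk (by linarith) (by rintro ⟨rfl, rfl⟩; norm_num at hs)
  rw [h1, sub_zero] at h0
  rw [← h0]
  field_simp

/-- First focal value. -/
theorem foc1 (h : FocRec A A' B B' C C' D D' v η) (hn : FocNorm v η c) : B' = -B := by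
  have h0 := h 2 2 (by norm_num) (by norm_num) (by norm_num) (by decide)
  have h1 : η 2 2 = 0 := hn.η0 2 2 (by norm_num) (by norm_num) (by norm_num) (by norm_num)
  have h2 : v 3 (-1) = 0 := hn.neg₂ _ _ (by norm_num)
  have h3 : v (-1) 3 = 0 := hn.neg₁ _ _ (by norm_num)
  norm_num [h1, h2, h3, hn.v11, hn.v20, hn.v02] at h0
  linear_combination (-1 : ℂ) * h0

theorem e4_0 (h : FocRec A A' B B' C C' D D' v η) (hn : FocNorm v η c) :
    v 4 0 = (1 / (4)) * ((D'*1)*1) := by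
  have h0 := solve_off h hn 4 0 (by norm_num) (by norm_num) (by norm_num) (by decide) (by norm_num)
  have hneg : v (3) (-1) = 0 ∧ v (4) (-2) = 0 ∧ v (5) (-3) = 0 := ⟨hn.neg₂ (3) (-1) (by norm_num), hn.neg₂ (4) (-2) (by norm_num), hn.neg₂ (5) (-3) (by norm_num)⟩
  norm_num [hneg, hn.v11, hn.v20, hn.v02] at h0
  linear_combination h0

theorem e3_1 (h : FocRec A A' B B' C C' D D' v η) (hn : FocNorm v η c) :
    v 3 1 = (1 / (2)) * ((A*1+C'*1)*1) := by
  have h0 := solve_off h hn 3 1 (by norm_num) (by norm_num) (by norm_num) (by decide) (by norm_num)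
  have hneg : v (3) (-1) = 0 ∧ v (4) (-2) = 0 := ⟨hn.neg₂ (3) (-1) (by norm_num), hn.neg₂ (4) (-2) (by norm_num)⟩
  norm_num [hneg, hn.v11, hn.v20, hn.v02] at h0
  linear_combination h0

theorem e1_3 (h : FocRec A A' B B' C C' D D' v η) (hn : FocNorm v η c) :
    v 1 3 = (1 / (-2)) * ((C*1+A'*1)*1) := by
  have h0 := solve_off h hn 1 3 (by norm_num) (by norm_num) (by norm_num) (by decide) (by norm_num)
  have hneg : v (-1) (3) = 0 ∧ v (-2) (4) = 0 := ⟨hn.neg₁ (-1) (3) (by norm_num), hn.neg₁ (-2) (4) (by norm_num)⟩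
  norm_num [hneg, hn.v11, hn.v20, hn.v02] at h0
  linear_combination h0

theorem e0_4 (h : FocRec A A' B B' C C' D D' v η) (hn : FocNorm v η c) :
    v 0 4 = (1 / (-4)) * ((D*1)*1) := by
  have h0 := solve_off h hn 0 4 (by norm_num) (by norm_num) (by norm_num) (by decide) (by norm_num)
  have hneg : v (-2) (4) = 0 ∧ v (-1) (3) = 0 ∧ v (-3) (5) = 0 := ⟨hn.neg₁ (-2) (4) (by norm_num), hn.neg₁ (-1) (3) (by norm_num), hn.neg₁ (-3) (5) (by norm_num)⟩
  norm_num [hneg, hn.v11, hn.v20, hn.v02] at h0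
  linear_combination h0

theorem e6_0 (h : FocRec A A' B B' C C' D D' v η) (hn : FocNorm v η c) :
    v 6 0 = (1 / (6)) * ((A*4)*v 4 0 + (D'*1)*v 3 1) := by
  have h0 := solve_off h hn 6 0 (by norm_num) (by norm_num) (by norm_num) (by decide) (by norm_num)
  have hneg : v (5) (-1) = 0 ∧ v (6) (-2) = 0 ∧ v (7) (-3) = 0 := ⟨hn.neg₂ (5) (-1) (by norm_num), hn.neg₂ (6) (-2) (by norm_num), hn.neg₂ (7) (-3) (by norm_num)⟩
  norm_num [hneg, hn.v11, hn.v20, hn.v02] at h0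
  linear_combination h0

theorem e5_1 (h : FocRec A A' B B' C C' D D' v η) (hn : FocNorm v η c) :
    v 5 1 = (1 / (4)) * ((A*3+C'*1)*v 3 1 + (B*4)*v 4 0 + (D'*2)*v 2 2) := by
  have h0 := solve_off h hn 5 1 (by norm_num) (by norm_num) (by norm_num) (by decide) (by norm_num)
  have hneg : v (5) (-1) = 0 ∧ v (6) (-2) = 0 := ⟨hn.neg₂ (5) (-1) (by norm_num), hn.neg₂ (6) (-2) (by norm_num)⟩
  norm_num [hneg, hn.v11, hn.v20, hn.v02] at h0
  linear_combination h0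

theorem e4_2 (h : FocRec A A' B B' C C' D D' v η) (hn : FocNorm v η c) :
    v 4 2 = (1 / (2)) * ((A*2+C'*2)*v 2 2 + (B*3+B'*1)*v 3 1 + (C*4)*v 4 0 + (D'*3)*v 1 3) := by
  have h0 := solve_off h hn 4 2 (by norm_num) (by norm_num) (by norm_num) (by decide) (by norm_num)
  have hneg : v (5) (-1) = 0 := hn.neg₂ (5) (-1) (by norm_num)
  norm_num [hneg, hn.v11, hn.v20, hn.v02] at h0
  linear_combination h0

theorem e2_4 (h : FocRec A A' B B' C C' D D' v η) (hn : FocNorm v η c) :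
    v 2 4 = (1 / (-2)) * ((C'*4)*v 0 4 + (B*1+B'*3)*v 1 3 + (C*2+A'*2)*v 2 2 + (D*3)*v 3 1) := by
  have h0 := solve_off h hn 2 4 (by norm_num) (by norm_num) (by norm_num) (by decide) (by norm_num)
  have hneg : v (-1) (5) = 0 := hn.neg₁ (-1) (5) (by norm_num)
  norm_num [hneg, hn.v11, hn.v20, hn.v02] at h0
  linear_combination h0

theorem e1_5 (h : FocRec A A' B B' C C' D D' v η) (hn : FocNorm v η c) :
    v 1 5 = (1 / (-4)) * ((B'*4)*v 0 4 + (C*1+A'*3)*v 1 3 + (D*2)*v 2 2) := by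
  have h0 := solve_off h hn 1 5 (by norm_num) (by norm_num) (by norm_num) (by decide) (by norm_num)
  have hneg : v (-1) (5) = 0 ∧ v (-2) (6) = 0 := ⟨hn.neg₁ (-1) (5) (by norm_num), hn.neg₁ (-2) (6) (by norm_num)⟩
  norm_num [hneg, hn.v11, hn.v20, hn.v02] at h0
  linear_combination h0

theorem e0_6 (h : FocRec A A' B B' C C' D D' v η) (hn : FocNorm v η c) :
    v 0 6 = (1 / (-6)) * ((A'*4)*v 0 4 + (D*1)*v 1 3) := by
  have h0 := solve_off h hn 0 6 (by norm_num) (by norm_num) (by norm_num) (by decide) (by norm_num)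
  have hneg : v (-2) (6) = 0 ∧ v (-1) (5) = 0 ∧ v (-3) (7) = 0 := ⟨hn.neg₁ (-2) (6) (by norm_num), hn.neg₁ (-1) (5) (by norm_num), hn.neg₁ (-3) (7) (by norm_num)⟩
  norm_num [hneg, hn.v11, hn.v20, hn.v02] at h0
  linear_combination h0

theorem e8_0 (h : FocRec A A' B B' C C' D D' v η) (hn : FocNorm v η c) :
    v 8 0 = (1 / (8)) * ((A*6)*v 6 0 + (D'*1)*v 5 1) := by
  have h0 := solve_off h hn 8 0 (by norm_num) (by norm_num) (by norm_num) (by decide) (by norm_num)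
  have hneg : v (7) (-1) = 0 ∧ v (8) (-2) = 0 ∧ v (9) (-3) = 0 := ⟨hn.neg₂ (7) (-1) (by norm_num), hn.neg₂ (8) (-2) (by norm_num), hn.neg₂ (9) (-3) (by norm_num)⟩
  norm_num [hneg, hn.v11, hn.v20, hn.v02] at h0
  linear_combination h0

theorem e7_1 (h : FocRec A A' B B' C C' D D' v η) (hn : FocNorm v η c) :
    v 7 1 = (1 / (6)) * ((A*5+C'*1)*v 5 1 + (B*6)*v 6 0 + (D'*2)*v 4 2) := by
  have h0 := solve_off h hn 7 1 (by norm_num) (by norm_num) (by norm_num) (by decide) (by norm_num)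
  have hneg : v (7) (-1) = 0 ∧ v (8) (-2) = 0 := ⟨hn.neg₂ (7) (-1) (by norm_num), hn.neg₂ (8) (-2) (by norm_num)⟩
  norm_num [hneg, hn.v11, hn.v20, hn.v02] at h0
  linear_combination h0

theorem e6_2 (h : FocRec A A' B B' C C' D D' v η) (hn : FocNorm v η c) :
    v 6 2 = (1 / (4)) * ((A*4+C'*2)*v 4 2 + (B*5+B'*1)*v 5 1 + (C*6)*v 6 0 + (D'*3)*v 3 3) := by
  have h0 := solve_off h hn 6 2 (by norm_num) (by norm_num) (by norm_num) (by decide) (by norm_num)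
  have hneg : v (7) (-1) = 0 := hn.neg₂ (7) (-1) (by norm_num)
  norm_num [hneg, hn.v11, hn.v20, hn.v02] at h0
  linear_combination h0

theorem e5_3 (h : FocRec A A' B B' C C' D D' v η) (hn : FocNorm v η c) :
    v 5 3 = (1 / (2)) * ((A*3+C'*3)*v 3 3 + (B*4+B'*2)*v 4 2 + (C*5+A'*1)*v 5 1 + (D*6)*v 6 0 + (D'*4)*v 2 4) := by
  have h0 := solve_off h hn 5 3 (by norm_num) (by norm_num) (by norm_num) (by decide) (by norm_num)
  norm_num [hn.v11, hn.v20, hn.v02] at h0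
  linear_combination h0

theorem e3_5 (h : FocRec A A' B B' C C' D D' v η) (hn : FocNorm v η c) :
    v 3 5 = (1 / (-2)) * ((A*1+C'*5)*v 1 5 + (B*2+B'*4)*v 2 4 + (C*3+A'*3)*v 3 3 + (D*4)*v 4 2 + (D'*6)*v 0 6) := by
  have h0 := solve_off h hn 3 5 (by norm_num) (by norm_num) (by norm_num) (by decide) (by norm_num)
  norm_num [hn.v11, hn.v20, hn.v02] at h0
  linear_combination h0

theorem e2_6 (h : FocRec A A' B B' C C' D D' v η) (hn : FocNorm v η c) :
    v 2 6 = (1 / (-4)) * ((C'*6)*v 0 6 + (B*1+B'*5)*v 1 5 + (C*2+A'*4)*v 2 4 + (D*3)*v 3 3) := by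
  have h0 := solve_off h hn 2 6 (by norm_num) (by norm_num) (by norm_num) (by decide) (by norm_num)
  have hneg : v (-1) (7) = 0 := hn.neg₁ (-1) (7) (by norm_num)
  norm_num [hneg, hn.v11, hn.v20, hn.v02] at h0
  linear_combination h0

theorem e1_7 (h : FocRec A A' B B' C C' D D' v η) (hn : FocNorm v η c) :
    v 1 7 = (1 / (-6)) * ((B'*6)*v 0 6 + (C*1+A'*5)*v 1 5 + (D*2)*v 2 4) := by
  have h0 := solve_off h hn 1 7 (by norm_num) (by norm_num) (by norm_num) (by decide) (by norm_num)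
  have hneg : v (-1) (7) = 0 ∧ v (-2) (8) = 0 := ⟨hn.neg₁ (-1) (7) (by norm_num), hn.neg₁ (-2) (8) (by norm_num)⟩
  norm_num [hneg, hn.v11, hn.v20, hn.v02] at h0
  linear_combination h0

theorem e0_8 (h : FocRec A A' B B' C C' D D' v η) (hn : FocNorm v η c) :
    v 0 8 = (1 / (-8)) * ((A'*6)*v 0 6 + (D*1)*v 1 5) := by
  have h0 := solve_off h hn 0 8 (by norm_num) (by norm_num) (by norm_num) (by decide) (by norm_num)
  have hneg : v (-2) (8) = 0 ∧ v (-1) (7) = 0 ∧ v (-3) (9) = 0 := ⟨hn.neg₁ (-2) (8) (by norm_num), hn.neg₁ (-1) (7) (by norm_num), hn.neg₁ (-3) (9) (by norm_num)⟩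
  norm_num [hneg, hn.v11, hn.v20, hn.v02] at h0
  linear_combination h0

theorem e6_4 (h : FocRec A A' B B' C C' D D' v η) (hn : FocNorm v η c) :
    v 6 4 = (1 / (2)) * ((A*4+C'*4)*v 4 4 + (B*5+B'*3)*v 5 3 + (C*6+A'*2)*v 6 2 + (D*7)*v 7 1 + (D'*5)*v 3 5) := by
  have h0 := solve_off h hn 6 4 (by norm_num) (by norm_num) (by norm_num) (by decide) (by norm_num)
  norm_num [hn.v11, hn.v20, hn.v02] at h0
  linear_combination h0

theorem e7_3 (h : FocRec A A' B B' C C' D D' v η) (hn : FocNorm v η c) :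
    v 7 3 = (1 / (4)) * ((A*5+C'*3)*v 5 3 + (B*6+B'*2)*v 6 2 + (C*7+A'*1)*v 7 1 + (D*8)*v 8 0 + (D'*4)*v 4 4) := by
  have h0 := solve_off h hn 7 3 (by norm_num) (by norm_num) (by norm_num) (by decide) (by norm_num)
  norm_num [hn.v11, hn.v20, hn.v02] at h0
  linear_combination h0

theorem e4_6 (h : FocRec A A' B B' C C' D D' v η) (hn : FocNorm v η c) :
    v 4 6 = (1 / (-2)) * ((A*2+C'*6)*v 2 6 + (B*3+B'*5)*v 3 5 + (C*4+A'*4)*v 4 4 + (D*5)*v 5 3 + (D'*7)*v 1 7) := by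
  have h0 := solve_off h hn 4 6 (by norm_num) (by norm_num) (by norm_num) (by decide) (by norm_num)
  norm_num [hn.v11, hn.v20, hn.v02] at h0
  linear_combination h0

theorem e3_7 (h : FocRec A A' B B' C C' D D' v η) (hn : FocNorm v η c) :
    v 3 7 = (1 / (-4)) * ((A*1+C'*7)*v 1 7 + (B*2+B'*6)*v 2 6 + (C*3+A'*5)*v 3 5 + (D*4)*v 4 4 + (D'*8)*v 0 8) := by
  have h0 := solve_off h hn 3 7 (by norm_num) (by norm_num) (by norm_num) (by decide) (by norm_num)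
  norm_num [hn.v11, hn.v20, hn.v02] at h0
  linear_combination h0

theorem d3 (h : FocRec A A' B B' C C' D D' v η) (hn : FocNorm v η c) :
    (A*1+C'*3)*v 1 3 + (B*2+B'*2)*v 2 2 + (C*3+A'*1)*v 3 1 + (D*4)*v 4 0 + (D'*4)*v 0 4 = 0 := by
  have h0 := h 3 3 (by norm_num) (by norm_num) (by norm_num) (by decide)
  have h1 : η 3 3 = 0 := hn.η0 3 3 (by norm_num) (by norm_num) (by norm_num) (by norm_num)
  norm_num [h1, hn.v11, hn.v20, hn.v02] at h0
  linear_combination (-1 : ℂ) * h0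

theorem d4 (h : FocRec A A' B B' C C' D D' v η) (hn : FocNorm v η c) :
    (A*2+C'*4)*v 2 4 + (B*3+B'*3)*v 3 3 + (C*4+A'*2)*v 4 2 + (D*5)*v 5 1 + (D'*5)*v 1 5 = 0 := by
  have h0 := h 4 4 (by norm_num) (by norm_num) (by norm_num) (by decide)
  have h1 : η 4 4 = 0 := hn.η0 4 4 (by norm_num) (by norm_num) (by norm_num) (by norm_num)
  norm_num [h1, hn.v11, hn.v20, hn.v02] at h0
  linear_combination (-1 : ℂ) * h0

theorem d5 (h : FocRec A A' B B' C C' D D' v η) (hn : FocNorm v η c) :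
    (A*3+C'*5)*v 3 5 + (B*4+B'*4)*v 4 4 + (C*5+A'*3)*v 5 3 + (D*6)*v 6 2 + (D'*6)*v 2 6 = 0 := by
  have h0 := h 5 5 (by norm_num) (by norm_num) (by norm_num) (by decide)
  have h1 : η 5 5 = 0 := hn.η0 5 5 (by norm_num) (by norm_num) (by norm_num) (by norm_num)
  norm_num [h1, hn.v11, hn.v20, hn.v02] at h0
  linear_combination (-1 : ℂ) * h0

theorem d6 (h : FocRec A A' B B' C C' D D' v η) (hn : FocNorm v η c) :
    (A*4+C'*6)*v 4 6 + (B*5+B'*5)*v 5 5 + (C*6+A'*4)*v 6 4 + (D*7)*v 7 3 + (D'*7)*v 3 7 = c := by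
  have h0 := h 6 6 (by norm_num) (by norm_num) (by norm_num) (by decide)
  have h1 : η 6 6 = c := hn.η66
  norm_num [h1, hn.v11, hn.v20, hn.v02] at h0
  linear_combination (-1 : ℂ) * h0

end

section

variable {A A' B B' D D' c : ℂ} {v η : ℤ → ℤ → ℂ}

/-- Normalised case `C = 1`: second focal value. -/
theorem foc2 (h : FocRec A A' B (-B) 1 1 D D' v η) (hn : FocNorm v η c) : A' = A := by
  have h3 := d3 h hn
  simp only [e4_0 h hn, e3_1 h hn, e1_3 h hn, e0_4 h hn] at h3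
  linear_combination (-1 : ℂ) * h3

/-- Normalised case `C = 1`: third focal value. -/
theorem foc3 (h : FocRec A A B (-B) 1 1 D D' v η) (hn : FocNorm v η c) :
    (D + D') * ((A - 3) * (3 * A + 1)) = 0 := by
  have h4 := d4 h hn
  simp only [e6_0 h hn, e5_1 h hn, e4_2 h hn, e2_4 h hn, e1_5 h hn, e0_6 h hn] at h4
  simp only [e4_0 h hn, e3_1 h hn, e1_3 h hn, e0_4 h hn] at h4
  linear_combination (8 : ℂ) * h4

/-- Normalised case `C = 1`, `A = 3`: fourth focal value. -/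
theorem foc4 (h : FocRec 3 3 B (-B) 1 1 D D' v η) (hn : FocNorm v η c) :
    B * (D + D') = 0 := by
  have h5 := d5 h hn
  simp only [e8_0 h hn, e7_1 h hn, e6_2 h hn, e5_3 h hn, e3_5 h hn, e2_6 h hn, e1_7 h hn, e0_8 h hn] at h5
  simp only [e6_0 h hn, e5_1 h hn, e4_2 h hn, e2_4 h hn, e1_5 h hn, e0_6 h hn] at h5
  simp only [e4_0 h hn, e3_1 h hn, e1_3 h hn, e0_4 h hn] at h5
  linear_combination (-1 / 5 : ℂ) * h5

/-- Normalised case `C = 1`, `A = 3`, `B = 0`: fifth focal value. -/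
theorem foc5 (h : FocRec 3 3 0 (-0) 1 1 D D' v η) (hn : FocNorm v η c) :
    c = 5 / 3 * (D + D') * (D * D' - 4) := by
  have h6 := d6 h hn
  simp only [e6_4 h hn, e7_3 h hn, e4_6 h hn, e3_7 h hn] at h6
  simp only [e8_0 h hn, e7_1 h hn, e6_2 h hn, e5_3 h hn, e3_5 h hn, e2_6 h hn, e1_7 h hn, e0_8 h hn] at h6
  simp only [e6_0 h hn, e5_1 h hn, e4_2 h hn, e2_4 h hn, e1_5 h hn, e0_6 h hn] at h6
  simp only [e4_0 h hn, e3_1 h hn, e1_3 h hn, e0_4 h hn] at h6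
  linear_combination (-1 : ℂ) * h6

/-- Normalised case `C = 1`, `D + D' = 0` (reversible): no fifth focal value. -/
theorem foc_rev (h : FocRec A A B (-B) 1 1 D (-D) v η) (hn : FocNorm v η c) : c = 0 := by
  have h6 := d6 h hn
  simp only [e6_4 h hn, e7_3 h hn, e4_6 h hn, e3_7 h hn] at h6
  simp only [e8_0 h hn, e7_1 h hn, e6_2 h hn, e5_3 h hn, e3_5 h hn, e2_6 h hn, e1_7 h hn, e0_8 h hn] at h6
  simp only [e6_0 h hn, e5_1 h hn, e4_2 h hn, e2_4 h hn, e1_5 h hn, e0_6 h hn] at h6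
  simp only [e4_0 h hn, e3_1 h hn, e1_3 h hn, e0_4 h hn] at h6
  linear_combination (-1 : ℂ) * h6

/-- Normalised case `C = 1`, `A = -1/3` (Hamiltonian): no fifth focal value. -/
theorem foc_ham (h : FocRec (-1/3) (-1/3) B (-B) 1 1 D D' v η) (hn : FocNorm v η c) : c = 0 := by
  have h6 := d6 h hn
  simp only [e6_4 h hn, e7_3 h hn, e4_6 h hn, e3_7 h hn] at h6
  simp only [e8_0 h hn, e7_1 h hn, e6_2 h hn, e5_3 h hn, e3_5 h hn, e2_6 h hn, e1_7 h hn, e0_8 h hn] at h6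
  simp only [e6_0 h hn, e5_1 h hn, e4_2 h hn, e2_4 h hn, e1_5 h hn, e0_6 h hn] at h6
  simp only [e4_0 h hn, e3_1 h hn, e1_3 h hn, e0_4 h hn] at h6
  linear_combination (-1 : ℂ) * h6

/-- Case `C = 0`. -/
theorem foc_zero (h : FocRec A A' B (-B) 0 0 D D' v η) (hn : FocNorm v η c) : c = 0 := by
  have h4 := d4 h hn
  simp only [e6_0 h hn, e5_1 h hn, e4_2 h hn, e2_4 h hn, e1_5 h hn, e0_6 h hn] at h4
  simp only [e4_0 h hn, e3_1 h hn, e1_3 h hn, e0_4 h hn] at h4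
  have h6 := d6 h hn
  simp only [e6_4 h hn, e7_3 h hn, e4_6 h hn, e3_7 h hn] at h6
  simp only [e8_0 h hn, e7_1 h hn, e6_2 h hn, e5_3 h hn, e3_5 h hn, e2_6 h hn, e1_7 h hn, e0_8 h hn] at h6
  simp only [e6_0 h hn, e5_1 h hn, e4_2 h hn, e2_4 h hn, e1_5 h hn, e0_6 h hn] at h6
  simp only [e4_0 h hn, e3_1 h hn, e1_3 h hn, e0_4 h hn] at h6
  have h4' : A' ^ 2 * D' + A ^ 2 * D = 0 := by linear_combination (8 / 3 : ℂ) * h4
  linear_combination (-1 : ℂ) * h6 + (9 / 8 * v 3 3 + 9 / 32 * D * D' + 3 / 4 * B * v 2 2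
    + 27 / 16 * A * A') * h4'

end

end B92
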