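import Mathlib
import Pool.Agent.Lib.B92.Planar
import Pool.Agent.Lib.B92.Rec

/-!
# MP_b92fc8_an, module Coef: from a Liapunov polynomial to the recursion
-/

set_option autoImplicit false

open MvPolynomial

namespace B92

/-- The two linear forms `x = (z + w)/2`, `y = (z - w)/(2i)`. -/
noncomputable def lin : Fin 2 → MvPolynomial (Fin 2) ℂ :=
  ![C (1 / 2) * (X 0 + X 1), C (-Complex.I / 2) * (X 0 - X 1)]

/-- Passage to the complex coordinates `z = X 0`, `z̄ = X 1`. -/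
noncomputable def phi : MvPolynomial (Fin 2) ℝ →ₐ[ℝ] MvPolynomial (Fin 2) ℂ := aeval lin

theorem phi_X0 : phi (X 0) = C (1 / 2) * (X 0 + X 1) := by simp [phi, lin]

theorem phi_X1 : phi (X 1) = C (-Complex.I / 2) * (X 0 - X 1) := by simp [phi, lin]

theorem phi_C (a : ℝ) : phi (C a) = C (a : ℂ) := by
  simp only [phi, aeval_C]
  rfl

theorem lin_hom (i : Fin 2) : (lin i).IsHomogeneous 1 := by
  fin_cases i
  · show (C (1 / 2) * (X 0 + X 1) : MvPolynomial (Fin 2) ℂ).IsHomogeneous 1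
    have h := (isHomogeneous_C (Fin 2) (1 / 2 : ℂ)).mul
      ((isHomogeneous_X ℂ (0 : Fin 2)).add (isHomogeneous_X ℂ (1 : Fin 2)))
    simpa using h
  · show (C (-Complex.I / 2) * (X 0 - X 1) : MvPolynomial (Fin 2) ℂ).IsHomogeneous 1
    have h := (isHomogeneous_C (Fin 2) (-Complex.I / 2 : ℂ)).mul
      ((isHomogeneous_X ℂ (0 : Fin 2)).sub (isHomogeneous_X ℂ (1 : Fin 2)))
    simpa using h

theorem phi_monomial_hom (m : Fin 2 →₀ ℕ) (a : ℝ) :
    (phi (monomial m a)).IsHomogeneous m.degree := by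
  have h1 : phi (monomial m a) = C (a : ℂ) * (lin 0 ^ m 0 * lin 1 ^ m 1) := by
    simp only [phi, aeval_monomial]
    rw [Finsupp.prod_fintype _ _ (by simp), Fin.prod_univ_two]
    rfl
  rw [h1]
  have h2 := (isHomogeneous_C (Fin 2) (a : ℂ)).mul
    (((lin_hom 0).pow (m 0)).mul ((lin_hom 1).pow (m 1)))
  have h3 : m.degree = 0 + (1 * m 0 + 1 * m 1) := by
    rw [Finsupp.degree_eq_sum]
    simp [Fin.sum_univ_two]
  rw [h3]
  exact h2

/-- Coefficient of `z^j z̄^k` with integer indices (zero for negative indices). -/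
noncomputable def cf (g : MvPolynomial (Fin 2) ℂ) (j k : ℤ) : ℂ :=
  if 0 ≤ j ∧ 0 ≤ k then
    coeff (Finsupp.single 0 j.toNat + Finsupp.single 1 k.toNat) g else 0

theorem cf_nat (g : MvPolynomial (Fin 2) ℂ) (a b : ℕ) :
    cf g a b = coeff (Finsupp.single 0 a + Finsupp.single 1 b) g := by
  simp [cf]

theorem cf_neg1 (g : MvPolynomial (Fin 2) ℂ) (j k : ℤ) (h : j < 0) : cf g j k = 0 := by
  unfold cf; rw [if_neg]; omega

theorem cf_neg2 (g : MvPolynomial (Fin 2) ℂ) (j k : ℤ) (h : k < 0) : cf g j k = 0 := by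
  unfold cf; rw [if_neg]; omega

theorem cf_add (f g : MvPolynomial (Fin 2) ℂ) (j k : ℤ) : cf (f + g) j k = cf f j k + cf g j k := by
  unfold cf; split_ifs <;> simp

theorem cf_C_mul (a : ℂ) (g : MvPolynomial (Fin 2) ℂ) (j k : ℤ) :
    cf (C a * g) j k = a * cf g j k := by
  unfold cf; split_ifs <;> simp

theorem cf_X0_mul (g : MvPolynomial (Fin 2) ℂ) (j k : ℤ) : cf (X 0 * g) j k = cf g (j - 1) k := by
  rcases lt_or_ge k 0 with hk | hk
  · rw [cf_neg2 _ _ _ hk, cf_neg2 _ _ _ hk]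
  rcases lt_or_ge j 0 with hj | hj
  · rw [cf_neg1 _ _ _ hj, cf_neg1 _ _ _ (by omega)]
  obtain ⟨a, rfl⟩ := Int.eq_ofNat_of_zero_le hj
  obtain ⟨b, rfl⟩ := Int.eq_ofNat_of_zero_le hk
  rw [cf_nat, coeff_X_mul']
  rcases a with _ | a
  · rw [if_neg (by simp), cf_neg1 _ _ _ (by simp)]
  · rw [if_pos (by simp)]
    have h1 : ((a + 1 : ℕ) : ℤ) - 1 = (a : ℤ) := by push_cast; ring
    rw [h1, cf_nat]
    congr 1
    ext i
    fin_cases i <;> simp

theorem cf_X1_mul (g : MvPolynomial (Fin 2) ℂ) (j k : ℤ) : cf (X 1 * g) j k = cf g j (k - 1) := by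
  rcases lt_or_ge j 0 with hj | hj
  · rw [cf_neg1 _ _ _ hj, cf_neg1 _ _ _ hj]
  rcases lt_or_ge k 0 with hk | hk
  · rw [cf_neg2 _ _ _ hk, cf_neg2 _ _ _ (by omega)]
  obtain ⟨a, rfl⟩ := Int.eq_ofNat_of_zero_le hj
  obtain ⟨b, rfl⟩ := Int.eq_ofNat_of_zero_le hk
  rw [cf_nat, coeff_X_mul']
  rcases b with _ | b
  · rw [if_neg (by simp), cf_neg2 _ _ _ (by simp)]
  · rw [if_pos (by simp)]
    have h1 : ((b + 1 : ℕ) : ℤ) - 1 = (b : ℤ) := by push_cast; ring
    rw [h1, cf_nat]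
    congr 1
    ext i
    fin_cases i <;> simp

theorem cf_pd0 (g : MvPolynomial (Fin 2) ℂ) (j k : ℤ) :
    cf (pderiv 0 g) j k = ((j : ℂ) + 1) * cf g (j + 1) k := by
  rcases lt_or_ge k 0 with hk | hk
  · rw [cf_neg2 _ _ _ hk, cf_neg2 _ _ _ hk, mul_zero]
  rcases lt_or_ge j 0 with hj | hj
  · rw [cf_neg1 _ _ _ hj]
    rcases lt_or_ge (j + 1) 0 with h1 | h1
    · rw [cf_neg1 _ _ _ h1, mul_zero]
    · have h2 : j = -1 := by omega
      subst h2
      simp
  obtain ⟨a, rfl⟩ := Int.eq_ofNat_of_zero_le hj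
  obtain ⟨b, rfl⟩ := Int.eq_ofNat_of_zero_le hk
  have h1 : (a : ℤ) + 1 = ((a + 1 : ℕ) : ℤ) := by push_cast; ring
  rw [cf_nat, h1, cf_nat, coeff_pderiv, mul_comm]
  have h2 : (Finsupp.single (0 : Fin 2) a + Finsupp.single 1 b) + Finsupp.single 0 1
      = Finsupp.single 0 (a + 1) + Finsupp.single 1 b := by
    ext i; fin_cases i <;> simp
  rw [h2]
  congr 1
  simp

theorem cf_pd1 (g : MvPolynomial (Fin 2) ℂ) (j k : ℤ) :
    cf (pderiv 1 g) j k = ((k : ℂ) + 1) * cf g j (k + 1) := by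
  rcases lt_or_ge j 0 with hj | hj
  · rw [cf_neg1 _ _ _ hj, cf_neg1 _ _ _ hj, mul_zero]
  rcases lt_or_ge k 0 with hk | hk
  · rw [cf_neg2 _ _ _ hk]
    rcases lt_or_ge (k + 1) 0 with h1 | h1
    · rw [cf_neg2 _ _ _ h1, mul_zero]
    · have h2 : k = -1 := by omega
      subst h2
      simp
  obtain ⟨a, rfl⟩ := Int.eq_ofNat_of_zero_le hj
  obtain ⟨b, rfl⟩ := Int.eq_ofNat_of_zero_le hk
  have h1 : (b : ℤ) + 1 = ((b + 1 : ℕ) : ℤ) := by push_cast; ring
  rw [cf_nat, h1, cf_nat, coeff_pderiv, mul_comm]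
  have h2 : (Finsupp.single (0 : Fin 2) a + Finsupp.single 1 b) + Finsupp.single 1 1
      = Finsupp.single 0 a + Finsupp.single 1 (b + 1) := by
    ext i; fin_cases i <;> simp
  rw [h2]
  congr 1
  simp

/-- `phi` preserves the order at the origin. -/
theorem cf_phi_eq_zero {n : ℕ} {f : MvPolynomial (Fin 2) ℝ} (hf : OrderGE n f) (j k : ℤ)
    (hjk : j + k < n) : cf (phi f) j k = 0 := by
  rcases lt_or_ge j 0 with hj | hj
  · exact cf_neg1 _ _ _ hj
  rcases lt_or_ge k 0 with hk | hk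
  · exact cf_neg2 _ _ _ hk
  obtain ⟨a, rfl⟩ := Int.eq_ofNat_of_zero_le hj
  obtain ⟨b, rfl⟩ := Int.eq_ofNat_of_zero_le hk
  rw [cf_nat, f.as_sum, map_sum, coeff_sum]
  refine Finset.sum_eq_zero fun m hm => ?_
  refine (phi_monomial_hom m _).coeff_eq_zero ?_
  have h1 := hf m hm
  have h2 : (Finsupp.single (0 : Fin 2) a + Finsupp.single 1 b).degree = a + b := by
    rw [Finsupp.degree_eq_sum]; simp [Fin.sum_univ_two]
  rw [h2]
  omega

/-- The complex coefficients of `p + i q` for homogeneous cubics `p`, `q`. -/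
theorem cubic_form (p : MvPolynomial (Fin 2) ℝ) (hp : p.IsHomogeneous 3) :
    ∃ a₀ a₁ a₂ a₃ : ℝ, p = C a₀ * X 0 ^ 3 + C a₁ * X 0 ^ 2 * X 1 + C a₂ * X 0 * X 1 ^ 2
      + C a₃ * X 1 ^ 3 := by
  refine ⟨coeff (Finsupp.single 0 3) p, coeff (Finsupp.single 0 2 + Finsupp.single 1 1) p,
    coeff (Finsupp.single 0 1 + Finsupp.single 1 2) p, coeff (Finsupp.single 1 3) p, ?_⟩
  have e1 : (C (coeff (Finsupp.single 0 3) p) * X 0 ^ 3 : MvPolynomial (Fin 2) ℝ)
      = monomial (Finsupp.single 0 3) (coeff (Finsupp.single 0 3) p) := by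
    rw [X_pow_eq_monomial, C_mul_monomial, mul_one]
  have e2 : (C (coeff (Finsupp.single 0 2 + Finsupp.single 1 1) p) * X 0 ^ 2 * X 1 :
      MvPolynomial (Fin 2) ℝ)
      = monomial (Finsupp.single 0 2 + Finsupp.single 1 1)
        (coeff (Finsupp.single 0 2 + Finsupp.single 1 1) p) := by
    rw [X_pow_eq_monomial, C_mul_monomial, mul_one]
    have : (X 1 : MvPolynomial (Fin 2) ℝ) = monomial (Finsupp.single 1 1) 1 := rfl
    rw [this, monomial_mul, mul_one]
  have e3 : (C (coeff (Finsupp.single 0 1 + Finsupp.single 1 2) p) * X 0 * X 1 ^ 2 :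
      MvPolynomial (Fin 2) ℝ)
      = monomial (Finsupp.single 0 1 + Finsupp.single 1 2)
        (coeff (Finsupp.single 0 1 + Finsupp.single 1 2) p) := by
    have : (X 0 : MvPolynomial (Fin 2) ℝ) = monomial (Finsupp.single 0 1) 1 := rfl
    rw [this, X_pow_eq_monomial, C_mul_monomial, mul_one, monomial_mul, mul_one]
  have e4 : (C (coeff (Finsupp.single 1 3) p) * X 1 ^ 3 : MvPolynomial (Fin 2) ℝ)
      = monomial (Finsupp.single 1 3) (coeff (Finsupp.single 1 3) p) := by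
    rw [X_pow_eq_monomial, C_mul_monomial, mul_one]
  rw [e1, e2, e3, e4]
  ext m
  simp only [coeff_add, coeff_monomial]
  by_cases hm : m.degree = 3
  · have h0 : m 0 + m 1 = 3 := by
      rw [Finsupp.degree_eq_sum] at hm; simpa [Fin.sum_univ_two] using hm
    have h1 : m = Finsupp.single 0 (m 0) + Finsupp.single 1 (m 1) := by
      ext i; fin_cases i <;> simp
    have h2 : m 0 = 0 ∨ m 0 = 1 ∨ m 0 = 2 ∨ m 0 = 3 := by omega
    rcases h2 with h2 | h2 | h2 | h2
    · have h3 : m 1 = 3 := by omega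
      have h4 : m = Finsupp.single 1 3 := by rw [h1, h2, h3]; simp
      subst h4
      simp [Finsupp.ext_iff, Fin.forall_fin_two]
    · have h3 : m 1 = 2 := by omega
      have h4 : m = Finsupp.single 0 1 + Finsupp.single 1 2 := by rw [h1, h2, h3]
      subst h4
      simp [Finsupp.ext_iff, Fin.forall_fin_two]
    · have h3 : m 1 = 1 := by omega
      have h4 : m = Finsupp.single 0 2 + Finsupp.single 1 1 := by rw [h1, h2, h3]
      subst h4
      simp [Finsupp.ext_iff, Fin.forall_fin_two]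
    · have h3 : m 1 = 0 := by omega
      have h4 : m = Finsupp.single 0 3 := by rw [h1, h2, h3]; simp
      subst h4
      simp [Finsupp.ext_iff, Fin.forall_fin_two]
  · rw [hp.coeff_eq_zero hm]
    have n1 : Finsupp.single (0 : Fin 2) 3 ≠ m := by
      rintro rfl; apply hm; rw [Finsupp.degree_eq_sum]; simp [Fin.sum_univ_two]
    have n2 : Finsupp.single (0 : Fin 2) 2 + Finsupp.single 1 1 ≠ m := by
      rintro rfl; apply hm; rw [Finsupp.degree_eq_sum]; simp [Fin.sum_univ_two]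
    have n3 : Finsupp.single (0 : Fin 2) 1 + Finsupp.single 1 2 ≠ m := by
      rintro rfl; apply hm; rw [Finsupp.degree_eq_sum]; simp [Fin.sum_univ_two]
    have n4 : Finsupp.single (1 : Fin 2) 3 ≠ m := by
      rintro rfl; apply hm; rw [Finsupp.degree_eq_sum]; simp [Fin.sum_univ_two]
    rw [if_neg n1, if_neg n2, if_neg n3, if_neg n4]
    norm_num

end B92
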