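import Mathlib
import Pool.Agent.Lib.B92.Rec

/-!
# MP_b92fc8_an, module RecFin: order five gives the normal form `A = 3`, `B = 0`, `C = 1`
-/

set_option autoImplicit false

namespace B92

variable {A A' B B' C C' D D' c : ℂ} {v η : ℤ → ℤ → ℂ}

/-- Scaling and rotation of the recursion (`z = μ ζ`). -/
theorem FocRec.scale (μ μ' : ℂ) (hμ : μ ≠ 0) (hμ' : μ' ≠ 0)
    (h : FocRec A A' B B' C C' D D' v η) :
    FocRec (A * μ ^ 2) (A' * μ' ^ 2) (B * (μ * μ')) (B' * (μ * μ')) (C * μ' ^ 2) (C' * μ ^ 2)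
      (D * μ' ^ 3 / μ) (D' * μ ^ 3 / μ')
      (fun j k => μ ^ (j - 1) * μ' ^ (k - 1) * v j k)
      (fun j k => μ ^ (j - 1) * μ' ^ (k - 1) * η j k) := by
  intro j k hj hk hs he
  have h0 := h j k hj hk hs he
  have e1 : μ ^ (j - 1) = μ ^ (j - 2 - 1) * μ ^ 2 := by
    rw [← zpow_natCast μ 2, ← zpow_add₀ hμ]; congr 1; push_cast; ring
  have e2 : μ ^ (j - 1) = μ ^ (j - 1 - 1) * μ := by
    nth_rewrite 3 [← zpow_one μ]; rw [← zpow_add₀ hμ]; congr 1; ring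
  have e3 : μ ^ (j + 1 - 1) = μ ^ (j - 1) * μ := by
    nth_rewrite 3 [← zpow_one μ]; rw [← zpow_add₀ hμ]; congr 1; ring
  have e4 : μ ^ (j - 1) = μ ^ (j - 3 - 1) * μ ^ 3 := by
    rw [← zpow_natCast μ 3, ← zpow_add₀ hμ]; congr 1; push_cast; ring
  have f1 : μ' ^ (k - 1) = μ' ^ (k - 2 - 1) * μ' ^ 2 := by
    rw [← zpow_natCast μ' 2, ← zpow_add₀ hμ']; congr 1; push_cast; ring
  have f2 : μ' ^ (k - 1) = μ' ^ (k - 1 - 1) * μ' := by
    nth_rewrite 3 [← zpow_one μ']; rw [← zpow_add₀ hμ']; congr 1; ring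
  have f3 : μ' ^ (k + 1 - 1) = μ' ^ (k - 1) * μ' := by
    nth_rewrite 3 [← zpow_one μ']; rw [← zpow_add₀ hμ']; congr 1; ring
  have f4 : μ' ^ (k - 1) = μ' ^ (k - 3 - 1) * μ' ^ 3 := by
    rw [← zpow_natCast μ' 3, ← zpow_add₀ hμ']; congr 1; push_cast; ring
  have key : μ ^ (j - 1) * μ' ^ (k - 1) * (((j : ℂ) - (k : ℂ)) * v j k)
      = μ ^ (j - 1) * μ' ^ (k - 1) * ((A * ((j : ℂ) - 2) + C' * (k : ℂ)) * v (j - 2) k
        + (B * ((j : ℂ) - 1) + B' * ((k : ℂ) - 1)) * v (j - 1) (k - 1)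
        + (C * (j : ℂ) + A' * ((k : ℂ) - 2)) * v j (k - 2)
        + D * ((j : ℂ) + 1) * v (j + 1) (k - 3)
        + D' * ((k : ℂ) + 1) * v (j - 3) (k + 1) - η j k) := by rw [h0]
  have t1 : μ ^ (j - 1) * μ' ^ (k - 1) * ((A * ((j : ℂ) - 2) + C' * (k : ℂ)) * v (j - 2) k)
      = (A * μ ^ 2 * ((j : ℂ) - 2) + C' * μ ^ 2 * (k : ℂ))
        * (μ ^ (j - 2 - 1) * μ' ^ (k - 1) * v (j - 2) k) := by rw [e1]; ring
  have t2 : μ ^ (j - 1) * μ' ^ (k - 1)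
        * ((B * ((j : ℂ) - 1) + B' * ((k : ℂ) - 1)) * v (j - 1) (k - 1))
      = (B * (μ * μ') * ((j : ℂ) - 1) + B' * (μ * μ') * ((k : ℂ) - 1))
        * (μ ^ (j - 1 - 1) * μ' ^ (k - 1 - 1) * v (j - 1) (k - 1)) := by rw [e2, f2]; ring
  have t3 : μ ^ (j - 1) * μ' ^ (k - 1) * ((C * (j : ℂ) + A' * ((k : ℂ) - 2)) * v j (k - 2))
      = (C * μ' ^ 2 * (j : ℂ) + A' * μ' ^ 2 * ((k : ℂ) - 2))
        * (μ ^ (j - 1) * μ' ^ (k - 2 - 1) * v j (k - 2)) := by rw [f1]; ring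
  have t4 : μ ^ (j - 1) * μ' ^ (k - 1) * (D * ((j : ℂ) + 1) * v (j + 1) (k - 3))
      = D * μ' ^ 3 / μ * ((j : ℂ) + 1)
        * (μ ^ (j + 1 - 1) * μ' ^ (k - 3 - 1) * v (j + 1) (k - 3)) := by
    rw [e3, f4]; field_simp
  have t5 : μ ^ (j - 1) * μ' ^ (k - 1) * (D' * ((k : ℂ) + 1) * v (j - 3) (k + 1))
      = D' * μ ^ 3 / μ' * ((k : ℂ) + 1)
        * (μ ^ (j - 3 - 1) * μ' ^ (k + 1 - 1) * v (j - 3) (k + 1)) := by
    rw [e4, f3]; field_simp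
  show ((j : ℂ) - (k : ℂ)) * (μ ^ (j - 1) * μ' ^ (k - 1) * v j k) = _
  rw [← t1, ← t2, ← t3, ← t4, ← t5]
  linear_combination key

theorem FocNorm.scale (μ μ' : ℂ) (hμ : μ ≠ 0) (hμ' : μ' ≠ 0) (hn : FocNorm v η c) :
    FocNorm (fun j k => μ ^ (j - 1) * μ' ^ (k - 1) * v j k)
      (fun j k => μ ^ (j - 1) * μ' ^ (k - 1) * η j k) (μ ^ 5 * μ' ^ 5 * c) where
  neg₁ := fun j k hj => by simp [hn.neg₁ j k hj]
  neg₂ := fun j k hk => by simp [hn.neg₂ j k hk]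
  v11 := by simp [hn.v11]
  v20 := by simp [hn.v20]
  v02 := by simp [hn.v02]
  η0 := fun j k hj hk hs hne => by simp [hn.η0 j k hj hk hs hne]
  η66 := by
    show μ ^ ((6 : ℤ) - 1) * μ' ^ ((6 : ℤ) - 1) * η 6 6 = _
    rw [hn.η66]
    norm_num

/-- Normalised case `C = 1`. -/
theorem foc_one (h : FocRec A A' B B' 1 1 D D' v η) (hn : FocNorm v η c) (hc : c ≠ 0) :
    A = 3 ∧ A' = 3 ∧ B = 0 ∧ B' = 0 ∧ D + D' ≠ 0 ∧ D * D' ≠ 4 := by
  have hB : B' = -B := foc1 h hn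
  subst hB
  have hA : A' = A := foc2 h hn
  subst hA
  have h3 := foc3 h hn
  have hD : D + D' ≠ 0 := by
    intro h0
    have hD' : D' = -D := by linear_combination h0
    subst hD'
    exact hc (foc_rev h hn)
  have h3' : (A' - 3) * (3 * A' + 1) = 0 := by
    rcases mul_eq_zero.mp h3 with h4 | h4
    · exact absurd h4 hD
    · exact h4
  have hA3 : A' = 3 := by
    rcases mul_eq_zero.mp h3' with h4 | h4
    · linear_combination h4
    · exfalso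
      have h5 : A' = -1 / 3 := by linear_combination (1 / 3 : ℂ) * h4
      subst h5
      exact hc (foc_ham h hn)
  subst hA3
  have hB0 : B = 0 := by
    rcases mul_eq_zero.mp (foc4 h hn) with h4 | h4
    · exact h4
    · exact absurd h4 hD
  subst hB0
  have h5 := foc5 h hn
  refine ⟨rfl, rfl, rfl, by simp, hD, ?_⟩
  intro h6
  apply hc
  rw [h5, h6]
  ring

/-- **Order five.** If the fifth focal value is the first nonzero one then `C ≠ 0` and after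
the scaling which makes `C = 1` the system is in normal form. -/
theorem foc_final (h : FocRec A A' B B' C C' D D' v η) (hn : FocNorm v η c) (hc : c ≠ 0)
    (hC : C = 0 ↔ C' = 0) :
    C ≠ 0 ∧ ∀ μ μ' : ℂ, C * μ' ^ 2 = 1 → C' * μ ^ 2 = 1 →
      A * μ ^ 2 = 3 ∧ A' * μ' ^ 2 = 3 ∧ B = 0 ∧ B' = 0 ∧
        D * μ' ^ 3 / μ + D' * μ ^ 3 / μ' ≠ 0 ∧
        (D * μ' ^ 3 / μ) * (D' * μ ^ 3 / μ') ≠ 4 := by
  constructor
  · intro h0
    have h0' := hC.mp h0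
    have hB : B' = -B := foc1 h hn
    subst h0 h0' hB
    exact hc (foc_zero h hn)
  · intro μ μ' h1 h2
    have hμ : μ ≠ 0 := by
      rintro rfl; simp at h2
    have hμ' : μ' ≠ 0 := by
      rintro rfl; simp at h1
    have h3 := h.scale μ μ' hμ hμ'
    have h4 := hn.scale μ μ' hμ hμ'
    rw [h1, h2] at h3
    obtain ⟨a1, a2, a3, a4, a5, a6⟩ := foc_one h3 h4 (by positivity)
    refine ⟨a1, a2, ?_, ?_, a5, a6⟩
    · rcases mul_eq_zero.mp a3 with h5 | h5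
      · exact h5
      · exact absurd h5 (mul_ne_zero hμ hμ')
    · rcases mul_eq_zero.mp a4 with h5 | h5
      · exact h5
      · exact absurd h5 (mul_ne_zero hμ hμ')

end B92
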