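import Mathlib
import Pool.Agent.Lib.B92.Planar
import Pool.Agent.Lib.B92.Rec
import Pool.Agent.Lib.B92.RecFin
import Pool.Agent.Lib.B92.Coef

/-!
# MP_b92fc8_an, module Red: a fine focus of order five is in normal form

`ζ' = -i ζ + 3 ζ³ + ζ ζ̄² + D ζ̄³`, `Re D ≠ 0`, `|D| ≠ 2`.
-/

set_option autoImplicit false

open MvPolynomial

namespace B92

/-- The orbital derivative in complex coordinates. -/
theorem phi_orbital (V f g : MvPolynomial (Fin 2) ℝ) :
    phi (pderiv 0 V * f + pderiv 1 V * g)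
      = pderiv 0 (phi V) * (phi f + C Complex.I * phi g)
        + pderiv 1 (phi V) * (phi f - C Complex.I * phi g) := by
  have h00 : pderiv (0 : Fin 2) (phi (X 0)) = C (1 / 2) := by
    rw [phi_X0, pderiv_C_mul]; simp
  have h10 : pderiv (1 : Fin 2) (phi (X 0)) = C (1 / 2) := by
    rw [phi_X0, pderiv_C_mul]; simp
  have h01 : pderiv (0 : Fin 2) (phi (X 1)) = C (-Complex.I / 2) := by
    rw [phi_X1, pderiv_C_mul]; simp
  have h11 : pderiv (1 : Fin 2) (phi (X 1)) = C (Complex.I / 2) := by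
    rw [phi_X1, pderiv_C_mul]; simp [neg_div]
  have e1 : (C (1 / 2) : MvPolynomial (Fin 2) ℂ) + C (1 / 2) = 1 := by
    rw [← C_add, ← C_1]; congr 1; norm_num
  have e2 : (C (-Complex.I / 2) : MvPolynomial (Fin 2) ℂ) + C (Complex.I / 2) = 0 := by
    rw [← C_add, ← C_0]; congr 1; ring
  have e3 : (C (-Complex.I / 2) : MvPolynomial (Fin 2) ℂ) * C Complex.I
      - C (Complex.I / 2) * C Complex.I = 1 := by
    rw [← C_mul, ← C_mul, ← C_sub, ← C_1]; congr 1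
    linear_combination (-1 : ℂ) * Complex.I_sq
  induction V using MvPolynomial.induction_on with
  | C a =>
    rw [phi_C, pderiv_C, pderiv_C, pderiv_C, pderiv_C, zero_mul, zero_mul, zero_mul, zero_mul,
      add_zero, add_zero, map_zero]
  | add a b ha hb =>
    have h1 : pderiv 0 (a + b) * f + pderiv 1 (a + b) * g
        = (pderiv 0 a * f + pderiv 1 a * g) + (pderiv 0 b * f + pderiv 1 b * g) := by
      rw [map_add (pderiv 0), map_add (pderiv 1)]; ring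
    have h2 : phi (a + b) = phi a + phi b := map_add phi a b
    have h3 : pderiv (0 : Fin 2) (phi a + phi b) = pderiv 0 (phi a) + pderiv 0 (phi b) :=
      map_add (pderiv 0) _ _
    have h4 : pderiv (1 : Fin 2) (phi a + phi b) = pderiv 1 (phi a) + pderiv 1 (phi b) :=
      map_add (pderiv 1) _ _
    rw [h1, map_add phi, ha, hb, h2, h3, h4]
    ring
  | mul_X a i ih =>
    have h2 : phi (a * X i) = phi a * phi (X i) := map_mul phi a (X i)
    rw [h2, pderiv_mul, pderiv_mul, pderiv_mul, pderiv_mul]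
    have key : phi ((pderiv 0 a * X i + a * pderiv 0 (X i)) * f
        + (pderiv 1 a * X i + a * pderiv 1 (X i)) * g)
        = phi (pderiv 0 a * f + pderiv 1 a * g) * phi (X i)
          + phi a * phi (pderiv 0 (X i) * f + pderiv 1 (X i) * g) := by
      rw [← map_mul phi, ← map_mul phi, ← map_add phi]
      congr 1
      ring
    rw [key, ih]
    have key2 : phi (pderiv 0 (X i) * f + pderiv 1 (X i) * g)
        = pderiv 0 (phi (X i)) * (phi f + C Complex.I * phi g)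
        + pderiv 1 (phi (X i)) * (phi f - C Complex.I * phi g) := by
      fin_cases i
      · show phi (pderiv 0 (X 0) * f + pderiv 1 (X 0) * g)
          = pderiv 0 (phi (X 0)) * (phi f + C Complex.I * phi g)
          + pderiv 1 (phi (X 0)) * (phi f - C Complex.I * phi g)
        rw [h00, h10, pderiv_X_self, pderiv_X_of_ne (by decide), one_mul, zero_mul, add_zero]
        linear_combination (-1 : MvPolynomial (Fin 2) ℂ) * phi f * e1
      · show phi (pderiv 0 (X 1) * f + pderiv 1 (X 1) * g)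
          = pderiv 0 (phi (X 1)) * (phi f + C Complex.I * phi g)
          + pderiv 1 (phi (X 1)) * (phi f - C Complex.I * phi g)
        rw [h01, h11, pderiv_X_self, pderiv_X_of_ne (by decide), one_mul, zero_mul, zero_add]
        linear_combination (-1 : MvPolynomial (Fin 2) ℂ) * phi g * e3 - phi f * e2
    rw [key2]
    ring

theorem cf_one (j k : ℤ) : cf 1 j k = if j = 0 ∧ k = 0 then 1 else 0 := by
  rcases lt_or_ge j 0 with hj | hj
  · rw [cf_neg1 _ _ _ hj, if_neg (by omega)]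
  rcases lt_or_ge k 0 with hk | hk
  · rw [cf_neg2 _ _ _ hk, if_neg (by omega)]
  obtain ⟨a, rfl⟩ := Int.eq_ofNat_of_zero_le hj
  obtain ⟨b, rfl⟩ := Int.eq_ofNat_of_zero_le hk
  rw [cf_nat, coeff_one]
  by_cases h : (0 : Fin 2 →₀ ℕ) = Finsupp.single 0 a + Finsupp.single 1 b
  · have h0 := DFunLike.congr_fun h 0
    have h1 := DFunLike.congr_fun h 1
    simp at h0 h1
    rw [if_pos h, if_pos ⟨by omega, by omega⟩]
  · rw [if_neg h, if_neg]
    rintro ⟨h0, h1⟩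
    apply h
    have h0' : a = 0 := by omega
    have h1' : b = 0 := by omega
    subst h0' h1'
    simp

theorem phi_sq : phi (X 0 ^ 2 + X 1 ^ 2) = X 0 * X 1 := by
  rw [map_add, map_pow, map_pow, phi_X0, phi_X1]
  have e : (C (1 / 2) : MvPolynomial (Fin 2) ℂ) ^ 2 = C (1 / 4) := by
    rw [← C_pow]; congr 1; norm_num
  have e' : (C (-Complex.I / 2) : MvPolynomial (Fin 2) ℂ) ^ 2 = -C (1 / 4) := by
    rw [← C_pow, ← C_neg]; congr 1; rw [div_pow, neg_sq, Complex.I_sq]; norm_num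
  have e4 : (4 : MvPolynomial (Fin 2) ℂ) * C (1 / 4) = 1 := by
    have : (4 : MvPolynomial (Fin 2) ℂ) = C 4 := (map_ofNat C 4).symm
    rw [this, ← C_mul, ← C_1]; congr 1; norm_num
  linear_combination ((X 0 + X 1) ^ 2) * e + ((X 0 - X 1) ^ 2) * e' + X 0 * X 1 * e4

/-- The normalised field in complex coordinates. -/
noncomputable def Fz (L A B Cc D : ℂ) : MvPolynomial (Fin 2) ℂ :=
  C L * X 0 + C A * X 0 ^ 3 + C B * (X 0 ^ 2 * X 1) + C Cc * (X 0 * X 1 ^ 2) + C D * X 1 ^ 3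

noncomputable def Fw (L A B Cc D : ℂ) : MvPolynomial (Fin 2) ℂ :=
  C L * X 1 + C A * X 1 ^ 3 + C B * (X 1 ^ 2 * X 0) + C Cc * (X 1 * X 0 ^ 2) + C D * X 0 ^ 3

/-- Coefficients of the orbital derivative. -/
theorem cf_orb (G : MvPolynomial (Fin 2) ℂ) (L L' A A' B B' Cc C' D D' : ℂ) (j k : ℤ) :
    cf (pderiv 0 G * Fz L A B Cc D + pderiv 1 G * Fw L' A' B' C' D') j k
      = (L * j + L' * k) * cf G j k
        + ((A * ((j : ℂ) - 2) + C' * (k : ℂ)) * cf G (j - 2) k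
        + (B * ((j : ℂ) - 1) + B' * ((k : ℂ) - 1)) * cf G (j - 1) (k - 1)
        + (Cc * (j : ℂ) + A' * ((k : ℂ) - 2)) * cf G j (k - 2)
        + D * ((j : ℂ) + 1) * cf G (j + 1) (k - 3)
        + D' * ((k : ℂ) + 1) * cf G (j - 3) (k + 1)) := by
  have e : pderiv 0 G * Fz L A B Cc D + pderiv 1 G * Fw L' A' B' C' D'
      = C L * (X 0 * pderiv 0 G) + (C A * (X 0 * (X 0 * (X 0 * pderiv 0 G)))
        + (C B * (X 0 * (X 0 * (X 1 * pderiv 0 G))) + (C Cc * (X 0 * (X 1 * (X 1 * pderiv 0 G)))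
        + (C D * (X 1 * (X 1 * (X 1 * pderiv 0 G)))
        + (C L' * (X 1 * pderiv 1 G) + (C A' * (X 1 * (X 1 * (X 1 * pderiv 1 G)))
        + (C B' * (X 1 * (X 1 * (X 0 * pderiv 1 G))) + (C C' * (X 1 * (X 0 * (X 0 * pderiv 1 G)))
        + C D' * (X 0 * (X 0 * (X 0 * pderiv 1 G))))))))))) := by
    unfold Fz Fw; ring
  rw [e]
  simp only [cf_add, cf_C_mul, cf_X0_mul, cf_X1_mul, cf_pd0, cf_pd1]
  have c1 : cf G (j - 1 + 1) k = cf G j k := by congr 1; ring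
  have c2 : cf G (j - 1 - 1 - 1 + 1) k = cf G (j - 2) k := by congr 1; ring
  have c3 : cf G (j - 1 - 1 + 1) (k - 1) = cf G (j - 1) (k - 1) := by congr 1; ring
  have c4 : cf G (j - 1 + 1) (k - 1 - 1) = cf G j (k - 2) := by congr 1 <;> ring
  have c5 : cf G (j + 1) (k - 1 - 1 - 1) = cf G (j + 1) (k - 3) := by congr 1; ring
  have c6 : cf G j (k - 1 + 1) = cf G j k := by congr 1; ring
  have c7 : cf G j (k - 1 - 1 - 1 + 1) = cf G j (k - 2) := by congr 1; ring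
  have c8 : cf G (j - 1) (k - 1 - 1 + 1) = cf G (j - 1) (k - 1) := by congr 1; ring
  have c9 : cf G (j - 1 - 1) (k - 1 + 1) = cf G (j - 2) k := by congr 1 <;> ring
  have c10 : cf G (j - 1 - 1 - 1) (k + 1) = cf G (j - 3) (k + 1) := by congr 1; ring
  rw [c1, c2, c3, c4, c5, c6, c7, c8, c9, c10]
  push_cast
  ring

section

variable {lam c : ℝ} {V p q : MvPolynomial (Fin 2) ℝ}

/-- complex coefficients of `p + i q` -/
noncomputable def cA (c₀ c₁ c₂ c₃ : ℂ) : ℂ := (c₀ - Complex.I * c₁ - c₂ + Complex.I * c₃) / 8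
noncomputable def cB (c₀ c₁ c₂ c₃ : ℂ) : ℂ := (3 * c₀ - Complex.I * c₁ + c₂ - 3 * Complex.I * c₃) / 8
noncomputable def cC (c₀ c₁ c₂ c₃ : ℂ) : ℂ := (3 * c₀ + Complex.I * c₁ + c₂ + 3 * Complex.I * c₃) / 8
noncomputable def cD (c₀ c₁ c₂ c₃ : ℂ) : ℂ := (c₀ + Complex.I * c₁ - c₂ - Complex.I * c₃) / 8

theorem phi_cubic (a₀ a₁ a₂ a₃ : ℝ) :
    phi (C a₀ * X 0 ^ 3 + C a₁ * X 0 ^ 2 * X 1 + C a₂ * X 0 * X 1 ^ 2 + C a₃ * X 1 ^ 3)
      = C (cA a₀ a₁ a₂ a₃) * X 0 ^ 3 + C (cB a₀ a₁ a₂ a₃) * (X 0 ^ 2 * X 1)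
        + C (cC a₀ a₁ a₂ a₃) * (X 0 * X 1 ^ 2) + C (cD a₀ a₁ a₂ a₃) * X 1 ^ 3 := by
  have f1 (a : ℝ) : phi (C a * X 0 ^ 3) = C (a : ℂ) * (C (1 / 2) * (X 0 + X 1)) ^ 3 := by
    rw [map_mul phi, map_pow phi, phi_C, phi_X0]
  have f2 (a : ℝ) : phi (C a * X 0 ^ 2 * X 1)
      = C (a : ℂ) * (C (1 / 2) * (X 0 + X 1)) ^ 2 * (C (-Complex.I / 2) * (X 0 - X 1)) := by
    rw [map_mul phi, map_mul phi, map_pow phi, phi_C, phi_X0, phi_X1]
  have f3 (a : ℝ) : phi (C a * X 0 * X 1 ^ 2)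
      = C (a : ℂ) * (C (1 / 2) * (X 0 + X 1)) * (C (-Complex.I / 2) * (X 0 - X 1)) ^ 2 := by
    rw [map_mul phi, map_mul phi, map_pow phi, phi_C, phi_X0, phi_X1]
  have f4 (a : ℝ) : phi (C a * X 1 ^ 3)
      = C (a : ℂ) * (C (-Complex.I / 2) * (X 0 - X 1)) ^ 3 := by
    rw [map_mul phi, map_pow phi, phi_C, phi_X1]
  rw [map_add phi, map_add phi, map_add phi, f1, f2, f3, f4]
  have g1 : (C (-Complex.I / 2) : MvPolynomial (Fin 2) ℂ) = -(C Complex.I * C (1 / 2)) := by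
    rw [← C_mul, ← C_neg]; congr 1; ring
  have g2 (a b c d : ℂ) : (C ((a - Complex.I * b - c + Complex.I * d) / 8) :
      MvPolynomial (Fin 2) ℂ)
      = (C a - C Complex.I * C b - C c + C Complex.I * C d) * C (1 / 2) ^ 3 := by
    rw [← C_mul, ← C_mul, ← C_pow, ← C_sub, ← C_sub, ← C_add, ← C_mul]; congr 1; ring
  have g3 (a b c d : ℂ) : (C ((3 * a - Complex.I * b + c - 3 * Complex.I * d) / 8) :
      MvPolynomial (Fin 2) ℂ)
      = (C 3 * C a - C Complex.I * C b + C c - C 3 * C Complex.I * C d) * C (1 / 2) ^ 3 := by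
    rw [← C_mul, ← C_mul, ← C_mul, ← C_mul, ← C_pow, ← C_sub, ← C_add, ← C_sub, ← C_mul]
    congr 1; ring
  have g4 (a b c d : ℂ) : (C ((3 * a + Complex.I * b + c + 3 * Complex.I * d) / 8) :
      MvPolynomial (Fin 2) ℂ)
      = (C 3 * C a + C Complex.I * C b + C c + C 3 * C Complex.I * C d) * C (1 / 2) ^ 3 := by
    rw [← C_mul, ← C_mul, ← C_mul, ← C_mul, ← C_pow, ← C_add, ← C_add, ← C_add, ← C_mul]
    congr 1; ring
  have g5 (a b c d : ℂ) : (C ((a + Complex.I * b - c - Complex.I * d) / 8) :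
      MvPolynomial (Fin 2) ℂ)
      = (C a + C Complex.I * C b - C c - C Complex.I * C d) * C (1 / 2) ^ 3 := by
    rw [← C_mul, ← C_mul, ← C_pow, ← C_add, ← C_sub, ← C_sub, ← C_mul]; congr 1; ring
  have g6 : (C Complex.I : MvPolynomial (Fin 2) ℂ) ^ 2 = -1 := by
    rw [← C_pow, Complex.I_sq, C_neg, C_1]
  have g7 : (C 3 : MvPolynomial (Fin 2) ℂ) = 3 := map_ofNat C 3
  unfold cA cB cC cD
  rw [g1, g2, g3, g4, g5, g7]
  linear_combination (C (1 / 2) ^ 3 * C (a₂ : ℂ) * (X 0 + X 1) * (X 0 - X 1) ^ 2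
    - C Complex.I * C (1 / 2) ^ 3 * C (a₃ : ℂ) * (X 0 - X 1) ^ 3) * g6

end

end B92
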