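import Mathlib
import Pool.Agent.Lib.B92.Red

/-!
# MP_b92fc8_an, module RedFin: the normal form of a fine focus of order five
-/

set_option autoImplicit false

open MvPolynomial

namespace B92

theorem cf_sub (f g : MvPolynomial (Fin 2) ℂ) (j k : ℤ) : cf (f - g) j k = cf f j k - cf g j k := by
  unfold cf; split_ifs <;> simp

theorem cf_powXY (j k : ℤ) :
    cf ((X 0 * X 1) ^ 6) j k = if j = 6 ∧ k = 6 then 1 else 0 := by
  have e : ((X 0 * X 1) ^ 6 : MvPolynomial (Fin 2) ℂ)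
      = X 0 * (X 0 * (X 0 * (X 0 * (X 0 * (X 0 * (X 1 * (X 1 * (X 1 * (X 1 * (X 1 *
        (X 1 * 1))))))))))) := by ring
  rw [e]
  simp only [cf_X0_mul, cf_X1_mul, cf_one]
  have h : (j - 1 - 1 - 1 - 1 - 1 - 1 = 0 ∧ k - 1 - 1 - 1 - 1 - 1 - 1 = 0) ↔ (j = 6 ∧ k = 6) := by
    omega
  simp only [h]

/-- The recursion for the Liapunov polynomial of a fine focus of order five. -/
theorem recursion_of_fineFocus {lam c : ℝ} {V : MvPolynomial (Fin 2) ℝ}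
    {a₀ a₁ a₂ a₃ b₀ b₁ b₂ b₃ : ℝ} {p q : MvPolynomial (Fin 2) ℝ}
    (hp : p = C a₀ * X 0 ^ 3 + C a₁ * X 0 ^ 2 * X 1 + C a₂ * X 0 * X 1 ^ 2 + C a₃ * X 1 ^ 3)
    (hq : q = C b₀ * X 0 ^ 3 + C b₁ * X 0 ^ 2 * X 1 + C b₂ * X 0 * X 1 ^ 2 + C b₃ * X 1 ^ 3)
    (hV : OrderGE 3 (V - (X 0 ^ 2 + X 1 ^ 2)))
    (hF : OrderGE 13 (orbitalDerivative lam p q V - C c * (X 0 ^ 2 + X 1 ^ 2) ^ 6))
    {c₀ c₁ c₂ c₃ d₀ d₁ d₂ d₃ : ℂ}
    (h0 : c₀ = a₀ + Complex.I * b₀) (h1 : c₁ = a₁ + Complex.I * b₁)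
    (h2 : c₂ = a₂ + Complex.I * b₂) (h3 : c₃ = a₃ + Complex.I * b₃)
    (k0 : d₀ = a₀ - Complex.I * b₀) (k1 : d₁ = a₁ - Complex.I * b₁)
    (k2 : d₂ = a₂ - Complex.I * b₂) (k3 : d₃ = a₃ - Complex.I * b₃) :
    lam = 0 ∧ ∃ v η : ℤ → ℤ → ℂ,
      FocRec (cA c₀ c₁ c₂ c₃) (cD d₀ d₁ d₂ d₃) (cB c₀ c₁ c₂ c₃) (cC d₀ d₁ d₂ d₃)
        (cC c₀ c₁ c₂ c₃) (cB d₀ d₁ d₂ d₃) (cD c₀ c₁ c₂ c₃) (cA d₀ d₁ d₂ d₃) v η ∧
      FocNorm v η c := by
  set G := phi V with hG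
  -- the complex field
  have g1 : (C (-Complex.I / 2) : MvPolynomial (Fin 2) ℂ) = -(C Complex.I * C (1 / 2)) := by
    rw [← C_mul, ← C_neg]; congr 1; ring
  have g6 : (C Complex.I : MvPolynomial (Fin 2) ℂ) ^ 2 = -1 := by
    rw [← C_pow, Complex.I_sq, C_neg, C_1]
  have e1 : (C (1 / 2) : MvPolynomial (Fin 2) ℂ) + C (1 / 2) = 1 := by
    rw [← C_add, ← C_1]; congr 1; norm_num
  have pX : phi (fieldX lam p) = C (lam : ℂ) * (C (1 / 2) * (X 0 + X 1))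
      + -(C Complex.I * C (1 / 2)) * (X 0 - X 1)
      + (C (cA a₀ a₁ a₂ a₃) * X 0 ^ 3 + C (cB a₀ a₁ a₂ a₃) * (X 0 ^ 2 * X 1)
        + C (cC a₀ a₁ a₂ a₃) * (X 0 * X 1 ^ 2) + C (cD a₀ a₁ a₂ a₃) * X 1 ^ 3) := by
    unfold fieldX
    rw [map_add phi, map_add phi, map_mul phi, phi_C, phi_X0, phi_X1, hp, phi_cubic, g1]
  have pY : phi (fieldY lam q) = -(C (1 / 2) * (X 0 + X 1))
      + C (lam : ℂ) * (-(C Complex.I * C (1 / 2)) * (X 0 - X 1))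
      + (C (cA b₀ b₁ b₂ b₃) * X 0 ^ 3 + C (cB b₀ b₁ b₂ b₃) * (X 0 ^ 2 * X 1)
        + C (cC b₀ b₁ b₂ b₃) * (X 0 * X 1 ^ 2) + C (cD b₀ b₁ b₂ b₃) * X 1 ^ 3) := by
    unfold fieldY
    rw [map_add phi, map_add phi, map_mul phi, map_neg phi, phi_C, phi_X0, phi_X1, hq,
      phi_cubic, g1]
  have qA : cA c₀ c₁ c₂ c₃ = cA a₀ a₁ a₂ a₃ + Complex.I * cA b₀ b₁ b₂ b₃ := by
    rw [h0, h1, h2, h3]; unfold cA; ring
  have qB : cB c₀ c₁ c₂ c₃ = cB a₀ a₁ a₂ a₃ + Complex.I * cB b₀ b₁ b₂ b₃ := by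
    rw [h0, h1, h2, h3]; unfold cB; ring
  have qC : cC c₀ c₁ c₂ c₃ = cC a₀ a₁ a₂ a₃ + Complex.I * cC b₀ b₁ b₂ b₃ := by
    rw [h0, h1, h2, h3]; unfold cC; ring
  have qD : cD c₀ c₁ c₂ c₃ = cD a₀ a₁ a₂ a₃ + Complex.I * cD b₀ b₁ b₂ b₃ := by
    rw [h0, h1, h2, h3]; unfold cD; ring
  have rA : cA d₀ d₁ d₂ d₃ = cA a₀ a₁ a₂ a₃ - Complex.I * cA b₀ b₁ b₂ b₃ := by
    rw [k0, k1, k2, k3]; unfold cA; ring
  have rB : cB d₀ d₁ d₂ d₃ = cB a₀ a₁ a₂ a₃ - Complex.I * cB b₀ b₁ b₂ b₃ := by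
    rw [k0, k1, k2, k3]; unfold cB; ring
  have rC : cC d₀ d₁ d₂ d₃ = cC a₀ a₁ a₂ a₃ - Complex.I * cC b₀ b₁ b₂ b₃ := by
    rw [k0, k1, k2, k3]; unfold cC; ring
  have rD : cD d₀ d₁ d₂ d₃ = cD a₀ a₁ a₂ a₃ - Complex.I * cD b₀ b₁ b₂ b₃ := by
    rw [k0, k1, k2, k3]; unfold cD; ring
  have hfX : phi (fieldX lam p) + C Complex.I * phi (fieldY lam q)
      = Fz ((lam : ℂ) - Complex.I) (cA c₀ c₁ c₂ c₃) (cB c₀ c₁ c₂ c₃) (cC c₀ c₁ c₂ c₃)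
        (cD c₀ c₁ c₂ c₃) := by
    unfold Fz
    rw [pX, pY, qA, qB, qC, qD]
    simp only [C_add, C_sub, C_mul]
    linear_combination ((C (lam : ℂ) - C Complex.I) * X 0) * e1
      - (C (lam : ℂ) * C (1 / 2) * (X 0 - X 1)) * g6
  have hfY : phi (fieldX lam p) - C Complex.I * phi (fieldY lam q)
      = Fw ((lam : ℂ) + Complex.I) (cD d₀ d₁ d₂ d₃) (cC d₀ d₁ d₂ d₃) (cB d₀ d₁ d₂ d₃)
        (cA d₀ d₁ d₂ d₃) := by
    unfold Fw
    rw [pX, pY, rA, rB, rC, rD]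
    simp only [C_add, C_sub, C_mul]
    linear_combination ((C (lam : ℂ) + C Complex.I) * X 1) * e1
      + (C (lam : ℂ) * C (1 / 2) * (X 0 - X 1)) * g6
  have horb : phi (orbitalDerivative lam p q V)
      = pderiv 0 G * Fz ((lam : ℂ) - Complex.I) (cA c₀ c₁ c₂ c₃) (cB c₀ c₁ c₂ c₃)
          (cC c₀ c₁ c₂ c₃) (cD c₀ c₁ c₂ c₃)
        + pderiv 1 G * Fw ((lam : ℂ) + Complex.I) (cD d₀ d₁ d₂ d₃) (cC d₀ d₁ d₂ d₃)
          (cB d₀ d₁ d₂ d₃) (cA d₀ d₁ d₂ d₃) := by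
    unfold orbitalDerivative
    rw [phi_orbital, hfX, hfY]
  -- low order coefficients
  have hGlow : ∀ j k : ℤ, j + k < 3 → cf G j k = if j = 1 ∧ k = 1 then 1 else 0 := by
    intro j k hjk
    have e1 := cf_phi_eq_zero hV j k (by exact_mod_cast hjk)
    rw [map_sub phi, phi_sq, cf_sub, ← hG] at e1
    have e2 : cf (X 0 * X 1) j k = if j = 1 ∧ k = 1 then 1 else 0 := by
      have e : (X 0 * X 1 : MvPolynomial (Fin 2) ℂ) = X 0 * (X 1 * 1) := by ring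
      rw [e, cf_X0_mul, cf_X1_mul, cf_one]
      have h : (j - 1 = 0 ∧ k - 1 = 0) ↔ (j = 1 ∧ k = 1) := by omega
      simp only [h]
    rw [e2] at e1
    exact sub_eq_zero.mp e1
  have hOlow : ∀ j k : ℤ, j + k ≤ 12 →
      cf (phi (orbitalDerivative lam p q V)) j k = if j = 6 ∧ k = 6 then (c : ℂ) else 0 := by
    intro j k hjk
    have e1 := cf_phi_eq_zero hF j k (by push_cast; omega)
    rw [map_sub phi, map_mul phi, phi_C, map_pow phi, phi_sq, cf_sub, cf_C_mul, cf_powXY] at e1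
    rw [sub_eq_zero.mp e1]
    split_ifs <;> simp
  -- λ = 0
  have hlam : lam = 0 := by
    have e1 := hOlow 1 1 (by norm_num)
    rw [horb, cf_orb] at e1
    have z1 : cf G (1 - 2) 1 = 0 := cf_neg1 _ _ _ (by norm_num)
    have z3 : cf G 1 (1 - 2) = 0 := cf_neg2 _ _ _ (by norm_num)
    have z4 : cf G (1 + 1) (1 - 3) = 0 := cf_neg2 _ _ _ (by norm_num)
    have z5 : cf G (1 - 3) (1 + 1) = 0 := cf_neg1 _ _ _ (by norm_num)
    have z6 : cf G 1 1 = 1 := by rw [hGlow 1 1 (by norm_num)]; simp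
    rw [z1, z3, z4, z5, z6, if_neg (by norm_num)] at e1
    push_cast at e1
    have : (2 * lam : ℂ) = 0 := by linear_combination e1
    have h2 : (2 * lam : ℝ) = 0 := by exact_mod_cast this
    linarith
  refine ⟨hlam, fun j k => Complex.I ^ ((j + k) / 2 - 1) * cf G j k,
    fun j k => Complex.I ^ ((j + k) / 2 - 2) * cf (phi (orbitalDerivative lam p q V)) j k, ?_, ?_⟩
  · intro j k hj hk hs he
    obtain ⟨m, hm⟩ := he
    have e1 := cf_orb G ((lam : ℂ) - Complex.I) ((lam : ℂ) + Complex.I) (cA c₀ c₁ c₂ c₃)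
      (cD d₀ d₁ d₂ d₃) (cB c₀ c₁ c₂ c₃) (cC d₀ d₁ d₂ d₃) (cC c₀ c₁ c₂ c₃) (cB d₀ d₁ d₂ d₃)
      (cD c₀ c₁ c₂ c₃) (cA d₀ d₁ d₂ d₃) j k
    rw [← horb] at e1
    have hl : (lam : ℂ) = 0 := by rw [hlam]; simp
    have i0 : (j + k) / 2 = m := by omega
    have i1 : (j - 2 + k) / 2 = m - 1 := by omega
    have i2 : (j - 1 + (k - 1)) / 2 = m - 1 := by omega
    have i3 : (j + (k - 2)) / 2 = m - 1 := by omega
    have i4 : (j + 1 + (k - 3)) / 2 = m - 1 := by omega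
    have i5 : (j - 3 + (k + 1)) / 2 = m - 1 := by omega
    show ((j : ℂ) - (k : ℂ)) * (Complex.I ^ ((j + k) / 2 - 1) * cf G j k)
      = (cA c₀ c₁ c₂ c₃ * ((j : ℂ) - 2) + cB d₀ d₁ d₂ d₃ * (k : ℂ))
          * (Complex.I ^ ((j - 2 + k) / 2 - 1) * cf G (j - 2) k)
        + (cB c₀ c₁ c₂ c₃ * ((j : ℂ) - 1) + cC d₀ d₁ d₂ d₃ * ((k : ℂ) - 1))
          * (Complex.I ^ ((j - 1 + (k - 1)) / 2 - 1) * cf G (j - 1) (k - 1))
        + (cC c₀ c₁ c₂ c₃ * (j : ℂ) + cD d₀ d₁ d₂ d₃ * ((k : ℂ) - 2))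
          * (Complex.I ^ ((j + (k - 2)) / 2 - 1) * cf G j (k - 2))
        + cD c₀ c₁ c₂ c₃ * ((j : ℂ) + 1)
          * (Complex.I ^ ((j + 1 + (k - 3)) / 2 - 1) * cf G (j + 1) (k - 3))
        + cA d₀ d₁ d₂ d₃ * ((k : ℂ) + 1)
          * (Complex.I ^ ((j - 3 + (k + 1)) / 2 - 1) * cf G (j - 3) (k + 1))
        - Complex.I ^ ((j + k) / 2 - 2) * cf (phi (orbitalDerivative lam p q V)) j k
    rw [i0, i1, i2, i3, i4, i5, e1]
    have e2 : Complex.I ^ (m - 1) = Complex.I ^ (m - 2) * Complex.I := by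
      nth_rewrite 3 [← zpow_one Complex.I]
      rw [← zpow_add₀ Complex.I_ne_zero]; congr 1; ring
    have e3 : m - 1 - 1 = m - 2 := by ring
    rw [e3, e2]
    linear_combination Complex.I ^ (m - 2) * ((j : ℂ) + k) * cf G j k * hl
  · constructor
    · intro j k hj
      show Complex.I ^ ((j + k) / 2 - 1) * cf G j k = 0
      rw [cf_neg1 _ _ _ hj, mul_zero]
    · intro j k hk
      show Complex.I ^ ((j + k) / 2 - 1) * cf G j k = 0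
      rw [cf_neg2 _ _ _ hk, mul_zero]
    · show Complex.I ^ (((1 : ℤ) + 1) / 2 - 1) * cf G 1 1 = 1
      rw [hGlow 1 1 (by norm_num)]; norm_num
    · show Complex.I ^ (((2 : ℤ) + 0) / 2 - 1) * cf G 2 0 = 0
      rw [hGlow 2 0 (by norm_num)]; norm_num
    · show Complex.I ^ (((0 : ℤ) + 2) / 2 - 1) * cf G 0 2 = 0
      rw [hGlow 0 2 (by norm_num)]; norm_num
    · intro j k hj hk hs hne
      show Complex.I ^ ((j + k) / 2 - 2) * cf (phi (orbitalDerivative lam p q V)) j k = 0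
      rw [hOlow j k hs, if_neg hne, mul_zero]
    · show Complex.I ^ (((6 : ℤ) + 6) / 2 - 2) * cf (phi (orbitalDerivative lam p q V)) 6 6 = c
      rw [hOlow 6 6 (by norm_num)]
      norm_num
      try
        left
        have : Complex.I ^ (4 : ℤ) = 1 := by
          have := Complex.I_pow_four
          exact_mod_cast this
        exact_mod_cast this

end B92
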