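import Mathlib
import Pool.Agent.Lib.B92.RedFin

/-!
# MP_b92fc8_an, module NormalForm

A system `(S)` whose origin is a fine focus of order five is, after a rotation and scaling
`x + i y = μ ζ`, the system `ζ' = -i ζ + 3 ζ³ + ζ ζ̄² + D ζ̄³` with `Re D ≠ 0`, `|D| ≠ 2`.
-/

set_option autoImplicit false

open MvPolynomial

namespace B92

theorem normalForm {lam : ℝ} {p q : MvPolynomial (Fin 2) ℝ} (hp : p.IsHomogeneous 3)
    (hq : q.IsHomogeneous 3) (h : IsFineFocus lam p q 5) :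
    ∃ μ D : ℂ, μ ≠ 0 ∧ D.re ≠ 0 ∧ D.re ^ 2 + D.im ^ 2 ≠ 4 ∧
      ∀ x y : ℝ, ∀ z : ℂ, μ * z = (x : ℂ) + Complex.I * (y : ℂ) →
        (((lam * x + y + eval ![x, y] p : ℝ) : ℂ)
          + Complex.I * ((-x + lam * y + eval ![x, y] q : ℝ) : ℂ))
          = μ * (-Complex.I * z + 3 * z ^ 3 + z * (starRingEnd ℂ z) ^ 2
            + D * (starRingEnd ℂ z) ^ 3) := by
  obtain ⟨a₀, a₁, a₂, a₃, ha⟩ := cubic_form p hp
  obtain ⟨b₀, b₁, b₂, b₃, hb⟩ := cubic_form q hq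
  obtain ⟨V, c, hc, hV, hF⟩ := h
  obtain ⟨hlam, v, η, hrec, hn⟩ := recursion_of_fineFocus ha hb hV hF rfl rfl rfl rfl rfl rfl rfl rfl
  set c₀ : ℂ := a₀ + Complex.I * b₀ with hc0
  set c₁ : ℂ := a₁ + Complex.I * b₁ with hc1
  set c₂ : ℂ := a₂ + Complex.I * b₂ with hc2
  set c₃ : ℂ := a₃ + Complex.I * b₃ with hc3
  set d₀ : ℂ := a₀ - Complex.I * b₀ with hd0
  set d₁ : ℂ := a₁ - Complex.I * b₁ with hd1
  set d₂ : ℂ := a₂ - Complex.I * b₂ with hd2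
  set d₃ : ℂ := a₃ - Complex.I * b₃ with hd3
  have s0 : starRingEnd ℂ c₀ = d₀ := by
    rw [hc0, hd0]; simp [Complex.conj_ofReal]; ring
  have s1 : starRingEnd ℂ c₁ = d₁ := by
    rw [hc1, hd1]; simp [Complex.conj_ofReal]; ring
  have s2 : starRingEnd ℂ c₂ = d₂ := by
    rw [hc2, hd2]; simp [Complex.conj_ofReal]; ring
  have s3 : starRingEnd ℂ c₃ = d₃ := by
    rw [hc3, hd3]; simp [Complex.conj_ofReal]; ring
  have hB' : cB d₀ d₁ d₂ d₃ = starRingEnd ℂ (cC c₀ c₁ c₂ c₃) := by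
    unfold cB cC
    simp only [map_div₀, map_add, map_mul, s0, s1, s2, s3, Complex.conj_I, map_ofNat]
    ring
  have hA' : cA d₀ d₁ d₂ d₃ = starRingEnd ℂ (cD c₀ c₁ c₂ c₃) := by
    unfold cA cD
    simp only [map_div₀, map_add, map_sub, map_mul, s0, s1, s2, s3, Complex.conj_I, map_ofNat]
    ring
  have hC0 : cC c₀ c₁ c₂ c₃ = 0 ↔ cB d₀ d₁ d₂ d₃ = 0 := by
    rw [hB']
    constructor
    · intro h; rw [h, map_zero]
    · intro h; exact (map_eq_zero (starRingEnd ℂ)).mp h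
  obtain ⟨hC, hall⟩ := foc_final hrec hn (by exact_mod_cast hc) hC0
  obtain ⟨s, hs⟩ := IsAlgClosed.exists_pow_nat_eq (cC c₀ c₁ c₂ c₃) (n := 2) (by norm_num)
  have hs0 : s ≠ 0 := by
    rintro rfl; apply hC; rw [← hs]; norm_num
  set μ' : ℂ := 1 / s with hμ'
  set μ : ℂ := starRingEnd ℂ μ' with hμ
  have hμ'0 : μ' ≠ 0 := by rw [hμ']; exact one_div_ne_zero hs0
  have hμ0 : μ ≠ 0 := by
    rw [hμ]; intro h; exact hμ'0 ((map_eq_zero (starRingEnd ℂ)).mp h)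
  have e1 : cC c₀ c₁ c₂ c₃ * μ' ^ 2 = 1 := by
    rw [← hs, hμ']; field_simp
  have e2 : cB d₀ d₁ d₂ d₃ * μ ^ 2 = 1 := by
    rw [hB', hμ, ← map_pow, ← map_mul, e1, map_one]
  obtain ⟨f1, f2, f3, f4, f5, f6⟩ := hall μ μ' e1 e2
  set D : ℂ := cD c₀ c₁ c₂ c₃ * μ' ^ 3 / μ with hD
  have hDc : cA d₀ d₁ d₂ d₃ * μ ^ 3 / μ' = starRingEnd ℂ D := by
    rw [hD, map_div₀, map_mul, ← hA', map_pow, ← hμ, hμ, Complex.conj_conj, ← hμ]
  rw [hDc] at f5 f6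
  refine ⟨μ, D, hμ0, ?_, ?_, ?_⟩
  · intro h0
    apply f5
    rw [Complex.add_conj, h0]
    simp
  · intro h0
    apply f6
    rw [Complex.mul_conj, Complex.normSq_apply]
    have : D.re * D.re + D.im * D.im = 4 := by nlinarith [h0]
    rw [this]; norm_num
  · intro x y z hz
    have hz' : μ' * starRingEnd ℂ z = (x : ℂ) - Complex.I * (y : ℂ) := by
      have h1 := congrArg (starRingEnd ℂ) hz
      rw [map_mul, map_add, map_mul, hμ, Complex.conj_conj, Complex.conj_ofReal,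
        Complex.conj_ofReal, Complex.conj_I] at h1
      rw [h1]; ring
    set w : ℂ := starRingEnd ℂ z with hw
    have ep : ((eval ![x, y] p : ℝ) : ℂ) = a₀ * x ^ 3 + a₁ * x ^ 2 * y + a₂ * x * y ^ 2
        + a₃ * y ^ 3 := by
      rw [ha]; simp
    have eq : ((eval ![x, y] q : ℝ) : ℂ) = b₀ * x ^ 3 + b₁ * x ^ 2 * y + b₂ * x * y ^ 2
        + b₃ * y ^ 3 := by
      rw [hb]; simp
    have hx : (x : ℂ) = (μ * z + μ' * w) / 2 := by rw [hz, hz']; ring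
    have hy : (y : ℂ) = -Complex.I * (μ * z - μ' * w) / 2 := by
      rw [hz, hz']
      linear_combination (y : ℂ) * Complex.I_sq
    -- the cubic part in complex form
    have hcub : ((eval ![x, y] p : ℝ) : ℂ) + Complex.I * ((eval ![x, y] q : ℝ) : ℂ)
        = cA c₀ c₁ c₂ c₃ * (μ * z) ^ 3 + cB c₀ c₁ c₂ c₃ * ((μ * z) ^ 2 * (μ' * w))
          + cC c₀ c₁ c₂ c₃ * ((μ * z) * (μ' * w) ^ 2) + cD c₀ c₁ c₂ c₃ * (μ' * w) ^ 3 := by
      rw [ep, eq]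
      have : (a₀ * x ^ 3 + a₁ * x ^ 2 * y + a₂ * x * y ^ 2 + a₃ * y ^ 3
          + Complex.I * (b₀ * x ^ 3 + b₁ * x ^ 2 * y + b₂ * x * y ^ 2 + b₃ * y ^ 3) : ℂ)
          = c₀ * x ^ 3 + c₁ * x ^ 2 * y + c₂ * x * y ^ 2 + c₃ * y ^ 3 := by
        rw [hc0, hc1, hc2, hc3]; ring
      rw [this, hx, hy]
      unfold cA cB cC cD
      have hI3 : Complex.I ^ 3 = -Complex.I := Complex.I_pow_three
      generalize μ * z = Z
      generalize μ' * w = W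
      linear_combination (c₂ * (Z + W) * (Z - W) ^ 2 / 8) * Complex.I_sq
        - (c₃ * (Z - W) ^ 3 / 8) * hI3
    push_cast
    have g1 : cA c₀ c₁ c₂ c₃ * (μ * z) ^ 3 = μ * (3 * z ^ 3) := by
      linear_combination (μ * z ^ 3) * f1
    have g2 : cC c₀ c₁ c₂ c₃ * ((μ * z) * (μ' * w) ^ 2) = μ * (z * w ^ 2) := by
      linear_combination (μ * z * w ^ 2) * e1
    have g3 : cD c₀ c₁ c₂ c₃ * (μ' * w) ^ 3 = μ * (D * w ^ 3) := by
      rw [hD]; field_simp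
    have hl : (lam : ℂ) = 0 := by rw [hlam]; simp
    have key : (lam * x + y + ((eval ![x, y] p : ℝ) : ℂ)
        + Complex.I * (-x + lam * y + ((eval ![x, y] q : ℝ) : ℂ)) : ℂ)
        = -Complex.I * (x + Complex.I * y) + (((eval ![x, y] p : ℝ) : ℂ)
          + Complex.I * ((eval ![x, y] q : ℝ) : ℂ)) := by
      rw [hl]
      linear_combination (y : ℂ) * Complex.I_sq
    rw [key, hcub, ← hz, f3, g1, g2, g3]
    ring

end B92
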