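import Mathlib
import Pool.Agent.Lib.B92.NormalForm

/-!
# MP_b92fc8_an, module Cone: the quotient system on the cone `U² = Y² + W²`

`U = 4|ζ|²`, `W = -4 Re ζ²`, `Y = -4 Im ζ²`, `l = Re D / 2`, `κ = -Im D / 2`.
-/

set_option autoImplicit false

open MvPolynomial

namespace B92

/-- Solutions of the quotient system. -/
def ConeSol (κ l : ℝ) (U Y W : ℝ → ℝ) : Prop :=
  ∀ t : ℝ,
    HasDerivAt U (-2 * W t * (U t + κ * Y t) + l * (W t ^ 2 - Y t ^ 2)) t ∧
    HasDerivAt Y (-W t * (2 + κ * U t + 3 * Y t) - l * U t * Y t) t ∧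
    HasDerivAt W (2 * Y t - 2 * U t ^ 2 + 3 * Y t ^ 2 - κ * U t * Y t + l * U t * W t) t

/-- A nonconstant periodic orbit of the quotient system on the cone (away from the apex). -/
structure ConeOrbit (κ l : ℝ) (U Y W : ℝ → ℝ) (T : ℝ) : Prop where
  sol : ConeSol κ l U Y W
  pos : ∀ t, 0 < U t
  cone : ∀ t, U t ^ 2 = Y t ^ 2 + W t ^ 2
  hT : 0 < T
  perU : ∀ t, U (t + T) = U t
  perY : ∀ t, Y (t + T) = Y t
  perW : ∀ t, W (t + T) = W t
  nonconst : ∃ t, Y t ≠ Y 0 ∨ W t ≠ W 0

/-- Reflection `(W, t, l) ↦ (-W, -t, -l)`. -/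
theorem ConeOrbit.reflect {κ l : ℝ} {U Y W : ℝ → ℝ} {T : ℝ} (h : ConeOrbit κ l U Y W T) :
    ConeOrbit κ (-l) (fun t => U (-t)) (fun t => Y (-t)) (fun t => -W (-t)) T where
  sol := by
    intro t
    obtain ⟨h1, h2, h3⟩ := h.sol (-t)
    have hneg : HasDerivAt (fun s : ℝ => -s) (-1) t := (hasDerivAt_id t).neg
    refine ⟨?_, ?_, ?_⟩
    · have := h1.comp t hneg
      refine this.congr_deriv ?_
      ring
    · have := h2.comp t hneg
      refine this.congr_deriv ?_
      ring
    · have := (h3.comp t hneg).neg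
      refine this.congr_deriv ?_
      ring
  pos := fun t => h.pos (-t)
  cone := fun t => by rw [h.cone (-t)]; ring
  hT := h.hT
  perU := fun t => by
    have := h.perU (-(t + T)); rw [neg_add, neg_add_cancel_right] at this
    rw [neg_add]; exact this.symm
  perY := fun t => by
    have := h.perY (-(t + T)); rw [neg_add, neg_add_cancel_right] at this
    rw [neg_add]; exact this.symm
  perW := fun t => by
    have := h.perW (-(t + T)); rw [neg_add, neg_add_cancel_right] at this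
    rw [neg_add, this]
  nonconst := by
    obtain ⟨t, ht⟩ := h.nonconst
    refine ⟨-t, ?_⟩
    simp only [neg_neg, neg_zero]
    rcases ht with ht | ht
    · exact Or.inl ht
    · exact Or.inr fun h' => ht (neg_injective h')

/-- The quotient system for a solution of the normal form (real coordinates). -/
theorem coneSol_of_real {P Q : ℝ} {a b : ℝ → ℝ}
    (ha : ∀ t, HasDerivAt a (b t + 3 * (a t ^ 3 - 3 * a t * b t ^ 2)
      + (a t ^ 2 + b t ^ 2) * a t
      + (P * (a t ^ 3 - 3 * a t * b t ^ 2) + Q * (3 * a t ^ 2 * b t - b t ^ 3))) t)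
    (hb : ∀ t, HasDerivAt b (-a t + 3 * (3 * a t ^ 2 * b t - b t ^ 3)
      - (a t ^ 2 + b t ^ 2) * b t
      + (Q * (a t ^ 3 - 3 * a t * b t ^ 2) - P * (3 * a t ^ 2 * b t - b t ^ 3))) t) :
    ConeSol (-Q / 2) (P / 2) (fun t => 4 * (a t ^ 2 + b t ^ 2)) (fun t => -(8 * (a t * b t)))
      (fun t => -(4 * (a t ^ 2 - b t ^ 2))) := by
  intro t
  have h1 := ha t
  have h2 := hb t
  refine ⟨?_, ?_, ?_⟩
  · have h3 := ((h1.pow 2).add (h2.pow 2)).const_mul 4
    refine h3.congr_deriv ?_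
    simp only []
    ring
  · have h3 := ((h1.mul h2).const_mul 8).neg
    refine h3.congr_deriv ?_
    ring
  · have h3 := (((h1.pow 2).sub (h2.pow 2)).const_mul 4).neg
    refine h3.congr_deriv ?_
    simp only []
    ring

end B92
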