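import Mathlib
import Pool.Agent.Lib.B92.Cone

/-!
# MP_b92fc8_an, module Bend: a closed orbit on the cone meets both `W > 0` and `W < 0`

Instead of the criterion of Bendixson-Dulac we use the function
`V = K + M(Y/U)`, `K = U + U² γ/4`, `M' = -5/γ²`, which is monotone along an orbit in `W ≥ 0`.
-/

set_option autoImplicit false

namespace B92

theorem no_return {f f' : ℝ → ℝ} (hf : ∀ t, HasDerivAt f (f' t) t) {a b : ℝ} (hab : a < b)
    (ha : f a = 0) (hb : f b = 0) (h : ∀ t, f t = 0 → f' t < 0) : False := by
  have hle : ∀ x ∈ Set.Icc a b, f x ≤ (fun _ => (0 : ℝ)) x := by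
    intro x hx
    exact image_le_of_deriv_right_lt_deriv_boundary (B := fun _ => (0 : ℝ)) (B' := fun _ => 0)
      (fun t _ => (hf t).continuousAt.continuousWithinAt)
      (fun t _ => (hf t).hasDerivWithinAt) ha.le (fun t => hasDerivAt_const _ _)
      (fun t _ ht => h t ht) hx
  have h1 := h b hb
  -- near `b` on the left `f > 0`
  have h2 : ∀ᶠ t in nhdsWithin b (Set.Iio b), 0 < f t := by
    have h3 : Filter.Tendsto (slope f b) (nhdsWithin b {b}ᶜ) (nhds (f' b)) :=
      hasDerivAt_iff_tendsto_slope.mp (hf b)
    have h4 : Filter.Tendsto (slope f b) (nhdsWithin b (Set.Iio b)) (nhds (f' b)) :=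
      h3.mono_left (nhdsWithin_mono _ (fun x hx => ne_of_lt hx))
    have h5 := h4.eventually (gt_mem_nhds h1)
    filter_upwards [h5, self_mem_nhdsWithin] with t ht1 ht2
    rw [slope_def_field, hb, sub_zero] at ht1
    have h6 : t - b < 0 := sub_neg.mpr ht2
    by_contra h7
    push Not at h7
    have : 0 ≤ f t / (t - b) := div_nonneg_of_nonpos h7 h6.le
    linarith
  have h3 : ∀ᶠ t in nhdsWithin b (Set.Iio b), t ∈ Set.Icc a b := by
    filter_upwards [Ioo_mem_nhdsLT hab] with t ht
    exact ⟨ht.1.le, ht.2.le⟩
  obtain ⟨t, ht1, ht2⟩ := (h2.and h3).exists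
  exact absurd (hle t ht2) (not_le.mpr ht1)

/-- `γ(x) = κ cos 2ψ + sin ψ + l sin 2ψ` for `x = sin ψ`, `cos ψ ≥ 0`. -/
noncomputable def gam (κ l x : ℝ) : ℝ := κ * (1 - 2 * x ^ 2) + x + 2 * l * x * Real.sqrt (1 - x ^ 2)

theorem gam_cont (κ l : ℝ) : Continuous (gam κ l) := by unfold gam; fun_prop

theorem no_orbit_nonneg {κ l : ℝ} {U Y W : ℝ → ℝ} {T : ℝ} (h : ConeOrbit κ l U Y W T)
    (hW : ∀ t, 0 ≤ W t) : False := by
  have hU := h.pos
  set N : ℝ → ℝ := fun t => 2 * U t + κ * (W t ^ 2 - Y t ^ 2) + U t * Y t + 2 * l * Y t * W t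
    with hN
  set x : ℝ → ℝ := fun t => Y t / U t with hx
  have hYx : ∀ t, Y t = U t * x t := fun t => by rw [hx]; field_simp [(hU t).ne']
  have hWx : ∀ t, W t = U t * Real.sqrt (1 - x t ^ 2) := by
    intro t
    have h1 : 1 - x t ^ 2 = (W t / U t) ^ 2 := by
      rw [hx]
      have := h.cone t
      field_simp [(hU t).ne']
      linarith
    rw [h1, Real.sqrt_sq (div_nonneg (hW t) (hU t).le)]
    field_simp [(hU t).ne']
  have hNg : ∀ t, N t = U t * (2 + U t * gam κ l (x t)) := by
    intro t
    have h1 : Real.sqrt (1 - x t ^ 2) ^ 2 = 1 - x t ^ 2 := by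
      apply Real.sq_sqrt
      have := h.cone t
      rw [hx]
      have h2 : (Y t / U t) ^ 2 ≤ 1 := by
        rw [div_pow, div_le_one (by have := hU t; positivity)]
        nlinarith [sq_nonneg (W t)]
      linarith
    simp only [hN]
    rw [hYx t, hWx t]
    unfold gam
    linear_combination (κ * U t ^ 2) * h1
  -- derivatives
  have hxd : ∀ t, HasDerivAt x (-(W t * N t) / U t ^ 2) t := by
    intro t
    obtain ⟨h1, h2, h3⟩ := h.sol t
    have h4 := h2.div h1 (hU t).ne'
    refine h4.congr_deriv ?_
    congr 1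
    simp only [hN]
    have := h.cone t
    linear_combination (-(W t * κ + l * Y t)) * this
  have hKd : ∀ t, HasDerivAt (fun s => U s + (κ * (W s ^ 2 - Y s ^ 2) + U s * Y s
      + 2 * l * Y s * W s) / 4) (-(5 / 4) * (W t * N t)) t := by
    intro t
    obtain ⟨h1, h2, h3⟩ := h.sol t
    have h4 := h1.add (((((h3.pow 2).sub (h2.pow 2)).const_mul κ).add (h1.mul h2)).add
      ((h2.const_mul (2 * l)).mul h3) |>.div_const 4)
    refine h4.congr_deriv ?_
    simp only [hN]
    have := h.cone t
    linear_combination (-(5 / 4) * l * Y t - (5 / 4) * κ * W t) * this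
  -- `γ < 0` along the orbit
  have hgneg : ∀ t, gam κ l (x t) < 0 := by
    intro t₀
    by_contra hcon
    push Not at hcon
    have hkey : ∀ t, x t - x t₀ = 0 → -(W t * N t) / U t ^ 2 < 0 := by
      intro t ht
      have hxt : x t = x t₀ := sub_eq_zero.mp ht
      have h1 : 0 ≤ gam κ l (x t) := by rw [hxt]; exact hcon
      have h2 : 0 < N t := by
        rw [hNg t]; have := hU t; positivity
      have h3 : 0 < W t := by
        rcases (hW t).lt_or_eq with h4 | h4
        · exact h4
        · exfalso
          -- `W t = 0` is a minimum of `W`, so `W' t = 0`, hence `N t = 0`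
          have h5 : IsLocalMin W t := Filter.Eventually.of_forall fun s => by
            rw [← h4]; exact hW s
          have h6 := h5.hasDerivAt_eq_zero (h.sol t).2.2
          have hc := h.cone t
          have hUt := hU t
          simp only [hN] at h2
          rw [← h4] at h6 hc h2
          have hY2 : Y t ^ 2 = U t ^ 2 := by linarith
          have hYne : Y t ≠ 0 := by
            intro h0; rw [h0] at hY2; nlinarith
          -- `2Y - 2U² + 3Y² - κUY = Y (2 + Y - κU)`
          have h7 : Y t * (2 + Y t - κ * U t) = 0 := by nlinarith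
          have h8 : 2 + Y t - κ * U t = 0 := (mul_eq_zero.mp h7).resolve_left hYne
          have h9 : 2 * U t + κ * (0 ^ 2 - Y t ^ 2) + U t * Y t + 2 * l * Y t * 0 = 0 := by
            rw [hY2]; linear_combination U t * h8
          linarith
      have h5 : 0 < W t * N t := mul_pos h3 h2
      have h6 := hU t
      rw [neg_div]
      exact neg_neg_of_pos (by positivity)
    have hper : x (t₀ + T) = x t₀ := by rw [hx]; (try simp only []); rw [h.perY, h.perU]
    exact no_return (f := fun s => x s - x t₀) (fun s => (hxd s).sub_const _)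
      (a := t₀) (b := t₀ + T) (by linarith [h.hT]) (by simp) (by simp [hper]) hkey
  -- the primitive of `-5/γ²`
  set M : ℝ → ℝ := fun s => ∫ r in (x 0)..s, -5 / gam κ l r ^ 2 with hM
  have hxc : Continuous x := continuous_iff_continuousAt.mpr fun t => (hxd t).continuousAt
  have hMd : ∀ t, HasDerivAt M (-5 / gam κ l (x t) ^ 2) (x t) := by
    intro t
    have hne : ∀ r ∈ Set.uIcc (x 0) (x t), gam κ l r ≠ 0 := by
      intro r hr
      obtain ⟨s, _, hs⟩ := intermediate_value_uIcc (a := 0) (b := t) hxc.continuousOn hr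
      rw [← hs]; exact (hgneg s).ne
    have hcont : ContinuousOn (fun r => -5 / gam κ l r ^ 2) (Set.uIcc (x 0) (x t)) :=
      continuousOn_const.div ((gam_cont κ l).continuousOn.pow 2) fun r hr => pow_ne_zero 2 (hne r hr)
    refine intervalIntegral.integral_hasDerivAt_right hcont.intervalIntegrable ?_ ?_
    · exact (Measurable.div measurable_const
        ((gam_cont κ l).measurable.pow_const 2)).stronglyMeasurable.stronglyMeasurableAtFilter
    · exact continuousAt_const.div ((gam_cont κ l).continuousAt.pow 2)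
        (pow_ne_zero 2 (hgneg t).ne)
  -- the monotone function
  set V : ℝ → ℝ := fun t => (U t + (κ * (W t ^ 2 - Y t ^ 2) + U t * Y t
      + 2 * l * Y t * W t) / 4) + M (x t) with hV
  have hVd : ∀ t, HasDerivAt V
      (5 * W t * N t ^ 2 * (2 - U t * gam κ l (x t)) / (4 * gam κ l (x t) ^ 2 * U t ^ 3)) t := by
    intro t
    have h1 := (hKd t).add ((hMd t).comp t (hxd t))
    refine h1.congr_deriv ?_
    have h2 := (hgneg t).ne
    have h3 := (hU t).ne'
    have h4 := hNg t
    field_simp
    rw [h4]
    ring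
  have hVnn : ∀ t, 0 ≤ 5 * W t * N t ^ 2 * (2 - U t * gam κ l (x t))
      / (4 * gam κ l (x t) ^ 2 * U t ^ 3) := by
    intro t
    have h1 := hgneg t
    have h2 := hU t
    have h3 : 0 < 2 - U t * gam κ l (x t) := by nlinarith
    have h4 := hW t
    positivity
  have hVmono : Monotone V := by
    refine monotone_of_deriv_nonneg (fun t => (hVd t).differentiableAt) fun t => ?_
    rw [(hVd t).deriv]; exact hVnn t
  have hVper : ∀ t, V (t + T) = V t := by
    intro t
    have hxp : x (t + T) = x t := by rw [hx]; (try simp only []); rw [h.perY, h.perU]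
    rw [hV]; (try simp only []); rw [h.perU, h.perY, h.perW, hxp]
  have hVconst : ∀ t, HasDerivAt V 0 t := by
    intro t
    have h1 : ∀ s ∈ Set.Icc (t - T) t, V s = V t := by
      intro s hs
      have h2 : V s ≤ V t := hVmono hs.2
      have h3 : V (t - T) ≤ V s := hVmono hs.1
      have h4 : V (t - T + T) = V (t - T) := hVper (t - T)
      rw [sub_add_cancel] at h4
      linarith
    have h5 : ∀ s ∈ Set.Icc t (t + T), V s = V t := by
      intro s hs
      have h2 : V t ≤ V s := hVmono hs.1
      have h3 : V s ≤ V (t + T) := hVmono hs.2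
      have h4 := hVper t
      linarith
    have h6 : V =ᶠ[nhds t] fun _ => V t := by
      have : Set.Ioo (t - T) (t + T) ∈ nhds t :=
        Ioo_mem_nhds (by linarith [h.hT]) (by linarith [h.hT])
      filter_upwards [this] with s hs
      rcases le_total s t with h7 | h7
      · exact h1 s ⟨hs.1.le, h7⟩
      · exact h5 s ⟨h7, hs.2.le⟩
    exact (hasDerivAt_const t (V t)).congr_of_eventuallyEq h6
  have hWN : ∀ t, W t * N t = 0 := by
    intro t
    have h1 := (hVd t).unique (hVconst t)
    have h2 := hgneg t
    have h3 := hU t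
    have h4 : 0 < 2 - U t * gam κ l (x t) := by nlinarith
    have h5 : 0 < 4 * gam κ l (x t) ^ 2 * U t ^ 3 := by
      have := h2.ne
      positivity
    have h6 : 5 * W t * N t ^ 2 * (2 - U t * gam κ l (x t)) = 0 := by
      rcases div_eq_zero_iff.mp h1 with h7 | h7
      · exact h7
      · exact absurd h7 h5.ne'
    have h7 : W t * N t ^ 2 = 0 := by
      have : (W t * N t ^ 2) * (5 * (2 - U t * gam κ l (x t))) = 0 := by linarith
      exact (mul_eq_zero.mp this).resolve_right (mul_pos (by norm_num) h4).ne'
    rcases mul_eq_zero.mp h7 with h8 | h8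
    · rw [h8, zero_mul]
    · rw [pow_eq_zero_iff (by norm_num)] at h8; rw [h8, mul_zero]
  -- everything is constant
  have hxconst : ∀ t, x t = x 0 := by
    intro t
    refine is_const_of_deriv_eq_zero (fun s => (hxd s).differentiableAt) (fun s => ?_) t 0
    rw [(hxd s).deriv, hWN s]; simp
  have hUconst : ∀ t, U t = U 0 := by
    rcases (Real.sqrt_nonneg (1 - x 0 ^ 2)).lt_or_eq with h1 | h1
    · have h2 : ∀ t, U t = -2 / gam κ l (x 0) := by
        intro t
        have h3 : 0 < W t := by rw [hWx t, hxconst t]; exact mul_pos (hU t) h1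
        have h4 : N t = 0 := (mul_eq_zero.mp (hWN t)).resolve_left h3.ne'
        rw [hNg t] at h4
        have h5 : 2 + U t * gam κ l (x t) = 0 := (mul_eq_zero.mp h4).resolve_left (hU t).ne'
        rw [hxconst t] at h5
        have h6 := (hgneg 0).ne
        field_simp
        linarith
      intro t; rw [h2 t, h2 0]
    · have hW0 : ∀ t, W t = 0 := fun t => by rw [hWx t, hxconst t, ← h1, mul_zero]
      have h2 : ∀ t, U t = -2 / gam κ l (x 0) := by
        intro t
        have h6 : HasDerivAt W 0 t := by
          have : W = fun _ => 0 := funext hW0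
          rw [this]; exact hasDerivAt_const _ _
        have h7 := (h.sol t).2.2.unique h6
        rw [hW0 t] at h7
        have hc := h.cone t
        rw [hW0 t] at hc
        have hUt := hU t
        have hY2 : Y t ^ 2 = U t ^ 2 := by linarith
        have hYne : Y t ≠ 0 := by
          intro h0; rw [h0] at hY2; nlinarith
        have h8 : Y t * (2 + Y t - κ * U t) = 0 := by nlinarith
        have h9 : 2 + Y t - κ * U t = 0 := (mul_eq_zero.mp h8).resolve_left hYne
        have h10 : N t = 0 := by
          simp only [hN]; rw [hW0 t, hY2]; linear_combination U t * h9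
        rw [hNg t] at h10
        have h5 : 2 + U t * gam κ l (x t) = 0 := (mul_eq_zero.mp h10).resolve_left (hU t).ne'
        rw [hxconst t] at h5
        have h6 := (hgneg 0).ne
        field_simp
        linarith
      intro t; rw [h2 t, h2 0]
  obtain ⟨t, ht⟩ := h.nonconst
  rcases ht with ht | ht
  · apply ht; rw [hYx t, hYx 0, hxconst t, hUconst t]
  · apply ht; rw [hWx t, hWx 0, hxconst t, hUconst t]

/-- Every closed orbit on the cone takes values `W < 0`. -/
theorem exists_neg {κ l : ℝ} {U Y W : ℝ → ℝ} {T : ℝ} (h : ConeOrbit κ l U Y W T) :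
    ∃ t, W t < 0 := by
  by_contra hcon
  push Not at hcon
  exact no_orbit_nonneg h hcon

/-- Every closed orbit on the cone takes values `W > 0`. -/
theorem exists_pos {κ l : ℝ} {U Y W : ℝ → ℝ} {T : ℝ} (h : ConeOrbit κ l U Y W T) :
    ∃ t, 0 < W t := by
  obtain ⟨t, ht⟩ := exists_neg h.reflect
  exact ⟨-t, by simpa using ht⟩

end B92
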