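import Mathlib
import Pool.Agent.Lib.B92.Cone

/-!
# MP_b92fc8_an, module ConeFin: a periodic orbit of `(S)` gives a periodic orbit on the cone
-/

set_option autoImplicit false

open MvPolynomial

namespace B92

/-- A nonnegative periodic function with `|f'| ≤ K f` on each period vanishes identically if
it vanishes once. -/
theorem zero_of_zero {f f' : ℝ → ℝ} {K : ℝ} (hf : ∀ t, HasDerivAt f (f' t) t)
    (h0 : ∀ t, 0 ≤ f t) (hK : ∀ t, |f' t| ≤ K * f t) {t₀ : ℝ} (hz : f t₀ = 0) :
    ∀ t, f t = 0 := by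
  have hE1 : ∀ t, HasDerivAt (fun s => f s * Real.exp (-K * s))
      ((f' t - K * f t) * Real.exp (-K * t)) t := by
    intro t
    have h1 : HasDerivAt (fun s : ℝ => Real.exp (-K * s)) (Real.exp (-K * t) * (-K)) t := by
      have := ((hasDerivAt_id t).const_mul (-K)).exp
      simpa using this
    refine ((hf t).mul h1).congr_deriv ?_
    ring
  have hE2 : ∀ t, HasDerivAt (fun s => f s * Real.exp (K * s))
      ((f' t + K * f t) * Real.exp (K * t)) t := by
    intro t
    have h1 : HasDerivAt (fun s : ℝ => Real.exp (K * s)) (Real.exp (K * t) * K) t := by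
      have := ((hasDerivAt_id t).const_mul K).exp
      simpa using this
    refine ((hf t).mul h1).congr_deriv ?_
    ring
  have hanti : Antitone (fun s => f s * Real.exp (-K * s)) := by
    refine antitone_of_deriv_nonpos (fun t => (hE1 t).differentiableAt) fun t => ?_
    rw [(hE1 t).deriv]
    have := hK t
    have h2 : f' t - K * f t ≤ 0 := by linarith [le_abs_self (f' t)]
    exact mul_nonpos_of_nonpos_of_nonneg h2 (Real.exp_pos _).le
  have hmono : Monotone (fun s => f s * Real.exp (K * s)) := by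
    refine monotone_of_deriv_nonneg (fun t => (hE2 t).differentiableAt) fun t => ?_
    rw [(hE2 t).deriv]
    have := hK t
    have h2 : 0 ≤ f' t + K * f t := by linarith [neg_abs_le (f' t)]
    exact mul_nonneg h2 (Real.exp_pos _).le
  intro t
  rcases le_total t₀ t with h | h
  · have h1 : f t * Real.exp (-K * t) ≤ f t₀ * Real.exp (-K * t₀) := hanti h
    rw [hz, zero_mul] at h1
    have h2 : 0 ≤ f t * Real.exp (-K * t) := mul_nonneg (h0 t) (Real.exp_pos _).le
    have h3 : f t * Real.exp (-K * t) = 0 := le_antisymm h1 h2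
    exact (mul_eq_zero.mp h3).resolve_right (Real.exp_pos _).ne'
  · have h1 : f t * Real.exp (K * t) ≤ f t₀ * Real.exp (K * t₀) := hmono h
    rw [hz, zero_mul] at h1
    have h2 : 0 ≤ f t * Real.exp (K * t) := mul_nonneg (h0 t) (Real.exp_pos _).le
    have h3 : f t * Real.exp (K * t) = 0 := le_antisymm h1 h2
    exact (mul_eq_zero.mp h3).resolve_right (Real.exp_pos _).ne'

/-- A continuous periodic function is bounded above. -/
theorem bdd_of_periodic {f : ℝ → ℝ} {T : ℝ} (hT : 0 < T) (hc : Continuous f)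
    (hp : ∀ t, f (t + T) = f t) : ∃ M, ∀ t, f t ≤ M := by
  have hper : Function.Periodic f T := hp
  obtain ⟨M, hM⟩ := (isCompact_Icc (a := (0 : ℝ)) (b := 0 + T)).bddAbove_image hc.continuousOn
  refine ⟨M, fun t => ?_⟩
  obtain ⟨y, hy, hfy⟩ := hper.exists_mem_Ico₀ hT t
  rw [hfy]
  exact hM ⟨y, ⟨hy.1, by linarith [hy.2.le]⟩, rfl⟩

/-- **Passage to the cone.** -/
theorem cone_of_periodic {lam : ℝ} {p q : MvPolynomial (Fin 2) ℝ} (hp : p.IsHomogeneous 3)
    (hq : q.IsHomogeneous 3) (h : IsFineFocus lam p q 5) {x y : ℝ → ℝ}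
    (hsol : IsSolution lam p q x y) {T : ℝ} (hT : 0 < T)
    (hper : ∀ t, x (t + T) = x t ∧ y (t + T) = y t)
    (hnc : ∃ t, (x t, y t) ≠ (x 0, y 0)) :
    ∃ (κ l : ℝ) (U Y W : ℝ → ℝ), l ≠ 0 ∧ κ ^ 2 + l ^ 2 ≠ 1 ∧ ConeOrbit κ l U Y W T := by
  obtain ⟨μ, D, hμ, hD1, hD2, hnf⟩ := normalForm hp hq h
  set z : ℝ → ℂ := fun t => ((x t : ℂ) + Complex.I * (y t : ℂ)) / μ with hz
  have hμz : ∀ t, μ * z t = (x t : ℂ) + Complex.I * (y t : ℂ) := by
    intro t; rw [hz]; field_simp
  have hzd : ∀ t, HasDerivAt z (-Complex.I * z t + 3 * z t ^ 3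
      + z t * (starRingEnd ℂ (z t)) ^ 2 + D * (starRingEnd ℂ (z t)) ^ 3) t := by
    intro t
    obtain ⟨h1, h2⟩ := hsol t
    have h3 := (h1.ofReal_comp.add (h2.ofReal_comp.const_mul Complex.I)).div_const μ
    refine h3.congr_deriv ?_
    rw [hnf (x t) (y t) (z t) (hμz t)]
    field_simp
  set a : ℝ → ℝ := fun t => (z t).re with ha
  set b : ℝ → ℝ := fun t => (z t).im with hb
  have hzab : ∀ t, z t = (a t : ℂ) + (b t : ℂ) * Complex.I := fun t => (Complex.re_add_im _).symm
  have had : ∀ t, HasDerivAt a (b t + 3 * (a t ^ 3 - 3 * a t * b t ^ 2)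
      + (a t ^ 2 + b t ^ 2) * a t
      + (D.re * (a t ^ 3 - 3 * a t * b t ^ 2) + D.im * (3 * a t ^ 2 * b t - b t ^ 3))) t := by
    intro t
    have h1 := Complex.reCLM.hasFDerivAt.comp_hasDerivAt t (hzd t)
    refine h1.congr_deriv ?_
    simp only [Complex.reCLM_apply]
    simp [pow_succ, Complex.mul_re, Complex.mul_im, ha, hb]
    ring
  have hbd : ∀ t, HasDerivAt b (-a t + 3 * (3 * a t ^ 2 * b t - b t ^ 3)
      - (a t ^ 2 + b t ^ 2) * b t
      + (D.im * (a t ^ 3 - 3 * a t * b t ^ 2) - D.re * (3 * a t ^ 2 * b t - b t ^ 3))) t := by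
    intro t
    have h1 := Complex.imCLM.hasFDerivAt.comp_hasDerivAt t (hzd t)
    refine h1.congr_deriv ?_
    simp only [Complex.imCLM_apply]
    simp [pow_succ, Complex.mul_re, Complex.mul_im, ha, hb]
    ring
  have hcs := coneSol_of_real had hbd
  have hperz : ∀ t, z (t + T) = z t := by
    intro t; rw [hz]; (try simp only []); rw [(hper t).1, (hper t).2]
  have hpera : ∀ t, a (t + T) = a t := fun t => by rw [ha]; (try simp only []); rw [hperz]
  have hperb : ∀ t, b (t + T) = b t := fun t => by rw [hb]; (try simp only []); rw [hperz]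
  -- constant `z` is excluded
  have hzc : ¬ (∀ t, z t = z 0) := by
    intro hc
    obtain ⟨t, ht⟩ := hnc
    apply ht
    have h1 : (x t : ℂ) + Complex.I * (y t : ℂ) = (x 0 : ℂ) + Complex.I * (y 0 : ℂ) := by
      rw [← hμz, ← hμz, hc t]
    have h2 := congrArg Complex.re h1
    have h3 := congrArg Complex.im h1
    simp at h2 h3
    rw [h2, h3]
  have hpos : ∀ t, 0 < 4 * (a t ^ 2 + b t ^ 2) := by
    by_contra hcon
    push Not at hcon
    obtain ⟨t₀, ht₀⟩ := hcon
    have hz0 : 4 * (a t₀ ^ 2 + b t₀ ^ 2) = 0 := le_antisymm ht₀ (by positivity)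
    obtain ⟨M, hM⟩ := bdd_of_periodic (f := fun t => 4 * (a t ^ 2 + b t ^ 2)) hT
      (by
        have h1 : Continuous a := continuous_iff_continuousAt.mpr fun t => (had t).continuousAt
        have h2 : Continuous b := continuous_iff_continuousAt.mpr fun t => (hbd t).continuousAt
        fun_prop)
      (fun t => by (try simp only []); rw [hpera, hperb])
    have hall := zero_of_zero (f := fun t => 4 * (a t ^ 2 + b t ^ 2))
      (K := (2 * (1 + |(-D.im / 2)|) + |D.re / 2|) * M) (fun t => (hcs t).1)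
      (fun t => by positivity) (fun t => by
        set u := 4 * (a t ^ 2 + b t ^ 2) with hu
        set yy := -(8 * (a t * b t)) with hyy
        set ww := -(4 * (a t ^ 2 - b t ^ 2)) with hww
        have hu0 : 0 ≤ u := by rw [hu]; positivity
        have hcone : u ^ 2 = yy ^ 2 + ww ^ 2 := by rw [hu, hyy, hww]; ring
        have hy1 : |yy| ≤ u := by
          apply abs_le_of_sq_le_sq _ hu0
          nlinarith [sq_nonneg ww]
        have hw1 : |ww| ≤ u := by
          apply abs_le_of_sq_le_sq _ hu0
          nlinarith [sq_nonneg yy]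
        have hMu : u ≤ M := hM t
        calc |(-2 * ww * (u + (-D.im / 2) * yy) + D.re / 2 * (ww ^ 2 - yy ^ 2))|
            ≤ |(-2 * ww * (u + (-D.im / 2) * yy))| + |D.re / 2 * (ww ^ 2 - yy ^ 2)| :=
              abs_add_le _ _
          _ ≤ 2 * u * (u + |(-D.im / 2)| * u) + |D.re / 2| * u ^ 2 := by
              apply add_le_add
              · rw [abs_mul, abs_mul]
                have h5 : |u + (-D.im / 2) * yy| ≤ u + |(-D.im / 2)| * u := by
                  calc |u + (-D.im / 2) * yy| ≤ |u| + |(-D.im / 2) * yy| := abs_add_le _ _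
                    _ ≤ u + |(-D.im / 2)| * u := by
                        rw [abs_of_nonneg hu0, abs_mul]
                        gcongr
                have h6 : |(-2 : ℝ)| * |ww| ≤ 2 * u := by
                  rw [abs_neg, abs_two]; gcongr
                exact mul_le_mul h6 h5 (abs_nonneg _) (by positivity)
              · rw [abs_mul]
                apply mul_le_mul_of_nonneg_left _ (abs_nonneg _)
                rw [abs_le]; constructor <;> nlinarith [sq_nonneg ww, sq_nonneg yy]
          _ = (2 * (1 + |(-D.im / 2)|) + |D.re / 2|) * u * u := by ring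
          _ ≤ (2 * (1 + |(-D.im / 2)|) + |D.re / 2|) * M * u := by gcongr) hz0
    apply hzc
    intro t
    have h1 : ∀ s, z s = 0 := by
      intro s
      have h2 := hall s
      try simp only [] at h2
      have h3 : a s = 0 := by nlinarith [sq_nonneg (a s), sq_nonneg (b s)]
      have h4 : b s = 0 := by nlinarith [sq_nonneg (a s), sq_nonneg (b s)]
      rw [hzab, h3, h4]; simp
    rw [h1, h1]
  refine ⟨-D.im / 2, D.re / 2, _, _, _, by
      intro h0; apply hD1; linarith, by
      intro h0; apply hD2; nlinarith [h0], ⟨hcs, hpos, fun t => by ring, hT, ?_, ?_, ?_, ?_⟩⟩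
  · intro t; (try simp only []); rw [hpera, hperb]
  · intro t; (try simp only []); rw [hpera, hperb]
  · intro t; (try simp only []); rw [hpera, hperb]
  · by_contra hcon
    push Not at hcon
    apply hzc
    have hsq : ∀ t, z t ^ 2 = z 0 ^ 2 := by
      intro t
      obtain ⟨h1, h2⟩ := hcon t
      try simp only [] at h1 h2
      have h3 : a t * b t = a 0 * b 0 := by linarith
      have h4 : a t ^ 2 - b t ^ 2 = a 0 ^ 2 - b 0 ^ 2 := by linarith
      have h3' : (a t : ℂ) * b t = a 0 * b 0 := by exact_mod_cast h3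
      have h4' : (a t : ℂ) ^ 2 - b t ^ 2 = a 0 ^ 2 - b 0 ^ 2 := by exact_mod_cast h4
      rw [hzab t, hzab 0]
      linear_combination h4' + 2 * Complex.I * h3' + ((b t : ℂ) ^ 2 - (b 0 : ℂ) ^ 2) * Complex.I_sq
    have hz0 : ∀ t, z t ≠ 0 := by
      intro t h0
      have := hpos t
      have h1 : a t = 0 := by rw [ha]; (try simp only []); rw [h0]; simp
      have h2 : b t = 0 := by rw [hb]; (try simp only []); rw [h0]; simp
      rw [h1, h2] at this
      norm_num at this
    have hder : ∀ t, deriv z t = 0 := by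
      intro t
      have h1 := hzd t
      have h2 : HasDerivAt (fun s => z s ^ 2) 0 t := by
        have : (fun s => z s ^ 2) = fun _ => z 0 ^ 2 := funext hsq
        rw [this]; exact hasDerivAt_const _ _
      have h3 := h1.pow 2
      have h4 := h3.unique h2
      rw [h1.deriv]
      have h5 : (2 : ℂ) * z t ≠ 0 := mul_ne_zero two_ne_zero (hz0 t)
      have h6 : (2 * z t) * (-Complex.I * z t + 3 * z t ^ 3
        + z t * (starRingEnd ℂ (z t)) ^ 2 + D * (starRingEnd ℂ (z t)) ^ 3) = 0 := by
        rw [← h4]; norm_num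
      exact (mul_eq_zero.mp h6).resolve_left h5
    have hdiff : Differentiable ℝ z := fun t => (hzd t).differentiableAt
    intro t
    exact is_const_of_deriv_eq_zero hdiff hder t 0

end B92
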