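import Mathlib
import Pool.Agent.Lib.B92.ConeFin
import Pool.Agent.Lib.B92.Bend
import Pool.Agent.Lib.B92.Defs

/-!
# MP_b92fc8_an, module Final: from the normal form on the cone to the planar theorem
-/

set_option autoImplicit false

open MvPolynomial

namespace B92

/-- A `ConeOrbit` is a solution in the sense of `Sol`. -/
theorem ConeOrbit.toSol {κ l : ℝ} {U Y W : ℝ → ℝ} {T : ℝ} (h : ConeOrbit κ l U Y W T) :
    Sol κ l U Y W where
  dU := fun t => (h.sol t).1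
  dY := fun t => (h.sol t).2.1
  dw := fun t => (h.sol t).2.2
  cone := h.cone
  pos := h.pos

/-- The planar theorem, from the statement about the normal form on the cone. -/
theorem no_periodic_of_NF
    (NF : ∀ (κ l : ℝ) (U Y W : ℝ → ℝ) (T : ℝ), 0 < l → κ ^ 2 + l ^ 2 ≠ 1 →
      ¬ ConeOrbit κ l U Y W T)
    (lam : ℝ) (p q : MvPolynomial (Fin 2) ℝ) (hp : p.IsHomogeneous 3) (hq : q.IsHomogeneous 3)
    (h5 : IsFineFocus lam p q 5) (G : Set (ℝ × ℝ)) : ¬ IsPeriodicOrbit lam p q G := by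
  rintro ⟨x, y, hsol, ⟨T, hT, hper⟩, hnc, -⟩
  obtain ⟨κ, l, U, Y, W, hl, hκl, hor⟩ := cone_of_periodic hp hq h5 hsol hT hper hnc
  rcases lt_or_gt_of_ne hl with h | h
  · exact NF κ (-l) _ _ _ T (by linarith) (by simpa using hκl) hor.reflect
  · exact NF κ l U Y W T h hκl hor

/-- The same for limit cycles. -/
theorem no_limitCycle_of_NF
    (NF : ∀ (κ l : ℝ) (U Y W : ℝ → ℝ) (T : ℝ), 0 < l → κ ^ 2 + l ^ 2 ≠ 1 →
      ¬ ConeOrbit κ l U Y W T)
    (lam : ℝ) (p q : MvPolynomial (Fin 2) ℝ) (hp : p.IsHomogeneous 3) (hq : q.IsHomogeneous 3)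
    (h5 : IsFineFocus lam p q 5) (G : Set (ℝ × ℝ)) : ¬ IsLimitCycle lam p q G :=
  fun h => no_periodic_of_NF NF lam p q hp hq h5 G h.1

end B92
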