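import Mathlib

/-!
# MP_b92fc8_an, module Cmp: comparison lemmas for `D = z₊ - z₋`
-/

set_option autoImplicit false

open Set Filter Topology

namespace B92

/-- If the left derivative at `c` is negative, then `f` takes
values `> f c` immediately to the left of `c`. -/
theorem exists_gt_left {f : ℝ → ℝ} {d a c : ℝ} (hac : a < c)
    (hf : HasDerivWithinAt f d (Iic c) c) (hd : d < 0) : ∃ t ∈ Ioo a c, f c < f t := by
  have h1 : HasDerivWithinAt f d (Iio c) c := hf.mono Iio_subset_Iic_self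
  have h2 := (hasDerivWithinAt_iff_tendsto_slope' (by simp)).1 h1
  have h3 : ∀ᶠ s in 𝓝[<] c, slope f c s < 0 := h2.eventually (gt_mem_nhds hd)
  have h4 : ∀ᶠ s in 𝓝[<] c, s ∈ Ioo a c := Ioo_mem_nhdsLT hac
  obtain ⟨s, hs1, hs2⟩ := (h3.and h4).exists
  refine ⟨s, hs2, ?_⟩
  rw [slope_def_field] at hs1
  have h5 : s - c < 0 := by linarith [hs2.2]
  by_contra hcon
  push Not at hcon
  have : 0 ≤ (f s - f c) / (s - c) := div_nonneg_of_nonpos (by linarith) h5.le
  linarith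

/-- **Basic comparison.** If `f a ≤ 0` and `f' < C f` wherever `f ≥ 0`, then `f < 0` on `(a, b]`. -/
theorem neg_of_deriv_lt {f f' : ℝ → ℝ} {a b C : ℝ} (hf : ContinuousOn f (Icc a b))
    (ha : f a ≤ 0) (hd : ∀ t ∈ Ioc a b, HasDerivWithinAt f (f' t) (Iic t) t)
    (h : ∀ t ∈ Ioc a b, 0 ≤ f t → f' t < C * f t) : ∀ t ∈ Ioc a b, f t < 0 := by
  intro t ht
  by_contra hcon
  push Not at hcon
  set g : ℝ → ℝ := fun s => f s * Real.exp (-(C * s)) with hg
  have hgc : ContinuousOn g (Icc a t) :=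
    (hf.mono (Icc_subset_Icc_right ht.2)).mul (by fun_prop)
  obtain ⟨c, hc, hmax⟩ := isCompact_Icc.exists_isMaxOn (nonempty_Icc.2 ht.1.le) hgc
  have hgt : 0 ≤ g t := mul_nonneg hcon (Real.exp_pos _).le
  -- a maximum point in `(a, t]`
  obtain ⟨c, hc, hmax⟩ : ∃ c ∈ Ioc a t, IsMaxOn g (Icc a t) c := by
    rcases eq_or_lt_of_le hc.1 with h1 | h1
    · refine ⟨t, ⟨ht.1, le_rfl⟩, fun s hs => ?_⟩
      have h2 : g s ≤ g c := hmax hs
      have h3 : g c ≤ 0 := by
        rw [← h1]; exact mul_nonpos_of_nonpos_of_nonneg ha (Real.exp_pos _).le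
      exact h2.trans (h3.trans hgt)
    · exact ⟨c, ⟨h1, hc.2⟩, hmax⟩
  have hgc0 : 0 ≤ g c := hgt.trans (hmax ⟨ht.1.le, le_rfl⟩)
  have hfc : 0 ≤ f c := by
    by_contra h1
    push Not at h1
    exact absurd hgc0 (not_le.2 (mul_neg_of_neg_of_pos h1 (Real.exp_pos _)))
  have hcb : c ∈ Ioc a b := ⟨hc.1, hc.2.trans ht.2⟩
  have h1 := h c hcb hfc
  have h2 : HasDerivWithinAt g (f' c * Real.exp (-(C * c)) + f c *
      (Real.exp (-(C * c)) * (-C))) (Iic c) c := by
    have h3 : HasDerivAt (fun s : ℝ => Real.exp (-(C * s))) (Real.exp (-(C * c)) * (-C)) c := by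
      have h4 : HasDerivAt (fun s : ℝ => -(C * s)) (-(C * 1)) c :=
        ((hasDerivAt_id c).const_mul C).neg
      rw [mul_one] at h4
      exact h4.exp
    exact (hd c hcb).mul h3.hasDerivWithinAt
  have h3 : f' c * Real.exp (-(C * c)) + f c * (Real.exp (-(C * c)) * (-C)) < 0 := by
    have h4 : f' c * Real.exp (-(C * c)) + f c * (Real.exp (-(C * c)) * (-C))
        = (f' c - C * f c) * Real.exp (-(C * c)) := by ring
    rw [h4]
    exact mul_neg_of_neg_of_pos (by linarith) (Real.exp_pos _)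
  obtain ⟨s, hs, hgs⟩ := exists_gt_left hc.1 h2 h3
  exact absurd (hmax ⟨hs.1.le, hs.2.le.trans hc.2⟩) (not_le.2 hgs)

/-- The basic comparison, backwards. -/
theorem neg_of_deriv_gt {f f' : ℝ → ℝ} {a b C : ℝ} (hf : ContinuousOn f (Icc a b))
    (hb : f b ≤ 0) (hd : ∀ t ∈ Ico a b, HasDerivWithinAt f (f' t) (Ici t) t)
    (h : ∀ t ∈ Ico a b, 0 ≤ f t → -(C * f t) < f' t) : ∀ t ∈ Ico a b, f t < 0 := by
  intro t ht
  have h1 := neg_of_deriv_lt (f := fun s => f (-s)) (f' := fun s => -f' (-s)) (a := -b) (b := -a)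
    (C := C) ?_ (by simpa using hb) ?_ ?_ (-t) ⟨by linarith [ht.2], by linarith [ht.1]⟩
  · simpa using h1
  · refine hf.comp continuousOn_neg fun s hs => ⟨by linarith [hs.2], by linarith [hs.1]⟩
  · intro s hs
    have h2 := hd (-s) ⟨by linarith [hs.2], by linarith [hs.1]⟩
    have h3 : HasDerivWithinAt (fun s : ℝ => -s) (-1) (Iic s) s := (hasDerivAt_neg s).hasDerivWithinAt
    have h4 := h2.comp s h3 (fun r hr => by
      simp only [mem_Ici, mem_Iic] at hr ⊢; linarith)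
    refine h4.congr_deriv ?_
    ring
  · intro s hs hfs
    have := h (-s) ⟨by linarith [hs.2], by linarith [hs.1]⟩ hfs
    linarith

/-- **Comparison, `η > 0`.** `D = z₊ - z₋` with `D' = 5 (T₊ - T₋)` and
`D = 2 h (T₊ - T₋) + η (K₊ - K₋)`; if `T₊ ≤ T₋` implies `K₊ < K₋`, then `D > 0`. -/
theorem cmpPos {η : ℝ} (hη : 0 < η) {D Tp Tm Kp Km : ℝ → ℝ} {h1 h2 : ℝ} (h1pos : 0 < h1)
    (hD : ContinuousOn D (Icc h1 h2)) (hD1 : 0 ≤ D h1)
    (hd : ∀ h ∈ Ioc h1 h2, HasDerivWithinAt D (5 * (Tp h - Tm h)) (Iic h) h)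
    (hz : ∀ h ∈ Ioc h1 h2, D h = 2 * h * (Tp h - Tm h) + η * (Kp h - Km h))
    (hK : ∀ h ∈ Ioc h1 h2, Tp h ≤ Tm h → Kp h < Km h) :
    ∀ h ∈ Ioc h1 h2, 0 < D h := by
  intro h hh
  have key := neg_of_deriv_lt (f := fun s => -D s) (f' := fun s => -(5 * (Tp s - Tm s)))
    (a := h1) (b := h2) (C := 5 / (2 * h1)) hD.neg (by simpa using hD1)
    (fun t ht => (hd t ht).neg) ?_ h hh
  · simpa using key
  · intro t ht hft
    have htpos : 0 < t := h1pos.trans ht.1
    have e1 := hz t ht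
    have hKt : Kp t < Km t := by
      rcases le_or_gt (Tp t) (Tm t) with h3 | h3
      · exact hK t ht h3
      · have h4 : 0 < 2 * t * (Tp t - Tm t) := by
          have : 0 < Tp t - Tm t := by linarith
          positivity
        have h5 : η * (Kp t - Km t) < 0 := by linarith
        by_contra h6
        push Not at h6
        have : 0 ≤ η * (Kp t - Km t) := mul_nonneg hη.le (by linarith)
        linarith
    have h6 : η * (Kp t - Km t) < 0 := mul_neg_of_pos_of_neg hη (by linarith)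
    -- `-(5 (Tp - Tm)) = (5 / (2 t)) (-D + η (Kp - Km)) < (5 / (2 t)) (-D) ≤ (5 / (2 h1)) (-D)`
    have h7 : -(5 * (Tp t - Tm t)) = 5 / (2 * t) * (-D t + η * (Kp t - Km t)) := by
      rw [e1]; field_simp; ring
    have h8 : 5 / (2 * t) * (-D t + η * (Kp t - Km t)) < 5 / (2 * t) * (-D t) :=
      mul_lt_mul_of_pos_left (by linarith) (by positivity)
    have h9 : 5 / (2 * t) * (-D t) ≤ 5 / (2 * h1) * (-D t) := by
      apply mul_le_mul_of_nonneg_right _ hft
      apply div_le_div_of_nonneg_left (by norm_num) (by positivity)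
      linarith [ht.1]
    linarith

/-- **Comparison with a positive remainder** (`η < 0`, rising part): `D = u (T₊ - T₋) + q`, `q > 0`,
`u ≥ c₀ > 0`, `D' = 5 (T₊ - T₋)`, `D ≤ 0` at the start. Then `D < 0` and `T₊ < T₋`. -/
theorem cmpLin {D Tp Tm u q : ℝ → ℝ} {h1 h2 c0 : ℝ} (hc0 : 0 < c0)
    (hD : ContinuousOn D (Icc h1 h2)) (hD1 : D h1 ≤ 0)
    (hd : ∀ h ∈ Ioc h1 h2, HasDerivWithinAt D (5 * (Tp h - Tm h)) (Iic h) h)
    (hu : ∀ h ∈ Ioc h1 h2, c0 ≤ u h) (hq : ∀ h ∈ Ioc h1 h2, 0 < q h)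
    (hz : ∀ h ∈ Ioc h1 h2, D h = u h * (Tp h - Tm h) + q h) :
    ∀ h ∈ Ioc h1 h2, D h < 0 ∧ Tp h < Tm h := by
  have key : ∀ h ∈ Ioc h1 h2, D h < 0 := by
    refine neg_of_deriv_lt (f' := fun s => 5 * (Tp s - Tm s)) (C := 5 / c0) hD hD1 hd ?_
    intro t ht hft
    have h1 := hu t ht
    have h2 := hq t ht
    have h3 := hz t ht
    have h4 : 0 < u t := hc0.trans_le h1
    have h5 : 5 * (Tp t - Tm t) = 5 / u t * (D t - q t) := by
      rw [h3]; field_simp; ring
    have h6 : 5 / u t * (D t - q t) < 5 / u t * D t :=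
      mul_lt_mul_of_pos_left (by linarith) (by positivity)
    have h7 : 5 / u t * D t ≤ 5 / c0 * D t := by
      apply mul_le_mul_of_nonneg_right _ hft
      exact div_le_div_of_nonneg_left (by norm_num) hc0 h1
    linarith
  intro h hh
  refine ⟨key h hh, ?_⟩
  have h1 := key h hh
  rw [hz h hh] at h1
  have h2 := hq h hh
  have h3 : 0 < u h := hc0.trans_le (hu h hh)
  by_contra hcon
  push Not at hcon
  have : 0 ≤ u h * (Tp h - Tm h) := mul_nonneg h3.le (by linarith)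
  linarith

/-- **Comparison, `η < 0`, start by Gronwall, then first contact.** -/
theorem cmpNeg {η : ℝ} (hη : η < 0) {D Tp Tm Kp Km : ℝ → ℝ} {h1 h2 h1' C : ℝ} (h11 : h1 < h1')
    (hD : ContinuousOn D (Icc h1 h2)) (hD1 : D h1 ≤ 0)
    (hTp : ContinuousOn Tp (Ioc h1 h2)) (hTm : ContinuousOn Tm (Ioc h1 h2))
    (hd : ∀ h ∈ Ioc h1 h2, HasDerivWithinAt D (5 * (Tp h - Tm h)) (Iic h) h)
    (start1 : ∀ h ∈ Ioc h1 h2, h ≤ h1' → D h ≤ 0 → Tp h < Tm h)
    (start2 : ∀ h ∈ Ioc h1 h2, h ≤ h1' → 0 < D h → 5 * (Tp h - Tm h) ≤ C * D h)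
    (hz : ∀ h ∈ Ioc h1 h2, Tp h = Tm h → D h = η * (Kp h - Km h))
    (hK : ∀ h ∈ Ioc h1 h2, Tp h = Tm h → Kp h < Km h) :
    ∀ h ∈ Ioc h1 h2, D h < 0 ∧ Tp h < Tm h := by
  -- the start
  have hstart : ∀ h ∈ Ioc h1 h2, h ≤ h1' → D h < 0 ∧ Tp h < Tm h := by
    intro h hh hh'
    have h2' : D h < 0 := by
      refine neg_of_deriv_lt (f' := fun s => 5 * (Tp s - Tm s)) (C := C + 1) (b := h)
        (hD.mono (Icc_subset_Icc_right hh.2)) hD1
        (fun t ht => hd t ⟨ht.1, ht.2.trans hh.2⟩) ?_ h ⟨hh.1, le_rfl⟩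
      intro t ht hft
      have ht2 : t ∈ Ioc h1 h2 := ⟨ht.1, ht.2.trans hh.2⟩
      rcases eq_or_lt_of_le hft with h3 | h3
      · have h4 := start1 t ht2 (ht.2.trans hh') h3.symm.le
        rw [← h3]; linarith
      · have h4 := start2 t ht2 (ht.2.trans hh') h3
        linarith
    exact ⟨h2', start1 h hh hh' h2'.le⟩
  have hT : ∀ h ∈ Ioc h1 h2, Tp h < Tm h := by
    by_contra hcon
    push Not at hcon
    obtain ⟨h, hh, hle⟩ := hcon
    have hh' : h1' < h := by
      by_contra h3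
      push Not at h3
      exact absurd (hstart h hh h3).2 (not_lt.2 hle)
    -- the first contact in `[h1', h]`
    have hcont : ContinuousOn (fun s => Tm s - Tp s) (Icc h1' h) :=
      (hTm.sub hTp).mono fun s hs => ⟨h11.trans_le hs.1, hs.2.trans hh.2⟩
    have hcl : IsClosed (Icc h1' h ∩ (fun s => Tm s - Tp s) ⁻¹' (Iic 0)) :=
      hcont.preimage_isClosed_of_isClosed isClosed_Icc isClosed_Iic
    have hcomp : IsCompact (Icc h1' h ∩ (fun s => Tm s - Tp s) ⁻¹' (Iic 0)) :=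
      isCompact_Icc.of_isClosed_subset hcl inter_subset_left
    have hne : (Icc h1' h ∩ (fun s => Tm s - Tp s) ⁻¹' (Iic 0)).Nonempty :=
      ⟨h, ⟨hh'.le, le_rfl⟩, by simp only [mem_preimage, mem_Iic]; linarith⟩
    obtain ⟨s, hs, hsmin⟩ := hcomp.exists_isMinOn hne continuousOn_id
    have hs1 : Tm s - Tp s ≤ 0 := hs.2
    have hs12 : s ∈ Ioc h1 h2 := ⟨h11.trans_le hs.1.1, hs.1.2.trans hh.2⟩
    have hs' : h1' < s := by
      rcases eq_or_lt_of_le hs.1.1 with h3 | h3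
      · have := (hstart s hs12 h3.symm.le).2
        linarith
      · exact h3
    have hbefore : ∀ r ∈ Ioo h1 s, Tp r < Tm r := by
      intro r hr
      rcases le_or_gt r h1' with h3 | h3
      · exact (hstart r ⟨hr.1, hr.2.le.trans hs12.2⟩ h3).2
      · by_contra h4
        push Not at h4
        have : s ≤ r := hsmin ⟨⟨h3.le, hr.2.le.trans hs.1.2⟩, by
          simp only [mem_preimage, mem_Iic]; linarith⟩
        exact absurd hr.2 (not_lt.2 this)
    -- equality at `s`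
    have hseq : Tp s = Tm s := by
      have h3 : ContinuousWithinAt (fun s => Tm s - Tp s) (Ioo h1 s) s :=
        ((hTm.sub hTp) s hs12).mono fun r hr => ⟨hr.1, hr.2.le.trans hs12.2⟩
      have h4 : 0 ≤ Tm s - Tp s := by
        have : (𝓝[Ioo h1 s] s).NeBot := by
          rw [← mem_closure_iff_nhdsWithin_neBot, closure_Ioo hs12.1.ne]
          exact ⟨hs12.1.le, le_rfl⟩
        refine ge_of_tendsto h3.tendsto ?_
        filter_upwards [self_mem_nhdsWithin] with r hr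
        have := hbefore r hr
        simp only [ge_iff_le, sub_nonneg]
        exact this.le
      linarith
    -- `D s < 0`
    have hDr : ∀ r ∈ Ioo h1' s, D r ≤ D h1' := by
      intro r hr
      have h3 := neg_of_deriv_lt (f := fun t => D t - D h1') (f' := fun t => 5 * (Tp t - Tm t))
        (a := h1') (b := r) (C := 0)
        ((hD.mono fun t ht => ⟨(h11.trans_le ht.1).le, (ht.2.trans hr.2.le).trans hs12.2⟩).sub
          continuousOn_const) (by simp)
        (fun t ht => (hd t ⟨h11.trans ht.1, (ht.2.trans hr.2.le).trans hs12.2⟩).sub_const _)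
        (fun t ht _ => by
          have := hbefore t ⟨h11.trans ht.1, ht.2.trans_lt hr.2⟩
          simp only [zero_mul]; linarith) r ⟨hr.1, le_rfl⟩
      linarith
    have hDs : D s ≤ D h1' := by
      have h3 : ContinuousWithinAt D (Ioo h1' s) s :=
        (hD s ⟨hs12.1.le, hs12.2⟩).mono fun r hr =>
          ⟨(h11.trans hr.1).le, hr.2.le.trans hs12.2⟩
      have : (𝓝[Ioo h1' s] s).NeBot := by
        rw [← mem_closure_iff_nhdsWithin_neBot, closure_Ioo hs'.ne]
        exact ⟨hs'.le, le_rfl⟩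
      refine le_of_tendsto h3.tendsto ?_
      filter_upwards [self_mem_nhdsWithin] with r hr
      exact hDr r hr
    have hD1' : D h1' < 0 := (hstart h1' ⟨h11, hh'.le.trans hh.2⟩ le_rfl).1
    have h3 := hz s hs12 hseq
    have h4 := hK s hs12 hseq
    have h5 : 0 < η * (Kp s - Km s) := mul_pos_of_neg_of_neg hη (by linarith)
    linarith
  intro h hh
  refine ⟨?_, hT h hh⟩
  refine neg_of_deriv_lt (f' := fun s => 5 * (Tp s - Tm s)) (C := 0) hD hD1 hd ?_ h hh
  intro t ht _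
  have := hT t ht
  linarith

end B92
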