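import Mathlib

/-! A strictly monotone function along an arc as a parameter of the arc. -/

open Set Filter Topology

noncomputable section

namespace B92

/-- Inverse of a strictly increasing differentiable function on `[a, b]`. -/
theorem exists_inv_incr {H H' : ℝ → ℝ} {a b : ℝ} (hab : a < b) (hc : ContinuousOn H (Icc a b))
    (hd : ∀ t ∈ Ioo a b, HasDerivAt H (H' t) t) (hp : ∀ t ∈ Ioo a b, 0 < H' t) :
    H a < H b ∧ ∃ τ : ℝ → ℝ, (∀ h ∈ Icc (H a) (H b), τ h ∈ Icc a b ∧ H (τ h) = h) ∧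
      (∀ t ∈ Icc a b, H t ∈ Icc (H a) (H b) ∧ τ (H t) = t) ∧
      ContinuousOn τ (Icc (H a) (H b)) ∧ StrictMonoOn τ (Icc (H a) (H b)) ∧
      ∀ h ∈ Ioo (H a) (H b), τ h ∈ Ioo a b ∧ HasDerivAt τ (H' (τ h))⁻¹ h := by
  have hmono : StrictMonoOn H (Icc a b) := by
    apply strictMonoOn_of_deriv_pos (convex_Icc a b) hc
    intro x hx
    rw [interior_Icc] at hx
    rw [(hd x hx).deriv]; exact hp x hx
  have hlt : H a < H b := hmono ⟨le_rfl, hab.le⟩ ⟨hab.le, le_rfl⟩ hab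
  refine ⟨hlt, ?_⟩
  have hsurj : SurjOn H (Icc a b) (Icc (H a) (H b)) := intermediate_value_Icc hab.le hc
  choose! τ hτ1 hτ2 using fun h (hh : h ∈ Icc (H a) (H b)) => hsurj hh
  have hmaps : ∀ t ∈ Icc a b, H t ∈ Icc (H a) (H b) := fun t ht =>
    ⟨hmono.monotoneOn ⟨le_rfl, hab.le⟩ ht ht.1, hmono.monotoneOn ht ⟨hab.le, le_rfl⟩ ht.2⟩
  have hinv : ∀ t ∈ Icc a b, τ (H t) = t := fun t ht =>
    hmono.injOn (hτ1 _ (hmaps t ht)) ht (hτ2 _ (hmaps t ht))
  have hτmono : StrictMonoOn τ (Icc (H a) (H b)) := by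
    intro x hx y hy hxy
    by_contra hcon
    push Not at hcon
    have := hmono.monotoneOn (hτ1 y hy) (hτ1 x hx) hcon
    rw [hτ2 x hx, hτ2 y hy] at this
    linarith
  have himage : τ '' Icc (H a) (H b) = Icc a b := by
    apply Subset.antisymm
    · rintro _ ⟨h, hh, rfl⟩; exact hτ1 h hh
    · intro t ht; exact ⟨H t, hmaps t ht, hinv t ht⟩
  have hτc : ContinuousOn τ (Icc (H a) (H b)) := by
    intro x hx
    rw [Metric.continuousWithinAt_iff]
    intro ε hε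
    -- use compactness : inverse of an injective continuous map on a compact set
    by_contra hcon
    push Not at hcon
    have hseq : ∀ n : ℕ, ∃ y ∈ Icc (H a) (H b), dist y x < 1 / ((n:ℝ) + 1) ∧ ε ≤ dist (τ y) (τ x) := by
      intro n
      obtain ⟨y, hy1, hy2, hy3⟩ := hcon (1 / ((n:ℝ) + 1)) (by positivity)
      exact ⟨y, hy1, hy2, hy3⟩
    choose y hy1 hy2 hy3 using hseq
    obtain ⟨t, ht, φ, hφ, hlim⟩ := isCompact_Icc.tendsto_subseq (fun n => hτ1 (y n) (hy1 n))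
    have h1 : Tendsto (fun n => H (τ (y (φ n)))) atTop (𝓝 (H t)) := by
      have hw := (hc t ht).tendsto
      refine hw.comp ?_
      rw [tendsto_nhdsWithin_iff]
      exact ⟨hlim, Eventually.of_forall fun n => hτ1 _ (hy1 _)⟩
    have h2 : Tendsto (fun n => H (τ (y (φ n)))) atTop (𝓝 x) := by
      have h3 : Tendsto y atTop (𝓝 x) := by
        rw [tendsto_iff_dist_tendsto_zero]
        exact squeeze_zero (fun n => dist_nonneg) (fun n => (hy2 n).le)
          tendsto_one_div_add_atTop_nhds_zero_nat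
      have h4 := h3.comp hφ.tendsto_atTop
      refine h4.congr fun n => ?_
      simp only [Function.comp]
      rw [hτ2 _ (hy1 _)]
    have h5 : H t = x := tendsto_nhds_unique h1 h2
    have h6 : τ x = t := by rw [← h5]; exact hinv t ht
    have h7 : Tendsto (fun n => dist (τ (y (φ n))) (τ x)) atTop (𝓝 0) := by
      rw [h6]; exact tendsto_iff_dist_tendsto_zero.1 hlim
    have h8 : ε ≤ 0 := ge_of_tendsto' h7 fun n => hy3 _
    linarith
  refine ⟨τ, fun h hh => ⟨hτ1 h hh, hτ2 h hh⟩, fun t ht => ⟨hmaps t ht, hinv t ht⟩, hτc, hτmono,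
    fun h hh => ?_⟩
  have hhI : h ∈ Icc (H a) (H b) := Ioo_subset_Icc_self hh
  have ha' : τ (H a) = a := hinv a ⟨le_rfl, hab.le⟩
  have hb' : τ (H b) = b := hinv b ⟨hab.le, le_rfl⟩
  have hio : τ h ∈ Ioo a b := by
    constructor
    · rw [← ha']; exact hτmono ⟨le_rfl, hlt.le⟩ hhI hh.1
    · rw [← hb']; exact hτmono hhI ⟨hlt.le, le_rfl⟩ hh.2
  refine ⟨hio, ?_⟩
  have hcat : ContinuousAt τ h := (hτc h hhI).continuousAt (Icc_mem_nhds hh.1 hh.2)
  refine HasDerivAt.of_local_left_inverse hcat (hd _ hio) (hp _ hio).ne' ?_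
  filter_upwards [Icc_mem_nhds hh.1 hh.2] with y hy
  exact hτ2 y hy

/-- Inverse of a strictly decreasing differentiable function on `[a, b]`. -/
theorem exists_inv_decr {H H' : ℝ → ℝ} {a b : ℝ} (hab : a < b) (hc : ContinuousOn H (Icc a b))
    (hd : ∀ t ∈ Ioo a b, HasDerivAt H (H' t) t) (hp : ∀ t ∈ Ioo a b, H' t < 0) :
    H b < H a ∧ ∃ τ : ℝ → ℝ, (∀ h ∈ Icc (H b) (H a), τ h ∈ Icc a b ∧ H (τ h) = h) ∧
      (∀ t ∈ Icc a b, H t ∈ Icc (H b) (H a) ∧ τ (H t) = t) ∧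
      ContinuousOn τ (Icc (H b) (H a)) ∧ StrictAntiOn τ (Icc (H b) (H a)) ∧
      ∀ h ∈ Ioo (H b) (H a), τ h ∈ Ioo a b ∧ HasDerivAt τ (H' (τ h))⁻¹ h := by
  obtain ⟨h1, τ, h2, h3, h4, h5, h6⟩ := exists_inv_incr (H := fun t => -H t)
    (H' := fun t => -H' t) hab hc.neg (fun t ht => (hd t ht).neg) (fun t ht => by linarith [hp t ht])
  refine ⟨by linarith, fun h => τ (-h), fun h hh => ?_, fun t ht => ?_, ?_, ?_, ?_⟩
  · have := h2 (-h) ⟨by linarith [hh.2], by linarith [hh.1]⟩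
    exact ⟨this.1, by linarith [this.2]⟩
  · have := h3 t ht
    exact ⟨⟨by linarith [this.1.2], by linarith [this.1.1]⟩, this.2⟩
  · refine h4.comp continuous_neg.continuousOn fun h hh => ⟨by linarith [hh.2], by linarith [hh.1]⟩
  · intro x hx y hy hxy
    exact h5 ⟨by linarith [hy.2], by linarith [hy.1]⟩ ⟨by linarith [hx.2], by linarith [hx.1]⟩
      (by linarith)
  · intro h hh
    have := h6 (-h) ⟨by linarith [hh.2], by linarith [hh.1]⟩
    refine ⟨this.1, ?_⟩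
    have h7 := HasDerivAt.comp h this.2 (hasDerivAt_neg h)
    refine h7.congr_deriv ?_
    rw [inv_neg]; ring

/-- Chain rule for `Z` with `Z' = p H'` in the parameter `H`. -/
theorem hasDerivAt_comp_inv {H H' Z p τ : ℝ → ℝ} {h : ℝ}
    (hZ : HasDerivAt Z (p (τ h) * H' (τ h)) (τ h)) (hH : H' (τ h) ≠ 0)
    (hτ : HasDerivAt τ (H' (τ h))⁻¹ h) : HasDerivAt (fun x => Z (τ x)) (p (τ h)) h := by
  have := HasDerivAt.comp h hZ hτ
  refine this.congr_deriv ?_
  field_simp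

end B92
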