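import Mathlib

/-!
# MP_b92fc8_an, case `k ^ 2 = 1`: the explicit chart functions

`b` is the abscissa of the ray point of the level curve, `x = (U - k Y) / 2`,
`h = (1 - k b) ^ 2`, `PP k b x = h - (1 - k x) ^ 2 = l w x`.
`tau` is `2 l ^ 2 T`, `kap` is `2 l ^ 4 K`, `zet` is `2 l ^ 2 Z`.
-/

set_option autoImplicit false

open Set Filter Topology

noncomputable section

namespace B92.K1

/-- `h - (1 - k x) ^ 2` -/
def PP (k b x : ℝ) : ℝ := (x - b) * (2 * k - b - x)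

/-- primitive of `k P / x ^ 3` -/
def tau (k b x : ℝ) : ℝ :=
  (x - b) ^ 2 / (x ^ 2 * b) + k * ((1 - (b / x) ^ 2) / 2 + (Real.log b - Real.log x))

/-- primitive of `P ^ 3 / x ^ 5` -/
def Qf (k a x : ℝ) : ℝ :=
  -a ^ 3 / (4 * x ^ 4) - 2 * k * a ^ 2 / x ^ 3 + (3 * a ^ 2 - 12 * a) / (2 * x ^ 2)
    + (12 * k * a - 8 * k) / x + (3 * a - 12) * Real.log x + 6 * k * x - x ^ 2 / 2

/-- `a`-derivative of `Qf` -/
def Qa (k a x : ℝ) : ℝ :=
  -3 * a ^ 2 / (4 * x ^ 4) - 4 * k * a / x ^ 3 + (3 * a - 6) / x ^ 2 + 12 * k / x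
    + 3 * Real.log x

/-- primitive of `k P ^ 3 / x ^ 5` -/
def kap (k b x : ℝ) : ℝ := k * (Qf k (b ^ 2 - 2 * k * b) x - Qf k (b ^ 2 - 2 * k * b) b)

/-- `2 h tau - kap` -/
def zet (k b x : ℝ) : ℝ := 2 * (1 - k * b) ^ 2 * tau k b x - kap k b x

theorem Qf_path {k : ℝ} (hk : k = 1 ∨ k = -1) {a x : ℝ → ℝ} {a' x' t : ℝ}
    (ha : HasDerivAt a a' t) (hx : HasDerivAt x x' t) (hx0 : 0 < x t) :
    HasDerivAt (fun t => Qf k (a t) (x t))
      (Qa k (a t) (x t) * a' + (a t + 2 * k * x t - x t ^ 2) ^ 3 / x t ^ 5 * x') t := by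
  have hxn : x t ≠ 0 := hx0.ne'
  have e1 := (ha.pow 3).neg.div ((hx.pow 4).const_mul 4) (by simp [hxn])
  have e2 := ((ha.pow 2).const_mul (2 * k)).div (hx.pow 3) (by simp [hxn])
  have e3 := (((ha.pow 2).const_mul 3).sub (ha.const_mul 12)).div ((hx.pow 2).const_mul 2)
    (by simp [hxn])
  have e4 := ((ha.const_mul (12 * k)).sub_const (8 * k)).div hx hxn
  have e5 := ((ha.const_mul 3).sub_const 12).mul (hx.log hxn)
  have e6 := (hx.const_mul (6 * k)).sub ((hx.pow 2).div_const 2)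
  have e := ((((e1.sub e2).add e3).add e4).add e5).add e6
  refine (e.congr_deriv ?_).congr_of_eventuallyEq (Eventually.of_forall fun s => ?_)
  · simp only [Qa, Pi.mul_apply, Pi.pow_apply, Pi.sub_apply, Pi.neg_apply, Pi.div_apply]
    rcases hk with rfl | rfl
    · field_simp
      ring
    · field_simp
      ring
  · simp only [Qf, Pi.mul_apply, Pi.pow_apply, Pi.sub_apply, Pi.neg_apply, Pi.div_apply,
      Pi.add_apply]
    ring

theorem tau_path {k : ℝ} (hk : k = 1 ∨ k = -1) {b x : ℝ → ℝ} {b' x' t : ℝ}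
    (hb : HasDerivAt b b' t) (hx : HasDerivAt x x' t) (hb0 : 0 < b t) (hx0 : 0 < x t) :
    HasDerivAt (fun t => tau k (b t) (x t))
      ((k * b t - 1) * (1 / b t ^ 2 - 1 / x t ^ 2) * b' + k * PP k (b t) (x t) / x t ^ 3 * x')
      t := by
  have hxn : x t ≠ 0 := hx0.ne'
  have hbn : b t ≠ 0 := hb0.ne'
  have e1 := ((hx.sub hb).pow 2).div ((hx.pow 2).mul hb) (by simp [hxn, hbn])
  have e2 := ((((hb.div hx hxn).pow 2).const_sub 1).div_const 2).add ((hb.log hbn).sub (hx.log hxn))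
  have e := e1.add (e2.const_mul k)
  refine (e.congr_deriv ?_).congr_of_eventuallyEq (Eventually.of_forall fun s => ?_)
  · simp only [PP, Pi.mul_apply, Pi.pow_apply, Pi.sub_apply, Pi.div_apply, Nat.cast_ofNat,
      Nat.add_one_sub_one, pow_one]
    rcases hk with rfl | rfl
    · field_simp
      ring
    · field_simp
      ring
  · simp only [tau, Pi.mul_apply, Pi.pow_apply, Pi.sub_apply, Pi.div_apply, Pi.add_apply]

theorem kap_path {k : ℝ} (hk : k = 1 ∨ k = -1) {b x : ℝ → ℝ} {b' x' t : ℝ}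
    (hb : HasDerivAt b b' t) (hx : HasDerivAt x x' t) (hb0 : 0 < b t) (hx0 : 0 < x t) :
    HasDerivAt (fun t => kap k (b t) (x t))
      (k * (Qa k (b t ^ 2 - 2 * k * b t) (x t) - Qa k (b t ^ 2 - 2 * k * b t) (b t))
        * ((2 * b t - 2 * k) * b') + k * PP k (b t) (x t) ^ 3 / x t ^ 5 * x') t := by
  have ha : HasDerivAt (fun t => b t ^ 2 - 2 * k * b t) ((2 * b t - 2 * k) * b') t := by
    have e := (hb.pow 2).sub (hb.const_mul (2 * k))
    refine (e.congr_deriv ?_).congr_of_eventuallyEq (Eventually.of_forall fun s => ?_)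
    · simp only [Nat.cast_ofNat]
      ring
    · simp only [Pi.mul_apply, Pi.pow_apply, Pi.sub_apply]
  have e1 := Qf_path hk ha hx hx0
  have e2 := Qf_path hk ha hb hb0
  refine ((e1.sub e2).const_mul k).congr_deriv ?_
  have h1 : b t ^ 2 - 2 * k * b t + 2 * k * x t - x t ^ 2 = PP k (b t) (x t) := by
    simp only [PP]; ring
  have h2 : b t ^ 2 - 2 * k * b t + 2 * k * b t - b t ^ 2 = 0 := by ring
  rw [h1, h2]
  ring

/-- The key identity. -/
theorem key_id {k : ℝ} (hk : k = 1 ∨ k = -1) {b x : ℝ} (hb : 0 < b) (hx : 0 < x) :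
    3 * tau k b x - (1 - k * b) ^ 2 * k * (1 / b ^ 2 - 1 / x ^ 2)
      + k * (Qa k (b ^ 2 - 2 * k * b) x - Qa k (b ^ 2 - 2 * k * b) b)
      + PP k b x * (1 - k * x) / x ^ 3 + 3 / 4 * k * PP k b x ^ 2 / x ^ 4 = 0 := by
  have hbn : b ≠ 0 := hb.ne'
  have hxn : x ≠ 0 := hx.ne'
  simp only [tau, Qa, PP]
  rcases hk with rfl | rfl
  · field_simp
    ring
  · field_simp
    ring

/-- Derivative of `zet` along a path. -/
theorem zet_path {k : ℝ} (hk : k = 1 ∨ k = -1) {b x : ℝ → ℝ} {b' x' t : ℝ}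
    (hb : HasDerivAt b b' t) (hx : HasDerivAt x x' t) (hb0 : 0 < b t) (hx0 : 0 < x t) :
    HasDerivAt (fun t => zet k (b t) (x t))
      ((2 * b t - 2 * k) * b' * (5 * tau k (b t) (x t) + PP k (b t) (x t) * (1 - k * x t) / x t ^ 3
        + 3 / 4 * k * PP k (b t) (x t) ^ 2 / x t ^ 4)
        + k * PP k (b t) (x t) / x t ^ 3 * (2 * (1 - k * b t) ^ 2 - (PP k (b t) (x t) / x t) ^ 2)
          * x') t := by
  have hbn : b t ≠ 0 := hb0.ne'
  have hxn : x t ≠ 0 := hx0.ne'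
  have e1 := tau_path hk hb hx hb0 hx0
  have e2 := kap_path hk hb hx hb0 hx0
  have e3 : HasDerivAt (fun t => 2 * (1 - k * b t) ^ 2) (2 * ((2 * b t - 2 * k) * b')) t := by
    have e := (((hb.const_mul k).const_sub 1).pow 2).const_mul 2
    refine e.congr_deriv ?_
    simp only [Nat.cast_ofNat]
    rcases hk with rfl | rfl <;> ring
  refine ((e3.mul e1).sub e2).congr_deriv ?_
  have key := key_id hk hb0 hx0
  set q := Qa k (b t ^ 2 - 2 * k * b t) (x t) - Qa k (b t ^ 2 - 2 * k * b t) (b t) with hq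
  have hkk : k * k = 1 := by rcases hk with rfl | rfl <;> norm_num
  have h1 : (k * b t - 1) * b' = k / 2 * ((2 * b t - 2 * k) * b') := by
    linear_combination b' * hkk
  have h2 : 2 * (1 - k * b t) ^ 2 * ((k * b t - 1) * (1 / b t ^ 2 - 1 / x t ^ 2) * b')
      = (2 * b t - 2 * k) * b' * ((1 - k * b t) ^ 2 * k * (1 / b t ^ 2 - 1 / x t ^ 2)) := by
    linear_combination (2 * (1 - k * b t) ^ 2 * (1 / b t ^ 2 - 1 / x t ^ 2)) * h1
  have h3 : 2 * (1 - k * b t) ^ 2 * (k * PP k (b t) (x t) / x t ^ 3 * x')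
      - k * PP k (b t) (x t) ^ 3 / x t ^ 5 * x'
      = k * PP k (b t) (x t) / x t ^ 3 * (2 * (1 - k * b t) ^ 2 - (PP k (b t) (x t) / x t) ^ 2)
          * x' := by
    field_simp
  linear_combination h2 + h3 + ((2 * b t - 2 * k) * b') * (-key)

end B92.K1
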