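import Mathlib

/-!
# MP_b92fc8_an, module Slice: two parametrised slices, comparison at equal `T`
-/

set_option autoImplicit false

open Set Filter Topology

namespace B92

/-- Inverse function of a continuous `T` on `[a, b]` with positive derivative inside. -/
theorem exists_inv {T τ : ℝ → ℝ} {a b : ℝ} (hab : a < b) (hT : ContinuousOn T (Icc a b))
    (hd : ∀ x ∈ Ioo a b, HasDerivAt T (τ x) x) (hτ : ∀ x ∈ Ioo a b, 0 < τ x) :
    ∃ S : ℝ → ℝ, Continuous S ∧ S (T a) = a ∧ S (T b) = b ∧ (∀ x ∈ Icc a b, S (T x) = x) ∧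
      (∀ t ∈ Icc (T a) (T b), S t ∈ Icc a b ∧ T (S t) = t) ∧
      ∀ t ∈ Ioo (T a) (T b), S t ∈ Ioo a b ∧ HasDerivAt S (τ (S t))⁻¹ t := by
  have hmono : StrictMonoOn T (Icc a b) := by
    apply strictMonoOn_of_deriv_pos (convex_Icc a b) hT
    intro x hx
    rw [interior_Icc] at hx
    rw [(hd x hx).deriv]
    exact hτ x hx
  set c : ℝ → ℝ := fun x => max a (min b x) with hc
  have hcm : ∀ x, c x ∈ Icc a b := fun x =>
    ⟨le_max_left _ _, max_le hab.le (min_le_left _ _)⟩
  have hcc : Continuous c := by fun_prop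
  have hcid : ∀ x ∈ Icc a b, c x = x := fun x hx => by
    rw [hc]; simp only []; rw [min_eq_right hx.2, max_eq_right hx.1]
  set Tt : ℝ → ℝ := fun x => T (c x) + (x - c x) with hTt
  have hTtc : Continuous Tt := (hT.comp_continuous hcc hcm).add (continuous_id.sub hcc)
  have hTeq : ∀ x ∈ Icc a b, Tt x = T x := fun x hx => by
    rw [hTt]; simp only []; rw [hcid x hx]; ring
  have hcmono : Monotone c := fun x y h => max_le_max le_rfl (min_le_min le_rfl h)
  have hTtm : StrictMono Tt := by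
    intro x y hxy
    have h1 : c x ≤ c y := hcmono hxy.le
    have h2 : x - c x ≤ y - c y := by
      simp only [hc]
      rcases le_total b x with h | h
      · rw [min_eq_left h, min_eq_left (h.trans hxy.le)]; linarith
      · rw [min_eq_right h]
        rcases le_total b y with h' | h'
        · rw [min_eq_left h', max_eq_right hab.le]
          rcases le_total a x with h'' | h''
          · rw [max_eq_right h'']; linarith
          · rw [max_eq_left h'']; linarith
        · rw [min_eq_right h']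
          rcases le_total a x with h'' | h''
          · rw [max_eq_right h'', max_eq_right (h''.trans hxy.le)]; linarith
          · rw [max_eq_left h'']
            rcases le_total a y with h3 | h3
            · rw [max_eq_right h3]; linarith
            · rw [max_eq_left h3]; linarith
    rcases eq_or_lt_of_le h1 with h3 | h3
    · simp only [hTt]; rw [h3]; linarith
    · have := hmono (hcm x) (hcm y) h3
      simp only [hTt]; linarith
  have hsurj : Function.Surjective Tt := by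
    intro v
    -- value below
    have hlow : Tt (a - |v - T a|) ≤ v := by
      have h1 : a - |v - T a| ≤ a := by linarith [abs_nonneg (v - T a)]
      have h2 : c (a - |v - T a|) = a := by
        simp only [hc]; rw [min_eq_right (h1.trans hab.le), max_eq_left h1]
      simp only [hTt]; rw [h2]
      have := neg_abs_le (v - T a)
      linarith
    have hhigh : v ≤ Tt (b + |v - T b|) := by
      have h1 : b ≤ b + |v - T b| := by linarith [abs_nonneg (v - T b)]
      have h2 : c (b + |v - T b|) = b := by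
        simp only [hc]; rw [min_eq_left h1, max_eq_right hab.le]
      simp only [hTt]; rw [h2]
      have := le_abs_self (v - T b)
      linarith
    obtain ⟨x, _, hx⟩ := intermediate_value_uIcc (a := a - |v - T a|) (b := b + |v - T b|)
      hTtc.continuousOn (show v ∈ uIcc _ _ from ⟨(min_le_left _ _).trans hlow,
        hhigh.trans (le_max_right _ _)⟩)
    exact ⟨x, hx⟩
  set e := hTtm.orderIsoOfSurjective Tt hsurj with he
  have heS : ∀ x, e.symm (Tt x) = x := fun x => by
    have : e x = Tt x := rfl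
    rw [← this, e.symm_apply_apply]
  have heT : ∀ t, Tt (e.symm t) = t := fun t => by
    have : e (e.symm t) = Tt (e.symm t) := rfl
    rw [← this, e.apply_symm_apply]
  have haI : a ∈ Icc a b := ⟨le_rfl, hab.le⟩
  have hbI : b ∈ Icc a b := ⟨hab.le, le_rfl⟩
  have hcont : Continuous (fun t => e.symm t) := e.symm.continuous
  have hSm : StrictMono (fun t => e.symm t) := e.symm.strictMono
  refine ⟨fun t => e.symm t, hcont, ?_, ?_, ?_, ?_, ?_⟩
  · rw [← hTeq a haI]; exact heS a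
  · rw [← hTeq b hbI]; exact heS b
  · intro x hx; rw [← hTeq x hx]; exact heS x
  · intro t ht
    have h1 : (e.symm t : ℝ) ∈ Icc a b := by
      constructor
      · have : e.symm (T a) ≤ e.symm t := hSm.monotone ht.1
        rw [← hTeq a haI, heS a] at this; exact this
      · have : e.symm t ≤ e.symm (T b) := hSm.monotone ht.2
        rw [← hTeq b hbI, heS b] at this; exact this
    exact ⟨h1, by rw [← hTeq _ h1]; exact heT t⟩
  · intro t ht
    have h1 : (e.symm t : ℝ) ∈ Ioo a b := by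
      constructor
      · have : e.symm (T a) < e.symm t := hSm ht.1
        rw [← hTeq a haI, heS a] at this; exact this
      · have : e.symm t < e.symm (T b) := hSm ht.2
        rw [← hTeq b hbI, heS b] at this; exact this
    refine ⟨h1, ?_⟩
    refine HasDerivAt.of_local_left_inverse (f := T) hcont.continuousAt (hd _ h1)
      (hτ _ h1).ne' ?_
    filter_upwards [Ioo_mem_nhds ht.1 ht.2] with s hs
    have h2 : (e.symm s : ℝ) ∈ Icc a b := by
      constructor
      · have : e.symm (T a) ≤ e.symm s := hSm.monotone hs.1.le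
        rw [← hTeq a haI, heS a] at this; exact this
      · have : e.symm s ≤ e.symm (T b) := hSm.monotone hs.2.le
        rw [← hTeq b hbI, heS b] at this; exact this
    rw [← hTeq _ h2]; exact heT s

/-- **Slices.** Two parametrised slices with `dT > 0`, `dK = m dT`; if `m₁ < m₂` at equal `T`, then
`K₁ < K₂` at equal `T`. -/
theorem slice_lt {T₁ K₁ m₁ τ₁ T₂ K₂ m₂ τ₂ : ℝ → ℝ} {a₁ b₁ a₂ b₂ : ℝ} (hab₁ : a₁ < b₁)
    (hab₂ : a₂ < b₂)
    (hT₁ : ContinuousOn T₁ (Icc a₁ b₁)) (hd₁ : ∀ x ∈ Ioo a₁ b₁, HasDerivAt T₁ (τ₁ x) x)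
    (hτ₁ : ∀ x ∈ Ioo a₁ b₁, 0 < τ₁ x)
    (hK₁ : ContinuousOn K₁ (Icc a₁ b₁)) (hk₁ : ∀ x ∈ Ioo a₁ b₁, HasDerivAt K₁ (m₁ x * τ₁ x) x)
    (hT₂ : ContinuousOn T₂ (Icc a₂ b₂)) (hd₂ : ∀ x ∈ Ioo a₂ b₂, HasDerivAt T₂ (τ₂ x) x)
    (hτ₂ : ∀ x ∈ Ioo a₂ b₂, 0 < τ₂ x)
    (hK₂ : ContinuousOn K₂ (Icc a₂ b₂)) (hk₂ : ∀ x ∈ Ioo a₂ b₂, HasDerivAt K₂ (m₂ x * τ₂ x) x)
    (hTa : T₁ a₁ = T₂ a₂) (hTb : T₁ b₁ = T₂ b₂) (hKa : K₁ a₁ = K₂ a₂)
    (hm : ∀ x ∈ Ioo a₁ b₁, ∀ y ∈ Ioo a₂ b₂, T₁ x = T₂ y → m₁ x < m₂ y) : K₁ b₁ < K₂ b₂ := by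
  obtain ⟨S₁, hS₁, hSa₁, hSb₁, -, hSi₁, hSd₁⟩ := exists_inv hab₁ hT₁ hd₁ hτ₁
  obtain ⟨S₂, hS₂, hSa₂, hSb₂, -, hSi₂, hSd₂⟩ := exists_inv hab₂ hT₂ hd₂ hτ₂
  have hlt : T₁ a₁ < T₁ b₁ := by
    have hmono : StrictMonoOn T₁ (Icc a₁ b₁) := by
      apply strictMonoOn_of_deriv_pos (convex_Icc _ _) hT₁
      intro x hx
      rw [interior_Icc] at hx
      rw [(hd₁ x hx).deriv]
      exact hτ₁ x hx
    exact hmono ⟨le_rfl, hab₁.le⟩ ⟨hab₁.le, le_rfl⟩ hab₁
  have hmono : StrictMonoOn (fun t => K₂ (S₂ t) - K₁ (S₁ t)) (Icc (T₁ a₁) (T₁ b₁)) := by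
    apply strictMonoOn_of_deriv_pos (convex_Icc _ _)
    · refine ContinuousOn.sub ?_ ?_
      · refine hK₂.comp hS₂.continuousOn fun t ht => (hSi₂ t ?_).1
        rw [← hTa, ← hTb]; exact ht
      · exact hK₁.comp hS₁.continuousOn fun t ht => (hSi₁ t ht).1
    · intro t ht
      rw [interior_Icc] at ht
      have ht2 : t ∈ Ioo (T₂ a₂) (T₂ b₂) := by rw [← hTa, ← hTb]; exact ht
      obtain ⟨h1, h2⟩ := hSd₁ t ht
      obtain ⟨h3, h4⟩ := hSd₂ t ht2
      have h5 : HasDerivAt (fun t => K₁ (S₁ t)) (m₁ (S₁ t)) t := by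
        have := (hk₁ _ h1).comp t h2
        refine this.congr_deriv ?_
        have := (hτ₁ _ h1).ne'
        field_simp
      have h6 : HasDerivAt (fun t => K₂ (S₂ t)) (m₂ (S₂ t)) t := by
        have := (hk₂ _ h3).comp t h4
        refine this.congr_deriv ?_
        have := (hτ₂ _ h3).ne'
        field_simp
      have h65 : HasDerivAt (fun t => K₂ (S₂ t) - K₁ (S₁ t)) (m₂ (S₂ t) - m₁ (S₁ t)) t :=
        h6.sub h5
      rw [h65.deriv]
      have h7 := hm _ h1 _ h3 (by
        rw [(hSi₁ t ⟨ht.1.le, ht.2.le⟩).2, (hSi₂ t ⟨ht2.1.le, ht2.2.le⟩).2])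
      linarith
  have h1 := hmono ⟨le_rfl, hlt.le⟩ ⟨hlt.le, le_rfl⟩ hlt
  (try simp only at h1)
  rw [hSa₁, hSb₁, hTa, hTb, hSa₂, hSb₂, hKa] at h1
  linarith

end B92
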