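import Mathlib
import Pool.Agent.Lib.B92.K1Fun
import Pool.Agent.Lib.B92.Slice

/-!
# MP_b92fc8_an, case `k ^ 2 = 1`: the slices of a level, comparison at equal `tau`

Plus side `x = b + k s`, minus side `x = b - k s`, `s > 0`.
-/

set_option autoImplicit false

open Set Filter Topology

noncomputable section

namespace B92.K1

theorem tau_self {k b : ℝ} (hb : 0 < b) : tau k b b = 0 := by
  have hbn : b ≠ 0 := hb.ne'
  simp [tau, hbn]

theorem kap_self {k b : ℝ} : kap k b b = 0 := by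
  simp [kap]

theorem zet_self {k b : ℝ} (hb : 0 < b) : zet k b b = 0 := by
  simp [zet, tau_self hb, kap_self]

theorem two_log_lt {r : ℝ} (hr : 1 < r) : 2 * Real.log r < r - 1 / r := by
  have h0 : 0 < r := by linarith
  have h1 : 0 < Real.log r := Real.log_pos hr
  have h2 := Real.self_lt_sinh_iff.2 h1
  rw [Real.sinh_log h0] at h2
  rw [one_div]
  linarith

theorem tau_sub {k : ℝ} (hk : k = 1 ∨ k = -1) {b x y : ℝ} (hb : 0 < b) (hx : 0 < x) (hy : 0 < y) :
    tau k b x - tau k b y = k * (-(b ^ 2 - 2 * k * b) / 2 * (1 / x ^ 2 - 1 / y ^ 2)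
      - 2 * k * (1 / x - 1 / y) - (Real.log x - Real.log y)) := by
  have hbn : b ≠ 0 := hb.ne'
  have hxn : x ≠ 0 := hx.ne'
  have hyn : y ≠ 0 := hy.ne'
  simp only [tau]
  rcases hk with rfl | rfl
  · field_simp
    ring
  · field_simp
    ring

theorem pair_aux {k a x y : ℝ} (hy : 0 < y) (hyx : y < x)
    (heq : -a / 2 * (1 / x ^ 2 - 1 / y ^ 2) - 2 * k * (1 / x - 1 / y)
      - (Real.log x - Real.log y) = 0) : (a / x + 2 * k - x) + (a / y + 2 * k - y) < 0 := by
  have hx : 0 < x := hy.trans hyx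
  have hxn : x ≠ 0 := hx.ne'
  have hyn : y ≠ 0 := hy.ne'
  have h1 : 1 < x / y := (one_lt_div hy).2 hyx
  have h2 := two_log_lt h1
  rw [Real.log_div hxn hyn] at h2
  have h3 : 1 / (x / y) = y / x := by rw [one_div_div]
  rw [h3] at h2
  have h4 : 0 < x - y := by linarith
  have h5 : ((a / x + 2 * k - x) + (a / y + 2 * k - y)) * ((x - y) / (x * y))
      = 2 * (Real.log x - Real.log y) - (x / y - y / x) := by
    have e : Real.log x - Real.log y
        = -a / 2 * (1 / x ^ 2 - 1 / y ^ 2) - 2 * k * (1 / x - 1 / y) := by linarith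
    rw [e]
    field_simp
    ring
  have h6 : 0 < (x - y) / (x * y) := by positivity
  by_contra hcon
  push Not at hcon
  have h7 := mul_nonneg hcon h6.le
  rw [h5] at h7
  linarith

theorem PP_div {k b x : ℝ} (hx : 0 < x) :
    PP k b x / x = (b ^ 2 - 2 * k * b) / x + 2 * k - x := by
  have hxn : x ≠ 0 := hx.ne'
  simp only [PP]
  field_simp
  ring

/-- **Pair inequality** at equal `tau`. -/
theorem pair_lt {k : ℝ} (hk : k = 1 ∨ k = -1) {b x y : ℝ} (hb : 0 < b) (hx : 0 < x) (hy : 0 < y)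
    (hxy : x ≠ y) (heq : tau k b x = tau k b y) : PP k b x / x + PP k b y / y < 0 := by
  have hk0 : k ≠ 0 := by rcases hk with rfl | rfl <;> norm_num
  rw [PP_div hx, PP_div hy]
  rcases lt_or_gt_of_ne hxy with h | h
  · have h1 := tau_sub hk hb hy hx
    rw [heq, sub_self] at h1
    have h2 := (mul_eq_zero.1 h1.symm).resolve_left hk0
    have := pair_aux (k := k) hx h h2
    linarith
  · have h1 := tau_sub hk hb hx hy
    rw [heq, sub_self] at h1
    have h2 := (mul_eq_zero.1 h1.symm).resolve_left hk0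
    exact pair_aux (k := k) hy h h2

/-! ### Plus side -/

theorem xp_pos {k : ℝ} (hk : k = 1 ∨ k = -1) {b s s₁ : ℝ} (hb : 0 < b) (h0 : 0 ≤ s) (h1 : s ≤ s₁)
    (hx : 0 < b + k * s₁) : 0 < b + k * s := by
  rcases hk with rfl | rfl <;> linarith

theorem xm_pos {k : ℝ} (hk : k = 1 ∨ k = -1) {b s s₁ : ℝ} (hb : 0 < b) (h0 : 0 ≤ s) (h1 : s ≤ s₁)
    (hx : 0 < b - k * s₁) : 0 < b - k * s := by
  rcases hk with rfl | rfl <;> linarith

theorem PPp {k : ℝ} (hk : k = 1 ∨ k = -1) {b s : ℝ} :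
    PP k b (b + k * s) = s * (2 * (1 - k * b) - s) := by
  simp only [PP]
  rcases hk with rfl | rfl <;> ring

theorem PPm {k : ℝ} (hk : k = 1 ∨ k = -1) {b s : ℝ} :
    PP k b (b - k * s) = -(s * (2 * (1 - k * b) + s)) := by
  simp only [PP]
  rcases hk with rfl | rfl <;> ring

theorem hd_tauP {k : ℝ} (hk : k = 1 ∨ k = -1) {b s : ℝ} (hb : 0 < b) (hx : 0 < b + k * s) :
    HasDerivAt (fun s => tau k b (b + k * s)) (PP k b (b + k * s) / (b + k * s) ^ 3) s := by
  have h1 : HasDerivAt (fun s : ℝ => b + k * s) k s := by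
    simpa using ((hasDerivAt_id s).const_mul k).const_add b
  have h2 := tau_path hk (hasDerivAt_const s b) h1 hb hx
  refine h2.congr_deriv ?_
  have hkk : k * k = 1 := by rcases hk with rfl | rfl <;> norm_num
  have : k * PP k b (b + k * s) / (b + k * s) ^ 3 * k
      = (k * k) * (PP k b (b + k * s) / (b + k * s) ^ 3) := by ring
  rw [mul_zero, zero_add, this, hkk, one_mul]

theorem hd_kapP {k : ℝ} (hk : k = 1 ∨ k = -1) {b s : ℝ} (hb : 0 < b) (hx : 0 < b + k * s) :
    HasDerivAt (fun s => kap k b (b + k * s))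
      ((PP k b (b + k * s) / (b + k * s)) ^ 2 * (PP k b (b + k * s) / (b + k * s) ^ 3)) s := by
  have h1 : HasDerivAt (fun s : ℝ => b + k * s) k s := by
    simpa using ((hasDerivAt_id s).const_mul k).const_add b
  have h2 := kap_path hk (hasDerivAt_const s b) h1 hb hx
  refine h2.congr_deriv ?_
  have hxn : b + k * s ≠ 0 := hx.ne'
  have hkk : k * k = 1 := by rcases hk with rfl | rfl <;> norm_num
  have : k * PP k b (b + k * s) ^ 3 / (b + k * s) ^ 5 * k
      = (k * k) * (PP k b (b + k * s) ^ 3 / (b + k * s) ^ 5) := by ring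
  rw [mul_zero, mul_zero, zero_add, this, hkk, one_mul]
  field_simp

theorem hd_tauM {k : ℝ} (hk : k = 1 ∨ k = -1) {b s : ℝ} (hb : 0 < b) (hx : 0 < b - k * s) :
    HasDerivAt (fun s => tau k b (b - k * s)) (-PP k b (b - k * s) / (b - k * s) ^ 3) s := by
  have h1 : HasDerivAt (fun s : ℝ => b - k * s) (-k) s := by
    simpa using ((hasDerivAt_id s).const_mul k).const_sub b
  have h2 := tau_path hk (hasDerivAt_const s b) h1 hb hx
  refine h2.congr_deriv ?_
  have hkk : k * k = 1 := by rcases hk with rfl | rfl <;> norm_num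
  have : k * PP k b (b - k * s) / (b - k * s) ^ 3 * -k
      = (k * k) * (-PP k b (b - k * s) / (b - k * s) ^ 3) := by ring
  rw [mul_zero, zero_add, this, hkk, one_mul]

theorem hd_kapM {k : ℝ} (hk : k = 1 ∨ k = -1) {b s : ℝ} (hb : 0 < b) (hx : 0 < b - k * s) :
    HasDerivAt (fun s => kap k b (b - k * s))
      ((PP k b (b - k * s) / (b - k * s)) ^ 2 * (-PP k b (b - k * s) / (b - k * s) ^ 3)) s := by
  have h1 : HasDerivAt (fun s : ℝ => b - k * s) (-k) s := by
    simpa using ((hasDerivAt_id s).const_mul k).const_sub b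
  have h2 := kap_path hk (hasDerivAt_const s b) h1 hb hx
  refine h2.congr_deriv ?_
  have hxn : b - k * s ≠ 0 := hx.ne'
  have hkk : k * k = 1 := by rcases hk with rfl | rfl <;> norm_num
  have : k * PP k b (b - k * s) ^ 3 / (b - k * s) ^ 5 * -k
      = (k * k) * (-PP k b (b - k * s) ^ 3 / (b - k * s) ^ 5) := by ring
  rw [mul_zero, mul_zero, zero_add, this, hkk, one_mul]
  field_simp

theorem PPp_pos {k : ℝ} (hk : k = 1 ∨ k = -1) {b s : ℝ} (h0 : 0 < s) (h1 : s < 2 * (1 - k * b)) :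
    0 < PP k b (b + k * s) := by
  rw [PPp hk]
  exact mul_pos h0 (by linarith)

theorem PPm_neg {k : ℝ} (hk : k = 1 ∨ k = -1) {b s : ℝ} (h0 : 0 < s) (h1 : 0 < 1 - k * b) :
    PP k b (b - k * s) < 0 := by
  rw [PPm hk]
  have : 0 < s * (2 * (1 - k * b) + s) := by positivity
  linarith

theorem cont_tauP {k : ℝ} (hk : k = 1 ∨ k = -1) {b s₁ : ℝ} (hb : 0 < b) (hx : 0 < b + k * s₁) :
    ContinuousOn (fun s => tau k b (b + k * s)) (Icc 0 s₁) := fun _ hs =>
  (hd_tauP hk hb (xp_pos hk hb hs.1 hs.2 hx)).continuousAt.continuousWithinAt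

theorem cont_kapP {k : ℝ} (hk : k = 1 ∨ k = -1) {b s₁ : ℝ} (hb : 0 < b) (hx : 0 < b + k * s₁) :
    ContinuousOn (fun s => kap k b (b + k * s)) (Icc 0 s₁) := fun _ hs =>
  (hd_kapP hk hb (xp_pos hk hb hs.1 hs.2 hx)).continuousAt.continuousWithinAt

theorem cont_tauM {k : ℝ} (hk : k = 1 ∨ k = -1) {b s₁ : ℝ} (hb : 0 < b) (hx : 0 < b - k * s₁) :
    ContinuousOn (fun s => tau k b (b - k * s)) (Icc 0 s₁) := fun _ hs =>
  (hd_tauM hk hb (xm_pos hk hb hs.1 hs.2 hx)).continuousAt.continuousWithinAt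

theorem cont_kapM {k : ℝ} (hk : k = 1 ∨ k = -1) {b s₁ : ℝ} (hb : 0 < b) (hx : 0 < b - k * s₁) :
    ContinuousOn (fun s => kap k b (b - k * s)) (Icc 0 s₁) := fun _ hs =>
  (hd_kapM hk hb (xm_pos hk hb hs.1 hs.2 hx)).continuousAt.continuousWithinAt

theorem mono_tauP {k : ℝ} (hk : k = 1 ∨ k = -1) {b s₁ : ℝ} (hb : 0 < b) (hx : 0 < b + k * s₁)
    (h1 : s₁ < 2 * (1 - k * b)) : StrictMonoOn (fun s => tau k b (b + k * s)) (Icc 0 s₁) := by
  apply strictMonoOn_of_deriv_pos (convex_Icc _ _) (cont_tauP hk hb hx)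
  intro s hs
  rw [interior_Icc] at hs
  have hxs := xp_pos hk hb hs.1.le hs.2.le hx
  rw [(hd_tauP hk hb hxs).deriv]
  have := PPp_pos hk hs.1 (hs.2.trans h1)
  positivity

theorem mono_tauM {k : ℝ} (hk : k = 1 ∨ k = -1) {b s₁ : ℝ} (hb : 0 < b) (hx : 0 < b - k * s₁)
    (h1 : 0 < 1 - k * b) : StrictMonoOn (fun s => tau k b (b - k * s)) (Icc 0 s₁) := by
  apply strictMonoOn_of_deriv_pos (convex_Icc _ _) (cont_tauM hk hb hx)
  intro s hs
  rw [interior_Icc] at hs
  have hxs := xm_pos hk hb hs.1.le hs.2.le hx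
  rw [(hd_tauM hk hb hxs).deriv]
  have := PPm_neg hk hs.1 h1
  apply div_pos (by linarith) (by positivity)

theorem tauP_zero {k b : ℝ} (hb : 0 < b) : tau k b (b + k * 0) = 0 := by
  rw [mul_zero, add_zero, tau_self hb]

theorem tauM_zero {k b : ℝ} (hb : 0 < b) : tau k b (b - k * 0) = 0 := by
  rw [mul_zero, sub_zero, tau_self hb]

theorem kapP_zero {k b : ℝ} : kap k b (b + k * 0) = 0 := by
  rw [mul_zero, add_zero, kap_self]

theorem kapM_zero {k b : ℝ} : kap k b (b - k * 0) = 0 := by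
  rw [mul_zero, sub_zero, kap_self]

theorem tauP_pos {k : ℝ} (hk : k = 1 ∨ k = -1) {b s₁ : ℝ} (hb : 0 < b) (hx : 0 < b + k * s₁)
    (h0 : 0 < s₁) (h1 : s₁ < 2 * (1 - k * b)) : 0 < tau k b (b + k * s₁) := by
  have := mono_tauP hk hb hx h1 ⟨le_rfl, h0.le⟩ ⟨h0.le, le_rfl⟩ h0
  simp only at this
  rwa [tauP_zero hb] at this

theorem tauM_pos {k : ℝ} (hk : k = 1 ∨ k = -1) {b s₁ : ℝ} (hb : 0 < b) (hx : 0 < b - k * s₁)
    (h0 : 0 < s₁) (h1 : 0 < 1 - k * b) : 0 < tau k b (b - k * s₁) := by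
  have := mono_tauM hk hb hx h1 ⟨le_rfl, h0.le⟩ ⟨h0.le, le_rfl⟩ h0
  simp only at this
  rwa [tauM_zero hb] at this

/-- pair inequality for the two sides -/
theorem pair_sides {k : ℝ} (hk : k = 1 ∨ k = -1) {b s₁ s₂ : ℝ} (hb : 0 < b)
    (h1 : 0 < s₁) (h1' : s₁ < 2 * (1 - k * b)) (hx1 : 0 < b + k * s₁) (h2 : 0 < s₂)
    (hx2 : 0 < b - k * s₂) (heq : tau k b (b + k * s₁) = tau k b (b - k * s₂)) :
    0 < PP k b (b + k * s₁) / (b + k * s₁) ∧
    PP k b (b + k * s₁) / (b + k * s₁) < -(PP k b (b - k * s₂) / (b - k * s₂)) := by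
  have hk0 : k ≠ 0 := by rcases hk with rfl | rfl <;> norm_num
  have hne : b + k * s₁ ≠ b - k * s₂ := by
    intro h
    have : k * (s₁ + s₂) = 0 := by linarith
    rcases mul_eq_zero.1 this with h3 | h3
    · exact hk0 h3
    · linarith
  have h3 := pair_lt hk hb hx1 hx2 hne heq
  exact ⟨div_pos (PPp_pos hk h1 h1') hx1, by linarith⟩

/-- **K-lemma.** -/
theorem kap_lt {k : ℝ} (hk : k = 1 ∨ k = -1) {b s₁ s₂ : ℝ} (hb : 0 < b) (hσ : 0 < 1 - k * b)
    (h1 : 0 < s₁) (h1' : s₁ < 2 * (1 - k * b)) (hx1 : 0 < b + k * s₁) (h2 : 0 < s₂)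
    (hx2 : 0 < b - k * s₂) (heq : tau k b (b + k * s₁) = tau k b (b - k * s₂)) :
    kap k b (b + k * s₁) < kap k b (b - k * s₂) := by
  refine slice_lt (T₁ := fun s => tau k b (b + k * s)) (K₁ := fun s => kap k b (b + k * s))
    (m₁ := fun s => (PP k b (b + k * s) / (b + k * s)) ^ 2)
    (τ₁ := fun s => PP k b (b + k * s) / (b + k * s) ^ 3)
    (T₂ := fun s => tau k b (b - k * s)) (K₂ := fun s => kap k b (b - k * s))
    (m₂ := fun s => (PP k b (b - k * s) / (b - k * s)) ^ 2)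
    (τ₂ := fun s => -PP k b (b - k * s) / (b - k * s) ^ 3)
    (a₁ := 0) (b₁ := s₁) (a₂ := 0) (b₂ := s₂) h1 h2 (cont_tauP hk hb hx1)
    (fun s hs => hd_tauP hk hb (xp_pos hk hb hs.1.le hs.2.le hx1)) ?_ (cont_kapP hk hb hx1)
    (fun s hs => hd_kapP hk hb (xp_pos hk hb hs.1.le hs.2.le hx1)) (cont_tauM hk hb hx2)
    (fun s hs => hd_tauM hk hb (xm_pos hk hb hs.1.le hs.2.le hx2)) ?_ (cont_kapM hk hb hx2)
    (fun s hs => hd_kapM hk hb (xm_pos hk hb hs.1.le hs.2.le hx2)) ?_ heq ?_ ?_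
  · intro s hs
    have hxs := xp_pos hk hb hs.1.le hs.2.le hx1
    have := PPp_pos hk hs.1 (hs.2.trans h1')
    positivity
  · intro s hs
    have hxs := xm_pos hk hb hs.1.le hs.2.le hx2
    have := PPm_neg hk hs.1 hσ
    exact div_pos (by linarith) (by positivity)
  · rw [tauP_zero hb, tauM_zero hb]
  · rw [kapP_zero, kapM_zero]
  · intro x hx y hy he
    have := pair_sides hk hb hx.1 (hx.2.trans h1') (xp_pos hk hb hx.1.le hx.2.le hx1) hy.1
      (xm_pos hk hb hy.1.le hy.2.le hx2) he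
    nlinarith [this.1, this.2]

/-- `- P / x` increases on the minus side. -/
theorem mM_le {k : ℝ} (hk : k = 1 ∨ k = -1) {b s s₂ : ℝ} (hb : 0 < b) (hσ : 0 < 1 - k * b)
    (h0 : 0 ≤ s) (hs : s ≤ s₂) (hx2 : 0 < b - k * s₂) :
    -(PP k b (b - k * s) / (b - k * s)) ≤ -(PP k b (b - k * s₂) / (b - k * s₂)) := by
  have hx := xm_pos hk hb h0 hs hx2
  rw [PPm hk, PPm hk, neg_div, neg_div, neg_neg, neg_neg, div_le_div_iff₀ hx hx2]
  have hs0 : 0 ≤ s₂ := h0.trans hs
  rcases hk with rfl | rfl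
  · have e : s₂ * (2 * (1 - 1 * b) + s₂) * (b - 1 * s) - s * (2 * (1 - 1 * b) + s) * (b - 1 * s₂)
        = (s₂ - s) * (b * (2 * (1 - b)) + b * (s + s₂) - s * s₂) := by ring
    have h1 : 0 ≤ b * (2 * (1 - b)) + b * (s + s₂) - s * s₂ := by
      have : 0 < 1 - b := by linarith
      have : s ≤ b := by linarith
      have : s * s₂ ≤ b * s₂ := mul_le_mul_of_nonneg_right this hs0
      have : 0 ≤ b * s := by positivity
      have : 0 ≤ b * (2 * (1 - b)) := by positivity
      linarith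
    have := mul_nonneg (sub_nonneg.2 hs) h1
    linarith
  · have e : s₂ * (2 * (1 - -1 * b) + s₂) * (b - -1 * s) - s * (2 * (1 - -1 * b) + s) * (b - -1 * s₂)
        = (s₂ - s) * (b * (2 * (1 + b)) + b * (s + s₂) + s * s₂) := by ring
    have h1 : 0 ≤ b * (2 * (1 + b)) + b * (s + s₂) + s * s₂ := by positivity
    have := mul_nonneg (sub_nonneg.2 hs) h1
    linarith

/-- at `tau₊ ≤ tau₋`: `w₊ < w₋` -/
theorem w_lt {k : ℝ} (hk : k = 1 ∨ k = -1) {b s₁ s₂ : ℝ} (hb : 0 < b) (hσ : 0 < 1 - k * b)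
    (h1 : 0 < s₁) (h1' : s₁ < 2 * (1 - k * b)) (hx1 : 0 < b + k * s₁) (h2 : 0 < s₂)
    (hx2 : 0 < b - k * s₂) (hle : tau k b (b + k * s₁) ≤ tau k b (b - k * s₂)) :
    PP k b (b + k * s₁) / (b + k * s₁) < -(PP k b (b - k * s₂) / (b - k * s₂)) := by
  have hpos := tauP_pos hk hb hx1 h1 h1'
  obtain ⟨s, hs, hse⟩ := intermediate_value_Icc h2.le (cont_tauM hk hb hx2)
    (show tau k b (b + k * s₁) ∈ Icc _ _ from ⟨by
      rw [tauM_zero hb]
      exact hpos.le, hle⟩)
  simp only at hse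
  have hs0 : 0 < s := by
    rcases eq_or_lt_of_le hs.1 with h | h
    · rw [← h, tauM_zero hb] at hse
      linarith
    · exact h
  have h3 := pair_sides hk hb h1 h1' hx1 hs0 (xm_pos hk hb hs.1 hs.2 hx2) hse.symm
  exact h3.2.trans_le (mM_le hk hb hσ hs.1 hs.2 hx2)

/-- **Slice lemma.** If `tau₊ ≥ tau₋` and `u ≥ c₀` on the plus slice, then
`D = zet₊ - zet₋` is positive and at least `c₀ (tau₊ - tau₋)`. -/
theorem slice_D {k : ℝ} (hk : k = 1 ∨ k = -1) {b s₁ s₂ c₀ : ℝ} (hb : 0 < b) (hσ : 0 < 1 - k * b)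
    (h1 : 0 < s₁) (h1' : s₁ < 2 * (1 - k * b)) (hx1 : 0 < b + k * s₁) (h2 : 0 < s₂)
    (hx2 : 0 < b - k * s₂) (hle : tau k b (b - k * s₂) ≤ tau k b (b + k * s₁)) (hc : 0 ≤ c₀)
    (hu : ∀ s ∈ Ioo 0 s₁, c₀ ≤ 2 * (1 - k * b) ^ 2 - (PP k b (b + k * s) / (b + k * s)) ^ 2) :
    0 < zet k b (b + k * s₁) - zet k b (b - k * s₂) ∧
    c₀ * (tau k b (b + k * s₁) - tau k b (b - k * s₂))
      ≤ zet k b (b + k * s₁) - zet k b (b - k * s₂) := by
  have hpos := tauM_pos hk hb hx2 h2 hσ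
  obtain ⟨s, hs, hse⟩ := intermediate_value_Icc h1.le (cont_tauP hk hb hx1)
    (show tau k b (b - k * s₂) ∈ Icc _ _ from ⟨by
      rw [tauP_zero hb]
      exact hpos.le, hle⟩)
  simp only at hse
  have hs0 : 0 < s := by
    rcases eq_or_lt_of_le hs.1 with h | h
    · rw [← h, tauP_zero hb] at hse
      linarith
    · exact h
  have hxs := xp_pos hk hb hs.1 hs.2 hx1
  have hK := kap_lt hk hb hσ hs0 (hs.2.trans_lt h1') hxs h2 hx2 hse
  have hmono : MonotoneOn (fun s => zet k b (b + k * s) - c₀ * tau k b (b + k * s))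
      (Icc 0 s₁) := by
    have hd : ∀ s ∈ Icc 0 s₁, HasDerivAt (fun s => zet k b (b + k * s) - c₀ * tau k b (b + k * s))
        ((2 * (1 - k * b) ^ 2 - (PP k b (b + k * s) / (b + k * s)) ^ 2 - c₀)
          * (PP k b (b + k * s) / (b + k * s) ^ 3)) s := by
      intro s hs
      have hxs := xp_pos hk hb hs.1 hs.2 hx1
      have e1 := hd_tauP hk hb hxs
      have e2 := hd_kapP hk hb hxs
      have e3 := ((e1.const_mul (2 * (1 - k * b) ^ 2)).sub e2).sub (e1.const_mul c₀)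
      refine e3.congr_deriv ?_
      ring
    apply monotoneOn_of_deriv_nonneg (convex_Icc _ _)
    · intro s hs
      exact (hd s hs).continuousAt.continuousWithinAt
    · intro s hs
      exact (hd s (interior_subset hs)).differentiableAt.differentiableWithinAt
    · intro s hs
      rw [interior_Icc] at hs
      rw [(hd s ⟨hs.1.le, hs.2.le⟩).deriv]
      have h3 := hu s hs
      have h4 := PPp_pos hk hs.1 (hs.2.trans h1')
      have h5 := xp_pos hk hb hs.1.le hs.2.le hx1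
      exact mul_nonneg (by linarith) (by positivity)
  have h3 := hmono hs ⟨h1.le, le_rfl⟩ hs.2
  simp only at h3
  have h4 : zet k b (b + k * s) - zet k b (b - k * s₂)
      = kap k b (b - k * s₂) - kap k b (b + k * s) := by
    simp only [zet]
    rw [hse]
    ring
  rw [hse] at h3
  have h5 : 0 ≤ c₀ * (tau k b (b + k * s₁) - tau k b (b - k * s₂)) :=
    mul_nonneg hc (by linarith)
  constructor
  · linarith
  · linarith

/-- contact -/
theorem contact_D {k : ℝ} (hk : k = 1 ∨ k = -1) {b s₁ s₂ : ℝ} (hb : 0 < b) (hσ : 0 < 1 - k * b)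
    (h1 : 0 < s₁) (h1' : s₁ < 2 * (1 - k * b)) (hx1 : 0 < b + k * s₁) (h2 : 0 < s₂)
    (hx2 : 0 < b - k * s₂) (heq : tau k b (b + k * s₁) = tau k b (b - k * s₂)) :
    0 < zet k b (b + k * s₁) - zet k b (b - k * s₂) := by
  have hK := kap_lt hk hb hσ h1 h1' hx1 h2 hx2 heq
  simp only [zet]
  rw [heq]
  linarith

/-- monotonicity of `P / x` on the plus side -/
theorem mP_le {k : ℝ} (hk : k = 1 ∨ k = -1) {b s s₁ : ℝ} (hb : 0 < b)
    (h0 : 0 ≤ s) (hs : s ≤ s₁) (hx1 : 0 < b + k * s₁)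
    (hc : k = 1 → (b + s₁) ^ 2 ≤ b * (2 - b)) :
    PP k b (b + k * s) / (b + k * s) ≤ PP k b (b + k * s₁) / (b + k * s₁) := by
  have hx := xp_pos hk hb h0 hs hx1
  rw [PPp hk, PPp hk, div_le_div_iff₀ hx hx1]
  have hs0 : 0 ≤ s₁ := h0.trans hs
  rcases hk with rfl | rfl
  · have h3 := hc rfl
    have e : s₁ * (2 * (1 - 1 * b) - s₁) * (b + 1 * s) - s * (2 * (1 - 1 * b) - s) * (b + 1 * s₁)
        = (s₁ - s) * (b * (2 - b) - (b + s) * (b + s₁)) := by ring
    have h1 : 0 ≤ b * (2 - b) - (b + s) * (b + s₁) := by nlinarith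
    have := mul_nonneg (sub_nonneg.2 hs) h1
    linarith
  · have e : s₁ * (2 * (1 - -1 * b) - s₁) * (b + -1 * s) - s * (2 * (1 - -1 * b) - s) * (b + -1 * s₁)
        = (s₁ - s) * (b * (2 + b) + (b - s) * (b - s₁)) := by ring
    have h1 : 0 ≤ b * (2 + b) + (b - s) * (b - s₁) := by
      have h2 : 0 ≤ (b - s) * (b - s₁) := mul_nonneg (by linarith) (by linarith)
      have : 0 ≤ b * (2 + b) := by positivity
      linarith
    have := mul_nonneg (sub_nonneg.2 hs) h1
    linarith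

theorem kapP_bd {k : ℝ} (hk : k = 1 ∨ k = -1) {b s₁ M : ℝ} (hb : 0 < b)
    (h1 : 0 ≤ s₁) (h1' : s₁ < 2 * (1 - k * b)) (hx1 : 0 < b + k * s₁)
    (hM : ∀ s ∈ Ioo 0 s₁, (PP k b (b + k * s) / (b + k * s)) ^ 2 ≤ M) :
    0 ≤ kap k b (b + k * s₁) ∧ kap k b (b + k * s₁) ≤ M * tau k b (b + k * s₁) := by
  have hd : ∀ c : ℝ, ∀ s ∈ Icc 0 s₁,
      HasDerivAt (fun s => c * tau k b (b + k * s) - kap k b (b + k * s))
      ((c - (PP k b (b + k * s) / (b + k * s)) ^ 2)
        * (PP k b (b + k * s) / (b + k * s) ^ 3)) s := by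
    intro c s hs
    have hxs := xp_pos hk hb hs.1 hs.2 hx1
    refine (((hd_tauP hk hb hxs).const_mul c).sub (hd_kapP hk hb hxs)).congr_deriv ?_
    ring
  have hq : ∀ s ∈ Ioo 0 s₁, 0 ≤ PP k b (b + k * s) / (b + k * s) ^ 3 := by
    intro s hs
    have h4 := PPp_pos hk hs.1 (hs.2.trans h1')
    have h5 := xp_pos hk hb hs.1.le hs.2.le hx1
    positivity
  constructor
  · have hanti : AntitoneOn (fun s => 0 * tau k b (b + k * s) - kap k b (b + k * s))
        (Icc 0 s₁) := by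
      apply antitoneOn_of_deriv_nonpos (convex_Icc _ _)
      · intro s hs
        exact (hd 0 s hs).continuousAt.continuousWithinAt
      · intro s hs
        exact (hd 0 s (interior_subset hs)).differentiableAt.differentiableWithinAt
      · intro s hs
        rw [interior_Icc] at hs
        rw [(hd 0 s ⟨hs.1.le, hs.2.le⟩).deriv]
        refine mul_nonpos_of_nonpos_of_nonneg ?_ (hq s hs)
        have := sq_nonneg (PP k b (b + k * s) / (b + k * s))
        linarith
    have h3 := hanti ⟨le_rfl, h1⟩ ⟨h1, le_rfl⟩ h1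
    simp only [zero_mul, zero_sub] at h3
    rw [kapP_zero] at h3
    linarith
  · have hmono : MonotoneOn (fun s => M * tau k b (b + k * s) - kap k b (b + k * s))
        (Icc 0 s₁) := by
      apply monotoneOn_of_deriv_nonneg (convex_Icc _ _)
      · intro s hs
        exact (hd M s hs).continuousAt.continuousWithinAt
      · intro s hs
        exact (hd M s (interior_subset hs)).differentiableAt.differentiableWithinAt
      · intro s hs
        rw [interior_Icc] at hs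
        rw [(hd M s ⟨hs.1.le, hs.2.le⟩).deriv]
        exact mul_nonneg (by linarith [hM s hs]) (hq s hs)
    have h3 := hmono ⟨le_rfl, h1⟩ ⟨h1, le_rfl⟩ h1
    simp only at h3
    rw [kapP_zero, tauP_zero hb] at h3
    linarith

theorem kapM_bd {k : ℝ} (hk : k = 1 ∨ k = -1) {b s₁ : ℝ} (hb : 0 < b) (hσ : 0 < 1 - k * b)
    (h1 : 0 ≤ s₁) (hx1 : 0 < b - k * s₁) :
    0 ≤ kap k b (b - k * s₁) ∧
      kap k b (b - k * s₁) ≤ (PP k b (b - k * s₁) / (b - k * s₁)) ^ 2 * tau k b (b - k * s₁) := by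
  have hd : ∀ c : ℝ, ∀ s ∈ Icc 0 s₁,
      HasDerivAt (fun s => c * tau k b (b - k * s) - kap k b (b - k * s))
      ((c - (PP k b (b - k * s) / (b - k * s)) ^ 2)
        * (-PP k b (b - k * s) / (b - k * s) ^ 3)) s := by
    intro c s hs
    have hxs := xm_pos hk hb hs.1 hs.2 hx1
    refine (((hd_tauM hk hb hxs).const_mul c).sub (hd_kapM hk hb hxs)).congr_deriv ?_
    ring
  have hq : ∀ s ∈ Ioo 0 s₁, 0 ≤ -PP k b (b - k * s) / (b - k * s) ^ 3 := by
    intro s hs
    have h4 := PPm_neg hk hs.1 hσ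
    have h5 := xm_pos hk hb hs.1.le hs.2.le hx1
    exact div_nonneg (by linarith) (by positivity)
  constructor
  · have hanti : AntitoneOn (fun s => 0 * tau k b (b - k * s) - kap k b (b - k * s))
        (Icc 0 s₁) := by
      apply antitoneOn_of_deriv_nonpos (convex_Icc _ _)
      · intro s hs
        exact (hd 0 s hs).continuousAt.continuousWithinAt
      · intro s hs
        exact (hd 0 s (interior_subset hs)).differentiableAt.differentiableWithinAt
      · intro s hs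
        rw [interior_Icc] at hs
        rw [(hd 0 s ⟨hs.1.le, hs.2.le⟩).deriv]
        refine mul_nonpos_of_nonpos_of_nonneg ?_ (hq s hs)
        have := sq_nonneg (PP k b (b - k * s) / (b - k * s))
        linarith
    have h3 := hanti ⟨le_rfl, h1⟩ ⟨h1, le_rfl⟩ h1
    simp only [zero_mul, zero_sub] at h3
    rw [kapM_zero] at h3
    linarith
  · set M := (PP k b (b - k * s₁) / (b - k * s₁)) ^ 2 with hMd
    have hmono : MonotoneOn (fun s => M * tau k b (b - k * s) - kap k b (b - k * s))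
        (Icc 0 s₁) := by
      apply monotoneOn_of_deriv_nonneg (convex_Icc _ _)
      · intro s hs
        exact (hd M s hs).continuousAt.continuousWithinAt
      · intro s hs
        exact (hd M s (interior_subset hs)).differentiableAt.differentiableWithinAt
      · intro s hs
        rw [interior_Icc] at hs
        rw [(hd M s ⟨hs.1.le, hs.2.le⟩).deriv]
        refine mul_nonneg ?_ (hq s hs)
        have h6 := mM_le hk hb hσ hs.1.le hs.2.le hx1
        have h7 : 0 < -(PP k b (b - k * s) / (b - k * s)) := by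
          rw [← neg_div]
          exact div_pos (by linarith [PPm_neg hk hs.1 hσ]) (xm_pos hk hb hs.1.le hs.2.le hx1)
        have h8 : (-(PP k b (b - k * s) / (b - k * s))) ^ 2
            ≤ (-(PP k b (b - k * s₁) / (b - k * s₁))) ^ 2 := by
          apply pow_le_pow_left₀ h7.le h6
        rw [neg_sq, neg_sq] at h8
        linarith
    have h3 := hmono ⟨le_rfl, h1⟩ ⟨h1, le_rfl⟩ h1
    simp only at h3
    rw [kapM_zero, tauM_zero hb] at h3
    linarith

/-- bound for `P / x` on the plus side -/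
theorem mP_bd {k : ℝ} (hk : k = 1 ∨ k = -1) {b s s₁ : ℝ} (hb : 0 < b)
    (h0 : 0 ≤ s) (hs : s ≤ s₁) (hx1 : 0 < b + k * s₁) (h1' : s₁ < 2 * (1 - k * b)) :
    (PP k b (b + k * s) / (b + k * s)) ^ 2 ≤ (s₁ / (b + k * s₁) * (2 + 2 * b)) ^ 2 := by
  have hx := xp_pos hk hb h0 hs hx1
  have hs0 : 0 ≤ s₁ := h0.trans hs
  have h1 : s / (b + k * s) ≤ s₁ / (b + k * s₁) := by
    rw [div_le_div_iff₀ hx hx1]
    have := mul_le_mul_of_nonneg_right hs hb.le
    rcases hk with rfl | rfl <;> nlinarith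
  have h2 : 0 ≤ 2 * (1 - k * b) - s := by linarith
  have h3 : 2 * (1 - k * b) - s ≤ 2 + 2 * b := by
    rcases hk with rfl | rfl <;> linarith
  have h4 : PP k b (b + k * s) / (b + k * s) = s / (b + k * s) * (2 * (1 - k * b) - s) := by
    rw [PPp hk]; ring
  rw [h4]
  apply pow_le_pow_left₀
  · exact mul_nonneg (div_nonneg h0 hx.le) h2
  · exact mul_le_mul h1 h3 h2 (div_nonneg hs0 hx1.le)

end B92.K1
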