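import Mathlib
import Pool.Agent.Lib.B92.Defs
import Pool.Agent.Lib.B92.Alg
import Pool.Agent.Lib.B92.Chain
import Pool.Agent.Lib.B92.Arc
import Pool.Agent.Lib.B92.K1Slice

/-!
# MP_b92fc8_an, case `k ^ 2 = 1`: facts on solutions and arcs
-/

set_option autoImplicit false

open Set Filter Topology

noncomputable section

namespace B92.K1

/-- `x = (U - k Y) / 2` -/
def xx (k U Y : ℝ) : ℝ := (U - k * Y) / 2

/-- `c = (U + k Y) / 2` -/
def cc (k U Y : ℝ) : ℝ := (U + k * Y) / 2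

/-- the ray point of the level `h` -/
def bb (k h : ℝ) : ℝ := k * (1 - Real.sqrt h)

theorem fA_eq {k U Y : ℝ} (hk : k = 1 ∨ k = -1) : fA k U Y = k * xx k U Y := by
  simp only [fA, xx]
  rcases hk with rfl | rfl <;> ring

theorem fh_eq {k l U Y w : ℝ} (hk : k = 1 ∨ k = -1) :
    fh k l U Y w = (1 - k * xx k U Y) ^ 2 + l * w * xx k U Y := by
  simp only [fh, fA, fS, xx]
  rcases hk with rfl | rfl <;> ring

theorem eta_eq {k l : ℝ} (hk : k = 1 ∨ k = -1) : eta k l = -l ^ 2 := by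
  simp only [eta]
  rcases hk with rfl | rfl <;> ring

theorem fu_eq {k l U Y w : ℝ} (hk : k = 1 ∨ k = -1) :
    fu k l U Y w = 2 * fh k l U Y w - l ^ 2 * w ^ 2 := by
  simp only [fu]
  rw [eta_eq hk]
  ring

theorem cone_eq {k U Y w : ℝ} (hk : k = 1 ∨ k = -1) (hc : U ^ 2 = Y ^ 2 + w ^ 2) :
    w ^ 2 = 4 * xx k U Y * cc k U Y := by
  simp only [xx, cc]
  rcases hk with rfl | rfl <;> linarith

theorem xx_pos {k U Y w : ℝ} (hk : k = 1 ∨ k = -1) (hc : U ^ 2 = Y ^ 2 + w ^ 2) (hU : 0 < U)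
    (hw : w ≠ 0) : 0 < xx k U Y ∧ 0 < cc k U Y := by
  have h0 : 0 < w ^ 2 := by positivity
  have h1 : Y ^ 2 < U ^ 2 := by linarith
  have h2 := abs_lt_of_sq_lt_sq h1 hU.le
  rw [abs_lt] at h2
  simp only [xx, cc]
  rcases hk with rfl | rfl
  · constructor <;> linarith [h2.1, h2.2]
  · constructor <;> linarith [h2.1, h2.2]

theorem xx_nonneg {k U Y w : ℝ} (hk : k = 1 ∨ k = -1) (hc : U ^ 2 = Y ^ 2 + w ^ 2) (hU : 0 < U) :
    0 ≤ xx k U Y ∧ 0 ≤ cc k U Y := by
  have h0 : 0 ≤ w ^ 2 := by positivity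
  have h1 : Y ^ 2 ≤ U ^ 2 := by linarith
  have h2 := abs_le_of_sq_le_sq h1 hU.le
  rw [abs_le] at h2
  simp only [xx, cc]
  rcases hk with rfl | rfl
  · constructor <;> linarith [h2.1, h2.2]
  · constructor <;> linarith [h2.1, h2.2]

theorem one_sub_bb {k h : ℝ} (hk : k = 1 ∨ k = -1) : 1 - k * bb k h = Real.sqrt h := by
  simp only [bb]
  rcases hk with rfl | rfl <;> ring

theorem PP_bb {k h x : ℝ} (hk : k = 1 ∨ k = -1) (hh : 0 ≤ h) :
    PP k (bb k h) x = h - (1 - k * x) ^ 2 := by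
  have e : PP k (bb k h) x = (1 - k * bb k h) ^ 2 - (1 - k * x) ^ 2 := by
    simp only [PP]
    rcases hk with rfl | rfl <;> ring
  rw [e, one_sub_bb hk, Real.sq_sqrt hh]

theorem hd_xx {k l : ℝ} {U Y w : ℝ → ℝ} (hk : k = 1 ∨ k = -1) (hs : Sol k l U Y w) (t : ℝ) :
    HasDerivAt (fun t => xx k (U t) (Y t))
      (k * w t * (1 - k * xx k (U t) (Y t)) + l * (3 * w t ^ 2 / 4 - xx k (U t) (Y t) ^ 2)) t := by
  have h1 := ((hs.dU t).sub ((hs.dY t).const_mul k)).div_const 2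
  refine h1.congr_deriv ?_
  have hc := hs.cone t
  simp only [XU, XY, xx]
  rcases hk with rfl | rfl
  · linear_combination (l / 4) * hc
  · linear_combination (l / 4) * hc

theorem Xw_eq {k l U Y w : ℝ} (hk : k = 1 ∨ k = -1) (hc : U ^ 2 = Y ^ 2 + w ^ 2) :
    4 * xx k U Y * Xw k l U Y w = -8 * k * xx k U Y ^ 2 * (1 - k * xx k U Y)
      - 10 * xx k U Y * w ^ 2 + 4 * l * w * xx k U Y ^ 2 + 2 * k * w ^ 2 + l * w ^ 3 := by
  simp only [Xw, xx]
  rcases hk with rfl | rfl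
  · linear_combination (2 - 5 * (U - Y) + l * w) * hc
  · linear_combination (-2 - 5 * (U + Y) + l * w) * hc

theorem hd_bb {k l : ℝ} {U Y w : ℝ → ℝ} (hs : Sol k l U Y w) (t : ℝ)
    (hh : 0 < fh k l (U t) (Y t) (w t)) :
    HasDerivAt (fun t => bb k (fh k l (U t) (Y t) (w t)))
      (-k * (-(w t) * fu k l (U t) (Y t) (w t)) / (2 * Real.sqrt (fh k l (U t) (Y t) (w t)))) t := by
  have h1 := (((hasDerivAt_h hs t).sqrt hh.ne').const_sub 1).const_mul k
  refine h1.congr_deriv ?_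
  ring

/-- **Derivative of `zet` along a solution.** -/
theorem hd_zet {k l : ℝ} {U Y w : ℝ → ℝ} (hk : k = 1 ∨ k = -1) (hs : Sol k l U Y w) (t : ℝ)
    (hh : 0 < fh k l (U t) (Y t) (w t)) (hb : 0 < bb k (fh k l (U t) (Y t) (w t)))
    (hx : 0 < xx k (U t) (Y t)) :
    HasDerivAt (fun t => zet k (bb k (fh k l (U t) (Y t) (w t))) (xx k (U t) (Y t)))
      ((l ^ 2 * k + 5 * tau k (bb k (fh k l (U t) (Y t) (w t))) (xx k (U t) (Y t)))
        * (-(w t) * fu k l (U t) (Y t) (w t))) t := by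
  have h1 := zet_path hk (hd_bb hs t hh) (hd_xx hk hs t) hb hx
  refine h1.congr_deriv ?_
  have hP := PP_bb (k := k) (x := xx k (U t) (Y t)) hk hh.le
  have hh2 := fh_eq (k := k) (l := l) (U := U t) (Y := Y t) (w := w t) hk
  have hu2 := fu_eq (k := k) (l := l) (U := U t) (Y := Y t) (w := w t) hk
  have hsb := one_sub_bb (k := k) (h := fh k l (U t) (Y t) (w t)) hk
  have hsq := Real.sq_sqrt hh.le
  have hsp := Real.sqrt_pos.2 hh
  set h := fh k l (U t) (Y t) (w t) with hhd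
  set u := fu k l (U t) (Y t) (w t) with hud
  set x := xx k (U t) (Y t) with hxd
  set b := bb k h with hbd
  set T := tau k b x with hTd
  have hxn : x ≠ 0 := hx.ne'
  have hP2 : PP k b x = l * w t * x := by rw [hP, hh2]; ring
  rw [hP2, hsb, hsq]
  have e1 : (2 * b - 2 * k) * (-k * (-(w t) * u) / (2 * Real.sqrt h)) = -(w t) * u := by
    have e2 : 2 * b - 2 * k = -2 * k * Real.sqrt h := by
      rw [← hsb]
      rcases hk with rfl | rfl <;> ring
    rw [e2]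
    have : Real.sqrt h ≠ 0 := hsp.ne'
    field_simp
    rcases hk with rfl | rfl <;> ring
  rw [e1]
  have e3 : l * w t * x / x = l * w t := by field_simp
  rw [e3]
  have e4 : 2 * h - (l * w t) ^ 2 = u := by rw [hu2]; ring
  rw [e4]
  field_simp
  rcases hk with rfl | rfl <;> ring

end B92.K1
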