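import Mathlib
import Pool.Agent.Lib.B92.Defs
import Pool.Agent.Lib.B92.Arc

/-!
# MP_b92fc8_an: a solution through a singular point is constant
-/

set_option autoImplicit false

open Set Filter Topology

noncomputable section

namespace B92

/-- A solution which is at a singular point at one time is constant. -/
theorem Sol.const_of_sing {k l : ℝ} {U Y w : ℝ → ℝ} (hs : Sol k l U Y w) {t₀ : ℝ}
    (h1 : XU k l (U t₀) (Y t₀) (w t₀) = 0) (h2 : XY k l (U t₀) (Y t₀) (w t₀) = 0)
    (h3 : Xw k l (U t₀) (Y t₀) (w t₀) = 0) (t : ℝ) :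
    U t = U t₀ ∧ Y t = Y t₀ ∧ w t = w t₀ := by
  set v : ℝ × ℝ × ℝ → ℝ × ℝ × ℝ := fun z =>
    (XU k l z.1 z.2.1 z.2.2, XY k l z.1 z.2.1 z.2.2, Xw k l z.1 z.2.1 z.2.2) with hv
  set z : ℝ → ℝ × ℝ × ℝ := fun t => (U t, Y t, w t) with hz
  have hvc : ContDiff ℝ 1 v := by
    simp only [hv, XU, XY, Xw]
    fun_prop
  have hzd : ∀ t, HasDerivAt z (v (z t)) t := fun t =>
    (hs.dU t).prodMk ((hs.dY t).prodMk (hs.dw t))
  have hzc : Continuous z := continuous_iff_continuousAt.2 fun t => (hzd t).continuousAt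
  have hv0 : v (z t₀) = 0 := by
    simp only [hv, hz, h1, h2, h3]
    rfl
  have hcl : IsClosed {t | z t = z t₀} := isClosed_eq hzc continuous_const
  have hop : IsOpen {t | z t = z t₀} := by
    rw [isOpen_iff_mem_nhds]
    intro t ht
    have ht' : z t = z t₀ := ht
    obtain ⟨K, s, hs', hK⟩ := (hvc.contDiffAt (x := z t₀)).exists_lipschitzOnWith
    have h4 : ∀ᶠ r in 𝓝 t, z r ∈ s := by
      have := hzc.continuousAt (x := t)
      rw [ContinuousAt, ht'] at this
      exact this hs'
    have h5 := ODE_solution_unique_of_eventually (v := fun _ => v) (s := fun _ => s) (K := K)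
      (t₀ := t) (f := z) (g := fun _ => z t₀) (Eventually.of_forall fun _ => hK)
      (h4.mono fun r hr => ⟨hzd r, hr⟩)
      (Eventually.of_forall fun r => ⟨by rw [hv0]; exact hasDerivAt_const r (z t₀),
        mem_of_mem_nhds hs'⟩) ht'
    exact h5
  have huniv : {t | z t = z t₀} = univ := IsClopen.eq_univ ⟨hcl, hop⟩ ⟨t₀, rfl⟩
  have h6 : z t = z t₀ := by
    have : t ∈ {t | z t = z t₀} := by rw [huniv]; exact mem_univ t
    exact this
  simp only [hz, Prod.mk.injEq] at h6
  exact h6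

end B92
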