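import Mathlib
import Pool.Agent.Lib.B92.Sing
import Pool.Agent.Lib.B92.K1Arc

/-!
# MP_b92fc8_an, case `k ^ 2 = 1`: Claim A for the minus arcs

On an arc of `X_{-l}` from the ray `Y = U` to the ray `Y = -U` the function `u` is positive.
-/

set_option autoImplicit false

open Set Filter Topology

noncomputable section

namespace B92.K1

/-- On `u = 0`, with `y = (1 - k x) / (l w)`: `1 / (l w) = y + k (y ^ 2 - 1 / 2)` and
`4 x l ^ 2 Xw = (l w) ^ 3 (1 + 2 k y) (3 - 4 k y - l ^ 2 (2 y ^ 2 - 1) ^ 2)`. -/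
theorem onC {k l x w X : ℝ} (hk : k = 1 ∨ k = -1) (hl : 0 < l) (hx : 0 < x) (hw : 0 < w)
    (hg : 0 < 1 - k * x) (hC : (l * w) ^ 2 + 2 * (l * w) * x = 2 * (1 - k * x) ^ 2)
    (hX : 4 * x * X = -8 * k * x ^ 2 * (1 - k * x) - 10 * x * w ^ 2 - 4 * l * w * x ^ 2
      + 2 * k * w ^ 2 - l * w ^ 3) :
    ∃ y, 0 < y ∧ 0 < 2 * y ^ 2 - 1 ∧ 1 / (l * w) = y + k * (y ^ 2 - 1 / 2) ∧
      4 * x * l ^ 2 * X
        = (l * w) ^ 3 * ((1 + 2 * k * y) * (3 - 4 * k * y - l ^ 2 * (2 * y ^ 2 - 1) ^ 2)) := by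
  have hW : 0 < l * w := mul_pos hl hw
  have hWn : l * w ≠ 0 := hW.ne'
  refine ⟨(1 - k * x) / (l * w), by positivity, ?_, ?_, ?_⟩
  · have e : 2 * ((1 - k * x) / (l * w)) ^ 2 - 1 = 2 * x / (l * w) := by
      field_simp
      linarith
    rw [e]
    positivity
  · field_simp
    rcases hk with rfl | rfl
    · linarith
    · linarith
  · have e : 2 * ((1 - k * x) / (l * w)) ^ 2 - 1 = 2 * x / (l * w) := by
      field_simp
      linarith
    rw [e]
    have e2 : 4 * x * l ^ 2 * X = l ^ 2 * (4 * x * X) := by ring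
    rw [e2, hX]
    field_simp
    rcases hk with rfl | rfl
    · linear_combination (-4 * w) * hC
    · linear_combination (-4 * w) * hC

/-- Two points of `u = 0`: if `w₁ < w₂` and `Xw ≥ 0` at the first one, then `Xw > 0` at the
second one. -/
theorem claim_alg {k l x₁ w₁ X₁ x₂ w₂ X₂ : ℝ} (hk : k = 1 ∨ k = -1) (hl : 0 < l)
    (hx₁ : 0 < x₁) (hw₁ : 0 < w₁) (hg₁ : 0 < 1 - k * x₁)
    (hC₁ : (l * w₁) ^ 2 + 2 * (l * w₁) * x₁ = 2 * (1 - k * x₁) ^ 2)
    (hX₁ : 4 * x₁ * X₁ = -8 * k * x₁ ^ 2 * (1 - k * x₁) - 10 * x₁ * w₁ ^ 2 - 4 * l * w₁ * x₁ ^ 2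
      + 2 * k * w₁ ^ 2 - l * w₁ ^ 3)
    (hx₂ : 0 < x₂) (hw₂ : 0 < w₂) (hg₂ : 0 < 1 - k * x₂)
    (hC₂ : (l * w₂) ^ 2 + 2 * (l * w₂) * x₂ = 2 * (1 - k * x₂) ^ 2)
    (hX₂ : 4 * x₂ * X₂ = -8 * k * x₂ ^ 2 * (1 - k * x₂) - 10 * x₂ * w₂ ^ 2 - 4 * l * w₂ * x₂ ^ 2
      + 2 * k * w₂ ^ 2 - l * w₂ ^ 3)
    (hw : w₁ < w₂) (h : 0 ≤ X₁) : 0 < X₂ := by
  obtain ⟨y₁, hy₁, hp₁, ha₁, hb₁⟩ := onC hk hl hx₁ hw₁ hg₁ hC₁ hX₁
  obtain ⟨y₂, hy₂, hp₂, ha₂, hb₂⟩ := onC hk hl hx₂ hw₂ hg₂ hC₂ hX₂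
  have hW₁ : 0 < l * w₁ := mul_pos hl hw₁
  have hW₂ : 0 < l * w₂ := mul_pos hl hw₂
  have hlt : 1 / (l * w₂) < 1 / (l * w₁) :=
    one_div_lt_one_div_of_lt hW₁ (mul_lt_mul_of_pos_left hw hl)
  rw [ha₁, ha₂] at hlt
  have h1 : 0 ≤ (1 + 2 * k * y₁) * (3 - 4 * k * y₁ - l ^ 2 * (2 * y₁ ^ 2 - 1) ^ 2) := by
    have h2 : 0 ≤ (l * w₁) ^ 3
        * ((1 + 2 * k * y₁) * (3 - 4 * k * y₁ - l ^ 2 * (2 * y₁ ^ 2 - 1) ^ 2)) := by
      rw [← hb₁]; positivity
    exact nonneg_of_mul_nonneg_right h2 (by positivity)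
  have h3 : 0 < (1 + 2 * k * y₂) * (3 - 4 * k * y₂ - l ^ 2 * (2 * y₂ ^ 2 - 1) ^ 2) := by
    rcases hk with rfl | rfl
    · -- `k = 1` : `y₂ < y₁`
      have hy : y₂ < y₁ := by
        by_contra hcon
        push Not at hcon
        nlinarith
      have h4 : 0 ≤ 3 - 4 * 1 * y₁ - l ^ 2 * (2 * y₁ ^ 2 - 1) ^ 2 :=
        nonneg_of_mul_nonneg_right h1 (by linarith)
      have h5 : (2 * y₂ ^ 2 - 1) ^ 2 ≤ (2 * y₁ ^ 2 - 1) ^ 2 :=
        pow_le_pow_left₀ hp₂.le (by nlinarith) 2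
      have h6 : l ^ 2 * (2 * y₂ ^ 2 - 1) ^ 2 ≤ l ^ 2 * (2 * y₁ ^ 2 - 1) ^ 2 :=
        mul_le_mul_of_nonneg_left h5 (sq_nonneg l)
      exact mul_pos (by linarith) (by linarith)
    · -- `k = -1` : `y₁ < y₂`
      have hy1h : 1 / 2 < y₁ := by nlinarith
      have hy2h : 1 / 2 < y₂ := by nlinarith
      have hy : y₁ < y₂ := by
        by_contra hcon
        push Not at hcon
        nlinarith
      have h4 : 3 + 4 * y₁ ≤ l ^ 2 * (2 * y₁ ^ 2 - 1) ^ 2 := by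
        by_contra hcon
        push Not at hcon
        have : (1 + 2 * -1 * y₁) * (3 - 4 * -1 * y₁ - l ^ 2 * (2 * y₁ ^ 2 - 1) ^ 2) < 0 :=
          mul_neg_of_neg_of_pos (by linarith) (by linarith)
        linarith
      have h5 : (3 + 4 * y₂) * (2 * y₁ ^ 2 - 1) < (3 + 4 * y₁) * (2 * y₂ ^ 2 - 1) := by
        have e : (3 + 4 * y₁) * (2 * y₂ ^ 2 - 1) - (3 + 4 * y₂) * (2 * y₁ ^ 2 - 1)
            = (y₂ - y₁) * (6 * (y₁ + y₂) + 4 * (2 * y₁ * y₂ + 1)) := by ring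
        have : 0 < (y₂ - y₁) * (6 * (y₁ + y₂) + 4 * (2 * y₁ * y₂ + 1)) :=
          mul_pos (by linarith) (by positivity)
        linarith
      have h6 : 2 * y₁ ^ 2 - 1 < 2 * y₂ ^ 2 - 1 := by nlinarith
      have h7 : (3 + 4 * y₂) * (2 * y₁ ^ 2 - 1) ^ 2 < (3 + 4 * y₁) * (2 * y₂ ^ 2 - 1) ^ 2 := by
        have e1 := mul_lt_mul_of_pos_right h5 hp₁
        have e2 := mul_le_mul_of_nonneg_left h6.le
          (by positivity : 0 ≤ (3 + 4 * y₁) * (2 * y₂ ^ 2 - 1))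
        nlinarith
      have h8 : (3 + 4 * y₁) * (2 * y₂ ^ 2 - 1) ^ 2
          ≤ l ^ 2 * (2 * y₁ ^ 2 - 1) ^ 2 * (2 * y₂ ^ 2 - 1) ^ 2 :=
        mul_le_mul_of_nonneg_right h4 (sq_nonneg _)
      have h9 : (3 + 4 * y₂) < l ^ 2 * (2 * y₂ ^ 2 - 1) ^ 2 := by
        have h10 : (3 + 4 * y₂) * (2 * y₁ ^ 2 - 1) ^ 2
            < l ^ 2 * (2 * y₂ ^ 2 - 1) ^ 2 * (2 * y₁ ^ 2 - 1) ^ 2 := by
          calc (3 + 4 * y₂) * (2 * y₁ ^ 2 - 1) ^ 2 < (3 + 4 * y₁) * (2 * y₂ ^ 2 - 1) ^ 2 := h7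
            _ ≤ l ^ 2 * (2 * y₁ ^ 2 - 1) ^ 2 * (2 * y₂ ^ 2 - 1) ^ 2 := h8
            _ = _ := by ring
        exact lt_of_mul_lt_mul_right h10 (sq_nonneg _)
      exact mul_pos_of_neg_of_neg (by linarith) (by linarith)
  have h4 : 0 < 4 * x₂ * l ^ 2 * X₂ := by
    rw [hb₂]
    exact mul_pos (by positivity) h3
  exact pos_of_mul_pos_right h4 (by positivity)

theorem hd_u {k l : ℝ} {U Y w : ℝ → ℝ} (hs : Sol k l U Y w) (t : ℝ) :
    HasDerivAt (fun t => fu k l (U t) (Y t) (w t))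
      (2 * (-(w t) * fu k l (U t) (Y t) (w t)) + eta k l * (2 * w t * Xw k l (U t) (Y t) (w t)))
      t := by
  have h1 := ((hasDerivAt_h hs t).const_mul 2).add (((hs.dw t).pow 2).const_mul (eta k l))
  refine (h1.congr_deriv ?_).congr_of_eventuallyEq (Eventually.of_forall fun s => ?_)
  · simp only [Nat.cast_ofNat, Nat.add_one_sub_one, pow_one]
  · simp only [fu, Pi.add_apply, Pi.pow_apply]

theorem cont_xx {k : ℝ} {U Y : ℝ → ℝ} (hU : Continuous U) (hY : Continuous Y) :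
    Continuous fun t => xx k (U t) (Y t) := by
  unfold xx; fun_prop

theorem cont_h {k l : ℝ} {U Y w : ℝ → ℝ} (hs : Sol k l U Y w) :
    Continuous fun t => fh k l (U t) (Y t) (w t) :=
  continuous_iff_continuousAt.2 fun t => (hasDerivAt_h hs t).continuousAt

theorem cont_u {k l : ℝ} {U Y w : ℝ → ℝ} (hs : Sol k l U Y w) :
    Continuous fun t => fu k l (U t) (Y t) (w t) :=
  continuous_iff_continuousAt.2 fun t => (hd_u hs t).continuousAt

theorem w_nonneg {k l : ℝ} {U Y w : ℝ → ℝ} {a b : ℝ} (A : Arc k l U Y w a b) :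
    ∀ t ∈ Icc a b, 0 ≤ w t := by
  intro t ht
  rcases eq_or_lt_of_le ht.1 with h | h
  · rw [← h, A.wa]
  · rcases eq_or_lt_of_le ht.2 with h' | h'
    · rw [h', A.wb]
    · exact (A.wpos t ⟨h, h'⟩).le

/-- `1 - k x > 0` on a minus arc. -/
theorem g_pos {k l : ℝ} {U Y w : ℝ → ℝ} {a b : ℝ} (hk : k = 1 ∨ k = -1) (hl : 0 < l)
    (A : Arc k (-l) U Y w a b) (hE : k = 1 → Y a = U a) :
    ∀ t ∈ Icc a b, 0 < 1 - k * xx k (U t) (Y t) := by
  intro t ht
  rcases hk with rfl | rfl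
  · have hxc := cont_xx (k := 1) A.sol.contU A.sol.contY
    have hne : ∀ s ∈ Icc a b, xx 1 (U s) (Y s) ≠ 1 := by
      intro s hs h1
      have h2 := A.hpos s hs
      rw [fh_eq (Or.inl rfl), h1] at h2
      have h3 : 0 ≤ l * w s := mul_nonneg hl.le (w_nonneg A s hs)
      linarith
    have hxa : xx 1 (U a) (Y a) = 0 := by
      simp only [xx, hE rfl]; ring
    by_contra hcon
    push Not at hcon
    obtain ⟨s, hs, h1⟩ := intermediate_value_Icc ht.1 hxc.continuousOn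
      (show (1 : ℝ) ∈ Icc _ _ from ⟨by rw [hxa]; norm_num, by linarith⟩)
    exact hne s ⟨hs.1, hs.2.trans ht.2⟩ h1
  · have := (xx_nonneg (k := -1) (Or.inr rfl) (A.sol.cone t) (A.sol.pos t)).1
    linarith

theorem last_zero {u : ℝ → ℝ} (hu : Continuous u) {a t : ℝ} (hat : a ≤ t) (ha : 0 < u a)
    (ht : u t < 0) : ∃ s, a < s ∧ s < t ∧ u s = 0 ∧ ∀ r ∈ Ioo s t, u r < 0 := by
  have hcomp : IsCompact (Icc a t ∩ u ⁻¹' (Ici 0)) :=
    isCompact_Icc.inter_right (isClosed_Ici.preimage hu)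
  have hne : (Icc a t ∩ u ⁻¹' (Ici 0)).Nonempty := ⟨a, ⟨le_rfl, hat⟩, ha.le⟩
  obtain ⟨s, hs, hmax⟩ := hcomp.exists_isMaxOn hne continuousOn_id
  have hst : s < t := by
    rcases eq_or_lt_of_le hs.1.2 with h | h
    · have h2 : 0 ≤ u s := hs.2
      rw [h] at h2
      linarith
    · exact h
  have hneg : ∀ r ∈ Ioc s t, u r < 0 := by
    intro r hr
    by_contra hcon
    push Not at hcon
    have h2 : r ≤ s := hmax ⟨⟨hs.1.1.trans hr.1.le, hr.2⟩, hcon⟩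
    exact absurd hr.1 (not_lt.2 h2)
  have hus : u s = 0 := by
    apply le_antisymm _ hs.2
    have : (𝓝[>] s).NeBot := inferInstance
    refine le_of_tendsto (hu.continuousAt.mono_left (nhdsWithin_le_nhds (s := Ioi s))) ?_
    filter_upwards [Ioc_mem_nhdsGT hst] with r hr
    exact (hneg r hr).le
  refine ⟨s, ?_, hst, hus, fun r hr => hneg r ⟨hr.1, hr.2.le⟩⟩
  rcases eq_or_lt_of_le hs.1.1 with h | h
  · rw [← h] at hus
    linarith
  · exact h

theorem first_zero {u : ℝ → ℝ} (hu : Continuous u) {t b : ℝ} (htb : t ≤ b) (hb : 0 < u b)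
    (ht : u t < 0) : ∃ s, t < s ∧ s < b ∧ u s = 0 ∧ ∀ r ∈ Ioo t s, u r < 0 := by
  obtain ⟨s, h1, h2, h3, h4⟩ := last_zero (u := fun s => u (-s)) (hu.comp continuous_neg)
    (a := -b) (t := -t) (by linarith) (by simpa using hb) (by simpa using ht)
  refine ⟨-s, by linarith, by linarith, h3, fun r hr => ?_⟩
  have := h4 (-r) ⟨by linarith [hr.2], by linarith [hr.1]⟩
  simpa using this

/-- **Claim A** for the minus arcs. -/
theorem claimA {k l : ℝ} {U Y w : ℝ → ℝ} {a b : ℝ} (hk : k = 1 ∨ k = -1) (hl : 0 < l)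
    (A : Arc k (-l) U Y w a b) (hE : k = 1 → Y a = U a) :
    ∀ t ∈ Icc a b, 0 < fu k (-l) (U t) (Y t) (w t) := by
  have hs := A.sol
  have huc := cont_u hs
  have hlsq : (-l) ^ 2 = l ^ 2 := by ring
  have hua : 0 < fu k (-l) (U a) (Y a) (w a) := by
    rw [fu_eq hk, A.wa]
    have := A.hpos a ⟨le_rfl, A.lt.le⟩
    rw [A.wa] at this
    linarith
  have hub : 0 < fu k (-l) (U b) (Y b) (w b) := by
    rw [fu_eq hk, A.wb]
    have := A.hpos b ⟨A.lt.le, le_rfl⟩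
    rw [A.wb] at this
    linarith
  -- data at a zero of `u`
  have hzero : ∀ t ∈ Ioo a b, fu k (-l) (U t) (Y t) (w t) = 0 →
      (l * w t) ^ 2 + 2 * (l * w t) * xx k (U t) (Y t) = 2 * (1 - k * xx k (U t) (Y t)) ^ 2 ∧
      2 * fh k (-l) (U t) (Y t) (w t) = (l * w t) ^ 2 := by
    intro t _ ht
    rw [fu_eq hk] at ht
    have e2 : 2 * fh k (-l) (U t) (Y t) (w t) = (l * w t) ^ 2 := by
      rw [hlsq] at ht; linarith
    refine ⟨?_, e2⟩
    rw [fh_eq hk] at e2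
    linarith
  have hXw : ∀ t, 4 * xx k (U t) (Y t) * Xw k (-l) (U t) (Y t) (w t)
      = -8 * k * xx k (U t) (Y t) ^ 2 * (1 - k * xx k (U t) (Y t))
        - 10 * xx k (U t) (Y t) * w t ^ 2 - 4 * l * w t * xx k (U t) (Y t) ^ 2
        + 2 * k * w t ^ 2 - l * w t ^ 3 := by
    intro t
    rw [Xw_eq hk (hs.cone t)]
    ring
  -- no point with `u < 0`
  have hnn : ∀ t ∈ Icc a b, 0 ≤ fu k (-l) (U t) (Y t) (w t) := by
    intro t ht
    by_contra hcon
    push Not at hcon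
    obtain ⟨t₁, h1a, h1t, h1z, h1n⟩ := last_zero huc ht.1 hua hcon
    obtain ⟨t₂, h2t, h2b, h2z, h2n⟩ := first_zero huc ht.2 hub hcon
    have hneg : ∀ s ∈ Ioo t₁ t₂, fu k (-l) (U s) (Y s) (w s) < 0 := by
      intro s hs'
      rcases lt_trichotomy s t with h | h | h
      · exact h1n s ⟨hs'.1, h⟩
      · rw [h]; exact hcon
      · exact h2n s ⟨h, hs'.2⟩
    have hI1 : t₁ ∈ Ioo a b := ⟨h1a, (h1t.trans h2t).trans h2b⟩
    have hI2 : t₂ ∈ Ioo a b := ⟨h1a.trans (h1t.trans h2t), h2b⟩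
    have h12 : t₁ < t₂ := h1t.trans h2t
    have hw1 := A.wpos t₁ hI1
    have hw2 := A.wpos t₂ hI2
    have hd1 := deriv_nonpos_of_neg_right h12 (hd_u hs t₁) h1z hneg
    have hd2 := deriv_nonneg_of_neg_left h12 (hd_u hs t₂) h2z hneg
    rw [h1z, eta_eq hk] at hd1
    rw [h2z, eta_eq hk] at hd2
    have hX1 : 0 ≤ Xw k (-l) (U t₁) (Y t₁) (w t₁) := by
      by_contra h
      push Not at h
      have : 0 < l ^ 2 * (2 * w t₁ * -Xw k (-l) (U t₁) (Y t₁) (w t₁)) := by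
        have : 0 < -Xw k (-l) (U t₁) (Y t₁) (w t₁) := by linarith
        positivity
      nlinarith
    have hX2 : Xw k (-l) (U t₂) (Y t₂) (w t₂) ≤ 0 := by
      by_contra h
      push Not at h
      have : 0 < l ^ 2 * (2 * w t₂ * Xw k (-l) (U t₂) (Y t₂) (w t₂)) := by positivity
      nlinarith
    have hmono : StrictMonoOn (fun t => fh k (-l) (U t) (Y t) (w t)) (Icc t₁ t₂) := by
      apply strictMonoOn_of_deriv_pos (convex_Icc _ _) (cont_h hs).continuousOn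
      intro s hs'
      rw [interior_Icc] at hs'
      rw [(hasDerivAt_h hs s).deriv]
      have h3 := A.wpos s ⟨h1a.trans hs'.1, hs'.2.trans h2b⟩
      have h4 := hneg s hs'
      nlinarith
    have hh := hmono ⟨le_rfl, h12.le⟩ ⟨h12.le, le_rfl⟩ h12
    simp only at hh
    obtain ⟨c1, e1⟩ := hzero t₁ hI1 h1z
    obtain ⟨c2, e2⟩ := hzero t₂ hI2 h2z
    have hww : w t₁ < w t₂ := by
      have h5 : (l * w t₁) ^ 2 < (l * w t₂) ^ 2 := by linarith
      have h6 := lt_of_pow_lt_pow_left₀ 2 (by positivity) h5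
      exact lt_of_mul_lt_mul_left h6 hl.le
    have hx1 := (xx_pos hk (hs.cone t₁) (hs.pos t₁) hw1.ne').1
    have hx2 := (xx_pos hk (hs.cone t₂) (hs.pos t₂) hw2.ne').1
    have := claim_alg hk hl hx1 hw1 (g_pos hk hl A hE t₁ ⟨hI1.1.le, hI1.2.le⟩) c1 (hXw t₁)
      hx2 hw2 (g_pos hk hl A hE t₂ ⟨hI2.1.le, hI2.2.le⟩) c2 (hXw t₂) hww hX1
    linarith
  -- no zero
  intro t ht
  rcases eq_or_lt_of_le (hnn t ht) with h0 | h0
  swap
  · exact h0
  exfalso
  have hta : a < t := by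
    rcases eq_or_lt_of_le ht.1 with h | h
    · rw [h] at hua; rw [← h0] at hua; exact absurd hua (lt_irrefl _)
    · exact h
  have htb : t < b := by
    rcases eq_or_lt_of_le ht.2 with h | h
    · rw [← h] at hub; rw [← h0] at hub; exact absurd hub (lt_irrefl _)
    · exact h
  have hI : t ∈ Ioo a b := ⟨hta, htb⟩
  have hw := A.wpos t hI
  have hx := (xx_pos hk (hs.cone t) (hs.pos t) hw.ne').1
  have hg := g_pos hk hl A hE t ht
  obtain ⟨c1, e1⟩ := hzero t hI h0.symm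
  have hmin : IsLocalMin (fun t => fu k (-l) (U t) (Y t) (w t)) t := by
    filter_upwards [Ioo_mem_nhds hta htb] with s hs'
    rw [← h0]
    exact hnn s ⟨hs'.1.le, hs'.2.le⟩
  have hd0 := hmin.hasDerivAt_eq_zero (hd_u hs t)
  rw [← h0, eta_eq hk] at hd0
  have hX0 : Xw k (-l) (U t) (Y t) (w t) = 0 := by
    have h1 : -(-l) ^ 2 * (2 * w t) * Xw k (-l) (U t) (Y t) (w t) = 0 := by linarith
    rcases mul_eq_zero.1 h1 with h2 | h2
    · exfalso
      have : 0 < l ^ 2 * (2 * w t) := by positivity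
      nlinarith
    · exact h2
  -- `x' = 0`
  have hdh := hasDerivAt_h hs t
  rw [← h0, mul_zero] at hdh
  have hdx := hd_xx hk hs t
  set x' := k * w t * (1 - k * xx k (U t) (Y t))
    + -l * (3 * w t ^ 2 / 4 - xx k (U t) (Y t) ^ 2) with hx'
  have hdh2 : HasDerivAt (fun t => fh k (-l) (U t) (Y t) (w t))
      (-(2 * k * (1 - k * xx k (U t) (Y t)) + l * w t) * x') t := by
    have e := (((hdx.const_mul k).const_sub 1).pow 2).add (((hs.dw t).const_mul (-l)).mul hdx)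
    refine (e.congr_deriv ?_).congr_of_eventuallyEq (Eventually.of_forall fun s => ?_)
    · rw [hX0]
      simp only [Nat.cast_ofNat, Nat.add_one_sub_one, pow_one]
      ring
    · simp only [Pi.add_apply, Pi.pow_apply, Pi.mul_apply]
      rw [fh_eq hk]
  have h3 := hdh2.unique hdh
  have hx0 : x' = 0 := by
    rcases mul_eq_zero.1 h3 with h4 | h4
    · exfalso
      rcases hk with rfl | rfl
      · have : 0 < l * w t := mul_pos hl hw
        linarith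
      · have hW : 0 < l * w t := mul_pos hl hw
        nlinarith
    · exact h4
  -- all components vanish
  have hXX : XU k (-l) (U t) (Y t) (w t) - k * XY k (-l) (U t) (Y t) (w t) = 0 := by
    have h5 := ((hs.dU t).sub ((hs.dY t).const_mul k)).div_const 2
    have h6 := h5.unique hdx
    rw [hx0] at h6
    linarith
  have hcone : U t * XU k (-l) (U t) (Y t) (w t) = Y t * XY k (-l) (U t) (Y t) (w t) := by
    have h5 := (hs.dU t).pow 2
    have h6 := ((hs.dY t).pow 2).add ((hs.dw t).pow 2)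
    have h7 : (fun s => U s ^ 2) = fun s => Y s ^ 2 + w s ^ 2 := funext hs.cone
    have h8 : HasDerivAt (fun s => U s ^ 2)
        (2 * U t * XU k (-l) (U t) (Y t) (w t)) t := by
      refine h5.congr_deriv ?_
      simp
    have h9 : HasDerivAt (fun s => Y s ^ 2 + w s ^ 2)
        (2 * Y t * XY k (-l) (U t) (Y t) (w t) + 2 * w t * Xw k (-l) (U t) (Y t) (w t)) t := by
      refine (h6.congr_deriv ?_).congr_of_eventuallyEq (Eventually.of_forall fun s => ?_)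
      · simp
      · simp only [Pi.add_apply, Pi.pow_apply]
    rw [h7] at h8
    have h10 := h8.unique h9
    rw [hX0] at h10
    linarith
  have hY0 : XY k (-l) (U t) (Y t) (w t) = 0 := by
    have h5 : (k * U t - Y t) * XY k (-l) (U t) (Y t) (w t) = 0 := by
      linear_combination hcone - U t * hXX
    rcases mul_eq_zero.1 h5 with h6 | h6
    · exfalso
      have h7 : k * (2 * xx k (U t) (Y t)) = k * U t - Y t := by
        simp only [xx]
        rcases hk with rfl | rfl <;> ring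
      rw [h6] at h7
      rcases mul_eq_zero.1 h7 with h8 | h8
      · rcases hk with rfl | rfl <;> norm_num at h8
      · linarith
    · exact h6
  have hU0 : XU k (-l) (U t) (Y t) (w t) = 0 := by
    rw [hY0] at hXX; linarith
  have hconst := (hs.const_of_sing hU0 hY0 hX0 b).2.2
  rw [A.wb] at hconst
  linarith

end B92.K1
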