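import Mathlib
import Pool.Agent.Lib.B92.K1Claim

/-!
# MP_b92fc8_an, case `k ^ 2 = 1`: limits at the ends of an arc
-/

set_option autoImplicit false

open Set Filter Topology

noncomputable section

namespace B92.K1

/-- abbreviation: `b` along a solution -/
def bt (k l : ℝ) (U Y w : ℝ → ℝ) (t : ℝ) : ℝ := bb k (fh k l (U t) (Y t) (w t))

/-- abbreviation: `x` along a solution -/
def xt (k : ℝ) (U Y : ℝ → ℝ) (t : ℝ) : ℝ := xx k (U t) (Y t)

/-- abbreviation: `tau` along a solution -/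
def Tt (k l : ℝ) (U Y w : ℝ → ℝ) (t : ℝ) : ℝ := tau k (bt k l U Y w t) (xt k U Y t)

/-- abbreviation: `zet` along a solution -/
def Zt (k l : ℝ) (U Y w : ℝ → ℝ) (t : ℝ) : ℝ := zet k (bt k l U Y w t) (xt k U Y t)

theorem PP_t {k l : ℝ} {U Y w : ℝ → ℝ} (hk : k = 1 ∨ k = -1) {t : ℝ}
    (hh : 0 ≤ fh k l (U t) (Y t) (w t)) :
    PP k (bt k l U Y w t) (xt k U Y t) = l * w t * xt k U Y t := by
  unfold bt xt
  rw [PP_bb hk hh, fh_eq hk]
  ring

theorem one_sub_bt {k l : ℝ} {U Y w : ℝ → ℝ} (hk : k = 1 ∨ k = -1) (t : ℝ) :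
    1 - k * bt k l U Y w t = Real.sqrt (fh k l (U t) (Y t) (w t)) := one_sub_bb hk

/-- chart facts on the plus side -/
theorem chart_plus {k l : ℝ} {U Y w : ℝ → ℝ} (hk : k = 1 ∨ k = -1) (hl : 0 < l)
    (hs : Sol k l U Y w) {t : ℝ} (hw : 0 < w t) (hh : 0 < fh k l (U t) (Y t) (w t))
    (hb : 0 < bt k l U Y w t) :
    ∃ s, 0 < s ∧ s < 2 * (1 - k * bt k l U Y w t) ∧ 0 < xt k U Y t ∧
      xt k U Y t = bt k l U Y w t + k * s := by
  have hx : 0 < xt k U Y t := (xx_pos hk (hs.cone t) (hs.pos t) hw.ne').1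
  have hP := PP_t (l := l) (U := U) (Y := Y) (w := w) hk hh.le
  have hPp : 0 < PP k (bt k l U Y w t) (xt k U Y t) := by rw [hP]; positivity
  have hσ : 0 < 1 - k * bt k l U Y w t := by rw [one_sub_bt hk]; exact Real.sqrt_pos.2 hh
  set b := bt k l U Y w t
  set x := xt k U Y t
  refine ⟨k * (x - b), ?_, ?_, hx, ?_⟩
  · simp only [PP] at hPp
    rcases hk with rfl | rfl
    · by_contra hcon
      push Not at hcon
      have : (x - b) * (2 * 1 - b - x) ≤ 0 :=
        mul_nonpos_of_nonpos_of_nonneg (by linarith) (by linarith)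
      linarith
    · by_contra hcon
      push Not at hcon
      have : (x - b) * (2 * -1 - b - x) ≤ 0 :=
        mul_nonpos_of_nonneg_of_nonpos (by linarith) (by linarith)
      linarith
  · simp only [PP] at hPp
    rcases hk with rfl | rfl
    · by_contra hcon
      push Not at hcon
      have : (x - b) * (2 * 1 - b - x) ≤ 0 :=
        mul_nonpos_of_nonneg_of_nonpos (by linarith) (by linarith)
      linarith
    · linarith
  · rcases hk with rfl | rfl <;> ring

/-- chart facts on the minus side -/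
theorem chart_minus {k l : ℝ} {U Y w : ℝ → ℝ} (hk : k = 1 ∨ k = -1) (hl : 0 < l)
    (hs : Sol k (-l) U Y w) {t : ℝ} (hw : 0 < w t) (hh : 0 < fh k (-l) (U t) (Y t) (w t))
    (hb : 0 < bt k (-l) U Y w t) (hg : 0 < 1 - k * xt k U Y t) :
    ∃ s, 0 < s ∧ 0 < xt k U Y t ∧ xt k U Y t = bt k (-l) U Y w t - k * s := by
  have hx : 0 < xt k U Y t := (xx_pos hk (hs.cone t) (hs.pos t) hw.ne').1
  have hP := PP_t (l := -l) (U := U) (Y := Y) (w := w) hk hh.le
  have hPn : PP k (bt k (-l) U Y w t) (xt k U Y t) < 0 := by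
    rw [hP]
    have : 0 < l * w t * xt k U Y t := by positivity
    linarith
  have hσ : 0 < 1 - k * bt k (-l) U Y w t := by rw [one_sub_bt hk]; exact Real.sqrt_pos.2 hh
  set b := bt k (-l) U Y w t
  set x := xt k U Y t
  refine ⟨k * (b - x), ?_, hx, ?_⟩
  · simp only [PP] at hPn
    rcases hk with rfl | rfl
    · by_contra hcon
      push Not at hcon
      have : 0 ≤ (x - b) * (2 * 1 - b - x) := mul_nonneg (by linarith) (by linarith)
      linarith
    · by_contra hcon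
      push Not at hcon
      have : 0 ≤ (x - b) * (2 * -1 - b - x) :=
        mul_nonneg_of_nonpos_of_nonpos (by linarith) (by linarith)
      linarith
  · rcases hk with rfl | rfl <;> ring

theorem cont_bt {k l : ℝ} {U Y w : ℝ → ℝ} (hs : Sol k l U Y w) : Continuous (bt k l U Y w) := by
  unfold bt bb
  have := cont_h hs
  fun_prop

theorem cont_xt {k l : ℝ} {U Y w : ℝ → ℝ} (hs : Sol k l U Y w) : Continuous (xt k U Y) :=
  cont_xx hs.contU hs.contY

theorem bt_end {k l : ℝ} {U Y w : ℝ → ℝ} {e : ℝ} (hk : k = 1 ∨ k = -1) (hwe : w e = 0)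
    (hg : 0 < 1 - k * xt k U Y e) : bt k l U Y w e = xt k U Y e := by
  unfold bt bb
  rw [h_at_zero hwe, fA_eq hk]
  have : Real.sqrt ((1 - k * xx k (U e) (Y e)) ^ 2) = 1 - k * xx k (U e) (Y e) :=
    Real.sqrt_sq hg.le
  rw [this]
  unfold xt
  rcases hk with rfl | rfl <;> ring

theorem tau_form {k l b x w c : ℝ} (hb : 0 < b) (hx : 0 < x) (hd : 2 * k - b - x ≠ 0)
    (hP : (x - b) * (2 * k - b - x) = l * w * x) (hc : w ^ 2 = 4 * x * c) :
    b / x = 1 - l * w / (2 * k - b - x) ∧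
    tau k b x = 4 * l ^ 2 * c / ((b / x) * (2 * k - b - x) ^ 2)
      + k * ((1 - (b / x) ^ 2) / 2 + Real.log (b / x)) := by
  have hbn : b ≠ 0 := hb.ne'
  have hxn : x ≠ 0 := hx.ne'
  constructor
  · field_simp
    linarith
  · rw [tau, Real.log_div hbn hxn]
    congr 1
    rw [div_eq_div_iff (by positivity) (by positivity)]
    have h1 : ((x - b) * (2 * k - b - x)) ^ 2 = l ^ 2 * (4 * x * c) * x ^ 2 := by
      rw [hP, ← hc]; ring
    field_simp
    linear_combination h1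

/-- limits at an end point -/
theorem end_tau {k l : ℝ} {U Y w : ℝ → ℝ} {e : ℝ} {F : Filter ℝ} (hk : k = 1 ∨ k = -1)
    (hs : Sol k l U Y w) (hF : F ≤ 𝓝 e) (hwe : w e = 0) (hg : 0 < 1 - k * xt k U Y e)
    (hch : ∀ᶠ t in F, 0 < w t ∧ 0 < fh k l (U t) (Y t) (w t) ∧ 0 < bt k l U Y w t) :
    Tendsto (fun t => bt k l U Y w t / xt k U Y t) F (𝓝 1) ∧
    Tendsto (Tt k l U Y w) F
      (𝓝 (l ^ 2 * cc k (U e) (Y e) / (1 - k * xt k U Y e) ^ 2)) := by
  have hb : Tendsto (bt k l U Y w) F (𝓝 (xt k U Y e)) := by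
    have := ((cont_bt hs).tendsto e).mono_left hF
    rwa [bt_end hk hwe hg] at this
  have hx : Tendsto (xt k U Y) F (𝓝 (xt k U Y e)) := ((cont_xt hs).tendsto e).mono_left hF
  have hw : Tendsto w F (𝓝 0) := by
    have := (hs.contw.tendsto e).mono_left hF
    rwa [hwe] at this
  have hc : Tendsto (fun t => cc k (U t) (Y t)) F (𝓝 (cc k (U e) (Y e))) := by
    have hcc : Continuous fun t => cc k (U t) (Y t) := by
      unfold cc
      have h1 := hs.contU
      have h2 := hs.contY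
      fun_prop
    exact (hcc.tendsto e).mono_left hF
  have hd : Tendsto (fun t => 2 * k - bt k l U Y w t - xt k U Y t) F
      (𝓝 (2 * k * (1 - k * xt k U Y e))) := by
    have := (tendsto_const_nhds (x := 2 * k)).sub hb |>.sub hx
    have e1 : 2 * k - xt k U Y e - xt k U Y e = 2 * k * (1 - k * xt k U Y e) := by
      rcases hk with rfl | rfl <;> ring
    rwa [e1] at this
  have hd0 : 2 * k * (1 - k * xt k U Y e) ≠ 0 := by
    have : k ≠ 0 := by rcases hk with rfl | rfl <;> norm_num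
    have := hg.ne'
    positivity
  have hq1 : Tendsto (fun t => 1 - l * w t / (2 * k - bt k l U Y w t - xt k U Y t)) F (𝓝 1) := by
    have := (tendsto_const_nhds (x := (1 : ℝ))).sub ((hw.const_mul l).div hd hd0)
    simpa using this
  have hev : ∀ᶠ t in F, 2 * k - bt k l U Y w t - xt k U Y t ≠ 0 := hd.eventually_ne hd0
  have hform : ∀ᶠ t in F,
      bt k l U Y w t / xt k U Y t = 1 - l * w t / (2 * k - bt k l U Y w t - xt k U Y t) ∧
      Tt k l U Y w t = 4 * l ^ 2 * cc k (U t) (Y t) / ((bt k l U Y w t / xt k U Y t)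
        * (2 * k - bt k l U Y w t - xt k U Y t) ^ 2)
      + k * ((1 - (bt k l U Y w t / xt k U Y t) ^ 2) / 2
        + Real.log (bt k l U Y w t / xt k U Y t)) := by
    filter_upwards [hch, hev] with t ht hdt
    have hxt : 0 < xt k U Y t := (xx_pos hk (hs.cone t) (hs.pos t) ht.1.ne').1
    exact tau_form ht.2.2 hxt hdt (PP_t hk ht.2.1.le) (cone_eq hk (hs.cone t))
  have hq : Tendsto (fun t => bt k l U Y w t / xt k U Y t) F (𝓝 1) := by
    refine hq1.congr' ?_
    filter_upwards [hform] with t ht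
    exact ht.1.symm
  refine ⟨hq, ?_⟩
  have hlog : Tendsto (fun t => Real.log (bt k l U Y w t / xt k U Y t)) F (𝓝 0) := by
    have := (Real.continuousAt_log one_ne_zero).tendsto.comp hq
    rwa [Real.log_one] at this
  have h1 : Tendsto (fun t => 4 * l ^ 2 * cc k (U t) (Y t) / ((bt k l U Y w t / xt k U Y t)
        * (2 * k - bt k l U Y w t - xt k U Y t) ^ 2)
      + k * ((1 - (bt k l U Y w t / xt k U Y t) ^ 2) / 2
        + Real.log (bt k l U Y w t / xt k U Y t))) F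
      (𝓝 (4 * l ^ 2 * cc k (U e) (Y e) / (1 * (2 * k * (1 - k * xt k U Y e)) ^ 2)
        + k * ((1 - 1 ^ 2) / 2 + 0))) := by
    refine ((hc.const_mul (4 * l ^ 2)).div (hq.mul (hd.pow 2)) ?_).add
      (((((hq.pow 2).const_sub 1).div_const 2).add hlog).const_mul k)
    simp only [one_mul]
    exact pow_ne_zero 2 hd0
  have e1 : 4 * l ^ 2 * cc k (U e) (Y e) / (1 * (2 * k * (1 - k * xt k U Y e)) ^ 2)
        + k * ((1 - 1 ^ 2) / 2 + 0)
      = l ^ 2 * cc k (U e) (Y e) / (1 - k * xt k U Y e) ^ 2 := by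
    have hgn := hg.ne'
    have hk2 : k ^ 2 = 1 := by rcases hk with rfl | rfl <;> norm_num
    have e2 : (2 * k * (1 - k * xt k U Y e)) ^ 2 = 4 * (1 - k * xt k U Y e) ^ 2 := by
      rw [mul_pow, mul_pow, hk2]; ring
    rw [e2]
    field_simp
    ring
  rw [e1] at h1
  refine h1.congr' ?_
  filter_upwards [hform] with t ht
  exact ht.2.symm

theorem end_zet {k l : ℝ} {U Y w : ℝ → ℝ} {e : ℝ} {F : Filter ℝ} (hk : k = 1 ∨ k = -1)
    (hs : Sol k l U Y w) (hF : F ≤ 𝓝 e) (hwe : w e = 0) (hg : 0 < 1 - k * xt k U Y e)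
    (hch : ∀ᶠ t in F, 0 < w t ∧ 0 < fh k l (U t) (Y t) (w t) ∧ 0 < bt k l U Y w t)
    {Bd : ℝ → ℝ} (hB : Tendsto Bd F (𝓝 0))
    (hK : ∀ᶠ t in F, 0 ≤ kap k (bt k l U Y w t) (xt k U Y t) ∧
      kap k (bt k l U Y w t) (xt k U Y t) ≤ Bd t * Tt k l U Y w t) :
    Tendsto (Zt k l U Y w) F (𝓝 (2 * l ^ 2 * cc k (U e) (Y e))) := by
  obtain ⟨-, hT⟩ := end_tau hk hs hF hwe hg hch
  have hb : Tendsto (bt k l U Y w) F (𝓝 (xt k U Y e)) := by
    have := ((cont_bt hs).tendsto e).mono_left hF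
    rwa [bt_end hk hwe hg] at this
  have hkap : Tendsto (fun t => kap k (bt k l U Y w t) (xt k U Y t)) F (𝓝 0) := by
    have h1 := hB.mul hT
    rw [zero_mul] at h1
    exact tendsto_of_tendsto_of_tendsto_of_le_of_le' tendsto_const_nhds h1
      (hK.mono fun t ht => ht.1) (hK.mono fun t ht => ht.2)
  have h2 : Tendsto (fun t => 2 * (1 - k * bt k l U Y w t) ^ 2 * Tt k l U Y w t
      - kap k (bt k l U Y w t) (xt k U Y t)) F
      (𝓝 (2 * (1 - k * xt k U Y e) ^ 2 * (l ^ 2 * cc k (U e) (Y e) / (1 - k * xt k U Y e) ^ 2)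
        - 0)) :=
    ((((((hb.const_mul k).const_sub 1).pow 2).const_mul 2).mul hT).sub hkap)
  have e1 : 2 * (1 - k * xt k U Y e) ^ 2 * (l ^ 2 * cc k (U e) (Y e) / (1 - k * xt k U Y e) ^ 2)
      - 0 = 2 * l ^ 2 * cc k (U e) (Y e) := by
    have hgn := hg.ne'
    field_simp
    ring
  rw [e1] at h2
  exact h2

/-- end limit, plus arcs -/
theorem end_plus {k l : ℝ} {U Y w : ℝ → ℝ} {e : ℝ} {F : Filter ℝ} (hk : k = 1 ∨ k = -1)
    (hl : 0 < l) (hs : Sol k l U Y w) (hF : F ≤ 𝓝 e) (hwe : w e = 0)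
    (hg : 0 < 1 - k * xt k U Y e)
    (hch : ∀ᶠ t in F, 0 < w t ∧ 0 < fh k l (U t) (Y t) (w t) ∧ 0 < bt k l U Y w t) :
    Tendsto (Zt k l U Y w) F (𝓝 (2 * l ^ 2 * cc k (U e) (Y e))) := by
  obtain ⟨hq, -⟩ := end_tau hk hs hF hwe hg hch
  have hb : Tendsto (bt k l U Y w) F (𝓝 (xt k U Y e)) := by
    have := ((cont_bt hs).tendsto e).mono_left hF
    rwa [bt_end hk hwe hg] at this
  refine end_zet hk hs hF hwe hg hch
    (Bd := fun t => ((1 - bt k l U Y w t / xt k U Y t) * (2 + 2 * bt k l U Y w t)) ^ 2) ?_ ?_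
  · have h1 := ((hq.const_sub 1).mul ((hb.const_mul 2).const_add 2)).pow 2
    simpa using h1
  · filter_upwards [hch] with t ht
    obtain ⟨s, h1, h2, h3, h4⟩ := chart_plus hk hl hs ht.1 ht.2.1 ht.2.2
    have h5 : 0 < bt k l U Y w t + k * s := by rw [← h4]; exact h3
    have h6 := kapP_bd hk ht.2.2 h1.le h2 h5
      (M := ((1 - bt k l U Y w t / xt k U Y t) * (2 + 2 * bt k l U Y w t)) ^ 2) (by
        intro s' hs'
        refine (mP_bd hk ht.2.2 hs'.1.le hs'.2.le h5 h2).trans (le_of_eq ?_)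
        rw [h4]
        have e1 : s / (bt k l U Y w t + k * s)
            = k * (1 - bt k l U Y w t / (bt k l U Y w t + k * s)) := by
          rw [one_sub_div h5.ne', add_sub_cancel_left]
          rcases hk with rfl | rfl <;> ring
        rw [e1]
        have hk2 : k ^ 2 = 1 := by rcases hk with rfl | rfl <;> norm_num
        rw [mul_pow, mul_pow, hk2]
        ring)
    unfold Tt
    rw [h4] at h6 ⊢
    exact h6

/-- end limit, minus arcs -/
theorem end_minus {k l : ℝ} {U Y w : ℝ → ℝ} {e : ℝ} {F : Filter ℝ} (hk : k = 1 ∨ k = -1)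
    (hl : 0 < l) (hs : Sol k (-l) U Y w) (hF : F ≤ 𝓝 e) (hwe : w e = 0)
    (hg : 0 < 1 - k * xt k U Y e)
    (hch : ∀ᶠ t in F, 0 < w t ∧ 0 < fh k (-l) (U t) (Y t) (w t) ∧ 0 < bt k (-l) U Y w t)
    (hg' : ∀ᶠ t in F, 0 < 1 - k * xt k U Y t) :
    Tendsto (Zt k (-l) U Y w) F (𝓝 (2 * l ^ 2 * cc k (U e) (Y e))) := by
  have hw : Tendsto w F (𝓝 0) := by
    have := (hs.contw.tendsto e).mono_left hF
    rwa [hwe] at this
  have h0 : 2 * l ^ 2 * cc k (U e) (Y e) = 2 * (-l) ^ 2 * cc k (U e) (Y e) := by ring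
  rw [h0]
  refine end_zet hk hs hF hwe hg hch (Bd := fun t => (-l * w t) ^ 2) ?_ ?_
  · have h1 := (hw.const_mul (-l)).pow 2
    simpa using h1
  · filter_upwards [hch, hg'] with t ht hgt
    obtain ⟨s, h1, h3, h4⟩ := chart_minus hk hl hs ht.1 ht.2.1 ht.2.2 hgt
    have hσ : 0 < 1 - k * bt k (-l) U Y w t := by
      rw [one_sub_bt hk]; exact Real.sqrt_pos.2 ht.2.1
    have h5 : 0 < bt k (-l) U Y w t - k * s := by rw [← h4]; exact h3
    have h6 := kapM_bd hk ht.2.2 hσ h1.le h5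
    have hP := PP_t (l := -l) (U := U) (Y := Y) (w := w) hk ht.2.1.le
    have hxn : xt k U Y t ≠ 0 := h3.ne'
    rw [← h4, hP] at h6
    have e1 : -l * w t * xt k U Y t / xt k U Y t = -l * w t := by field_simp
    rw [e1] at h6
    exact h6

end B92.K1
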