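import Mathlib
import Pool.Agent.Lib.B92.K1End
import Pool.Agent.Lib.B92.Graph
import Pool.Agent.Lib.B92.Cmp

/-!
# MP_b92fc8_an, case `k ^ 2 = 1`: comparison of the two arcs at one exit
-/

set_option autoImplicit false

open Set Filter Topology

noncomputable section

namespace B92.K1

/-- Two points of the same level: the plus point `r`, the minus point `t`. -/
structure Pt (k l : ℝ) (U Y w V Z v : ℝ → ℝ) (r t : ℝ) : Prop where
  hk : k = 1 ∨ k = -1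
  hl : 0 < l
  sp : Sol k l U Y w
  sm : Sol k (-l) V Z v
  hw : 0 < w r
  hv : 0 < v t
  hh : 0 < fh k l (U r) (Y r) (w r)
  hb : 0 < bt k l U Y w r
  eq : fh k (-l) (V t) (Z t) (v t) = fh k l (U r) (Y r) (w r)
  hg : 0 < 1 - k * xt k V Z t

theorem Pt.data {k l : ℝ} {U Y w V Z v : ℝ → ℝ} {r t : ℝ} (p : Pt k l U Y w V Z v r t) :
    ∃ s₁ s₂, 0 < s₁ ∧ s₁ < 2 * (1 - k * bt k l U Y w r) ∧ 0 < s₂ ∧
      bt k (-l) V Z v t = bt k l U Y w r ∧ 0 < 1 - k * bt k l U Y w r ∧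
      xt k U Y r = bt k l U Y w r + k * s₁ ∧ xt k V Z t = bt k l U Y w r - k * s₂ ∧
      0 < bt k l U Y w r + k * s₁ ∧ 0 < bt k l U Y w r - k * s₂ := by
  have hbb : bt k (-l) V Z v t = bt k l U Y w r := by
    unfold bt; rw [p.eq]
  have hσ : 0 < 1 - k * bt k l U Y w r := by
    rw [one_sub_bt p.hk]; exact Real.sqrt_pos.2 p.hh
  obtain ⟨s₁, h1, h2, h3, h4⟩ := chart_plus p.hk p.hl p.sp p.hw p.hh p.hb
  obtain ⟨s₂, h5, h6, h7⟩ := chart_minus p.hk p.hl p.sm p.hv (by rw [p.eq]; exact p.hh)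
    (by rw [hbb]; exact p.hb) p.hg
  rw [hbb] at h7
  exact ⟨s₁, s₂, h1, h2, h5, hbb, hσ, h4, h7, by rw [← h4]; exact h3, by rw [← h7]; exact h6⟩

/-- contact -/
theorem Pt.contact {k l : ℝ} {U Y w V Z v : ℝ → ℝ} {r t : ℝ} (p : Pt k l U Y w V Z v r t)
    (h : Tt k l U Y w r = Tt k (-l) V Z v t) :
    kap k (bt k l U Y w r) (xt k U Y r) < kap k (bt k (-l) V Z v t) (xt k V Z t) := by
  obtain ⟨s₁, s₂, h1, h2, h3, hbb, hσ, hx1, hx2, hp1, hp2⟩ := p.data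
  unfold Tt at h
  rw [hbb, hx1, hx2] at h
  rw [hbb, hx1, hx2]
  exact kap_lt p.hk p.hb hσ h1 h2 hp1 h3 hp2 h

/-- `w₊ < w₋` -/
theorem Pt.w_lt {k l : ℝ} {U Y w V Z v : ℝ → ℝ} {r t : ℝ} (p : Pt k l U Y w V Z v r t)
    (h : Tt k l U Y w r ≤ Tt k (-l) V Z v t) : w r < v t := by
  obtain ⟨s₁, s₂, h1, h2, h3, hbb, hσ, hx1, hx2, hp1, hp2⟩ := p.data
  unfold Tt at h
  rw [hbb, hx1, hx2] at h
  have h4 := K1.w_lt p.hk p.hb hσ h1 h2 hp1 h3 hp2 h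
  have hP1 := PP_t (l := l) (U := U) (Y := Y) (w := w) p.hk p.hh.le
  have hP2 := PP_t (l := -l) (U := V) (Y := Z) (w := v) p.hk (by rw [p.eq]; exact p.hh.le)
  rw [hbb] at hP2
  rw [← hx1, ← hx2, hP1, hP2] at h4
  have hx1n : xt k U Y r ≠ 0 := by rw [hx1]; exact hp1.ne'
  have hx2n : xt k V Z t ≠ 0 := by rw [hx2]; exact hp2.ne'
  have e1 : l * w r * xt k U Y r / xt k U Y r = l * w r := by field_simp
  have e2 : -(-l * v t * xt k V Z t / xt k V Z t) = l * v t := by field_simp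
  rw [e1, e2] at h4
  exact lt_of_mul_lt_mul_left h4 p.hl.le

/-- near the start -/
theorem Pt.start {k l : ℝ} {U Y w V Z v : ℝ → ℝ} {r t c₀ : ℝ} (p : Pt k l U Y w V Z v r t)
    (hc0 : 0 ≤ c₀) (hu : c₀ ≤ 2 * fh k l (U r) (Y r) (w r) - (l * w r) ^ 2)
    (h1c : k = 1 → xt k U Y r ^ 2 ≤ bt k l U Y w r * (2 - bt k l U Y w r))
    (h : Tt k (-l) V Z v t ≤ Tt k l U Y w r) :
    0 < Zt k l U Y w r - Zt k (-l) V Z v t ∧
      c₀ * (Tt k l U Y w r - Tt k (-l) V Z v t) ≤ Zt k l U Y w r - Zt k (-l) V Z v t := by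
  obtain ⟨s₁, s₂, h1, h2, h3, hbb, hσ, hx1, hx2, hp1, hp2⟩ := p.data
  unfold Tt at h ⊢
  unfold Zt
  have hP1 := PP_t (l := l) (U := U) (Y := Y) (w := w) p.hk p.hh.le
  have hx1n : xt k U Y r ≠ 0 := by rw [hx1]; exact hp1.ne'
  have e1 : PP k (bt k l U Y w r) (xt k U Y r) / xt k U Y r = l * w r := by
    rw [hP1]; field_simp
  have hsq : (1 - k * bt k l U Y w r) ^ 2 = fh k l (U r) (Y r) (w r) := by
    rw [one_sub_bt p.hk, Real.sq_sqrt p.hh.le]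
  rw [hbb, hx1, hx2] at h
  rw [hbb, hx1, hx2]
  refine slice_D p.hk p.hb hσ h1 h2 hp1 h3 hp2 h hc0 ?_
  intro s hs
  have h5 := mP_le p.hk p.hb hs.1.le hs.2.le hp1 (fun hk1 => by
    have := h1c hk1
    rw [hx1, hk1, one_mul] at this
    rw [hk1]
    exact this)
  rw [← hx1, e1] at h5
  have h6 : 0 < PP k (bt k l U Y w r) (bt k l U Y w r + k * s) / (bt k l U Y w r + k * s) :=
    div_pos (PPp_pos p.hk hs.1 (hs.2.trans h2)) (xp_pos p.hk p.hb hs.1.le hs.2.le hp1)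
  have h7 := pow_le_pow_left₀ h6.le h5 2
  rw [hsq]
  linarith

end B92.K1
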