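import Mathlib
import Pool.Agent.Lib.B92.K1Comp
import Pool.Agent.Lib.B92.Assemble

/-!
# MP_b92fc8_an, case `k ^ 2 = 1`: no periodic orbit on which `w` changes sign
-/

set_option autoImplicit false

open Set Filter Topology

noncomputable section

namespace B92.K1

theorem H1 {k l : ℝ} (hk : k = 1 ∨ k = -1) (hl : 0 < l) (U Y w : ℝ → ℝ) (a b : ℝ)
    (A : Arc k (-l) U Y w a b) : Y a = U a := by
  rcases A.entrance with h | h
  · exact h.1
  exfalso
  rcases hk with rfl | rfl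
  · have hxc := cont_xx (k := 1) A.sol.contU A.sol.contY
    have hne : ∀ s ∈ Icc a b, xx 1 (U s) (Y s) ≠ 1 := by
      intro s hs h1
      have h2 := A.hpos s hs
      rw [fh_eq (Or.inl rfl), h1] at h2
      have h3 : 0 ≤ l * w s := mul_nonneg hl.le (w_nonneg A s hs)
      linarith
    have hxa : 1 < xx 1 (U a) (Y a) := by
      have := h.2
      rw [fA_eq (Or.inl rfl), one_mul] at this
      exact this
    have hxb : xx 1 (U b) (Y b) < 1 := by
      rcases A.exit with h4 | h4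
      · have := h4.2
        rw [fA_eq (Or.inl rfl), one_mul] at this
        exact this
      · simp only [xx, h4.1]; norm_num
    obtain ⟨s, hs, h1⟩ := intermediate_value_Icc' A.lt.le hxc.continuousOn
      (show (1 : ℝ) ∈ Icc _ _ from ⟨hxb.le, hxa.le⟩)
    exact hne s hs h1
  · have h2 := h.2
    simp only [fA, h.1] at h2
    linarith

/-- The two arcs of one exit. -/
structure Two (k l : ℝ) (U Y w : ℝ → ℝ) (a b : ℝ) (V Z v : ℝ → ℝ) (c d : ℝ) : Prop where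
  hk : k = 1 ∨ k = -1
  hl : 0 < l
  A : Arc k l U Y w a b
  A' : Arc k (-l) V Z v c d
  eU : U b = V d
  eY : Y b = Z d
  E : Y a = U a
  E' : Z c = V c

variable {k l : ℝ} {U Y w : ℝ → ℝ} {a b : ℝ} {V Z v : ℝ → ℝ} {c d : ℝ}

theorem Two.exit (q : Two k l U Y w a b V Z v c d) : Z d = -V d := by
  rcases q.A'.exit with h | h
  · exact h.1
  · exfalso
    have h2 := h.2
    have hV := q.A'.sol.pos d
    rw [fA_eq q.hk] at h2
    simp only [xx, h.1] at h2
    rcases q.hk with h3 | h3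
    · rw [h3] at h2; norm_num at h2
    · rw [h3] at h2; norm_num at h2; linarith

theorem Two.hg (q : Two k l U Y w a b V Z v c d) : ∀ t ∈ Icc c d, 0 < 1 - k * xt k V Z t :=
  g_pos q.hk q.hl q.A' fun _ => q.E'

theorem Two.xtb (q : Two k l U Y w a b V Z v c d) : xt k U Y b = xt k V Z d := by
  unfold xt; rw [q.eU, q.eY]

theorem Two.hgb (q : Two k l U Y w a b V Z v c d) : 0 < 1 - k * xt k U Y b := by
  rw [q.xtb]; exact q.hg d ⟨q.A'.lt.le, le_rfl⟩

theorem Two.hga (q : Two k l U Y w a b V Z v c d) : 0 < 1 - k * xt k U Y a := by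
  have hU := q.A.sol.pos a
  unfold xt xx
  rw [q.E]
  rcases q.hk with h | h
  · rw [h]; norm_num
  · rw [h]; linarith

theorem Two.hb (q : Two k l U Y w a b V Z v c d) :
    fh k l (U b) (Y b) (w b) = fh k (-l) (V d) (Z d) (v d) := by
  rw [h_at_zero q.A.wb, h_at_zero q.A'.wb, q.eU, q.eY]

theorem Two.hm_anti (q : Two k l U Y w a b V Z v c d) :
    StrictAntiOn (fun t => fh k (-l) (V t) (Z t) (v t)) (Icc c d) := by
  apply strictAntiOn_of_deriv_neg (convex_Icc _ _) (cont_h q.A'.sol).continuousOn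
  intro t ht
  rw [interior_Icc] at ht
  rw [(hasDerivAt_h q.A'.sol t).deriv]
  have h1 := q.A'.wpos t ht
  have h2 := claimA q.hk q.hl q.A' (fun _ => q.E') t ⟨ht.1.le, ht.2.le⟩
  nlinarith

theorem Two.level (q : Two k l U Y w a b V Z v c d) {h : ℝ}
    (hh : h ∈ Ioo (fh k (-l) (V d) (Z d) (v d)) (fh k (-l) (V c) (Z c) (v c))) :
    0 < h ∧ 0 < bb k h := by
  have h0 : 0 < h := (q.A'.hpos d ⟨q.A'.lt.le, le_rfl⟩).trans hh.1
  refine ⟨h0, ?_⟩
  have hd := h_at_zero (k := k) (l := -l) (U := V d) (Y := Z d) q.A'.wb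
  have hc := h_at_zero (k := k) (l := -l) (U := V c) (Y := Z c) q.A'.wa
  have hex := q.exit
  have hE' := q.E'
  unfold bb
  rcases q.hk with h3 | h3
  · subst h3
    have h4 : fh 1 (-l) (V c) (Z c) (v c) = 1 := by
      rw [hc]; simp only [fA, hE']; norm_num
    have h5 : h < 1 := by have := hh.2; rwa [h4] at this
    have h6 : Real.sqrt h < 1 := by
      rw [Real.sqrt_lt' one_pos]; simpa using h5
    linarith
  · subst h3
    have h4 : fh (-1) (-l) (V d) (Z d) (v d) = 1 := by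
      rw [hd]; simp only [fA, hex]; norm_num
    have h5 : 1 < h := by have := hh.1; rwa [h4] at this
    have h6 : 1 < Real.sqrt h := by
      rw [Real.lt_sqrt zero_le_one]; simpa using h5
    linarith

/-- **Comparison as long as `u₊ > 0`.** -/
theorem Two.comp (q : Two k l U Y w a b V Z v c d) {r₀ : ℝ} (hr0 : r₀ ∈ Ico a b)
    (hG : ∀ r ∈ Ioo r₀ b, 0 < fu k l (U r) (Y r) (w r) ∧
      fh k l (U r) (Y r) (w r) < fh k (-l) (V c) (Z c) (v c))
    {θ : ℝ → ℝ}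
    (hθ1 : ∀ h ∈ Icc (fh k (-l) (V d) (Z d) (v d)) (fh k (-l) (V c) (Z c) (v c)),
      θ h ∈ Icc c d ∧ fh k (-l) (V (θ h)) (Z (θ h)) (v (θ h)) = h)
    (hθ2 : ∀ t ∈ Icc c d, θ (fh k (-l) (V t) (Z t) (v t)) = t)
    (hθ3 : ContinuousOn θ (Icc (fh k (-l) (V d) (Z d) (v d)) (fh k (-l) (V c) (Z c) (v c))))
    (hθ4 : ∀ h ∈ Ioo (fh k (-l) (V d) (Z d) (v d)) (fh k (-l) (V c) (Z c) (v c)),
      θ h ∈ Ioo c d ∧ HasDerivAt θ
        (-(v (θ h)) * fu k (-l) (V (θ h)) (Z (θ h)) (v (θ h)))⁻¹ h) :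
    ∀ r ∈ Ioo r₀ b,
      Pt k l U Y w V Z v r (θ (fh k l (U r) (Y r) (w r))) ∧
      Tt k l U Y w r < Tt k (-l) V Z v (θ (fh k l (U r) (Y r) (w r))) ∧
      Zt k l U Y w r - Zt k (-l) V Z v (θ (fh k l (U r) (Y r) (w r))) < 0 ∧
      ∀ r₂ ∈ Ioo r b, Zt k l U Y w r - Zt k (-l) V Z v (θ (fh k l (U r) (Y r) (w r)))
        ≤ Zt k l U Y w r₂ - Zt k (-l) V Z v (θ (fh k l (U r₂) (Y r₂) (w r₂))) := by
  intro r hr
  have hs := q.A.sol
  have hs' := q.A'.sol
  set hp : ℝ → ℝ := fun t => fh k l (U t) (Y t) (w t) with hpd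
  set hm : ℝ → ℝ := fun t => fh k (-l) (V t) (Z t) (v t) with hmd
  have hpc : Continuous hp := cont_h hs
  have hmc : Continuous hm := cont_h hs'
  have hb : hp b = hm d := q.hb
  -- `hp` decreases on `[r₀, b]`
  have hanti : StrictAntiOn hp (Icc r₀ b) := by
    apply strictAntiOn_of_deriv_neg (convex_Icc _ _) hpc.continuousOn
    intro t ht
    rw [interior_Icc] at ht
    rw [(hasDerivAt_h hs t).deriv]
    have h1 := q.A.wpos t ⟨hr0.1.trans_lt ht.1, ht.2⟩
    have h2 := (hG t ht).1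
    nlinarith
  have hlev : ∀ t ∈ Ioo r₀ b, hp t ∈ Ioo (hm d) (hm c) := by
    intro t ht
    refine ⟨?_, (hG t ht).2⟩
    rw [← hb]
    exact hanti ⟨ht.1.le, ht.2.le⟩ ⟨hr0.2.le, le_rfl⟩ ht.2
  have hwpos : ∀ t ∈ Ioo r₀ b, 0 < w t := fun t ht => q.A.wpos t ⟨hr0.1.trans_lt ht.1, ht.2⟩
  have hpt : ∀ t ∈ Ioo r₀ b, Pt k l U Y w V Z v t (θ (hp t)) := by
    intro t ht
    have h1 := hlev t ht
    have h2 := q.level h1
    have h3 := (hθ4 _ h1).1
    exact ⟨q.hk, q.hl, hs, hs', hwpos t ht, q.A'.wpos _ h3, h2.1, h2.2,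
      (hθ1 _ ⟨h1.1.le, h1.2.le⟩).2, q.hg _ ⟨h3.1.le, h3.2.le⟩⟩
  -- the point left of `r`
  set r₃ := (r₀ + r) / 2 with hr3
  have hr3a : r₀ < r₃ := by rw [hr3]; linarith [hr.1]
  have hr3b : r₃ < r := by rw [hr3]; linarith [hr.1]
  have hr3' : r₃ < b := hr3b.trans hr.2
  obtain ⟨hlt, φ, hφ1, hφ2, hφ3, hφ5, hφ4⟩ := exists_inv_decr (H := hp)
    (H' := fun t => -(w t) * fu k l (U t) (Y t) (w t)) hr3' hpc.continuousOn
    (fun t _ => hasDerivAt_h hs t) (fun t ht => by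
      have h1 := hwpos t ⟨hr3a.trans ht.1, ht.2⟩
      have h2 := (hG t ⟨hr3a.trans ht.1, ht.2⟩).1
      nlinarith)
  have hanti3 : StrictAntiOn hp (Icc r₃ b) := hanti.mono (Icc_subset_Icc_left hr3a.le)
  have hrI : hp r ∈ Ioo (hp b) (hp r₃) :=
    ⟨hanti3 ⟨hr3b.le, hr.2.le⟩ ⟨hr3'.le, le_rfl⟩ hr.2,
      hanti3 ⟨le_rfl, hr3'.le⟩ ⟨hr3b.le, hr.2.le⟩ hr3b⟩
  have hr3c : hp r₃ ≤ hm c := (hG r₃ ⟨hr3a, hr3'⟩).2.le
  have hIoo : ∀ h ∈ Ioc (hp b) (hp r), h ∈ Ioo (hp b) (hp r₃) ∧ h ∈ Ioo (hm d) (hm c) := by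
    intro h hh
    exact ⟨⟨hh.1, hh.2.trans_lt hrI.2⟩, ⟨by rw [← hb]; exact hh.1,
      hh.2.trans_lt (hG r hr).2⟩⟩
  -- functions of the level
  set Zd : ℝ → ℝ := fun h => Zt k l U Y w (φ h) - Zt k (-l) V Z v (θ h) with hZd
  set D : ℝ → ℝ := fun h => if h ≤ hp b then 0 else Zd h with hD
  have hφr : ∀ t ∈ Icc r₃ b, φ (hp t) = t := fun t ht => (hφ2 t ht).2
  have hPt : ∀ h ∈ Ioc (hp b) (hp r), Pt k l U Y w V Z v (φ h) (θ h) := by
    intro h hh
    have h1 := hφ4 h (hIoo h hh).1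
    have h2 := hpt (φ h) ⟨hr3a.trans h1.1.1, h1.1.2⟩
    have h3 := (hφ1 h ⟨(hIoo h hh).1.1.le, (hIoo h hh).1.2.le⟩).2
    rw [h3] at h2
    exact h2
  have hder : ∀ h ∈ Ioc (hp b) (hp r), HasDerivAt Zd
      (5 * (Tt k l U Y w (φ h) - Tt k (-l) V Z v (θ h))) h := by
    intro h hh
    have hP := hPt h hh
    have h1 := hφ4 h (hIoo h hh).1
    have h2 := hθ4 h (hIoo h hh).2
    have h3 : 0 < xx k (U (φ h)) (Y (φ h)) :=
      (xx_pos q.hk (hs.cone _) (hs.pos _) hP.hw.ne').1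
    have h4 : 0 < xx k (V (θ h)) (Z (θ h)) :=
      (xx_pos q.hk (hs'.cone _) (hs'.pos _) hP.hv.ne').1
    have hbm : 0 < bb k (fh k (-l) (V (θ h)) (Z (θ h)) (v (θ h))) := by
      rw [hP.eq]; exact hP.hb
    have hhm : 0 < fh k (-l) (V (θ h)) (Z (θ h)) (v (θ h)) := by
      rw [hP.eq]; exact hP.hh
    have e1 := hd_zet q.hk hs (φ h) hP.hh hP.hb h3
    have e2 := hd_zet q.hk hs' (θ h) hhm hbm h4
    have hu1 : 0 < fu k l (U (φ h)) (Y (φ h)) (w (φ h)) :=
      (hG (φ h) ⟨hr3a.trans h1.1.1, h1.1.2⟩).1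
    have hu2 := claimA q.hk q.hl q.A' (fun _ => q.E') (θ h) ⟨h2.1.1.le, h2.1.2.le⟩
    have hn1 : -(w (φ h)) * fu k l (U (φ h)) (Y (φ h)) (w (φ h)) ≠ 0 := by
      have := hP.hw
      have : 0 < w (φ h) * fu k l (U (φ h)) (Y (φ h)) (w (φ h)) := by positivity
      linarith
    have hn2 : -(v (θ h)) * fu k (-l) (V (θ h)) (Z (θ h)) (v (θ h)) ≠ 0 := by
      have := hP.hv
      have : 0 < v (θ h) * fu k (-l) (V (θ h)) (Z (θ h)) (v (θ h)) := by positivity
      linarith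
    have g1 := hasDerivAt_comp_inv (H := hp)
      (H' := fun t => -(w t) * fu k l (U t) (Y t) (w t)) (Z := Zt k l U Y w)
      (p := fun t => l ^ 2 * k + 5 * Tt k l U Y w t) (τ := φ) (h := h) e1 hn1 h1.2
    have g2 := hasDerivAt_comp_inv (H := hm)
      (H' := fun t => -(v t) * fu k (-l) (V t) (Z t) (v t)) (Z := Zt k (-l) V Z v)
      (p := fun t => (-l) ^ 2 * k + 5 * Tt k (-l) V Z v t) (τ := θ) (h := h) e2 hn2 h2.2
    refine (g1.sub g2).congr_deriv ?_
    ring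
  -- limit at the exit
  have hlim : Tendsto Zd (𝓝[>] (hp b)) (𝓝 0) := by
    have hφb : φ (hp b) = b := hφr b ⟨hr3'.le, le_rfl⟩
    have hθb : θ (hp b) = d := by rw [hb]; exact hθ2 d ⟨q.A'.lt.le, le_rfl⟩
    have t1 : Tendsto φ (𝓝[>] (hp b)) (𝓝[<] b) := by
      rw [tendsto_nhdsWithin_iff]
      constructor
      · have h1 := (hφ3 (hp b) ⟨le_rfl, hlt.le⟩).tendsto
        rw [hφb] at h1
        refine h1.mono_left ?_
        rw [nhdsWithin_le_iff]
        exact mem_of_superset (Ioo_mem_nhdsGT hlt) Ioo_subset_Icc_self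
      · filter_upwards [Ioo_mem_nhdsGT hlt] with h hh
        exact (hφ4 h hh).1.2
    have hdc : hm d < hm c := q.hm_anti ⟨le_rfl, q.A'.lt.le⟩ ⟨q.A'.lt.le, le_rfl⟩ q.A'.lt
    have t2 : Tendsto θ (𝓝[>] (hp b)) (𝓝[<] d) := by
      rw [tendsto_nhdsWithin_iff]
      constructor
      · have h1 := (hθ3 (hm d) ⟨le_rfl, hdc.le⟩).tendsto
        rw [← hb, hθb] at h1
        refine h1.mono_left ?_
        rw [nhdsWithin_le_iff]
        have := Ioo_mem_nhdsGT hdc
        rw [← hb] at this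
        refine mem_of_superset this fun h hh => ⟨?_, hh.2.le⟩
        have h2 := hh.1.le
        rw [hb] at h2
        exact h2
      · have := Ioo_mem_nhdsGT hdc
        rw [← hb] at this
        filter_upwards [this] with h hh
        have h2 := hh.1
        rw [hb] at h2
        exact (hθ4 h ⟨h2, hh.2⟩).1.2
    have z1 := end_plus q.hk q.hl hs (F := 𝓝[<] b) nhdsWithin_le_nhds q.A.wb q.hgb (by
      filter_upwards [Ioo_mem_nhdsLT hr0.2] with t ht
      have h1 := q.level (hlev t ht)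
      exact ⟨hwpos t ht, h1.1, h1.2⟩)
    have z2 := end_minus q.hk q.hl hs' (F := 𝓝[<] d) nhdsWithin_le_nhds q.A'.wb
      (q.hg d ⟨q.A'.lt.le, le_rfl⟩) (by
      filter_upwards [Ioo_mem_nhdsLT q.A'.lt] with t ht
      have h0 : hm t ∈ Ioo (hm d) (hm c) :=
        ⟨q.hm_anti ⟨ht.1.le, ht.2.le⟩ ⟨q.A'.lt.le, le_rfl⟩ ht.2,
          q.hm_anti ⟨le_rfl, q.A'.lt.le⟩ ⟨ht.1.le, ht.2.le⟩ ht.1⟩
      have h1 := q.level h0
      exact ⟨q.A'.wpos t ht, h1.1, h1.2⟩) (by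
      filter_upwards [Ioo_mem_nhdsLT q.A'.lt] with t ht
      exact q.hg t ⟨ht.1.le, ht.2.le⟩)
    have z3 := (z1.comp t1).sub (z2.comp t2)
    have e1 : 2 * l ^ 2 * cc k (U b) (Y b) - 2 * l ^ 2 * cc k (V d) (Z d) = 0 := by
      rw [q.eU, q.eY]; ring
    rw [e1] at z3
    exact z3
  have hDc : ContinuousOn D (Icc (hp b) (hp r)) := by
    intro h hh
    rcases eq_or_lt_of_le hh.1 with h1 | h1
    · have e0 : D h = 0 := by simp only [hD]; rw [if_pos h1.symm.le]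
      rw [ContinuousWithinAt, e0, ← h1]
      have : 𝓝[Icc (hp b) (hp r)] (hp b) ≤ 𝓝[≥] (hp b) :=
        nhdsWithin_mono _ Icc_subset_Ici_self
      refine Tendsto.mono_left ?_ this
      rw [← Ioi_insert, nhdsWithin_insert, tendsto_sup]
      constructor
      · rw [tendsto_pure_left]
        intro s hs0
        have : D (hp b) = 0 := by simp only [hD]; rw [if_pos le_rfl]
        rw [this]
        exact mem_of_mem_nhds hs0
      · refine hlim.congr' ?_
        filter_upwards [self_mem_nhdsWithin] with x hx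
        simp only [hD]
        rw [if_neg (not_le.2 hx)]
    · have h2 := (hder h ⟨h1, hh.2⟩).continuousAt
      have h3 : D =ᶠ[𝓝 h] Zd := by
        filter_upwards [Ioi_mem_nhds h1] with x hx
        simp only [hD]
        rw [if_neg (not_le.2 hx)]
      exact (h2.congr h3.symm).continuousWithinAt
  have hDd : ∀ h ∈ Ioc (hp b) (hp r), HasDerivAt D
      (5 * (Tt k l U Y w (φ h) - Tt k (-l) V Z v (θ h))) h := by
    intro h hh
    refine (hder h hh).congr_of_eventuallyEq ?_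
    filter_upwards [Ioi_mem_nhds hh.1] with x hx
    simp only [hD]
    rw [if_neg (not_le.2 hx)]
  -- start
  have hh1 : 0 < hp b := q.A.hpos b ⟨q.A.lt.le, le_rfl⟩
  obtain ⟨r₅, hr5, hst⟩ : ∃ r₅ ∈ Ioo r₃ b, ∀ t ∈ Ico r₅ b, (l * w t) ^ 2 ≤ hp b ∧
      (k = 1 → xt k U Y t ^ 2 ≤ bt k l U Y w t * (2 - bt k l U Y w t)) := by
    have hc1 : ∀ᶠ t in 𝓝 b, (l * w t) ^ 2 < hp b := by
      have hcc : Continuous fun t => (l * w t) ^ 2 := by
        have := hs.contw
        fun_prop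
      have := hcc.tendsto b
      rw [q.A.wb, mul_zero, zero_pow two_ne_zero] at this
      exact this.eventually (gt_mem_nhds hh1)
    have hc2 : ∀ᶠ t in 𝓝 b,
        (k = 1 → xt k U Y t ^ 2 < bt k l U Y w t * (2 - bt k l U Y w t)) := by
      rcases q.hk with h3 | h3
      · have hcc : Continuous fun t =>
            bt k l U Y w t * (2 - bt k l U Y w t) - xt k U Y t ^ 2 := by
          have h4 := cont_bt (k := k) hs
          have h5 := cont_xt (k := k) hs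
          fun_prop
        have h6 := hcc.tendsto b
        rw [bt_end q.hk q.A.wb q.hgb] at h6
        have h7 : 0 < xt k U Y b * (2 - xt k U Y b) - xt k U Y b ^ 2 := by
          have h8 : 0 < xt k U Y b := by
            rw [q.xtb]
            unfold xt xx
            rw [q.exit, h3]
            have := hs'.pos d
            linarith
          have h9 := q.hgb
          rw [h3, one_mul] at h9
          rw [h3] at h8 ⊢
          nlinarith
        filter_upwards [h6.eventually (lt_mem_nhds h7)] with t ht _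
        linarith
      · exact Eventually.of_forall fun t h4 => by rw [h3] at h4; norm_num at h4
    have hc3 := (hc1.and hc2).filter_mono (nhdsWithin_le_nhds (s := Iio b))
    obtain ⟨m, hmb, hms⟩ := (mem_nhdsLT_iff_exists_Ioo_subset).1 hc3
    have hmb' : m < b := hmb
    refine ⟨(max m r₃ + b) / 2, ⟨?_, ?_⟩, ?_⟩
    · have := le_max_right m r₃
      linarith
    · have := max_lt hmb' hr3'
      linarith
    · intro t ht
      have h4 := max_lt hmb' hr3'
      have h5 := le_max_left m r₃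
      have h6 : t ∈ Ioo m b := ⟨by linarith [ht.1], ht.2⟩
      have h7 := hms h6
      exact ⟨h7.1.le, fun hk1 => (h7.2 hk1).le⟩
  have hr5I : r₅ ∈ Icc r₃ b := ⟨hr5.1.le, hr5.2.le⟩
  have h5lt : hp b < hp r₅ := hanti3 hr5I ⟨hr3'.le, le_rfl⟩ hr5.2
  have hstart : ∀ h ∈ Ioc (hp b) (hp r), h ≤ hp r₅ →
      Tt k (-l) V Z v (θ h) ≤ Tt k l U Y w (φ h) →
      0 < Zd h ∧ hp b * (Tt k l U Y w (φ h) - Tt k (-l) V Z v (θ h)) ≤ Zd h := by
    intro h hh hh5 hT
    have hP := hPt h hh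
    have h1 := hφ4 h (hIoo h hh).1
    have h2 := (hφ1 h ⟨(hIoo h hh).1.1.le, (hIoo h hh).1.2.le⟩).2
    have h3 : r₅ ≤ φ h := by
      by_contra hcon
      push Not at hcon
      have := hanti3 ⟨h1.1.1.le, h1.1.2.le⟩ hr5I hcon
      rw [h2] at this
      linarith
    have h4 := hst (φ h) ⟨h3, h1.1.2⟩
    have h5 : fh k l (U (φ h)) (Y (φ h)) (w (φ h)) = h := h2
    exact hP.start (c₀ := hp b) hh1.le (by rw [h5]; linarith [h4.1, hh.1]) h4.2 hT
  have hmain := cmpNeg (η := -1) (by norm_num) (D := D)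
    (Tp := fun h => Tt k l U Y w (φ h)) (Tm := fun h => Tt k (-l) V Z v (θ h))
    (Kp := fun h => kap k (bt k l U Y w (φ h)) (xt k U Y (φ h)))
    (Km := fun h => kap k (bt k (-l) V Z v (θ h)) (xt k V Z (θ h)))
    (h1 := hp b) (h2 := hp r) (h1' := hp r₅) (C := 5 / hp b) h5lt hDc
    (by simp only [hD]; rw [if_pos le_rfl]) ?_ ?_
    (fun h hh => (hDd h hh).hasDerivWithinAt) ?_ ?_ ?_ ?_
  rotate_left
  · -- continuity of `Tp`
    intro h hh
    have hP := hPt h hh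
    have h1 := hφ4 h (hIoo h hh).1
    have h3 : 0 < xx k (U (φ h)) (Y (φ h)) :=
      (xx_pos q.hk (hs.cone _) (hs.pos _) hP.hw.ne').1
    have e1 := (tau_path q.hk (hd_bb hs (φ h) hP.hh) (hd_xx q.hk hs (φ h)) hP.hb h3).continuousAt
    have e2 : ContinuousAt (fun h => Tt k l U Y w (φ h)) h :=
      ContinuousAt.comp (g := Tt k l U Y w) e1 h1.2.continuousAt
    exact e2.continuousWithinAt
  · intro h hh
    have hP := hPt h hh
    have h1 := hθ4 h (hIoo h hh).2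
    have h3 : 0 < xx k (V (θ h)) (Z (θ h)) :=
      (xx_pos q.hk (hs'.cone _) (hs'.pos _) hP.hv.ne').1
    have hbm : 0 < bb k (fh k (-l) (V (θ h)) (Z (θ h)) (v (θ h))) := by
      rw [hP.eq]; exact hP.hb
    have hhm : 0 < fh k (-l) (V (θ h)) (Z (θ h)) (v (θ h)) := by
      rw [hP.eq]; exact hP.hh
    have e1 := (tau_path q.hk (hd_bb hs' (θ h) hhm) (hd_xx q.hk hs' (θ h)) hbm h3).continuousAt
    have e2 : ContinuousAt (fun h => Tt k (-l) V Z v (θ h)) h :=
      ContinuousAt.comp (g := Tt k (-l) V Z v) e1 h1.2.continuousAt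
    exact e2.continuousWithinAt
  · -- start1
    intro h hh hh5 hDh
    by_contra hcon
    push Not at hcon
    have h1 := (hstart h hh hh5 hcon).1
    simp only [hD] at hDh
    rw [if_neg (not_le.2 hh.1)] at hDh
    linarith
  · -- start2
    intro h hh hh5 hDh
    simp only [hD] at hDh ⊢
    rw [if_neg (not_le.2 hh.1)] at hDh ⊢
    rcases le_total (Tt k (-l) V Z v (θ h)) (Tt k l U Y w (φ h)) with h1 | h1
    · have h2 := (hstart h hh hh5 h1).2
      rw [div_mul_eq_mul_div, le_div_iff₀ hh1]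
      nlinarith
    · have h2 : 0 < 5 / hp b * Zd h := by positivity
      linarith
  · -- contact
    intro h hh hT
    have hP := hPt h hh
    have hbb : bt k (-l) V Z v (θ h) = bt k l U Y w (φ h) := by
      unfold bt; rw [hP.eq]
    simp only [hD]
    rw [if_neg (not_le.2 hh.1)]
    simp only [hZd]
    have hT' : Tt k l U Y w (φ h) = Tt k (-l) V Z v (θ h) := hT
    unfold Tt at hT'
    unfold Zt zet
    rw [hT', hbb]
    ring
  · intro h hh hT
    exact (hPt h hh).contact hT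
  have hmono : StrictAntiOn D (Icc (hp b) (hp r)) := by
    apply strictAntiOn_of_deriv_neg (convex_Icc _ _) hDc
    intro h hh
    rw [interior_Icc] at hh
    rw [(hDd h ⟨hh.1, hh.2.le⟩).deriv]
    have := (hmain h ⟨hh.1, hh.2.le⟩).2
    linarith
  have hDr : ∀ t ∈ Ico r b, D (hp t) = Zt k l U Y w t - Zt k (-l) V Z v (θ (hp t)) := by
    intro t ht
    have h1 : hp b < hp t := hanti3 ⟨hr3b.le.trans ht.1, ht.2.le⟩ ⟨hr3'.le, le_rfl⟩ ht.2
    simp only [hD]
    rw [if_neg (not_le.2 h1)]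
    simp only [hZd]
    rw [hφr t ⟨hr3b.le.trans ht.1, ht.2.le⟩]
  have hrr : hp r ∈ Ioc (hp b) (hp r) := ⟨hrI.1, le_rfl⟩
  refine ⟨hpt r hr, ?_, ?_, ?_⟩
  · have := (hmain _ hrr).2
    rw [hφr r ⟨hr3b.le, hr.2.le⟩] at this
    exact this
  · have := (hmain _ hrr).1
    rw [hDr r ⟨le_rfl, hr.2⟩] at this
    exact this
  · intro r₂ hr₂
    have h1 : hp r₂ < hp r := hanti ⟨hr.1.le, hr.2.le⟩ ⟨(hr.1.trans hr₂.1).le, hr₂.2.le⟩ hr₂.1
    have h2 : hp b < hp r₂ := hanti ⟨(hr.1.trans hr₂.1).le, hr₂.2.le⟩ ⟨hr0.2.le, le_rfl⟩ hr₂.2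
    have h3 := hmono ⟨h2.le, h1.le⟩ ⟨hrI.1.le, le_rfl⟩ h1
    rw [hDr r ⟨le_rfl, hr.2⟩, hDr r₂ ⟨hr₂.1.le, hr₂.2⟩] at h3
    exact h3.le

end B92.K1
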