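import Mathlib
import Pool.Agent.Lib.B92.K1Main

/-!
# MP_b92fc8_an, case `k ^ 2 = 1`: no periodic orbit on which `w` changes sign
-/

set_option autoImplicit false

open Set Filter Topology

noncomputable section

namespace B92.K1

variable {k l : ℝ} {U Y w : ℝ → ℝ} {a b : ℝ} {V Z v : ℝ → ℝ} {c d : ℝ}

/-- **Comparison of the two entrances before and after an exit.** -/
theorem Two.main (q : Two k l U Y w a b V Z v c d) : U a < V c := by
  have hs := q.A.sol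
  have hs' := q.A'.sol
  have hl := q.hl
  set hp : ℝ → ℝ := fun t => fh k l (U t) (Y t) (w t) with hpd
  set hm : ℝ → ℝ := fun t => fh k (-l) (V t) (Z t) (v t) with hmd
  have hpc : Continuous hp := cont_h hs
  have hmc : Continuous hm := cont_h hs'
  have hupc : Continuous fun t => fu k l (U t) (Y t) (w t) := cont_u hs
  have hb : hp b = hm d := q.hb
  have hdc : hm d < hm c := q.hm_anti ⟨le_rfl, q.A'.lt.le⟩ ⟨q.A'.lt.le, le_rfl⟩ q.A'.lt
  obtain ⟨-, θ, hθ1, hθ2, hθ3, -, hθ4⟩ := exists_inv_decr (H := hm)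
    (H' := fun t => -(v t) * fu k (-l) (V t) (Z t) (v t)) q.A'.lt hmc.continuousOn
    (fun t _ => hasDerivAt_h hs' t) (fun t ht => by
      have h1 := q.A'.wpos t ht
      have h2 := claimA q.hk hl q.A' (fun _ => q.E') t ⟨ht.1.le, ht.2.le⟩
      nlinarith)
  have hθc : θ (hm c) = c := (hθ2 c ⟨le_rfl, q.A'.lt.le⟩).2
  set P : ℝ → Prop := fun r => 0 < fu k l (U r) (Y r) (w r) ∧ hp r < hm c with hP
  have hPo : ∀ r, P r → ∀ᶠ s in 𝓝 r, P s := by
    intro r hr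
    exact ((hupc.tendsto r).eventually (lt_mem_nhds hr.1)).and
      ((hpc.tendsto r).eventually (gt_mem_nhds hr.2))
  have hPb : P b := by
    refine ⟨?_, by rw [hb]; exact hdc⟩
    have h0 : 0 < hp b := q.A.hpos b ⟨q.A.lt.le, le_rfl⟩
    rw [fu_eq q.hk]
    have h1 : w b = 0 := q.A.wb
    have h2 : fh k l (U b) (Y b) (w b) = hp b := rfl
    rw [h2, h1]
    linarith
  set S : Set ℝ := {r | r ∈ Icc a b ∧ ∀ ρ ∈ Ioo r b, P ρ} with hS
  have hbS : b ∈ S := ⟨⟨q.A.lt.le, le_rfl⟩, fun ρ hρ => absurd hρ.1 (not_lt.2 hρ.2.le)⟩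
  have hbdd : BddBelow S := ⟨a, fun r hr => hr.1.1⟩
  set r₀ := sInf S with hr0
  have hr0a : a ≤ r₀ := le_csInf ⟨b, hbS⟩ fun r hr => hr.1.1
  have hleft : ∀ r, a < r → r ≤ b → P r → (∀ ρ ∈ Ioo r b, P ρ) → r₀ < r := by
    intro r har hrb hPr hPP
    have h1 := hPo r hPr
    rw [Metric.eventually_nhds_iff] at h1
    obtain ⟨ε, hε, h2⟩ := h1
    set m := max a (r - ε / 2) with hm'
    have hmr : m < r := max_lt har (by linarith)
    have hmS : m ∈ S := by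
      refine ⟨⟨le_max_left _ _, hmr.le.trans hrb⟩, fun ρ hρ => ?_⟩
      rcases lt_or_ge ρ r with h3 | h3
      · apply h2
        rw [Real.dist_eq, abs_lt]
        have := le_max_right a (r - ε / 2)
        constructor <;> linarith [hρ.1]
      · rcases eq_or_lt_of_le h3 with h4 | h4
        · rw [← h4]; exact hPr
        · exact hPP ρ ⟨h4, hρ.2⟩
    exact (csInf_le hbdd hmS).trans_lt hmr
  have hr0b : r₀ < b := hleft b q.A.lt le_rfl hPb fun ρ hρ => absurd hρ.1 (not_lt.2 hρ.2.le)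
  have hG : ∀ r ∈ Ioo r₀ b, P r := by
    intro r hr
    obtain ⟨s, hs1, hs2⟩ := exists_lt_of_csInf_lt ⟨b, hbS⟩ hr.1
    exact hs1.2 r ⟨hs2, hr.2⟩
  have hcomp := q.comp ⟨hr0a, hr0b⟩ hG hθ1 (fun t ht => (hθ2 t ht).2) hθ3 hθ4
  -- levels
  have hhi : ∀ r ∈ Ioo r₀ b, hp r ∈ Ioo (hm d) (hm c) := by
    intro r hr
    refine ⟨?_, (hG r hr).2⟩
    rw [← hb]
    have hanti : StrictAntiOn hp (Icc r b) := by
      apply strictAntiOn_of_deriv_neg (convex_Icc _ _) hpc.continuousOn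
      intro t ht
      rw [interior_Icc] at ht
      rw [(hasDerivAt_h hs t).deriv]
      have h1 := q.A.wpos t ⟨(hr0a.trans_lt hr.1).trans ht.1, ht.2⟩
      have h2 := (hG t ⟨hr.1.trans ht.1, ht.2⟩).1
      nlinarith
    exact hanti ⟨le_rfl, hr.2.le⟩ ⟨hr.2.le, le_rfl⟩ hr.2
  have hnb : (𝓝[>] r₀).NeBot := inferInstance
  have hevr : ∀ᶠ r in 𝓝[>] r₀, r ∈ Ioo r₀ b := Ioo_mem_nhdsGT hr0b
  have hpr0 : hp r₀ ∈ Icc (hm d) (hm c) := by
    have ht : Tendsto hp (𝓝[>] r₀) (𝓝 (hp r₀)) := (hpc.tendsto r₀).mono_left nhdsWithin_le_nhds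
    constructor
    · exact ge_of_tendsto ht (hevr.mono fun r hr => (hhi r hr).1.le)
    · exact le_of_tendsto ht (hevr.mono fun r hr => (hhi r hr).2.le)
  have hθt : Tendsto (fun r => θ (hp r)) (𝓝[>] r₀) (𝓝 (θ (hp r₀))) := by
    have h1 := (hθ3 (hp r₀) hpr0).tendsto
    refine h1.comp ?_
    rw [tendsto_nhdsWithin_iff]
    exact ⟨(hpc.tendsto r₀).mono_left nhdsWithin_le_nhds,
      hevr.mono fun r hr => ⟨(hhi r hr).1.le, (hhi r hr).2.le⟩⟩
  have hwle : w r₀ ≤ v (θ (hp r₀)) := by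
    have h1 : Tendsto w (𝓝[>] r₀) (𝓝 (w r₀)) :=
      (hs.contw.tendsto r₀).mono_left nhdsWithin_le_nhds
    have h2 : Tendsto (fun r => v (θ (hp r))) (𝓝[>] r₀) (𝓝 (v (θ (hp r₀)))) :=
      (hs'.contw.tendsto _).comp hθt
    refine le_of_tendsto_of_tendsto h1 h2 (hevr.mono fun r hr => ?_)
    obtain ⟨p, hT, -, -⟩ := hcomp r hr
    exact (p.w_lt hT.le).le
  -- `r₀ = a`
  have hr0eq : r₀ = a := by
    by_contra hne
    have har : a < r₀ := lt_of_le_of_ne hr0a (Ne.symm hne)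
    have hw0 : 0 < w r₀ := q.A.wpos r₀ ⟨har, hr0b⟩
    rcases eq_or_lt_of_le hpr0.2 with h | h
    · rw [h, hθc, q.A'.wa] at hwle
      linarith
    · have ht0 := hθ1 (hp r₀) hpr0
      have hu := claimA q.hk hl q.A' (fun _ => q.E') _ ht0.1
      have hPr : P r₀ := by
        refine ⟨?_, h⟩
        rw [fu_eq q.hk] at hu ⊢
        have e1 : fh k (-l) (V (θ (hp r₀))) (Z (θ (hp r₀))) (v (θ (hp r₀))) = hp r₀ := ht0.2
        rw [e1] at hu
        have e2 : fh k l (U r₀) (Y r₀) (w r₀) = hp r₀ := rfl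
        rw [e2]
        have e3 : w r₀ ^ 2 ≤ v (θ (hp r₀)) ^ 2 := pow_le_pow_left₀ hw0.le hwle 2
        have e4 := mul_le_mul_of_nonneg_left e3 (sq_nonneg l)
        have e5 : (-l) ^ 2 = l ^ 2 := by ring
        rw [e5] at hu
        linarith
      exact absurd (hleft r₀ har hr0b.le hPr hG) (lt_irrefl _)
  have hUa : hp a = (1 - k * xt k U Y a) ^ 2 := by
    have : hp a = (1 - fA k (U a) (Y a)) ^ 2 := h_at_zero q.A.wa
    rw [this, fA_eq q.hk]; rfl
  have hVc : hm c = (1 - k * xt k V Z c) ^ 2 := by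
    have : hm c = (1 - fA k (V c) (Z c)) ^ 2 := h_at_zero q.A'.wa
    rw [this, fA_eq q.hk]; rfl
  have hEa := q.E
  have hEc := q.E'
  have hUpos := hs.pos a
  have hVpos := hs'.pos c
  rw [hr0eq] at hpr0 hθt hevr hcomp hhi hr0b
  rcases eq_or_lt_of_le hpr0.2 with h | h
  swap
  · -- the plus arc ends below
    rw [hUa, hVc] at h
    unfold xt xx at h
    rw [hEa, hEc] at h
    rcases q.hk with h3 | h3
    · rw [h3] at h; norm_num at h
    · rw [h3] at h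
      nlinarith
  -- limits at the entrances
  have hθa : θ (hp a) = c := by rw [h]; exact hθc
  have t2 : Tendsto (fun r => θ (hp r)) (𝓝[>] a) (𝓝[>] c) := by
    rw [tendsto_nhdsWithin_iff]
    constructor
    · rw [hθa] at hθt
      rw [← hr0eq]
      rw [hr0eq]
      exact hθt
    · filter_upwards [hevr] with r hr
      exact (hθ4 _ (hhi r hr)).1.1
  have z1 := end_plus q.hk hl hs (F := 𝓝[>] a) nhdsWithin_le_nhds q.A.wa q.hga (by
    filter_upwards [hevr] with t ht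
    have h1 := q.level (hhi t ht)
    exact ⟨q.A.wpos t ht, h1.1, h1.2⟩)
  have z2 := end_minus q.hk hl hs' (F := 𝓝[>] c) nhdsWithin_le_nhds q.A'.wa
    (q.hg c ⟨le_rfl, q.A'.lt.le⟩) (by
    filter_upwards [Ioo_mem_nhdsGT q.A'.lt] with t ht
    have h0 : hm t ∈ Ioo (hm d) (hm c) :=
      ⟨q.hm_anti ⟨ht.1.le, ht.2.le⟩ ⟨q.A'.lt.le, le_rfl⟩ ht.2,
        q.hm_anti ⟨le_rfl, q.A'.lt.le⟩ ⟨ht.1.le, ht.2.le⟩ ht.1⟩
    have h1 := q.level h0
    exact ⟨q.A'.wpos t ht, h1.1, h1.2⟩) (by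
    filter_upwards [Ioo_mem_nhdsGT q.A'.lt] with t ht
    exact q.hg t ⟨ht.1.le, ht.2.le⟩)
  have z3 := z1.sub (z2.comp t2)
  set r₁ := (a + b) / 2 with hr1
  have hr1I : r₁ ∈ Ioo a b := ⟨by rw [hr1]; linarith, by rw [hr1]; linarith⟩
  obtain ⟨-, -, hD1, -⟩ := hcomp r₁ hr1I
  have hle : 2 * l ^ 2 * cc k (U a) (Y a) - 2 * l ^ 2 * cc k (V c) (Z c)
      ≤ Zt k l U Y w r₁ - Zt k (-l) V Z v (θ (hp r₁)) := by
    refine le_of_tendsto z3 ?_
    filter_upwards [Ioo_mem_nhdsGT hr1I.1] with r hr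
    obtain ⟨-, -, -, h4⟩ := hcomp r ⟨hr.1, hr.2.trans hr1I.2⟩
    exact h4 r₁ ⟨hr.2, hr1I.2⟩
  have hlt : 2 * l ^ 2 * cc k (U a) (Y a) < 2 * l ^ 2 * cc k (V c) (Z c) := by linarith
  have hlt2 : cc k (U a) (Y a) < cc k (V c) (Z c) :=
    lt_of_mul_lt_mul_left hlt (by positivity)
  unfold cc at hlt2
  rw [hEa, hEc] at hlt2
  rcases q.hk with h3 | h3
  · rw [h3] at hlt2; linarith
  · rw [h3] at hlt2; linarith

/-- **Case `k ^ 2 = 1`**: no periodic solution on which `w` takes both signs. -/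
theorem no_orbit (hk : k = 1 ∨ k = -1) (hl : 0 < l) {U Y w : ℝ → ℝ} {P : ℝ}
    (hs : Sol k l U Y w) (hP : 0 < P) (pU : ∀ t, U (t + P) = U t) (pY : ∀ t, Y (t + P) = Y t)
    (pw : ∀ t, w (t + P) = w t) (hneg : ∃ t, w t < 0) (hpos : ∃ t, 0 < w t) : False := by
  have he : eta k l ≠ 0 := by
    rw [eta_eq hk]
    have : 0 < l ^ 2 := by positivity
    linarith
  exact no_orbit_exit hl he (fun U Y => Y = U) (fun U _ => U)
    (fun U Y w a b A => H1 hk hl U Y w a b A)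
    (fun U Y w a b V Z v c d A A' hU hY hE hE' => Two.main ⟨hk, hl, A, A', hU, hY, hE, hE'⟩)
    hs hP pU pY pw hneg hpos

end B92.K1
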