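import Mathlib
import Pool.Agent.Lib.B92.Defs
import Pool.Agent.Lib.B92.Arc

/-!
# MP_b92fc8_an, module Uniq: uniqueness of solutions of the normal form
-/

set_option autoImplicit false

open Set Filter Topology

noncomputable section

namespace B92

/-- The field as a map of `ℝ × ℝ × ℝ`. -/
def Xf (k l : ℝ) (p : ℝ × ℝ × ℝ) : ℝ × ℝ × ℝ :=
  (XU k l p.1 p.2.1 p.2.2, XY k l p.1 p.2.1 p.2.2, Xw k l p.1 p.2.1 p.2.2)

theorem Xf_contDiff (k l : ℝ) : ContDiff ℝ 1 (Xf k l) := by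
  unfold Xf XU XY Xw
  fun_prop

/-- **Uniqueness.** -/
theorem Sol.unique {k l : ℝ} {U Y w U' Y' w' : ℝ → ℝ} (hs : Sol k l U Y w)
    (hs' : Sol k l U' Y' w') {t₀ : ℝ} (hU : U t₀ = U' t₀) (hY : Y t₀ = Y' t₀)
    (hw : w t₀ = w' t₀) (t : ℝ) : U t = U' t ∧ Y t = Y' t ∧ w t = w' t := by
  set f : ℝ → ℝ × ℝ × ℝ := fun s => (U s, Y s, w s) with hf
  set g : ℝ → ℝ × ℝ × ℝ := fun s => (U' s, Y' s, w' s) with hg
  have hfd : ∀ s, HasDerivAt f (Xf k l (f s)) s := fun s =>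
    (hs.dU s).prodMk ((hs.dY s).prodMk (hs.dw s))
  have hgd : ∀ s, HasDerivAt g (Xf k l (g s)) s := fun s =>
    (hs'.dU s).prodMk ((hs'.dY s).prodMk (hs'.dw s))
  have hfc : Continuous f := continuous_iff_continuousAt.2 fun s => (hfd s).continuousAt
  have hgc : Continuous g := continuous_iff_continuousAt.2 fun s => (hgd s).continuousAt
  set a := min t t₀ - 1 with ha
  set b := max t t₀ + 1 with hb
  obtain ⟨M1, hM1⟩ := (isCompact_Icc (a := a) (b := b)).exists_bound_of_continuousOn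
    hfc.continuousOn
  obtain ⟨M2, hM2⟩ := (isCompact_Icc (a := a) (b := b)).exists_bound_of_continuousOn
    hgc.continuousOn
  set S := Metric.closedBall (0 : ℝ × ℝ × ℝ) (max M1 M2) with hS
  obtain ⟨K, hK⟩ := ContDiffOn.exists_lipschitzOnWith (Xf_contDiff k l).contDiffOn (by norm_num)
    (convex_closedBall (0 : ℝ × ℝ × ℝ) (max M1 M2)) (isCompact_closedBall _ _)
  have hta : t ∈ Icc a b := ⟨by rw [ha]; linarith [min_le_left t t₀],
    by rw [hb]; linarith [le_max_left t t₀]⟩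
  have ht₀ : t₀ ∈ Ioo a b := ⟨by rw [ha]; linarith [min_le_right t t₀],
    by rw [hb]; linarith [le_max_right t t₀]⟩
  have key : EqOn f g (Icc a b) := by
    refine ODE_solution_unique_of_mem_Icc (v := fun _ => Xf k l) (s := fun _ => S) (K := K)
      (fun _ _ => hK) ht₀ hfc.continuousOn (fun s _ => hfd s) (fun s hs1 => ?_)
      hgc.continuousOn (fun s _ => hgd s) (fun s hs1 => ?_) ?_
    · rw [hS, mem_closedBall_zero_iff]
      exact (hM1 s ⟨hs1.1.le, hs1.2.le⟩).trans (le_max_left _ _)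
    · rw [hS, mem_closedBall_zero_iff]
      exact (hM2 s ⟨hs1.1.le, hs1.2.le⟩).trans (le_max_right _ _)
    · simp only [hf, hg, hU, hY, hw]
  have h1 := key hta
  simp only [hf, hg, Prod.mk.injEq] at h1
  exact h1

/-- A solution through an equilibrium is constant. -/
theorem Sol.const_of_zero {k l : ℝ} {U Y w : ℝ → ℝ} (hs : Sol k l U Y w) {t₀ : ℝ}
    (hU : XU k l (U t₀) (Y t₀) (w t₀) = 0) (hY : XY k l (U t₀) (Y t₀) (w t₀) = 0)
    (hw : Xw k l (U t₀) (Y t₀) (w t₀) = 0) (t : ℝ) :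
    U t = U t₀ ∧ Y t = Y t₀ ∧ w t = w t₀ := by
  have hc : Sol k l (fun _ => U t₀) (fun _ => Y t₀) (fun _ => w t₀) :=
    ⟨fun s => by rw [hU]; exact hasDerivAt_const _ _, fun s => by rw [hY]; exact hasDerivAt_const _ _,
      fun s => by rw [hw]; exact hasDerivAt_const _ _, fun _ => hs.cone t₀, fun _ => hs.pos t₀⟩
  exact hs.unique hc (t₀ := t₀) rfl rfl rfl t

/-- `X h = 0`, `X w = 0` and `g ≠ 0` at a point: an equilibrium. (`g = S (1 - A) - l A w`.) -/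
theorem Sol.not_stationary {k l : ℝ} {U Y w : ℝ → ℝ} (hs : Sol k l U Y w) {t₀ : ℝ}
    (hu : fu k l (U t₀) (Y t₀) (w t₀) = 0) (hw : Xw k l (U t₀) (Y t₀) (w t₀) = 0)
    (hg : fS k (U t₀) (Y t₀) * (1 - fA k (U t₀) (Y t₀)) - l * fA k (U t₀) (Y t₀) * w t₀ ≠ 0)
    (t : ℝ) : w t = w t₀ := by
  have hc := hs.cone t₀
  have e1 : (-(1 - fA k (U t₀) (Y t₀)) * k + l * w t₀ / 2) * XU k l (U t₀) (Y t₀) (w t₀)
      + ((1 - fA k (U t₀) (Y t₀)) - k * l * w t₀ / 2) * XY k l (U t₀) (Y t₀) (w t₀)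
      + ((1 - k ^ 2) * w t₀ + l * fS k (U t₀) (Y t₀) / 2) * Xw k l (U t₀) (Y t₀) (w t₀)
      = -(w t₀) * fu k l (U t₀) (Y t₀) (w t₀) := by
    simp only [fA, fS, XU, XY, Xw, fu, fh, eta]
    linear_combination (-2 * w t₀ - l * U t₀ + 1 / 2 * l ^ 2 * w t₀ + k * l * Y t₀
      + 2 * k ^ 2 * w t₀) * hc
  have e2 : U t₀ * XU k l (U t₀) (Y t₀) (w t₀) - Y t₀ * XY k l (U t₀) (Y t₀) (w t₀)
      = w t₀ * Xw k l (U t₀) (Y t₀) (w t₀) := by
    simp only [XU, XY, Xw]; ring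
  have e3 : U t₀ * ((1 - fA k (U t₀) (Y t₀)) - k * l * w t₀ / 2)
      + Y t₀ * (-(1 - fA k (U t₀) (Y t₀)) * k + l * w t₀ / 2)
      = fS k (U t₀) (Y t₀) * (1 - fA k (U t₀) (Y t₀)) - l * fA k (U t₀) (Y t₀) * w t₀ := by
    simp only [fA, fS]; ring
  rw [hu, hw] at e1
  rw [hw] at e2
  rw [← e3] at hg
  have h1 : XU k l (U t₀) (Y t₀) (w t₀) = 0 := by
    refine (mul_eq_zero.1 ?_).resolve_left hg
    linear_combination ((1 - fA k (U t₀) (Y t₀)) - k * l * w t₀ / 2) * e2 + Y t₀ * e1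
  have h2 : XY k l (U t₀) (Y t₀) (w t₀) = 0 := by
    refine (mul_eq_zero.1 ?_).resolve_left hg
    linear_combination U t₀ * e1 - (-(1 - fA k (U t₀) (Y t₀)) * k + l * w t₀ / 2) * e2
  exact (hs.const_of_zero h1 h2 hw t).2.2

end B92
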