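import Mathlib
import Pool.Agent.Lib.B92.Defs
import Pool.Agent.Lib.B92.Alg
import Pool.Agent.Lib.B92.Chain
import Pool.Agent.Lib.B92.Arc
import Pool.Agent.Lib.B92.Uniq
import Pool.Agent.Lib.B92K.Star

/-!
# MP_b92fc8_an, module KBa: `|k| < 1`, `η < 0`: the arcs of `X_{-l}` (Claim A)

On every arc of `X_{-l}`: `A < 1`, from ray a to ray b, `u > 0`, `g > 0`.
-/

set_option autoImplicit false

open Set Filter Topology

noncomputable section

namespace B92

/-- `g = S (1 - A) - l A w`. -/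
def fg (k l U Y w : ℝ) : ℝ := fS k U Y * (1 - fA k U Y) - l * fA k U Y * w

/-- The identity `g N + 2 Xw (1 - A - h) = w² u` on the cone. -/
theorem gN_identity (k l : ℝ) {U Y w : ℝ} (hc : U ^ 2 = Y ^ 2 + w ^ 2) :
    fg k l U Y w * B92K.fN k l U Y w + 2 * Xw k l U Y w * (1 - fA k U Y - fh k l U Y w)
      = w ^ 2 * fu k l U Y w := by
  simp only [fg, fS, fA, B92K.fN, Xw, fh, fu, eta]
  linear_combination (2 + 2 * w ^ 2 + 4 * Y + 3 / 2 * Y ^ 2 + 2 * l * U * w - l ^ 2 * w ^ 2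
    - 3 * k * U - 5 / 2 * k * U * Y - 3 / 2 * k * l * Y * w - 2 * k ^ 2 * w ^ 2 - k ^ 2 * Y
    - 1 / 2 * k ^ 2 * Y ^ 2 + k ^ 2 * U ^ 2 - 1 / 2 * k ^ 2 * l * U * w
    + 1 / 2 * k ^ 3 * U * Y) * hc

theorem fS_pos {k U Y w : ℝ} (hk : k ^ 2 < 1) (hc : U ^ 2 = Y ^ 2 + w ^ 2) (hU : 0 < U) :
    0 < fS k U Y := by
  unfold fS
  have h1 : (k * Y) ^ 2 < U ^ 2 := by
    have h2 : Y ^ 2 ≤ U ^ 2 := by nlinarith [sq_nonneg w]
    have h3 : 0 < U ^ 2 := by positivity
    nlinarith [sq_nonneg Y, sq_nonneg k]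
  have h4 := abs_lt_of_sq_lt_sq h1 hU.le
  have := (abs_lt.1 h4).2
  linarith

/-- `A < 0` on ray a. -/
theorem fA_rayA {k U Y : ℝ} (hk : k ^ 2 < 1) (hU : 0 < U) (hY : Y = U) : fA k U Y < 0 := by
  have h1 : k < 1 := by nlinarith
  subst hY
  unfold fA
  nlinarith

/-- The function `u` along a solution. -/
theorem hasDerivAt_u {k l : ℝ} {U Y w : ℝ → ℝ} (hs : Sol k l U Y w) (t : ℝ) :
    HasDerivAt (fun s => fu k l (U s) (Y s) (w s))
      (-(2 * w t * fu k l (U t) (Y t) (w t))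
        + 2 * eta k l * w t * Xw k l (U t) (Y t) (w t)) t := by
  have h1 := ((hasDerivAt_h hs t).const_mul 2).add (((hs.dw t).pow 2).const_mul (eta k l))
  refine (h1.congr_deriv ?_).congr_of_eventuallyEq (Eventually.of_forall fun s => ?_)
  · simp only [Nat.cast_ofNat]; ring
  · simp only [fu, Pi.add_apply, Pi.pow_apply]

/-- In `w ≥ 0`, `h > 0` (parameter `-l`, `l² > 1 - k²`) one has `A ≠ 1`. -/
theorem A_ne_one {k l U Y w : ℝ} (hk : k ^ 2 < 1) (hl : 0 < l) (he : 1 - k ^ 2 < l ^ 2)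
    (hc : U ^ 2 = Y ^ 2 + w ^ 2) (hU : 0 < U) (hw : 0 ≤ w) (hh : 0 < fh k (-l) U Y w) :
    fA k U Y ≠ 1 := by
  intro hA
  have hS := fS_pos hk hc hU
  have hS2 := cone_S (k := k) hc
  rw [hA] at hS2
  unfold fh at hh
  rw [hA] at hh
  rcases hw.eq_or_lt with h0 | h0
  · rw [← h0] at hh; simp at hh
  · have h1 : (1 - k ^ 2) * w < l * fS k U Y := by
      have h2 : ((1 - k ^ 2) * w) ^ 2 < (l * fS k U Y) ^ 2 := by
        rw [mul_pow, mul_pow, hS2]
        have h3 : 0 < 1 - k ^ 2 := by linarith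
        have h4 : (1 - k ^ 2) * ((1 - k ^ 2) * w ^ 2) < l ^ 2 * ((1 - k ^ 2) * w ^ 2) :=
          mul_lt_mul_of_pos_right he (by positivity)
        have h5 : 0 < l ^ 2 := by positivity
        nlinarith
      exact lt_of_pow_lt_pow_left₀ 2 (by positivity) h2
    have h2 : (1 - k ^ 2) * w * w < l * fS k U Y * w := mul_lt_mul_of_pos_right h1 h0
    nlinarith

/-- `A < 1` on every arc of `X_{-l}`. -/
theorem KB_A {k l : ℝ} (hk : k ^ 2 < 1) (hl : 0 < l) (he : 1 - k ^ 2 < l ^ 2)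
    {U Y w : ℝ → ℝ} {a b : ℝ} (ha : Arc k (-l) U Y w a b) :
    ∀ t ∈ Icc a b, fA k (U t) (Y t) < 1 := by
  have hw : ∀ t ∈ Icc a b, 0 ≤ w t := by
    intro t ht
    rcases eq_or_lt_of_le ht.1 with h | h
    · rw [← h, ha.wa]
    · rcases eq_or_lt_of_le ht.2 with h' | h'
      · rw [h', ha.wb]
      · exact (ha.wpos t ⟨h, h'⟩).le
  have hne : ∀ t ∈ Icc a b, fA k (U t) (Y t) ≠ 1 := fun t ht =>
    A_ne_one hk hl he (ha.sol.cone t) (ha.sol.pos t) (hw t ht) (ha.hpos t ht)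
  have hcA : Continuous (fun t => fA k (U t) (Y t)) := by
    have := ha.sol.contU; have := ha.sol.contY
    unfold fA; fun_prop
  have hb : fA k (U b) (Y b) < 1 := by
    rcases ha.exit with h | h
    · exact h.2
    · have := fA_rayA hk (ha.sol.pos b) h.1
      linarith
  intro t ht
  by_contra hcon
  push Not at hcon
  obtain ⟨s, hs, hs1⟩ := intermediate_value_Icc' ht.2 hcA.continuousOn
    (show (1:ℝ) ∈ Icc (fA k (U b) (Y b)) (fA k (U t) (Y t)) from ⟨hb.le, hcon⟩)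
  exact hne s ⟨ht.1.trans hs.1, hs.2⟩ hs1

/-- Every arc of `X_{-l}` goes from ray a to ray b. -/
theorem KB_rays {k l : ℝ} (hk : k ^ 2 < 1) (hl : 0 < l) (he : 1 - k ^ 2 < l ^ 2)
    {U Y w : ℝ → ℝ} {a b : ℝ} (ha : Arc k (-l) U Y w a b) : Y a = U a ∧ Y b = -U b := by
  have hA := KB_A hk hl he ha
  constructor
  · rcases ha.entrance with h | h
    · exact h.1
    · have := hA a ⟨le_rfl, ha.lt.le⟩
      linarith [h.2]
  · rcases ha.exit with h | h
    · exact h.1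
    · have := hA b ⟨ha.lt.le, le_rfl⟩
      linarith [h.2]

/-- `g > 0` where `u ≥ 0`, `A < 1`, `w > 0`. -/
theorem KB_g {k l U Y w : ℝ} (hk : k ^ 2 < 1) (hl : 0 < l) (he : 1 - k ^ 2 < l ^ 2)
    (hc : U ^ 2 = Y ^ 2 + w ^ 2) (hU : 0 < U) (hw : 0 < w) (hA : fA k U Y < 1)
    (hu : 0 ≤ fu k (-l) U Y w) : 0 < fg k (-l) U Y w := by
  have hS := fS_pos hk hc hU
  have hS2 := cone_S (k := k) hc
  unfold fg
  rcases le_or_gt 0 (fA k U Y) with h0 | h0
  · have h1 : 0 < fS k U Y * (1 - fA k U Y) := mul_pos hS (by linarith)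
    have h2 : 0 ≤ l * fA k U Y * w := by positivity
    linarith
  · unfold fu fh eta at hu
    generalize fS k U Y = S at *
    generalize fA k U Y = A at *
    set n := Real.sqrt (1 - k ^ 2) with hn
    have hn2 : n ^ 2 = 1 - k ^ 2 := Real.sq_sqrt (by linarith)
    have hn0 : 0 < n := Real.sqrt_pos.2 (by linarith)
    rw [← hn2] at hS2 hu he
    have hln : n < l := lt_of_pow_lt_pow_left₀ 2 hl.le he
    have hSn : n * w < S := by
      have h2 : (n * w) ^ 2 < S ^ 2 := by rw [hS2]; nlinarith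
      exact lt_of_pow_lt_pow_left₀ 2 hS.le h2
    -- `2 B² ≥ w² (l² - 2 n²) + l w S`
    have h3 : w ^ 2 * (l ^ 2 - 2 * n ^ 2) + l * w * S ≤ 2 * (1 - A) ^ 2 := by
      have hk2 : 1 - k ^ 2 = n ^ 2 := hn2.symm
      have : (-l) ^ 2 = l ^ 2 := by ring
      nlinarith
    have hB : 0 < 1 - A := by linarith
    -- squares
    have h4 : (-(l * A * w)) ^ 2 < (S * (1 - A)) ^ 2 := by
      have h5 : 0 < 2 * l * S ^ 3 + (l ^ 2 - 4 * n ^ 2) * w * S ^ 2 + l ^ 2 * n ^ 2 * w ^ 3 := by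
        obtain ⟨p, hp⟩ : ∃ p, p = S - n * w := ⟨_, rfl⟩
        obtain ⟨q, hq⟩ : ∃ q, q = l - n := ⟨_, rfl⟩
        have hp0 : 0 < p := by rw [hp]; linarith
        have hq0 : 0 < q := by rw [hq]; linarith
        have hSp : S = n * w + p := by rw [hp]; ring
        have hlq : l = n + q := by rw [hq]; ring
        rw [hSp, hlq]
        have : 2 * (n + q) * (n * w + p) ^ 3 + ((n + q) ^ 2 - 4 * n ^ 2) * w * (n * w + p) ^ 2
            + (n + q) ^ 2 * n ^ 2 * w ^ 3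
            = (6 * n ^ 3 * q + 2 * n ^ 2 * q ^ 2) * w ^ 3
              + (10 * n ^ 2 * q + 2 * n * q ^ 2) * p * w ^ 2
              + (3 * n ^ 2 + 8 * n * q + q ^ 2) * p ^ 2 * w + 2 * (n + q) * p ^ 3 := by ring
        rw [this]
        positivity
      have h6 : 0 < S ^ 2 := by positivity
      have h7 : S ^ 2 * (w ^ 2 * (l ^ 2 - 2 * n ^ 2) + l * w * S) ≤ S ^ 2 * (2 * (1 - A) ^ 2) :=
        mul_le_mul_of_nonneg_left h3 h6.le
      have h8 : 0 < w * (2 * l * S ^ 3 + (l ^ 2 - 4 * n ^ 2) * w * S ^ 2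
          + l ^ 2 * n ^ 2 * w ^ 3) := mul_pos hw h5
      -- `4 A² = S² - n² w²`
      have h9 : 4 * A ^ 2 = S ^ 2 - n ^ 2 * w ^ 2 := by linarith
      have h10 : 4 * (l * A * w) ^ 2 = l ^ 2 * w ^ 2 * (S ^ 2 - n ^ 2 * w ^ 2) := by
        rw [← h9]; ring
      nlinarith
    have h11 : -(l * A * w) < S * (1 - A) :=
      lt_of_pow_lt_pow_left₀ 2 (by positivity) h4
    linarith

/-- Sign of `1 - A - h` on `u = 0`, first part. -/
theorem KB_sign1 {B h m D : ℝ} (hh : 0 < h) (hm : 0 < m) (hD : 0 < D)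
    (hDd : D = B ^ 2 - h + m / 2) (hrel : (2 * h + m) * (4 * (1 - B) ^ 2 + m) = 4 * D ^ 2)
    (hB : 0 < B) (hle : B ≤ h) : 2 ≤ h := by
  by_contra hcon
  push Not at hcon
  have hF : 4 * (B ^ 2 - h) ^ 2 - 8 * h * (1 - B) ^ 2 + m * (8 * B - 4 - 6 * h) = 0 := by
    rw [hDd] at hrel; linarith [hrel, show
      4 * (B ^ 2 - h) ^ 2 - 8 * h * (1 - B) ^ 2 + m * (8 * B - 4 - 6 * h)
        = 4 * (B ^ 2 - h + m / 2) ^ 2 - (2 * h + m) * (4 * (1 - B) ^ 2 + m) by ring]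
  have hcoef : 8 * B - 4 - 6 * h < 0 := by linarith
  rcases le_or_gt (B ^ 2) h with h1 | h1
  · -- `m > m₀ = 2 (h - B²)`
    have h2 : 2 * (h - B ^ 2) < m := by rw [hDd] at hD; linarith
    have h3 : (m - 2 * (h - B ^ 2)) * (8 * B - 4 - 6 * h) < 0 :=
      mul_neg_of_pos_of_neg (by linarith) hcoef
    have h4 : 0 ≤ (2 * h + 2 * (h - B ^ 2)) * (4 * (1 - B) ^ 2 + 2 * (h - B ^ 2)) := by
      apply mul_nonneg
      · linarith
      · have := sq_nonneg (1 - B); linarith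
    nlinarith
  · have hB1 : 1 < B := by nlinarith
    have h2 : 0 < B ^ 2 - h := by linarith
    have h3 : B ^ 2 - h ≤ B * (B - 1) := by nlinarith
    have h4 : (B ^ 2 - h) ^ 2 ≤ (B * (B - 1)) ^ 2 := pow_le_pow_left₀ h2.le h3 2
    have h5 : B ^ 2 < 2 * h := by nlinarith
    have h6 : 0 < (B - 1) ^ 2 := by
      have : 0 < B - 1 := by linarith
      positivity
    have h7 : B ^ 2 * (B - 1) ^ 2 < 2 * h * (B - 1) ^ 2 := mul_lt_mul_of_pos_right h5 h6
    have h8 : m * (8 * B - 4 - 6 * h) < 0 := mul_neg_of_pos_of_neg hm hcoef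
    nlinarith

/-- Sign of `1 - A - h` on `u = 0`, second part. -/
theorem KB_sign2 {B h m D : ℝ} (hm : 0 < m)
    (hDd : D = B ^ 2 - h + m / 2) (hrel : (2 * h + m) * (4 * (1 - B) ^ 2 + m) = 4 * D ^ 2)
    (hle : h ≤ B) : h ≤ 2 := by
  by_contra hcon
  push Not at hcon
  have hF : 4 * (B ^ 2 - h) ^ 2 - 8 * h * (1 - B) ^ 2 + m * (8 * B - 4 - 6 * h) = 0 := by
    rw [hDd] at hrel; linarith [hrel, show
      4 * (B ^ 2 - h) ^ 2 - 8 * h * (1 - B) ^ 2 + m * (8 * B - 4 - 6 * h)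
        = 4 * (B ^ 2 - h + m / 2) ^ 2 - (2 * h + m) * (4 * (1 - B) ^ 2 + m) by ring]
  have hcoef : 0 < 8 * B - 4 - 6 * h := by linarith
  have hB2 : 2 < B := by linarith
  have h3 : B * (B - 1) ≤ B ^ 2 - h := by nlinarith
  have h3' : 0 < B * (B - 1) := by nlinarith
  have h4 : (B * (B - 1)) ^ 2 ≤ (B ^ 2 - h) ^ 2 := pow_le_pow_left₀ h3'.le h3 2
  have h5 : 2 * h < B ^ 2 := by nlinarith
  have h6 : 0 < (B - 1) ^ 2 := by
    have : 0 < B - 1 := by linarith
    positivity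
  have h7 : 2 * h * (B - 1) ^ 2 < B ^ 2 * (B - 1) ^ 2 := mul_lt_mul_of_pos_right h5 h6
  have h8 : 0 < m * (8 * B - 4 - 6 * h) := mul_pos hm hcoef
  nlinarith

/-- The interval of negativity of a continuous function around a point. -/
theorem exists_neg_interval {f : ℝ → ℝ} (hf : Continuous f) {a b t : ℝ} (hat : a < t)
    (htb : t < b) (ha : 0 < f a) (hb : 0 < f b) (ht : f t < 0) :
    ∃ s1 s2, a < s1 ∧ s1 < t ∧ t < s2 ∧ s2 < b ∧ f s1 = 0 ∧ f s2 = 0 ∧
      ∀ s ∈ Ioo s1 s2, f s < 0 := by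
  have hc1 : IsCompact (Icc a t ∩ f ⁻¹' {0}) :=
    isCompact_Icc.inter_right (isClosed_singleton.preimage hf)
  have hne1 : (Icc a t ∩ f ⁻¹' {0}).Nonempty := by
    obtain ⟨s, hs, h0⟩ := intermediate_value_Icc' hat.le hf.continuousOn
      (show (0:ℝ) ∈ Icc (f t) (f a) from ⟨ht.le, ha.le⟩)
    exact ⟨s, hs, h0⟩
  obtain ⟨s1, hs1, hmax⟩ := hc1.exists_isMaxOn hne1 continuousOn_id
  have hc2 : IsCompact (Icc t b ∩ f ⁻¹' {0}) :=
    isCompact_Icc.inter_right (isClosed_singleton.preimage hf)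
  have hne2 : (Icc t b ∩ f ⁻¹' {0}).Nonempty := by
    obtain ⟨s, hs, h0⟩ := intermediate_value_Icc htb.le hf.continuousOn
      (show (0:ℝ) ∈ Icc (f t) (f b) from ⟨ht.le, hb.le⟩)
    exact ⟨s, hs, h0⟩
  obtain ⟨s2, hs2, hmin⟩ := hc2.exists_isMinOn hne2 continuousOn_id
  have h01 : f s1 = 0 := hs1.2
  have h02 : f s2 = 0 := hs2.2
  have h1t : s1 < t := lt_of_le_of_ne hs1.1.2 fun h => by rw [h] at h01; linarith
  have ht2 : t < s2 := lt_of_le_of_ne hs2.1.1 fun h => by rw [← h] at h02; linarith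
  have ha1 : a < s1 := lt_of_le_of_ne hs1.1.1 fun h => by rw [← h] at h01; linarith
  have h2b : s2 < b := lt_of_le_of_ne hs2.1.2 fun h => by rw [h] at h02; linarith
  refine ⟨s1, s2, ha1, h1t, ht2, h2b, h01, h02, fun s hs => ?_⟩
  have hne : ∀ r ∈ Ioo s1 s2, f r ≠ 0 := by
    intro r hr h0
    rcases le_total r t with h | h
    · have : r ≤ s1 := hmax ⟨⟨ha1.le.trans hr.1.le, h⟩, h0⟩
      exact absurd hr.1 (not_lt.2 this)
    · have : s2 ≤ r := hmin ⟨⟨h, hr.2.le.trans h2b.le⟩, h0⟩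
      exact absurd hr.2 (not_lt.2 this)
  rcases sign_const hf hne with h | h
  · exact absurd (h t ⟨h1t, ht2⟩) (not_lt.2 ht.le)
  · exact h s hs

/-- **Claim A**: `u > 0` on every arc of `X_{-l}`. -/
theorem KB_u {k l : ℝ} (hk : k ^ 2 < 1) (hl : 0 < l) (he : 1 - k ^ 2 < l ^ 2)
    {U Y w : ℝ → ℝ} {a b : ℝ} (ha : Arc k (-l) U Y w a b) :
    ∀ t ∈ Icc a b, 0 < fu k (-l) (U t) (Y t) (w t) := by
  have hA := KB_A hk hl he ha
  obtain ⟨hra, hrb⟩ := KB_rays hk hl he ha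
  have heta : eta k (-l) < 0 := by unfold eta; nlinarith
  set u : ℝ → ℝ := fun t => fu k (-l) (U t) (Y t) (w t) with hu
  have hud : ∀ t, HasDerivAt u _ t := fun t => hasDerivAt_u ha.sol t
  have huc : Continuous u := continuous_iff_continuousAt.2 fun t => (hud t).continuousAt
  have hua : 0 < u a := by
    have := ha.hpos a ⟨le_rfl, ha.lt.le⟩
    simp only [hu, fu, ha.wa] at this ⊢; nlinarith
  have hub : 0 < u b := by
    have := ha.hpos b ⟨ha.lt.le, le_rfl⟩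
    simp only [hu, fu, ha.wb] at this ⊢; nlinarith
  -- zeros of `u` are transversal
  have hXw : ∀ t ∈ Ioo a b, u t = 0 → Xw k (-l) (U t) (Y t) (w t) ≠ 0 := by
    intro t ht h0 hx
    have hg := KB_g hk hl he (ha.sol.cone t) (ha.sol.pos t) (ha.wpos t ht)
      (hA t ⟨ht.1.le, ht.2.le⟩) h0.symm.le
    have h1 := ha.sol.not_stationary h0 hx hg.ne' a
    rw [ha.wa] at h1
    exact absurd h1.symm (ha.wpos t ht).ne'
  -- facts at a zero of `u`
  have hzero : ∀ t ∈ Ioo a b, u t = 0 →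
      (0 < Xw k (-l) (U t) (Y t) (w t) → 2 ≤ fh k (-l) (U t) (Y t) (w t)) ∧
      (Xw k (-l) (U t) (Y t) (w t) < 0 → fh k (-l) (U t) (Y t) (w t) ≤ 2) := by
    intro t ht h0
    have hwt := ha.wpos t ht
    have hAt := hA t ⟨ht.1.le, ht.2.le⟩
    have hg := KB_g hk hl he (ha.sol.cone t) (ha.sol.pos t) hwt hAt h0.symm.le
    have hN := B92K.star ha.sol ha.wpos hra hrb ht
    have hid := gN_identity k (-l) (ha.sol.cone t)
    have hS := fS_pos hk (ha.sol.cone t) (ha.sol.pos t)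
    have hS2 := cone_S (k := k) (ha.sol.cone t)
    have hh := ha.hpos t ⟨ht.1.le, ht.2.le⟩
    have h0' : fu k (-l) (U t) (Y t) (w t) = 0 := h0
    rw [h0', mul_zero] at hid
    have hgN : 0 ≤ fg k (-l) (U t) (Y t) (w t) * B92K.fN k (-l) (U t) (Y t) (w t) :=
      mul_nonneg hg.le hN
    have hm : 0 < (1 - k ^ 2) * w t ^ 2 := by
      have : 0 < 1 - k ^ 2 := by linarith
      positivity
    have hDd : l * w t * fS k (U t) (Y t) / 2
        = (1 - fA k (U t) (Y t)) ^ 2 - fh k (-l) (U t) (Y t) (w t) + (1 - k ^ 2) * w t ^ 2 / 2 := by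
      unfold fh; ring
    have hrel : (2 * fh k (-l) (U t) (Y t) (w t) + (1 - k ^ 2) * w t ^ 2)
        * (4 * (1 - (1 - fA k (U t) (Y t))) ^ 2 + (1 - k ^ 2) * w t ^ 2)
        = 4 * (l * w t * fS k (U t) (Y t) / 2) ^ 2 := by
      have h1 : 2 * fh k (-l) (U t) (Y t) (w t) + (1 - k ^ 2) * w t ^ 2 = l ^ 2 * w t ^ 2 := by
        unfold fu eta at h0'; nlinarith
      rw [h1]
      have h2 : 4 * (1 - (1 - fA k (U t) (Y t))) ^ 2 + (1 - k ^ 2) * w t ^ 2
          = fS k (U t) (Y t) ^ 2 := by rw [hS2]; ring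
      rw [h2]; ring
    constructor
    · intro hX
      have h1 : (1 - fA k (U t) (Y t)) ≤ fh k (-l) (U t) (Y t) (w t) := by
        by_contra hcon
        push Not at hcon
        have : 0 < Xw k (-l) (U t) (Y t) (w t) *
            (1 - fA k (U t) (Y t) - fh k (-l) (U t) (Y t) (w t)) := mul_pos hX (by linarith)
        linarith
      exact KB_sign1 hh hm (by positivity) hDd hrel (by linarith) h1
    · intro hX
      have h1 : fh k (-l) (U t) (Y t) (w t) ≤ (1 - fA k (U t) (Y t)) := by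
        by_contra hcon
        push Not at hcon
        have : 0 < Xw k (-l) (U t) (Y t) (w t) *
            (1 - fA k (U t) (Y t) - fh k (-l) (U t) (Y t) (w t)) :=
          mul_pos_of_neg_of_neg hX (by linarith)
        linarith
      exact KB_sign2 hm hDd hrel h1
  -- no negative values
  have hnonneg : ∀ t ∈ Icc a b, 0 ≤ u t := by
    intro t ht
    by_contra hcon
    push Not at hcon
    have hat : a < t := lt_of_le_of_ne ht.1 fun h => by rw [← h] at hcon; linarith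
    have htb : t < b := lt_of_le_of_ne ht.2 fun h => by rw [h] at hcon; linarith
    obtain ⟨s1, s2, h1, h2, h3, h4, h5, h6, h7⟩ := exists_neg_interval huc hat htb hua hub hcon
    have hs1 : s1 ∈ Ioo a b := ⟨h1, (h2.trans htb)⟩
    have hs2 : s2 ∈ Ioo a b := ⟨hat.trans h3, h4⟩
    have hd1 := deriv_nonpos_of_neg_right (h2.trans h3) (hud s1) h5 h7
    have hd2 := deriv_nonneg_of_neg_left (h2.trans h3) (hud s2) h6 h7
    have h5' : fu k (-l) (U s1) (Y s1) (w s1) = 0 := h5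
    have h6' : fu k (-l) (U s2) (Y s2) (w s2) = 0 := h6
    rw [h5', mul_zero, neg_zero, zero_add] at hd1
    rw [h6', mul_zero, neg_zero, zero_add] at hd2
    have hw1 := ha.wpos s1 hs1
    have hw2 := ha.wpos s2 hs2
    have hX1 : 0 < Xw k (-l) (U s1) (Y s1) (w s1) := by
      refine lt_of_le_of_ne ?_ (Ne.symm (hXw s1 hs1 h5))
      by_contra hc
      push Not at hc
      have : 0 < 2 * eta k (-l) * w s1 * Xw k (-l) (U s1) (Y s1) (w s1) :=
        mul_pos_of_neg_of_neg (by nlinarith) hc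
      linarith
    have hX2 : Xw k (-l) (U s2) (Y s2) (w s2) < 0 := by
      refine lt_of_le_of_ne ?_ (hXw s2 hs2 h6)
      by_contra hc
      push Not at hc
      have : 2 * eta k (-l) * w s2 * Xw k (-l) (U s2) (Y s2) (w s2) < 0 :=
        mul_neg_of_neg_of_pos (by nlinarith) hc
      linarith
    have e1 := (hzero s1 hs1 h5).1 hX1
    have e2 := (hzero s2 hs2 h6).2 hX2
    have e3 : fh k (-l) (U s1) (Y s1) (w s1) < fh k (-l) (U s2) (Y s2) (w s2) := by
      have hmono : StrictMonoOn (fun s => fh k (-l) (U s) (Y s) (w s)) (Icc s1 s2) := by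
        apply strictMonoOn_of_deriv_pos (convex_Icc _ _)
          (fun x _ => (hasDerivAt_h ha.sol x).continuousAt.continuousWithinAt)
        intro x hx
        rw [interior_Icc] at hx
        rw [(hasDerivAt_h ha.sol x).deriv]
        have hwx := ha.wpos x ⟨hs1.1.trans hx.1, hx.2.trans hs2.2⟩
        exact mul_pos_of_neg_of_neg (by linarith) (h7 x hx)
      exact hmono ⟨le_rfl, (h2.trans h3).le⟩ ⟨(h2.trans h3).le, le_rfl⟩ (h2.trans h3)
    linarith
  intro t ht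
  refine lt_of_le_of_ne (hnonneg t ht) fun h0 => ?_
  have hat : a < t := lt_of_le_of_ne ht.1 fun h => by
    have : u a = 0 := by rw [h]; exact h0.symm
    linarith
  have htb : t < b := lt_of_le_of_ne ht.2 fun h => by
    have : u b = 0 := by rw [← h]; exact h0.symm
    linarith
  have hmin : IsLocalMin u t := by
    filter_upwards [Icc_mem_nhds hat htb] with s hs
    rw [show u t = 0 from h0.symm]
    exact hnonneg s hs
  have h1 := hmin.hasDerivAt_eq_zero (hud t)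
  have h0' : fu k (-l) (U t) (Y t) (w t) = 0 := h0.symm
  rw [h0', mul_zero, neg_zero, zero_add] at h1
  have h2 : Xw k (-l) (U t) (Y t) (w t) = 0 := by
    have hw := (ha.wpos t ⟨hat, htb⟩).ne'
    rcases mul_eq_zero.1 h1 with h3 | h3
    · rcases mul_eq_zero.1 h3 with h4 | h4
      · rcases mul_eq_zero.1 h4 with h5 | h5
        · norm_num at h5
        · exact absurd h5 heta.ne
      · exact absurd h4 hw
    · exact h3
  exact hXw t ⟨hat, htb⟩ h0.symm h2

end B92
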