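import Mathlib

/-!
# MP_b92fc8_an, module KBb: `|k| < 1`, `L > 1`: the chart `(h, A)` and the explicit primitives

Constants `c² = 1 + s²`, `e = 2 c s = 1 / N`, `L = (c² + s²) N`.  In the chart: `r = 2 e (h-1+2A)`,
`q = √(4A⁴ + r²)`, `S₀ = √(2A² + q)`, `w₀ = r / S₀`, `S = c S₀ - s w₀`, `W = c w₀ - s S₀`.
-/

set_option autoImplicit false

open Set Filter Topology

noncomputable section

namespace B92.KB

/-- The constants. -/
structure BC (N c s L : ℝ) : Prop where
  N0 : 0 < N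
  s0 : 0 < s
  c0 : 0 < c
  cs : c ^ 2 = 1 + s ^ 2
  Ncs : 2 * N * c * s = 1
  hL : L = (c ^ 2 + s ^ 2) * N

theorem exists_BC {L : ℝ} (hL : 1 < L) : ∃ N c s, BC N c s L := by
  set N := Real.sqrt (L ^ 2 - 1) with hN
  have h0 : 0 < L ^ 2 - 1 := by nlinarith
  have hN0 : 0 < N := Real.sqrt_pos.2 h0
  have hN2 : N ^ 2 = L ^ 2 - 1 := Real.sq_sqrt h0.le
  have hNL : N < L := by nlinarith
  have h1 : 1 < L / N := by rw [lt_div_iff₀ hN0]; linarith
  have hc2 : Real.sqrt ((1 + L / N) / 2) ^ 2 = (1 + L / N) / 2 := Real.sq_sqrt (by linarith)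
  have hs2 : Real.sqrt ((L / N - 1) / 2) ^ 2 = (L / N - 1) / 2 := Real.sq_sqrt (by linarith)
  have hc0 : 0 < Real.sqrt ((1 + L / N) / 2) := Real.sqrt_pos.2 (by linarith)
  have hs0 : 0 < Real.sqrt ((L / N - 1) / 2) := Real.sqrt_pos.2 (by linarith)
  refine ⟨N, Real.sqrt ((1 + L / N) / 2), Real.sqrt ((L / N - 1) / 2), hN0, hs0, hc0, ?_, ?_, ?_⟩
  · rw [hc2, hs2]; ring
  · have h2 : (2 * N * Real.sqrt ((1 + L / N) / 2) * Real.sqrt ((L / N - 1) / 2)) ^ 2 = 1 := by
      rw [mul_pow, mul_pow, mul_pow, hc2, hs2]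
      have : (L / N) ^ 2 = (N ^ 2 + 1) / N ^ 2 := by rw [div_pow, hN2]; ring
      have h3 : (2:ℝ) ^ 2 * N ^ 2 * ((1 + L / N) / 2) * ((L / N - 1) / 2)
          = N ^ 2 * ((L / N) ^ 2 - 1) := by ring
      rw [h3, this]
      field_simp
      ring
    have h3 : 0 < 2 * N * Real.sqrt ((1 + L / N) / 2) * Real.sqrt ((L / N - 1) / 2) := by
      positivity
    nlinarith
  · rw [hc2, hs2]; field_simp; ring

/-! ### The chart -/

/-- `r = S₀ w₀`. -/
def rr (c s h A : ℝ) : ℝ := 4 * c * s * (h - 1 + 2 * A)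

/-- `q = √(4A⁴ + r²)`. -/
def qq (c s h A : ℝ) : ℝ := Real.sqrt (4 * A ^ 4 + rr c s h A ^ 2)

/-- `S₀`. -/
def pp (c s h A : ℝ) : ℝ := Real.sqrt (2 * A ^ 2 + qq c s h A)

/-- `w₀`. -/
def vv (c s h A : ℝ) : ℝ := rr c s h A / pp c s h A

/-- `S`. -/
def SS (c s h A : ℝ) : ℝ := c * pp c s h A - s * vv c s h A

/-- `W`. -/
def WW (c s h A : ℝ) : ℝ := c * vv c s h A - s * pp c s h A

theorem qq_nonneg (c s h A : ℝ) : 0 ≤ qq c s h A := Real.sqrt_nonneg _

theorem qq_sq (c s h A : ℝ) : qq c s h A ^ 2 = 4 * A ^ 4 + rr c s h A ^ 2 :=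
  Real.sq_sqrt (by positivity)

theorem two_A_le_qq (c s h A : ℝ) : 2 * A ^ 2 ≤ qq c s h A := by
  apply Real.le_sqrt_of_sq_le
  nlinarith [sq_nonneg (rr c s h A)]

theorem pp_nonneg (c s h A : ℝ) : 0 ≤ pp c s h A := Real.sqrt_nonneg _

theorem pp_sq (c s h A : ℝ) : pp c s h A ^ 2 = 2 * A ^ 2 + qq c s h A :=
  Real.sq_sqrt (by have := qq_nonneg c s h A; positivity)

theorem pp_mul_vv (c s h A : ℝ) : pp c s h A * vv c s h A = rr c s h A := by
  unfold vv
  rcases eq_or_ne (pp c s h A) 0 with h0 | h0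
  · rw [h0, zero_mul]
    have h1 := pp_sq c s h A
    rw [h0] at h1
    have h2 := qq_nonneg c s h A
    have h3 := qq_sq c s h A
    have h4 : qq c s h A = 0 := by nlinarith [sq_nonneg A]
    rw [h4] at h3
    have h5 : rr c s h A ^ 2 = 0 := by nlinarith [sq_nonneg (A ^ 2), sq_nonneg (rr c s h A)]
    exact (pow_eq_zero_iff (by norm_num)).1 h5 |>.symm
  · field_simp

theorem vv_sq (c s h A : ℝ) : vv c s h A ^ 2 = qq c s h A - 2 * A ^ 2 := by
  rcases eq_or_ne (pp c s h A) 0 with h0 | h0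
  · have h1 := pp_sq c s h A
    rw [h0] at h1
    have h2 := qq_nonneg c s h A
    have h4 : qq c s h A = 0 := by nlinarith [sq_nonneg A]
    have h5 : A ^ 2 = 0 := by nlinarith [sq_nonneg A]
    unfold vv
    rw [h0, h4, h5]; simp
  · have h1 := pp_mul_vv c s h A
    have h2 : (pp c s h A) ^ 2 * (vv c s h A) ^ 2 = rr c s h A ^ 2 := by rw [← h1]; ring
    have h3 := qq_sq c s h A
    have h4 := pp_sq c s h A
    have h5 : pp c s h A ^ 2 ≠ 0 := pow_ne_zero _ h0
    apply mul_left_cancel₀ h5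
    rw [h2, h4]
    nlinarith

theorem diff_sq (c s h A : ℝ) : pp c s h A ^ 2 - vv c s h A ^ 2 = 4 * A ^ 2 := by
  rw [pp_sq, vv_sq]; ring

theorem sum_sq (c s h A : ℝ) : pp c s h A ^ 2 + vv c s h A ^ 2 = 2 * qq c s h A := by
  rw [pp_sq, vv_sq]; ring

theorem abs_vv_le (c s h A : ℝ) : |vv c s h A| ≤ pp c s h A := by
  apply abs_le_of_sq_le_sq _ (pp_nonneg c s h A)
  have := diff_sq c s h A
  nlinarith [sq_nonneg A]

theorem abs_A_le (c s h A : ℝ) : 2 * |A| ≤ pp c s h A := by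
  have h1 := diff_sq c s h A
  have h2 : (2 * |A|) ^ 2 ≤ pp c s h A ^ 2 := by
    rw [mul_pow, sq_abs]; nlinarith [sq_nonneg (vv c s h A)]
  exact (sq_le_sq₀ (by positivity) (pp_nonneg c s h A)).1 h2

/-- Non singular points: not `(h, A) = (1, 0)`. -/
theorem qq_pos {c s h A : ℝ} (hc : 0 < c) (hs : 0 < s) (hns : A ≠ 0 ∨ h ≠ 1) :
    0 < qq c s h A := by
  apply Real.sqrt_pos.2
  rcases eq_or_ne A 0 with h0 | h0
  · have h1 : h ≠ 1 := hns.resolve_left (not_not.2 h0)
    have h2 : rr c s h A ≠ 0 := by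
      unfold rr; rw [h0]
      have : h - 1 ≠ 0 := sub_ne_zero.2 h1
      have h3 : h - 1 + 2 * 0 ≠ 0 := by simpa using this
      positivity
    positivity
  · positivity

theorem pp_pos {c s h A : ℝ} (hc : 0 < c) (hs : 0 < s) (hns : A ≠ 0 ∨ h ≠ 1) :
    0 < pp c s h A := by
  apply Real.sqrt_pos.2
  have := qq_pos hc hs hns
  positivity

theorem SS_pos {c s h A : ℝ} (hc : 0 < c) (hs : 0 < s) (hcs : c ^ 2 = 1 + s ^ 2)
    (hns : A ≠ 0 ∨ h ≠ 1) : 0 < SS c s h A := by
  have h1 := pp_pos hc hs hns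
  have h2 := abs_vv_le c s h A
  have h3 : s < c := by nlinarith
  have h4 := (abs_le.1 h2).2
  unfold SS
  nlinarith

theorem SS_sq (c s h A : ℝ) (hcs : c ^ 2 = 1 + s ^ 2) :
    SS c s h A ^ 2 = 4 * A ^ 2 + WW c s h A ^ 2 := by
  have h1 := diff_sq c s h A
  unfold SS WW
  linear_combination h1 + (pp c s h A ^ 2 - vv c s h A ^ 2) * hcs

/-- The level in the chart. -/
theorem chart_level {N c s L : ℝ} (hb : BC N c s L) (h A : ℝ) :
    (1 - A) ^ 2 + WW c s h A ^ 2 / 2 + L * WW c s h A * SS c s h A / 2 = h := by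
  obtain ⟨-, -, -, h2, h3, h4⟩ := hb
  have h1 : A ^ 2 - (pp c s h A ^ 2 - vv c s h A ^ 2) / 4 = 0 := by
    rw [diff_sq]; ring
  have h5 := pp_mul_vv c s h A
  unfold rr at h5
  rw [h4]
  unfold WW SS
  generalize pp c s h A = p at *
  generalize vv c s h A = w at *
  linear_combination h1 + (1 / 2 * c ^ 2 * N * p * w - 1 / 2 * c * N * s * p ^ 2
    - 1 / 2 * c * N * s * w ^ 2 - 1 / 2 * N * s ^ 2 * p * w + 1 / 2 * N * p * w
    + 1 / 2 * w ^ 2) * h2 + (c * s * p * w - 1 / 2 * s ^ 2 * p ^ 2 - 1 / 2 * s ^ 2 * w ^ 2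
    - 1 / 4 * p ^ 2 - 1 / 4 * w ^ 2 + h - 1 + 2 * A) * h3 + N / 2 * h5

theorem L_gt {N c s L : ℝ} (hb : BC N c s L) : 1 < L := by
  obtain ⟨h0, hs, hc, h2, h3, h4⟩ := hb
  rw [h4]
  have h5 : N * (c - s) ^ 2 > 0 := by
    have : s < c := by nlinarith
    have : 0 < c - s := by linarith
    positivity
  nlinarith

/-- `W` and `h - (1 - A)²` have the same sign. -/
theorem WW_sign {N c s L : ℝ} (hb : BC N c s L) {h A : ℝ} (hns : A ≠ 0 ∨ h ≠ 1) :
    ∃ κ, 0 < κ ∧ h - (1 - A) ^ 2 = κ * WW c s h A := by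
  refine ⟨(WW c s h A + L * SS c s h A) / 2, ?_, ?_⟩
  · have h1 := SS_pos hb.c0 hb.s0 hb.cs hns
    have h2 := SS_sq c s h A hb.cs
    have h3 := L_gt hb
    have h4 : |WW c s h A| ≤ SS c s h A := by
      apply abs_le_of_sq_le_sq _ h1.le
      nlinarith [sq_nonneg A]
    have h5 := (abs_le.1 h4).1
    nlinarith
  · have := chart_level hb h A
    linarith

/-! ### Derivatives at fixed `h` -/

theorem hasDerivAt_rr (c s h A : ℝ) : HasDerivAt (fun A => rr c s h A) (8 * c * s) A := by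
  unfold rr
  have := (((hasDerivAt_id A).const_mul 2).const_add (h - 1)).const_mul (4 * c * s)
  refine this.congr_deriv ?_
  ring

theorem hasDerivAt_qq {c s h A : ℝ} (hc : 0 < c) (hs : 0 < s) (hns : A ≠ 0 ∨ h ≠ 1) :
    HasDerivAt (fun A => qq c s h A)
      ((8 * A ^ 3 + rr c s h A * (8 * c * s)) / qq c s h A) A := by
  have h0 := qq_pos hc hs hns
  have h1 : HasDerivAt (fun A => 4 * A ^ 4 + rr c s h A ^ 2)
      (16 * A ^ 3 + 2 * rr c s h A * (8 * c * s)) A := by
    have := (((hasDerivAt_id A).pow 4).const_mul 4).add ((hasDerivAt_rr c s h A).pow 2)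
    refine this.congr_deriv ?_
    simp only [id]
    ring
  have h2 : 4 * A ^ 4 + rr c s h A ^ 2 ≠ 0 := by
    rw [← qq_sq]; positivity
  have h3 := h1.sqrt h2
  refine h3.congr_deriv ?_
  rw [show Real.sqrt (4 * A ^ 4 + rr c s h A ^ 2) = qq c s h A from rfl]
  field_simp
  ring

theorem hasDerivAt_pp {c s h A : ℝ} (hc : 0 < c) (hs : 0 < s) (hns : A ≠ 0 ∨ h ≠ 1) :
    HasDerivAt (fun A => pp c s h A)
      ((2 * A * pp c s h A + 4 * c * s * vv c s h A) / qq c s h A) A := by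
  have h0 := qq_pos hc hs hns
  have h0' := pp_pos hc hs hns
  have h1 : HasDerivAt (fun A => 2 * A ^ 2 + qq c s h A)
      (4 * A + (8 * A ^ 3 + rr c s h A * (8 * c * s)) / qq c s h A) A := by
    have := (((hasDerivAt_id A).pow 2).const_mul 2).add (hasDerivAt_qq hc hs hns)
    refine this.congr_deriv ?_
    simp only [id]
    ring
  have h2 : 2 * A ^ 2 + qq c s h A ≠ 0 := by
    rw [← pp_sq]; positivity
  have h3 := h1.sqrt h2
  refine h3.congr_deriv ?_
  rw [show Real.sqrt (2 * A ^ 2 + qq c s h A) = pp c s h A from rfl]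
  have h4 := pp_mul_vv c s h A
  have h5 := pp_sq c s h A
  rw [← h4]
  rw [div_eq_div_iff (by positivity) (by positivity)]
  field_simp
  linear_combination (-(4 * A)) * h5

theorem hasDerivAt_vv {c s h A : ℝ} (hc : 0 < c) (hs : 0 < s) (hns : A ≠ 0 ∨ h ≠ 1) :
    HasDerivAt (fun A => vv c s h A)
      ((4 * c * s * pp c s h A - 2 * A * vv c s h A) / qq c s h A) A := by
  have h0 := qq_pos hc hs hns
  have h0' := pp_pos hc hs hns
  have h1 := (hasDerivAt_rr c s h A).div (hasDerivAt_pp hc hs hns) h0'.ne'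
  refine h1.congr_deriv ?_
  have h4 := pp_mul_vv c s h A
  have h6 := sum_sq c s h A
  rw [← h4]
  field_simp
  linear_combination (-(4 * c * s)) * h6

theorem hasDerivAt_SS {c s h A : ℝ} (hc : 0 < c) (hs : 0 < s) (hns : A ≠ 0 ∨ h ≠ 1) :
    HasDerivAt (fun A => SS c s h A)
      ((c * (2 * A * pp c s h A + 4 * c * s * vv c s h A)
        - s * (4 * c * s * pp c s h A - 2 * A * vv c s h A)) / qq c s h A) A := by
  have := ((hasDerivAt_pp hc hs hns).const_mul c).sub ((hasDerivAt_vv hc hs hns).const_mul s)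
  refine this.congr_deriv ?_
  ring

theorem hasDerivAt_WW {c s h A : ℝ} (hc : 0 < c) (hs : 0 < s) (hns : A ≠ 0 ∨ h ≠ 1) :
    HasDerivAt (fun A => WW c s h A)
      ((c * (4 * c * s * pp c s h A - 2 * A * vv c s h A)
        - s * (2 * A * pp c s h A + 4 * c * s * vv c s h A)) / qq c s h A) A := by
  have := ((hasDerivAt_vv hc hs hns).const_mul c).sub ((hasDerivAt_pp hc hs hns).const_mul s)
  refine this.congr_deriv ?_
  ring

/-! ### Continuity in `A` -/

theorem continuous_rr (c s h : ℝ) : Continuous (fun A => rr c s h A) := by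
  unfold rr; fun_prop

theorem continuous_qq (c s h : ℝ) : Continuous (fun A => qq c s h A) := by
  unfold qq rr; fun_prop

theorem continuous_pp (c s h : ℝ) : Continuous (fun A => pp c s h A) := by
  unfold pp qq rr; fun_prop

theorem continuous_vv {c s : ℝ} (hc : 0 < c) (hs : 0 < s) (h : ℝ) :
    Continuous (fun A => vv c s h A) := by
  rw [continuous_iff_continuousAt]
  intro A
  by_cases hns : A ≠ 0 ∨ h ≠ 1
  · exact (hasDerivAt_vv hc hs hns).continuousAt
  · push Not at hns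
    obtain ⟨h0, h1⟩ := hns
    have hp0 : pp c s h A = 0 := by
      unfold pp qq rr; rw [h0, h1]; simp
    have hv0 : vv c s h A = 0 := by
      unfold vv; rw [hp0, div_zero]
    rw [ContinuousAt, hv0]
    refine squeeze_zero_norm (a := fun A => pp c s h A) (fun A => ?_) ?_
    · rw [Real.norm_eq_abs]; exact abs_vv_le c s h A
    · have := (continuous_pp c s h).tendsto A
      rwa [hp0] at this

theorem continuous_SS {c s : ℝ} (hc : 0 < c) (hs : 0 < s) (h : ℝ) :
    Continuous (fun A => SS c s h A) := by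
  have h1 := continuous_pp c s h
  have h2 := continuous_vv hc hs h
  unfold SS; fun_prop

theorem continuous_WW {c s : ℝ} (hc : 0 < c) (hs : 0 < s) (h : ℝ) :
    Continuous (fun A => WW c s h A) := by
  have h1 := continuous_pp c s h
  have h2 := continuous_vv hc hs h
  unfold WW; fun_prop

/-! ### The complex function `F = (A + S₀/2) + i (e + w₀/2)` -/

/-- `F`. -/
def FF (c s h A : ℝ) : ℂ :=
  ((A + pp c s h A / 2 : ℝ) : ℂ) + ((2 * c * s + vv c s h A / 2 : ℝ) : ℂ) * Complex.I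

theorem FF_re (c s h A : ℝ) : (FF c s h A).re = A + pp c s h A / 2 := by simp [FF]

theorem FF_im (c s h A : ℝ) : (FF c s h A).im = 2 * c * s + vv c s h A / 2 := by simp [FF]

theorem FF_mem {c s : ℝ} (hc : 0 < c) (hs : 0 < s) (h A : ℝ) :
    FF c s h A ∈ Complex.slitPlane := by
  rw [Complex.mem_slitPlane_iff, FF_re, FF_im]
  have h1 := abs_A_le c s h A
  have h2 := neg_abs_le A
  rcases lt_or_ge 0 (A + pp c s h A / 2) with h3 | h3
  · exact Or.inl h3
  · right
    have h4 : pp c s h A = -(2 * A) := by linarith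
    have h5 := diff_sq c s h A
    rw [h4] at h5
    have h6 : vv c s h A ^ 2 = 0 := by linarith
    have h7 : vv c s h A = 0 := (pow_eq_zero_iff (by norm_num)).1 h6
    rw [h7]
    have : 0 < 2 * c * s + 0 / 2 := by positivity
    exact this.ne'

theorem continuous_FF {c s : ℝ} (hc : 0 < c) (hs : 0 < s) (h : ℝ) :
    Continuous (fun A => FF c s h A) := by
  have h1 := continuous_pp c s h
  have h2 := continuous_vv hc hs h
  unfold FF
  fun_prop

theorem hasDerivAt_FF {c s h A : ℝ} (hc : 0 < c) (hs : 0 < s)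
    (hns : A ≠ 0 ∨ h ≠ 1) :
    HasDerivAt (fun A => FF c s h A)
      (FF c s h A * (((pp c s h A : ℝ) : ℂ) - ((vv c s h A : ℝ) : ℂ) * Complex.I)
        / ((qq c s h A : ℝ) : ℂ)) A := by
  have h0 := qq_pos hc hs hns
  have h1 : HasDerivAt (fun A => A + pp c s h A / 2)
      (1 + (2 * A * pp c s h A + 4 * c * s * vv c s h A) / qq c s h A / 2) A :=
    (hasDerivAt_id A).add ((hasDerivAt_pp hc hs hns).div_const 2)
  have h2 : HasDerivAt (fun A => 2 * c * s + vv c s h A / 2)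
      ((4 * c * s * pp c s h A - 2 * A * vv c s h A) / qq c s h A / 2) A :=
    ((hasDerivAt_vv hc hs hns).div_const 2).const_add _
  have h3 := h1.ofReal_comp.add (h2.ofReal_comp.mul_const Complex.I)
  refine h3.congr_deriv ?_
  have hs2 := sum_sq c s h A
  have hd2 := diff_sq c s h A
  have h0' : (qq c s h A : ℂ) ≠ 0 := by exact_mod_cast h0.ne'
  rw [eq_div_iff h0']
  unfold FF
  generalize pp c s h A = p at *
  generalize vv c s h A = w at *
  generalize hq : qq c s h A = q at *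
  have e1 : (1 + (2 * A * p + 4 * c * s * w) / q / 2) * q = q + (A * p + 2 * c * s * w) := by
    field_simp
    ring
  have e2 : (4 * c * s * p - 2 * A * w) / q / 2 * q = 2 * c * s * p - A * w := by
    field_simp; ring
  apply Complex.ext
  · simp only [Complex.add_re, Complex.mul_re, Complex.ofReal_re, Complex.ofReal_im,
      Complex.I_re, Complex.I_im, Complex.sub_re, Complex.sub_im, Complex.add_im,
      Complex.mul_im]
    linear_combination e1 + (-1 / 2) * hs2
  · simp only [Complex.add_re, Complex.mul_re, Complex.ofReal_re, Complex.ofReal_im,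
      Complex.I_re, Complex.I_im, Complex.sub_re, Complex.sub_im, Complex.add_im,
      Complex.mul_im]
    linear_combination e2

end B92.KB
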