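import Mathlib

/-!
# MP_b92fc8_an, module KInv: inverse of a strictly monotone function on a segment,
the matching lemma, and graphs over `h`.
-/

set_option autoImplicit false

open Set Filter Topology

namespace B92

/-- Inverse of a strictly increasing continuous function on a segment. -/
theorem exists_inv_mono {T : ℝ → ℝ} {q r : ℝ} (hqr : q < r) (hc : ContinuousOn T (Icc q r))
    (hm : StrictMonoOn T (Icc q r)) :
    ∃ φ : ℝ → ℝ, (∀ τ ∈ Icc (T q) (T r), φ τ ∈ Icc q r ∧ T (φ τ) = τ) ∧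
      (∀ x ∈ Icc q r, φ (T x) = x) ∧ ContinuousOn φ (Icc (T q) (T r)) ∧
      (∀ τ ∈ Ioo (T q) (T r), φ τ ∈ Ioo q r) ∧
      (∀ τ ∈ Ioo (T q) (T r), ∀ d : ℝ, d ≠ 0 → HasDerivAt T d (φ τ) → HasDerivAt φ d⁻¹ τ) := by
  have hqm : q ∈ Icc q r := ⟨le_rfl, hqr.le⟩
  have hrm : r ∈ Icc q r := ⟨hqr.le, le_rfl⟩
  have hex : ∀ τ ∈ Icc (T q) (T r), ∃ x ∈ Icc q r, T x = τ := fun τ hτ => by
    obtain ⟨x, hx, hx2⟩ := intermediate_value_Icc hqr.le hc hτ
    exact ⟨x, hx, hx2⟩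
  classical
  let φ : ℝ → ℝ := fun τ => if h : τ ∈ Icc (T q) (T r) then (hex τ h).choose else q
  have hφ : ∀ τ ∈ Icc (T q) (T r), φ τ ∈ Icc q r ∧ T (φ τ) = τ := by
    intro τ hτ
    have h1 : φ τ = (hex τ hτ).choose := by simp only [φ]; rw [dif_pos hτ]
    rw [h1]
    exact (hex τ hτ).choose_spec
  have hTm : ∀ x ∈ Icc q r, T x ∈ Icc (T q) (T r) := fun x hx =>
    ⟨hm.monotoneOn hqm hx hx.1, hm.monotoneOn hx hrm hx.2⟩
  have hφT : ∀ x ∈ Icc q r, φ (T x) = x := fun x hx =>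
    hm.injOn (hφ _ (hTm x hx)).1 hx (hφ _ (hTm x hx)).2
  -- comparison
  have hlt : ∀ τ ∈ Icc (T q) (T r), ∀ x ∈ Icc q r, τ < T x → φ τ < x := by
    intro τ hτ x hx h
    have h2 := hφ τ hτ
    rw [← h2.2] at h
    exact (hm.lt_iff_lt h2.1 hx).1 h
  have hgt : ∀ τ ∈ Icc (T q) (T r), ∀ x ∈ Icc q r, T x < τ → x < φ τ := by
    intro τ hτ x hx h
    have h2 := hφ τ hτ
    rw [← h2.2] at h
    exact (hm.lt_iff_lt hx h2.1).1 h
  have hcont : ContinuousOn φ (Icc (T q) (T r)) := by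
    intro τ hτ
    have hx := hφ τ hτ
    rw [ContinuousWithinAt, tendsto_order]
    constructor
    · intro a ha
      -- a < φ τ ; want eventually a < φ σ
      rcases lt_or_ge a q with h | h
      · filter_upwards [self_mem_nhdsWithin] with σ hσ
        exact lt_of_lt_of_le h (hφ σ hσ).1.1
      · have ham : a ∈ Icc q r := ⟨h, ha.le.trans hx.1.2⟩
        have h1 : T a < τ := by rw [← hx.2]; exact hm ham hx.1 ha
        filter_upwards [self_mem_nhdsWithin, mem_nhdsWithin_of_mem_nhds (lt_mem_nhds h1)]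
          with σ hσ hσ2
        exact hgt σ hσ a ham hσ2
    · intro a ha
      rcases lt_or_ge r a with h | h
      · filter_upwards [self_mem_nhdsWithin] with σ hσ
        exact lt_of_le_of_lt (hφ σ hσ).1.2 h
      · have ham : a ∈ Icc q r := ⟨hx.1.1.trans ha.le, h⟩
        have h1 : τ < T a := by rw [← hx.2]; exact hm hx.1 ham ha
        filter_upwards [self_mem_nhdsWithin, mem_nhdsWithin_of_mem_nhds (gt_mem_nhds h1)]
          with σ hσ hσ2
        exact hlt σ hσ a ham hσ2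
  have hint : ∀ τ ∈ Ioo (T q) (T r), φ τ ∈ Ioo q r := by
    intro τ hτ
    have h1 := Ioo_subset_Icc_self hτ
    exact ⟨hgt τ h1 q hqm hτ.1, hlt τ h1 r hrm hτ.2⟩
  refine ⟨φ, hφ, hφT, hcont, hint, ?_⟩
  intro τ hτ d hd hder
  have hnb : Icc (T q) (T r) ∈ 𝓝 τ := Icc_mem_nhds hτ.1 hτ.2
  refine HasDerivAt.of_local_left_inverse (hcont.continuousAt hnb) hder hd ?_
  filter_upwards [hnb] with σ hσ
  exact (hφ σ hσ).2

/-- **Matching lemma.** `T` decreases on `[p, q]` and increases on `[q, r]`, `T p = T r`,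
`Z' = u T'`, and `u x₁ < u x₂` at matched points. Then `Z r < Z p`. -/
theorem match_lt {T Z T' u : ℝ → ℝ} {p q r : ℝ} (hpq : p < q) (hqr : q < r)
    (hTc : ContinuousOn T (Icc p r)) (hZc : ContinuousOn Z (Icc p r))
    (hT1 : ∀ x ∈ Ioo p q, HasDerivAt T (T' x) x) (hT2 : ∀ x ∈ Ioo q r, HasDerivAt T (T' x) x)
    (hZ1 : ∀ x ∈ Ioo p q, HasDerivAt Z (u x * T' x) x)
    (hZ2 : ∀ x ∈ Ioo q r, HasDerivAt Z (u x * T' x) x)
    (hneg : ∀ x ∈ Ioo p q, T' x < 0) (hpos : ∀ x ∈ Ioo q r, 0 < T' x)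
    (hu : ∀ x1 ∈ Ioo q r, ∀ x2 ∈ Ioo p q, T x1 = T x2 → u x1 < u x2)
    (heq : T r = T p) : Z r < Z p := by
  have hsub1 : Icc p q ⊆ Icc p r := Icc_subset_Icc le_rfl hqr.le
  have hsub2 : Icc q r ⊆ Icc p r := Icc_subset_Icc hpq.le le_rfl
  have hm : StrictMonoOn T (Icc q r) := by
    refine strictMonoOn_of_deriv_pos (convex_Icc q r) (hTc.mono hsub2) fun x hx => ?_
    rw [interior_Icc] at hx
    rw [(hT2 x hx).deriv]; exact hpos x hx
  have ha : StrictAntiOn T (Icc p q) := by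
    refine strictAntiOn_of_deriv_neg (convex_Icc p q) (hTc.mono hsub1) fun x hx => ?_
    rw [interior_Icc] at hx
    rw [(hT1 x hx).deriv]; exact hneg x hx
  obtain ⟨φ, h1, h2, h3, h4, h5⟩ := exists_inv_mono hqr (hTc.mono hsub2) hm
  have hpm : p ∈ Icc p q := ⟨le_rfl, hpq.le⟩
  have hqm : q ∈ Icc p q := ⟨hpq.le, le_rfl⟩
  have hTx : ∀ x ∈ Icc p q, T x ∈ Icc (T q) (T r) := fun x hx =>
    ⟨ha.antitoneOn hx hqm hx.2, by rw [heq]; exact ha.antitoneOn hpm hx hx.1⟩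
  have hTx' : ∀ x ∈ Ioo p q, T x ∈ Ioo (T q) (T r) := fun x hx =>
    ⟨ha (Ioo_subset_Icc_self hx) hqm hx.2, by rw [heq]; exact ha hpm (Ioo_subset_Icc_self hx) hx.1⟩
  set D : ℝ → ℝ := fun x => Z (φ (T x)) - Z x with hD
  have hDc : ContinuousOn D (Icc p q) := by
    refine ContinuousOn.sub ?_ (hZc.mono hsub1)
    have e1 : ContinuousOn (fun x => φ (T x)) (Icc p q) :=
      h3.comp (hTc.mono hsub1) hTx
    exact hZc.comp e1 fun x hx => hsub2 (h1 _ (hTx x hx)).1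
  have hDd : ∀ x ∈ Ioo p q, HasDerivAt D ((u (φ (T x)) - u x) * T' x) x := by
    intro x hx
    have e1 := h4 _ (hTx' x hx)
    have e2 := hT2 _ e1
    have e3 := h5 _ (hTx' x hx) _ (hpos _ e1).ne' e2
    have e4 : HasDerivAt (fun y => φ (T y)) ((T' (φ (T x)))⁻¹ * T' x) x :=
      e3.comp x (hT1 x hx)
    have e5 : HasDerivAt (fun y => Z (φ (T y)))
        (u (φ (T x)) * T' (φ (T x)) * ((T' (φ (T x)))⁻¹ * T' x)) x :=
      (hZ2 _ e1).comp x e4
    refine (e5.sub (hZ1 x hx)).congr_deriv ?_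
    have := (hpos _ e1).ne'
    field_simp
  have hmono : StrictMonoOn D (Icc p q) := by
    refine strictMonoOn_of_deriv_pos (convex_Icc p q) hDc fun x hx => ?_
    rw [interior_Icc] at hx
    rw [(hDd x hx).deriv]
    have e1 := h4 _ (hTx' x hx)
    have e2 : T (φ (T x)) = T x := (h1 _ (Ioo_subset_Icc_self (hTx' x hx))).2
    have := hu _ e1 x hx e2
    nlinarith [hneg x hx]
  have hlt := hmono hpm hqm hpq
  have hDq : D q = 0 := by
    simp only [hD]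
    rw [h2 q ⟨le_rfl, hqr.le⟩]; ring
  have hDp : D p = Z r - Z p := by
    simp only [hD]
    rw [← heq, h2 r ⟨hqr.le, le_rfl⟩]
  rw [hDq, hDp] at hlt
  linarith

/-- Matching lemma, opposite sign. -/
theorem match_gt {T Z T' u : ℝ → ℝ} {p q r : ℝ} (hpq : p < q) (hqr : q < r)
    (hTc : ContinuousOn T (Icc p r)) (hZc : ContinuousOn Z (Icc p r))
    (hT1 : ∀ x ∈ Ioo p q, HasDerivAt T (T' x) x) (hT2 : ∀ x ∈ Ioo q r, HasDerivAt T (T' x) x)
    (hZ1 : ∀ x ∈ Ioo p q, HasDerivAt Z (u x * T' x) x)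
    (hZ2 : ∀ x ∈ Ioo q r, HasDerivAt Z (u x * T' x) x)
    (hneg : ∀ x ∈ Ioo p q, T' x < 0) (hpos : ∀ x ∈ Ioo q r, 0 < T' x)
    (hu : ∀ x1 ∈ Ioo q r, ∀ x2 ∈ Ioo p q, T x1 = T x2 → u x2 < u x1)
    (heq : T r = T p) : Z p < Z r := by
  have := match_lt (Z := fun x => -Z x) (u := fun x => -u x) hpq hqr hTc hZc.neg hT1 hT2
    (fun x hx => by have := (hZ1 x hx).neg; rwa [← neg_mul] at this)
    (fun x hx => by have := (hZ2 x hx).neg; rwa [← neg_mul] at this) hneg hpos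
    (fun x1 h1 x2 h2 h => neg_lt_neg (hu x1 h1 x2 h2 h)) heq
  linarith

/-- **Graph over `h`, increasing case.** A curve with `h' > 0` in the interior; `Z' = (5 T + c) h'`.
Then `Z` and `T` are functions `z`, `τ` of `h` with `z' = 5 τ + c`. -/
theorem graph_mono {h Z T h' : ℝ → ℝ} {c p q : ℝ} (hpq : p < q) (hhc : ContinuousOn h (Icc p q))
    (hZc : ContinuousOn Z (Icc p q)) (hTc : ContinuousOn T (Icc p q))
    (hd : ∀ t ∈ Ioo p q, HasDerivAt h (h' t) t) (hpos : ∀ t ∈ Ioo p q, 0 < h' t)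
    (hZ : ∀ t ∈ Ioo p q, HasDerivAt Z ((5 * T t + c) * h' t) t) :
    ∃ φ : ℝ → ℝ, h p < h q ∧ (∀ y ∈ Icc (h p) (h q), φ y ∈ Icc p q ∧ h (φ y) = y) ∧
      (∀ y ∈ Ioo (h p) (h q), φ y ∈ Ioo p q) ∧
      φ (h p) = p ∧ φ (h q) = q ∧
      ContinuousOn φ (Icc (h p) (h q)) ∧
      ContinuousOn (fun y => Z (φ y)) (Icc (h p) (h q)) ∧
      ContinuousOn (fun y => T (φ y)) (Icc (h p) (h q)) ∧
      (∀ y ∈ Ioo (h p) (h q), HasDerivAt (fun y => Z (φ y)) (5 * T (φ y) + c) y) := by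
  have hm : StrictMonoOn h (Icc p q) := by
    refine strictMonoOn_of_deriv_pos (convex_Icc p q) hhc fun x hx => ?_
    rw [interior_Icc] at hx
    rw [(hd x hx).deriv]; exact hpos x hx
  have hpm : p ∈ Icc p q := ⟨le_rfl, hpq.le⟩
  have hqm : q ∈ Icc p q := ⟨hpq.le, le_rfl⟩
  obtain ⟨φ, h1, h2, h3, h4, h5⟩ := exists_inv_mono hpq hhc hm
  refine ⟨φ, hm hpm hqm hpq, h1, h4, h2 p hpm, h2 q hqm, h3, hZc.comp h3 fun y hy => (h1 y hy).1,
    hTc.comp h3 fun y hy => (h1 y hy).1, fun y hy => ?_⟩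
  have e1 := h4 y hy
  have e2 := h5 y hy _ (hpos _ e1).ne' (hd _ e1)
  refine ((hZ _ e1).comp y e2).congr_deriv ?_
  have := (hpos _ e1).ne'
  field_simp

/-- Graph over `h`, decreasing case. -/
theorem graph_anti {h Z T h' : ℝ → ℝ} {c p q : ℝ} (hpq : p < q) (hhc : ContinuousOn h (Icc p q))
    (hZc : ContinuousOn Z (Icc p q)) (hTc : ContinuousOn T (Icc p q))
    (hd : ∀ t ∈ Ioo p q, HasDerivAt h (h' t) t) (hneg : ∀ t ∈ Ioo p q, h' t < 0)
    (hZ : ∀ t ∈ Ioo p q, HasDerivAt Z ((5 * T t + c) * h' t) t) :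
    ∃ φ : ℝ → ℝ, h q < h p ∧ (∀ y ∈ Icc (h q) (h p), φ y ∈ Icc p q ∧ h (φ y) = y) ∧
      (∀ y ∈ Ioo (h q) (h p), φ y ∈ Ioo p q) ∧
      φ (h q) = q ∧ φ (h p) = p ∧
      ContinuousOn φ (Icc (h q) (h p)) ∧
      ContinuousOn (fun y => Z (φ y)) (Icc (h q) (h p)) ∧
      ContinuousOn (fun y => T (φ y)) (Icc (h q) (h p)) ∧
      (∀ y ∈ Ioo (h q) (h p), HasDerivAt (fun y => Z (φ y)) (5 * T (φ y) + c) y) := by
  -- reverse time
  have hmaps : MapsTo (fun t : ℝ => -t) (Icc (-q) (-p)) (Icc p q) := fun t ht =>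
    ⟨by linarith [ht.2], by linarith [ht.1]⟩
  have hcn : ContinuousOn (fun t : ℝ => -t) (Icc (-q) (-p)) := continuous_neg.continuousOn
  obtain ⟨φ, g1, g2, g3, g4, g5, g6, g7, g8, g9⟩ := graph_mono (h := fun t => h (-t))
    (Z := fun t => Z (-t)) (T := fun t => T (-t)) (h' := fun t => -h' (-t)) (c := c)
    (show -q < -p by linarith) (hhc.comp hcn hmaps) (hZc.comp hcn hmaps) (hTc.comp hcn hmaps)
    (fun t ht => by
      have := HasDerivAt.comp t (hd (-t) ⟨by linarith [ht.2], by linarith [ht.1]⟩)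
        (hasDerivAt_neg t)
      refine this.congr_deriv ?_
      ring)
    (fun t ht => by
      have := hneg (-t) ⟨by linarith [ht.2], by linarith [ht.1]⟩
      linarith)
    (fun t ht => by
      have := HasDerivAt.comp t (hZ (-t) ⟨by linarith [ht.2], by linarith [ht.1]⟩)
        (hasDerivAt_neg t)
      refine this.congr_deriv ?_
      ring)
  simp only [neg_neg] at g1 g2 g3 g4 g5 g6 g7 g8 g9
  refine ⟨fun y => -φ y, g1, fun y hy => ⟨?_, (g2 y hy).2⟩, fun y hy => ?_, ?_, ?_, g6.neg, g7, g8, g9⟩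
  · have := (g2 y hy).1
    exact ⟨by linarith [this.2], by linarith [this.1]⟩
  · have := g3 y hy
    exact ⟨by linarith [this.2], by linarith [this.1]⟩
  · simp only [g4, neg_neg]
  · simp only [g5, neg_neg]

end B92
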