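import Mathlib
import Pool.Agent.Lib.B92.KBb
import Pool.Agent.Lib.B92.KBa
import Pool.Agent.Lib.B92.KInv

/-!
# MP_b92fc8_an, module KBc: `|k| < 1`, `L > 1`: primitives `T`, `Z` at fixed `h`, the K-lemma
-/

set_option autoImplicit false

open Set Filter Topology

noncomputable section

namespace B92.KB

/-- `ln |F|`. -/
def lr (c s h A : ℝ) : ℝ := (Complex.log (FF c s h A)).re

/-- `arg F`. -/
def li (c s h A : ℝ) : ℝ := (Complex.log (FF c s h A)).im

/-- The primitive `T`. -/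
def TT (c s h A : ℝ) : ℝ := -(2 * c * s) * (c * li c s h A + s * lr c s h A)

/-- The algebraic part of `Z`. -/
def Alg (c s L A S W : ℝ) : ℝ :=
  -(A * S / 2) - L * A * W + (1 - 5 * (2 * c * s) ^ 2 / 2) * S - 5 * L * (2 * c * s) ^ 2 / 2 * W

/-- The primitive `Z`. -/
def ZZ (c s L h A : ℝ) : ℝ :=
  5 * (2 * c * s) ^ 2 * (c * lr c s h A - s * li c s h A) + 5 * (h - 1) * TT c s h A
    + Alg c s L A (SS c s h A) (WW c s h A)

/-- `u = 2 h - N² W²`. -/
def uu (N c s h A : ℝ) : ℝ := 2 * h - N ^ 2 * WW c s h A ^ 2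

theorem hasDerivAt_log {c s h A : ℝ} (hc : 0 < c) (hs : 0 < s) (hns : A ≠ 0 ∨ h ≠ 1) :
    HasDerivAt (fun A => Complex.log (FF c s h A))
      ((((pp c s h A : ℝ) : ℂ) - ((vv c s h A : ℝ) : ℂ) * Complex.I) / ((qq c s h A : ℝ) : ℂ)) A := by
  have h1 := (hasDerivAt_FF hc hs hns).clog_real (FF_mem hc hs h A)
  refine h1.congr_deriv ?_
  have h2 : FF c s h A ≠ 0 := Complex.slitPlane_ne_zero (FF_mem hc hs h A)
  field_simp

theorem hasDerivAt_lr {c s h A : ℝ} (hc : 0 < c) (hs : 0 < s) (hns : A ≠ 0 ∨ h ≠ 1) :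
    HasDerivAt (fun A => lr c s h A) (pp c s h A / qq c s h A) A := by
  have h1 := Complex.reCLM.hasFDerivAt.comp_hasDerivAt A (hasDerivAt_log hc hs hns)
  refine h1.congr_deriv ?_
  rw [Complex.reCLM_apply, Complex.div_ofReal_re]
  simp

theorem hasDerivAt_li {c s h A : ℝ} (hc : 0 < c) (hs : 0 < s) (hns : A ≠ 0 ∨ h ≠ 1) :
    HasDerivAt (fun A => li c s h A) (-(vv c s h A) / qq c s h A) A := by
  have h1 := Complex.imCLM.hasFDerivAt.comp_hasDerivAt A (hasDerivAt_log hc hs hns)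
  refine h1.congr_deriv ?_
  rw [Complex.imCLM_apply, Complex.div_ofReal_im]
  simp

theorem hasDerivAt_TT {c s h A : ℝ} (hc : 0 < c) (hs : 0 < s) (hns : A ≠ 0 ∨ h ≠ 1) :
    HasDerivAt (fun A => TT c s h A) (2 * c * s * WW c s h A / qq c s h A) A := by
  have h1 := (((hasDerivAt_li hc hs hns).const_mul c).add
    ((hasDerivAt_lr hc hs hns).const_mul s)).const_mul (-(2 * c * s))
  refine h1.congr_deriv ?_
  unfold WW
  ring

theorem hasDerivAt_ZZ {N c s L h A : ℝ} (hb : BC N c s L) (hns : A ≠ 0 ∨ h ≠ 1) :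
    HasDerivAt (fun A => ZZ c s L h A)
      (uu N c s h A * (2 * c * s * WW c s h A / qq c s h A)) A := by
  have hc := hb.c0
  have hs := hb.s0
  have h0 := qq_pos hc hs hns
  have hS := hasDerivAt_SS hc hs hns
  have hW := hasDerivAt_WW hc hs hns
  have hAlg : HasDerivAt (fun A => Alg c s L A (SS c s h A) (WW c s h A)) _ A :=
    (((((hasDerivAt_id A).mul hS).div_const 2).neg.sub
      (((hasDerivAt_id A).const_mul L).mul hW)).add (hS.const_mul (1 - 5 * (2 * c * s) ^ 2 / 2))).sub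
      (hW.const_mul (5 * L * (2 * c * s) ^ 2 / 2))
  have h1 : HasDerivAt (fun A => ZZ c s L h A) _ A :=
    (((((hasDerivAt_lr hc hs hns).const_mul c).sub
      ((hasDerivAt_li hc hs hns).const_mul s)).const_mul (5 * (2 * c * s) ^ 2)).add
      ((hasDerivAt_TT hc hs hns).const_mul (5 * (h - 1)))).add hAlg
  refine h1.congr_deriv ?_
  obtain ⟨-, -, -, h2, h3, h4⟩ := hb
  have hd1 : A ^ 2 - (pp c s h A ^ 2 - vv c s h A ^ 2) / 4 = 0 := by
    rw [diff_sq]; ring
  have hh : h = 1 - 2 * A + N * pp c s h A * vv c s h A / 2 := by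
    have h5 := pp_mul_vv c s h A
    unfold rr at h5
    linear_combination (-(N / 2)) * h5 - (h - 1 + 2 * A) * h3
  have hq : qq c s h A = (pp c s h A ^ 2 + vv c s h A ^ 2) / 2 := by
    have := sum_sq c s h A; linarith
  have hq0 : (pp c s h A ^ 2 + vv c s h A ^ 2) / 2 ≠ 0 := by rw [← hq]; exact h0.ne'
  simp only [id, uu, SS, WW, hq]
  generalize pp c s h A = p at *
  generalize vv c s h A = w at *
  rw [hh, h4]
  have hq1 : p ^ 2 + w ^ 2 ≠ 0 := fun h => hq0 (by rw [h]; ring)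
  field_simp
  have hD1 : A ^ 2 - (p ^ 2 - w ^ 2) / 4 = 0 := hd1
  have hD2 : c ^ 2 = 1 + s ^ 2 := h2
  have hD3 : 2 * N * c * s = 1 := h3
  linear_combination 4 * (2 * c ^ 3 * N * w + 2 * c ^ 2 * N * s * p + 2 * c * N * s ^ 2 * w - c * p + 2 * N * s ^ 3
    * p - s * w) * hD1
    + 4 * (20 * A * c ^ 3 * N * s ^ 2 * w + 20 * A * c ^ 2 * N * s ^ 3 * p - 4 * A * c ^ 2 * N * s *
    p + 40 * A * c * N * s ^ 4 * w + 24 * A * c * N * s ^ 2 * w - 20 * A * c * s ^ 2 * p - 20
    * A * s ^ 3 * w - 14 * A * s * w - 40 * c ^ 4 * N * s ^ 3 * p + 40 * c ^ 3 * N * s ^ 4 * w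
    + 2 * c ^ 2 * N ^ 2 * s * w ^ 3 - 80 * c ^ 2 * N * s ^ 5 * p - 40 * c ^ 2 * N * s ^ 3 * p
    - 40 * c ^ 2 * s ^ 3 * w - 6 * c * N ^ 2 * s ^ 2 * p * w ^ 2 + 80 * c * N * s ^ 6 * w + 40
    * c * N * s ^ 4 * w - c * N * w ^ 3 + 40 * c * s ^ 4 * p + 20 * c * s ^ 2 * p + 3 * N * s
    * p * w ^ 2 - 40 * s ^ 5 * w - 20 * s ^ 3 * w) * hD2
    + 4 * (20 * A * c * s ^ 4 * p + 6 * A * c * s ^ 2 * p - 2 * A * c * p + 20 * A * s ^ 5 * w + 34 *
    A * s ^ 3 * w + 12 * A * s * w + 3 * c * N * s ^ 2 * p ^ 2 * w + c * N * s ^ 2 * w ^ 3 + c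
    * N * w ^ 3 - 40 * c * s ^ 6 * p - 60 * c * s ^ 4 * p - 20 * c * s ^ 2 * p + 1 / 2 * c * p
    ^ 3 - N * s ^ 3 * p ^ 3 - 3 * N * s ^ 3 * p * w ^ 2 - 3 * N * s * p * w ^ 2 + 40 * s ^ 7 *
    w + 60 * s ^ 5 * w + 20 * s ^ 3 * w - 1 / 2 * s * w ^ 3) * hD3

theorem continuous_lr {c s : ℝ} (hc : 0 < c) (hs : 0 < s) (h : ℝ) :
    Continuous (fun A => lr c s h A) := by
  have h1 : Continuous (fun A => Complex.log (FF c s h A)) := by
    rw [continuous_iff_continuousAt]
    intro A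
    exact (continuous_FF hc hs h).continuousAt.clog (FF_mem hc hs h A)
  exact Complex.continuous_re.comp h1

theorem continuous_li {c s : ℝ} (hc : 0 < c) (hs : 0 < s) (h : ℝ) :
    Continuous (fun A => li c s h A) := by
  have h1 : Continuous (fun A => Complex.log (FF c s h A)) := by
    rw [continuous_iff_continuousAt]
    intro A
    exact (continuous_FF hc hs h).continuousAt.clog (FF_mem hc hs h A)
  exact Complex.continuous_im.comp h1

theorem continuous_TT {c s : ℝ} (hc : 0 < c) (hs : 0 < s) (h : ℝ) :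
    Continuous (fun A => TT c s h A) := by
  have h1 := continuous_lr hc hs h
  have h2 := continuous_li hc hs h
  unfold TT; fun_prop

theorem continuous_ZZ {c s : ℝ} (hc : 0 < c) (hs : 0 < s) (L h : ℝ) :
    Continuous (fun A => ZZ c s L h A) := by
  have h1 := continuous_lr hc hs h
  have h2 := continuous_li hc hs h
  have h3 := continuous_TT hc hs h
  have h4 := continuous_SS hc hs h
  have h5 := continuous_WW hc hs h
  unfold ZZ Alg; fun_prop

/-! ### The K-lemma -/

/-- `F̃`. -/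
def FT (c s h A : ℝ) : ℂ :=
  ((A - pp c s h A / 2 : ℝ) : ℂ) + ((2 * c * s - vv c s h A / 2 : ℝ) : ℂ) * Complex.I

theorem FF_mul_FT (c s h A : ℝ) :
    FF c s h A * FT c s h A
      = -((2 * c * s : ℝ) : ℂ) ^ 2 - ((2 * c * s * (h - 1) : ℝ) : ℂ) * Complex.I := by
  have h1 := diff_sq c s h A
  have h2 := pp_mul_vv c s h A
  unfold rr at h2
  unfold FF FT
  generalize pp c s h A = p at *
  generalize vv c s h A = w at *
  apply Complex.ext
  · simp only [Complex.add_re, Complex.mul_re, Complex.ofReal_re, Complex.ofReal_im,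
      Complex.I_re, Complex.I_im, Complex.sub_re, Complex.sub_im, Complex.add_im,
      Complex.mul_im, Complex.neg_re, Complex.neg_im, pow_two]
    linear_combination (-1 / 4) * h1
  · simp only [Complex.add_re, Complex.mul_re, Complex.ofReal_re, Complex.ofReal_im,
      Complex.I_re, Complex.I_im, Complex.sub_re, Complex.sub_im, Complex.add_im,
      Complex.mul_im, Complex.neg_re, Complex.neg_im, pow_two]
    linear_combination (-1 / 2) * h2

/-- **K-lemma** at fixed `h`: `W₁ > 0 > W₂`, `T₁ = T₂` implies `W₁² < W₂²`. -/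
theorem klem {c s h A1 A2 : ℝ} (hc : 0 < c) (hs : 0 < s)
    (hns1 : A1 ≠ 0 ∨ h ≠ 1) (hA : A2 < A1)
    (hW1 : 0 < WW c s h A1) (hT : TT c s h A1 = TT c s h A2) :
    WW c s h A1 ^ 2 < WW c s h A2 ^ 2 := by
  set x := lr c s h A1 - lr c s h A2 with hx
  set y := li c s h A1 - li c s h A2 with hy
  -- T-matching
  have hm : c * y + s * x = 0 := by
    unfold TT at hT
    have h1 : 0 < 2 * c * s := by positivity
    have h2 : (2 * c * s) * (c * y + s * x) = 0 := by rw [hx, hy]; linarith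
    exact (mul_eq_zero.1 h2).resolve_left h1.ne'
  -- `E = F₁ / F₂`
  have hF1 : FF c s h A1 ≠ 0 := Complex.slitPlane_ne_zero (FF_mem hc hs h A1)
  have hF2 : FF c s h A2 ≠ 0 := Complex.slitPlane_ne_zero (FF_mem hc hs h A2)
  set E := Complex.exp (Complex.log (FF c s h A1) - Complex.log (FF c s h A2)) with hE
  have hE1 : FF c s h A1 = E * FF c s h A2 := by
    rw [hE, Complex.exp_sub, Complex.exp_log hF1, Complex.exp_log hF2]
    field_simp
  have hE2 : FT c s h A2 = E * FT c s h A1 := by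
    have h1 := FF_mul_FT c s h A1
    have h2 := FF_mul_FT c s h A2
    have h3 : FF c s h A2 * FT c s h A2 = FF c s h A2 * (E * FT c s h A1) := by
      rw [h2, ← h1, hE1]; ring
    exact mul_left_cancel₀ hF2 h3
  have hEre : E.re = Real.exp x * Real.cos y := by
    rw [hE, Complex.exp_re, Complex.sub_re, Complex.sub_im]; rfl
  have hEim : E.im = Real.exp x * Real.sin y := by
    rw [hE, Complex.exp_im, Complex.sub_re, Complex.sub_im]; rfl
  -- real and imaginary parts of `(1 + E) (q₁ - q₂) = (E - 1) (p₁ + p₂)`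
  have hsum : (1 + E) * ((A1 - A2 : ℝ) : ℂ)
      = (E - 1) * (((pp c s h A1 + pp c s h A2) / 2 : ℝ) + ((vv c s h A1 + vv c s h A2) / 2 : ℝ)
        * Complex.I) := by
    unfold FF at hE1
    unfold FT at hE2
    push_cast at hE1 hE2 ⊢
    linear_combination hE1 - hE2
  have e1 := congrArg Complex.re hsum
  have e2 := congrArg Complex.im hsum
  simp only [Complex.add_re, Complex.mul_re, Complex.ofReal_re, Complex.ofReal_im,
      Complex.I_re, Complex.I_im, Complex.sub_re, Complex.sub_im, Complex.add_im,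
      Complex.mul_im, Complex.one_re, Complex.one_im] at e1 e2
  set Er := E.re with hEr
  set Ei := E.im with hEi
  set σ := pp c s h A1 + pp c s h A2 with hσ
  set ω := vv c s h A1 + vv c s h A2 with hω
  have ha : 0 < A1 - A2 := by linarith
  have hσ0 : 0 < σ := by
    have h1 := pp_pos hc hs hns1
    have h2 := pp_nonneg c s h A2
    rw [hσ]; linarith
  have e1' : 2 * (1 + Er) * (A1 - A2) = (Er - 1) * σ - Ei * ω := by linarith
  have e2' : 2 * Ei * (A1 - A2) = (Er - 1) * ω + Ei * σ := by linarith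
  have hD : 0 < (Er - 1) ^ 2 + Ei ^ 2 := by
    by_contra hcon
    push Not at hcon
    have h1 : Er = 1 := by
      have h3 : (Er - 1) ^ 2 = 0 :=
        le_antisymm (by linarith [sq_nonneg Ei]) (sq_nonneg _)
      have h4 : Er - 1 = 0 := (pow_eq_zero_iff (by norm_num)).1 h3
      linarith
    have h2 : Ei = 0 := by
      have h3 : Ei ^ 2 = 0 :=
        le_antisymm (by linarith [sq_nonneg (Er - 1)]) (sq_nonneg _)
      exact (pow_eq_zero_iff (by norm_num)).1 h3
    rw [h1, h2] at e1'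
    linarith
  have f1 : ((Er - 1) ^ 2 + Ei ^ 2) * σ = 2 * (A1 - A2) * (Er ^ 2 + Ei ^ 2 - 1) := by
    linear_combination -(Er - 1) * e1' - Ei * e2'
  have f2 : ((Er - 1) ^ 2 + Ei ^ 2) * ω = -(4 * (A1 - A2) * Ei) := by
    linear_combination Ei * e1' - (Er - 1) * e2'
  have hmod : Er ^ 2 + Ei ^ 2 = Real.exp x ^ 2 := by
    rw [hEre, hEim]; linear_combination (Real.exp x) ^ 2 * Real.sin_sq_add_cos_sq y
  have hx0 : 0 < x := by
    have h1 : 0 < Er ^ 2 + Ei ^ 2 - 1 := by
      have h2 : 0 < 2 * (A1 - A2) * (Er ^ 2 + Ei ^ 2 - 1) := by rw [← f1]; positivity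
      have h3 : 0 < 2 * (A1 - A2) := by linarith
      exact pos_of_mul_pos_right h2 h3.le |> fun h => h
    rw [hmod] at h1
    by_contra hcon
    push Not at hcon
    have h2 : Real.exp x ≤ 1 := Real.exp_le_one_iff.2 hcon
    have h3 := Real.exp_pos x
    nlinarith
  -- the main inequality
  have hmain : 0 < s * σ - c * ω := by
    have h1 : 0 < s * (Real.exp x ^ 2 - 1) + 2 * c * (Real.exp x * Real.sin y) := by
      have hy2 : y = -(s * x / c) := by field_simp; linarith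
      have h2 : -(s * x / c) < Real.sin y := by
        rw [hy2, Real.sin_neg]
        have := Real.sin_lt (show 0 < s * x / c by positivity)
        linarith
      have h3 : -(s * x) < c * Real.sin y := by
        have := mul_lt_mul_of_pos_left h2 hc
        have h4 : c * -(s * x / c) = -(s * x) := by field_simp
        linarith
      have h4 : x < Real.sinh x := Real.self_lt_sinh_iff.2 hx0
      have h5 : Real.exp x ^ 2 - 1 = 2 * Real.exp x * Real.sinh x := by
        rw [Real.sinh_eq]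
        have h6 : Real.exp x * Real.exp (-x) = 1 := by rw [← Real.exp_add]; simp
        linear_combination h6
      have h7 := Real.exp_pos x
      rw [h5]
      have h8 : s * x < s * Real.sinh x := mul_lt_mul_of_pos_left h4 hs
      have h9 : 0 < Real.exp x * (s * Real.sinh x + c * Real.sin y) :=
        mul_pos h7 (by linarith)
      have h10 : s * (2 * Real.exp x * Real.sinh x) + 2 * c * (Real.exp x * Real.sin y)
          = 2 * (Real.exp x * (s * Real.sinh x + c * Real.sin y)) := by ring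
      rw [h10]
      linarith
    have h2 : ((Er - 1) ^ 2 + Ei ^ 2) * (s * σ - c * ω)
        = 2 * (A1 - A2) * (s * (Real.exp x ^ 2 - 1) + 2 * c * (Real.exp x * Real.sin y)) := by
      rw [← hmod, ← hEim]
      linear_combination s * f1 - c * f2
    have h3 : 0 < ((Er - 1) ^ 2 + Ei ^ 2) * (s * σ - c * ω) := by
      rw [h2]; positivity
    exact pos_of_mul_pos_right h3 hD.le |> fun h => h
  have hW : WW c s h A1 < -WW c s h A2 := by
    unfold WW
    rw [hσ, hω] at hmain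
    linarith
  have h5 : WW c s h A1 ^ 2 < (-WW c s h A2) ^ 2 := pow_lt_pow_left₀ hW hW1.le (by norm_num)
  rwa [neg_sq] at h5

/-! ### Slices at fixed `h` -/

theorem ns_of_lt {h A : ℝ} (hA : A < 1 - Real.sqrt h) : A ≠ 0 ∨ h ≠ 1 := by
  by_contra hcon
  push Not at hcon
  rw [hcon.1, hcon.2] at hA
  simp at hA

theorem ns_of_mem {h A : ℝ} (hA : A ∈ Ioo (1 - Real.sqrt h) (1 + Real.sqrt h)) :
    A ≠ 0 ∨ h ≠ 1 := by
  by_contra hcon
  push Not at hcon
  obtain ⟨h1, h2⟩ := hA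
  rw [hcon.1, hcon.2] at h1
  simp at h1

theorem WW_pos_of_mem {N c s L : ℝ} (hb : BC N c s L) {h A : ℝ} (hh : 0 < h)
    (hA : A ∈ Ioo (1 - Real.sqrt h) (1 + Real.sqrt h)) : 0 < WW c s h A := by
  obtain ⟨κ, hκ, h1⟩ := WW_sign hb (ns_of_mem hA)
  have h2 : (1 - A) ^ 2 < h := by
    have h3 : (1 - A) ^ 2 < Real.sqrt h ^ 2 := sq_lt_sq' (by linarith [hA.2]) (by linarith [hA.1])
    rwa [Real.sq_sqrt hh.le] at h3
  have h3 : 0 < κ * WW c s h A := by rw [← h1]; linarith
  exact pos_of_mul_pos_right h3 hκ.le |> fun h => h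

theorem WW_neg_of_lt {N c s L : ℝ} (hb : BC N c s L) {h A : ℝ} (hh : 0 < h)
    (hA : A < 1 - Real.sqrt h) : WW c s h A < 0 := by
  obtain ⟨κ, hκ, h1⟩ := WW_sign hb (ns_of_lt hA)
  have h2 : h < (1 - A) ^ 2 := by
    have h3 : Real.sqrt h ^ 2 < (1 - A) ^ 2 :=
      pow_lt_pow_left₀ (by linarith) (Real.sqrt_nonneg h) (by norm_num)
    rwa [Real.sq_sqrt hh.le] at h3
  have h3 : κ * WW c s h A < 0 := by rw [← h1]; linarith
  by_contra hcon
  push Not at hcon
  have := mul_nonneg hκ.le hcon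
  linarith

theorem TT_mono {N c s L : ℝ} (hb : BC N c s L) {h : ℝ} (hh : 0 < h) :
    StrictMonoOn (fun A => TT c s h A) (Icc (1 - Real.sqrt h) (1 + Real.sqrt h)) := by
  apply strictMonoOn_of_deriv_pos (convex_Icc _ _) (continuous_TT hb.c0 hb.s0 h).continuousOn
  intro A hA
  rw [interior_Icc] at hA
  have hns := ns_of_mem hA
  rw [(hasDerivAt_TT hb.c0 hb.s0 hns).deriv]
  have h1 := WW_pos_of_mem hb hh hA
  have h2 := qq_pos hb.c0 hb.s0 hns
  have := hb.c0
  have := hb.s0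
  positivity

theorem TT_anti {N c s L : ℝ} (hb : BC N c s L) {h : ℝ} (hh : 0 < h) :
    StrictAntiOn (fun A => TT c s h A) (Iic (1 - Real.sqrt h)) := by
  apply strictAntiOn_of_deriv_neg (convex_Iic _) (continuous_TT hb.c0 hb.s0 h).continuousOn
  intro A hA
  rw [interior_Iic] at hA
  have hns := ns_of_lt hA
  rw [(hasDerivAt_TT hb.c0 hb.s0 hns).deriv]
  have h1 := WW_neg_of_lt hb hh hA
  have h2 := qq_pos hb.c0 hb.s0 hns
  have h3 := hb.c0
  have h4 := hb.s0
  have h5 : 0 < 2 * c * s := by positivity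
  exact div_neg_of_neg_of_pos (mul_neg_of_pos_of_neg h5 h1) h2

/-- **(F2)**: equal `T` on both sides: `Z` is larger on the side `W > 0`. -/
theorem F2 {N c s L : ℝ} (hb : BC N c s L) {h A1 A2 : ℝ} (hh : 0 < h)
    (hA2 : A2 < 1 - Real.sqrt h) (hA1 : 1 - Real.sqrt h < A1) (hA1' : A1 ≤ 1 + Real.sqrt h)
    (hT : TT c s h A1 = TT c s h A2) : ZZ c s L h A2 < ZZ c s L h A1 := by
  have hc := hb.c0
  have hs := hb.s0
  have hmem : ∀ x ∈ Ioo (1 - Real.sqrt h) A1, x ∈ Ioo (1 - Real.sqrt h) (1 + Real.sqrt h) :=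
    fun x hx => ⟨hx.1, hx.2.trans_le hA1'⟩
  refine match_gt (T := fun A => TT c s h A) (Z := fun A => ZZ c s L h A)
    (T' := fun A => 2 * c * s * WW c s h A / qq c s h A) (u := fun A => uu N c s h A)
    (p := A2) (q := 1 - Real.sqrt h) (r := A1) hA2 hA1
    (continuous_TT hc hs h).continuousOn (continuous_ZZ hc hs L h).continuousOn
    (fun x hx => hasDerivAt_TT hc hs (ns_of_lt hx.2))
    (fun x hx => hasDerivAt_TT hc hs (ns_of_mem (hmem x hx)))
    (fun x hx => hasDerivAt_ZZ hb (ns_of_lt hx.2))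
    (fun x hx => hasDerivAt_ZZ hb (ns_of_mem (hmem x hx))) ?_ ?_ ?_ hT
  · intro x hx
    have h1 := WW_neg_of_lt hb hh hx.2
    have h2 := qq_pos hc hs (ns_of_lt hx.2)
    exact div_neg_of_neg_of_pos (mul_neg_of_pos_of_neg (by positivity) h1) h2
  · intro x hx
    have h1 := WW_pos_of_mem hb hh (hmem x hx)
    have h2 := qq_pos hc hs (ns_of_mem (hmem x hx))
    positivity
  · intro x1 hx1 x2 hx2 hx
    have h1 := klem hc hs (ns_of_mem (hmem x1 hx1)) (hx2.2.trans hx1.1)
      (WW_pos_of_mem hb hh (hmem x1 hx1)) hx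
    have h2 : 0 < N ^ 2 := by have := hb.N0; positivity
    simp only [uu]
    nlinarith

/-- **(F1)**: if `u ≥ c₀` on the slice `W > 0` and `T₂ ≤ T₁`, then `Z₁ - Z₂ > c₀ (T₁ - T₂)`. -/
theorem F1 {N c s L : ℝ} (hb : BC N c s L) {h A1 A2 c0 : ℝ} (hh : 0 < h)
    (hA2 : A2 < 1 - Real.sqrt h) (hA1 : 1 - Real.sqrt h ≤ A1) (hA1' : A1 ≤ 1 + Real.sqrt h)
    (hT : TT c s h A2 ≤ TT c s h A1)
    (hu : ∀ A ∈ Icc (1 - Real.sqrt h) A1, c0 ≤ uu N c s h A) :
    c0 * (TT c s h A1 - TT c s h A2) < ZZ c s L h A1 - ZZ c s L h A2 := by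
  have hc := hb.c0
  have hs := hb.s0
  have h0 : TT c s h (1 - Real.sqrt h) < TT c s h A2 :=
    TT_anti hb hh (mem_Iic.2 hA2.le) (mem_Iic.2 le_rfl) hA2
  obtain ⟨A3, hA3, hT3⟩ := intermediate_value_Icc hA1
    (continuous_TT hc hs h).continuousOn (show TT c s h A2 ∈ Icc _ _ from ⟨h0.le, hT⟩)
  have hT3' : TT c s h A3 = TT c s h A2 := hT3
  have hA3' : 1 - Real.sqrt h < A3 := by
    rcases eq_or_lt_of_le hA3.1 with h1 | h1
    · rw [← h1] at hT3'; linarith
    · exact h1
  have h1 := F2 hb hh hA2 hA3' (hA3.2.trans hA1') hT3'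
  have h2 : ZZ c s L h A3 - c0 * TT c s h A3 ≤ ZZ c s L h A1 - c0 * TT c s h A1 := by
    have hmono : MonotoneOn (fun A => ZZ c s L h A - c0 * TT c s h A) (Icc A3 A1) := by
      apply monotoneOn_of_deriv_nonneg (convex_Icc _ _)
      · exact ((continuous_ZZ hc hs L h).sub
          ((continuous_TT hc hs h).const_mul c0)).continuousOn
      · intro x hx
        rw [interior_Icc] at hx
        have hns := ns_of_mem (A := x) ⟨hA3'.trans hx.1, hx.2.trans_le hA1'⟩
        exact ((hasDerivAt_ZZ hb hns).sub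
          ((hasDerivAt_TT hc hs hns).const_mul c0)).differentiableAt.differentiableWithinAt
      · intro x hx
        rw [interior_Icc] at hx
        have hmx : x ∈ Ioo (1 - Real.sqrt h) (1 + Real.sqrt h) :=
          ⟨hA3'.trans hx.1, hx.2.trans_le hA1'⟩
        have hns := ns_of_mem hmx
        have hd : HasDerivAt (fun A => ZZ c s L h A - c0 * TT c s h A) _ x :=
          (hasDerivAt_ZZ hb hns).sub ((hasDerivAt_TT hc hs hns).const_mul c0)
        rw [hd.deriv]
        have h3 := WW_pos_of_mem hb hh hmx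
        have h4 := qq_pos hc hs hns
        have h5 := hu x ⟨(hA3'.trans hx.1).le, hx.2.le⟩
        have h6 : 0 ≤ 2 * c * s * WW c s h x / qq c s h x := by positivity
        nlinarith
    exact hmono ⟨le_rfl, hA3.2⟩ ⟨hA3.2, le_rfl⟩ hA3.2
  rw [hT3'] at h2
  nlinarith

/-- `g > 0` in the chart, on the side `W < 0`. -/
theorem g_pos {N c s L : ℝ} (hb : BC N c s L) {h A : ℝ} (hns : A ≠ 0 ∨ h ≠ 1) (hA : A < 1)
    (hW : WW c s h A < 0) (hu : 0 ≤ uu N c s h A) :
    0 < SS c s h A * (1 - A) - L * A * WW c s h A := by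
  have hL := L_gt hb
  have hS := SS_pos hb.c0 hb.s0 hb.cs hns
  have hS2 := SS_sq c s h A hb.cs
  have hlev := chart_level hb h A
  have hN2 : N ^ 2 = L ^ 2 - 1 := by
    obtain ⟨-, -, -, h2, h3, h4⟩ := hb
    rw [h4]
    have h5 : (c ^ 2 + s ^ 2) ^ 2 = 1 + 4 * c ^ 2 * s ^ 2 := by rw [h2]; ring
    have h6 : 4 * N ^ 2 * c ^ 2 * s ^ 2 = 1 := by
      have : (2 * N * c * s) ^ 2 = 1 := by rw [h3]; ring
      linarith [this]
    have h7 : ((c ^ 2 + s ^ 2) * N) ^ 2 = N ^ 2 + 4 * N ^ 2 * c ^ 2 * s ^ 2 := by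
      rw [mul_pow, h5]; ring
    rw [h7, h6]; ring
  have h1 := KB_g (k := 0) (l := L) (U := SS c s h A) (Y := -(2 * A)) (w := -WW c s h A)
    (by norm_num) (by linarith) (by nlinarith) (by rw [hS2]; ring) hS (by linarith)
    (by simp only [fA]; linarith) ?_
  · simp only [fg, fS, fA] at h1
    nlinarith
  · simp only [fu, fh, fS, fA, eta]
    unfold uu at hu
    rw [hN2] at hu
    nlinarith

/-- `W' = 4 c s g / q`. -/
theorem WW_deriv_num {N c s L : ℝ} (hb : BC N c s L) (h A : ℝ) :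
    c * (4 * c * s * pp c s h A - 2 * A * vv c s h A)
        - s * (2 * A * pp c s h A + 4 * c * s * vv c s h A)
      = 4 * c * s * (SS c s h A * (1 - A) - L * A * WW c s h A) := by
  obtain ⟨-, -, -, h2, h3, h4⟩ := hb
  have hd1 : A ^ 2 - (pp c s h A ^ 2 - vv c s h A ^ 2) / 4 = 0 := by
    rw [diff_sq]; ring
  rw [h4]
  unfold SS WW
  generalize pp c s h A = p at *
  generalize vv c s h A = w at *
  have hD1 : A ^ 2 - (p ^ 2 - w ^ 2) / 4 = 0 := hd1
  linear_combination (0) * hD1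
    + (4 * A * c ^ 2 * N * s * w - 4 * A * c * N * s ^ 2 * p + 4 * A * s * p) * h2
    + (4 * A * c * s ^ 2 * w + 2 * A * c * w - 4 * A * s ^ 3 * p - 2 * A * s * p) * h3

/-- **(5)**: `u` increases along the piece `[A₂, 1 - √h]`. -/
theorem uu_le {N c s L : ℝ} (hb : BC N c s L) {h A2 : ℝ} (hh : 0 < h)
    (hu : 0 < uu N c s h A2) : ∀ A ∈ Icc A2 (1 - Real.sqrt h), uu N c s h A2 ≤ uu N c s h A := by
  have hc := hb.c0
  have hs := hb.s0
  have hN := hb.N0
  intro x hx
  by_contra hcon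
  push Not at hcon
  have huc : Continuous (fun A => uu N c s h A) := by
    have := continuous_WW hc hs h
    unfold uu; fun_prop
  obtain ⟨v, hv1, hv2⟩ := exists_between (max_lt hcon hu)
  have hv0 : 0 < v := (le_max_right _ _).trans_lt hv1
  have hvx : uu N c s h x < v := (le_max_left _ _).trans_lt hv1
  have hcomp : IsCompact (Icc A2 x ∩ (fun A => uu N c s h A) ⁻¹' (Iic v)) :=
    isCompact_Icc.inter_right (isClosed_Iic.preimage huc)
  have hne : (Icc A2 x ∩ (fun A => uu N c s h A) ⁻¹' (Iic v)).Nonempty :=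
    ⟨x, ⟨hx.1, le_rfl⟩, hvx.le⟩
  obtain ⟨y, hy, hmin⟩ := hcomp.exists_isMinOn hne continuousOn_id
  have hyv : uu N c s h y ≤ v := hy.2
  have hyA : A2 < y := by
    rcases eq_or_lt_of_le hy.1.1 with h1 | h1
    · rw [← h1] at hyv; linarith
    · exact h1
  have hbefore : ∀ A ∈ Ioo A2 y, v < uu N c s h A := by
    intro A hA
    by_contra h1
    push Not at h1
    have : y ≤ A := hmin ⟨⟨hA.1.le, hA.2.le.trans hy.1.2⟩, h1⟩
    exact absurd hA.2 (not_lt.2 this)
  have hyeq : uu N c s h y = v := by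
    refine le_antisymm hyv ?_
    have : (𝓝[Ioo A2 y] y).NeBot := by
      rw [← mem_closure_iff_nhdsWithin_neBot, closure_Ioo hyA.ne]
      exact ⟨hyA.le, le_rfl⟩
    refine ge_of_tendsto (huc.continuousAt.mono_left nhdsWithin_le_nhds : Tendsto _ (𝓝[Ioo A2 y] y) _) ?_
    filter_upwards [self_mem_nhdsWithin] with A hA
    exact (hbefore A hA).le
  have hyb : y < 1 - Real.sqrt h := by
    refine lt_of_le_of_ne (hy.1.2.trans hx.2) fun h1 => ?_
    have h2 : uu N c s h A2 ≤ 2 * h := by unfold uu; nlinarith [sq_nonneg (WW c s h A2)]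
    have h3 : WW c s h y = 0 := by
      by_cases hns : y ≠ 0 ∨ h ≠ 1
      · obtain ⟨κ, hκ, h4⟩ := WW_sign hb hns
        have h5 : h - (1 - y) ^ 2 = 0 := by
          rw [h1]
          have := Real.sq_sqrt hh.le
          nlinarith
        rw [h5] at h4
        exact (mul_eq_zero.1 h4.symm).resolve_left hκ.ne'
      · push Not at hns
        have hp0 : pp c s h y = 0 := by
          unfold pp qq rr; rw [hns.1, hns.2]; simp
        have hv0 : vv c s h y = 0 := by
          unfold vv; rw [hp0, div_zero]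
        unfold WW; rw [hp0, hv0]; ring
    have h4 : uu N c s h y = 2 * h := by unfold uu; rw [h3]; ring
    linarith
  have hns := ns_of_lt hyb
  have hWy := WW_neg_of_lt hb hh hyb
  have hsq : 0 < Real.sqrt h := Real.sqrt_pos.2 hh
  have hg := g_pos hb hns (by linarith) hWy (by rw [hyeq]; exact hv0.le)
  have hq := qq_pos hc hs hns
  have hd : HasDerivAt (fun A => uu N c s h A)
      (-(N ^ 2 * (2 * WW c s h y * (4 * c * s * (SS c s h y * (1 - y) - L * y * WW c s h y)
        / qq c s h y)))) y := by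
    have h1 := ((hasDerivAt_WW hc hs hns).pow 2).const_mul (N ^ 2)
    have h2 := h1.const_sub (2 * h)
    refine (h2.congr_deriv ?_).congr_of_eventuallyEq (Eventually.of_forall fun A => ?_)
    · rw [WW_deriv_num hb]
      simp only [Nat.cast_ofNat]
      ring
    · simp only [uu, Pi.pow_apply]
  have hpos : 0 < -(N ^ 2 * (2 * WW c s h y * (4 * c * s * (SS c s h y * (1 - y)
      - L * y * WW c s h y) / qq c s h y))) := by
    have h1 : 0 < 4 * c * s * (SS c s h y * (1 - y) - L * y * WW c s h y) / qq c s h y := by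
      positivity
    have h2 : 2 * WW c s h y * (4 * c * s * (SS c s h y * (1 - y)
      - L * y * WW c s h y) / qq c s h y) < 0 := mul_neg_of_neg_of_pos (by linarith) h1
    have h3 : 0 < N ^ 2 := by positivity
    have := mul_neg_of_pos_of_neg h3 h2
    linarith
  -- left slopes are nonpositive
  have h2 := (hasDerivAt_iff_tendsto_slope.1 hd).mono_left
    (nhdsWithin_mono y (fun s hs => ne_of_lt hs) : 𝓝[<] y ≤ 𝓝[≠] y)
  have h3 : ∀ᶠ A in 𝓝[<] y, slope (fun A => uu N c s h A) y A ≤ 0 := by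
    filter_upwards [Ioo_mem_nhdsLT hyA] with A hA
    rw [slope_def_field]
    have h4 := hbefore A hA
    exact div_nonpos_of_nonneg_of_nonpos (by rw [hyeq]; linarith) (by linarith [hA.2])
  have h4 := le_of_tendsto h2 h3
  linarith

/-- **(F3)**: `T₁ < T₂` and `u₂ > 0` imply `u₁ > 0`. -/
theorem F3 {N c s L : ℝ} (hb : BC N c s L) {h A1 A2 : ℝ} (hh : 0 < h)
    (hA2 : A2 < 1 - Real.sqrt h) (hA1 : 1 - Real.sqrt h < A1) (hA1' : A1 < 1 + Real.sqrt h)
    (hT : TT c s h A1 < TT c s h A2) (hu : 0 < uu N c s h A2) : 0 < uu N c s h A1 := by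
  have hc := hb.c0
  have hs := hb.s0
  have h0 : TT c s h (1 - Real.sqrt h) < TT c s h A1 :=
    TT_mono hb hh ⟨le_rfl, by linarith [Real.sqrt_nonneg h]⟩ ⟨hA1.le, hA1'.le⟩ hA1
  obtain ⟨A3, hA3, hT3⟩ := intermediate_value_Icc' hA2.le
    (continuous_TT hc hs h).continuousOn (show TT c s h A1 ∈ Icc _ _ from ⟨h0.le, hT.le⟩)
  have hT3' : TT c s h A3 = TT c s h A1 := hT3
  have hA3' : A3 < 1 - Real.sqrt h := by
    rcases eq_or_lt_of_le hA3.2 with h1 | h1
    · rw [h1] at hT3'; linarith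
    · exact h1
  have h1 := klem hc hs (ns_of_mem ⟨hA1, hA1'⟩) (hA3'.trans hA1)
    (WW_pos_of_mem hb hh ⟨hA1, hA1'⟩) hT3'.symm
  have h2 := uu_le hb hh hu A3 hA3
  have h3 : uu N c s h A3 < uu N c s h A1 := by
    have : 0 < N ^ 2 := by have := hb.N0; positivity
    unfold uu
    nlinarith
  linarith

end B92.KB
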