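import Mathlib
import Pool.Agent.Lib.B92.KBc

/-!
# MP_b92fc8_an, module KBd: `|k| < 1`, `L > 1`: the primitives along a solution
-/

set_option autoImplicit false

open Set Filter Topology

noncomputable section

namespace B92.KB

/-- Normalisation: `n² = 1 - k²`, `l = n L`. -/
structure NC (k l n N c s L : ℝ) : Prop where
  n0 : 0 < n
  n2 : n ^ 2 = 1 - k ^ 2
  hl : l = n * L
  bc : BC N c s L

theorem exists_NC {k l : ℝ} (hk : k ^ 2 < 1) (hl : 0 < l) (he : 1 - k ^ 2 < l ^ 2) :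
    ∃ n N c s L, NC k l n N c s L := by
  have h0 : 0 < 1 - k ^ 2 := by linarith
  have hn : 0 < Real.sqrt (1 - k ^ 2) := Real.sqrt_pos.2 h0
  have hn2 : Real.sqrt (1 - k ^ 2) ^ 2 = 1 - k ^ 2 := Real.sq_sqrt h0.le
  have hL : 1 < l / Real.sqrt (1 - k ^ 2) := by
    rw [lt_div_iff₀ hn, one_mul]
    apply lt_of_pow_lt_pow_left₀ 2 hl.le
    rw [hn2]; exact he
  obtain ⟨N, c, s, hb⟩ := exists_BC hL
  exact ⟨_, N, c, s, _, hn, hn2, by field_simp, hb⟩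

/-- A point of the cone in the chart. -/
theorem chart_point {k l n N c s L U Y w : ℝ} (hc : NC k l n N c s L)
    (hcone : U ^ 2 = Y ^ 2 + w ^ 2) (hU : 0 < U) :
    pp c s (fh k l U Y w) (fA k U Y) = c * fS k U Y + s * (n * w) ∧
      vv c s (fh k l U Y w) (fA k U Y) = c * (n * w) + s * fS k U Y := by
  have hk : k ^ 2 < 1 := by have := hc.n2; have := hc.n0; nlinarith [sq_nonneg n, pow_pos hc.n0 2]
  have hS := fS_pos hk hcone hU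
  have hS2 := cone_S (k := k) hcone
  rw [← hc.n2] at hS2
  obtain ⟨hN0, hs0, hc0, h2, h3, h4⟩ := hc.bc
  have hh : fh k l U Y w = (1 - fA k U Y) ^ 2 + (n * w) ^ 2 / 2 + L * (n * w) * fS k U Y / 2 := by
    unfold fh; rw [hc.hl, ← hc.n2]; ring
  rw [hh]
  generalize fS k U Y = S at *
  generalize fA k U Y = A at *
  generalize hW : n * w = W at *
  have hS2' : S ^ 2 = 4 * A ^ 2 + W ^ 2 := by rw [hS2, ← hW]; ring
  set h := (1 - A) ^ 2 + W ^ 2 / 2 + L * W * S / 2 with hhd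
  have hWS : |W| ≤ S := by
    apply abs_le_of_sq_le_sq _ hS.le
    nlinarith [sq_nonneg A]
  have hcs : s < c := by nlinarith
  have hP0 : 0 < c * S + s * W := by
    have := (abs_le.1 hWS).1
    nlinarith
  have hdiff : (c * S + s * W) ^ 2 - (c * W + s * S) ^ 2 = 4 * A ^ 2 := by
    linear_combination (c ^ 2 - s ^ 2) * hS2' + 4 * A ^ 2 * h2
  have hprod : (c * S + s * W) * (c * W + s * S) = rr c s h A := by
    unfold rr
    rw [hhd, h4]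
    linear_combination (c * s) * hS2' - (c ^ 2 + s ^ 2) * S * W * h3
  have hq : qq c s h A = (c * S + s * W) ^ 2 - 2 * A ^ 2 := by
    unfold qq
    rw [← hprod]
    have h5 : 4 * A ^ 4 + ((c * S + s * W) * (c * W + s * S)) ^ 2
        = ((c * S + s * W) ^ 2 - 2 * A ^ 2) ^ 2 := by
      have h6 : (c * W + s * S) ^ 2 = (c * S + s * W) ^ 2 - 4 * A ^ 2 := by linarith
      rw [mul_pow, h6]; ring
    rw [h5]
    apply Real.sqrt_sq
    nlinarith [sq_nonneg (c * W + s * S), sq_nonneg A]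
  have hp : pp c s h A = c * S + s * W := by
    unfold pp
    rw [hq, show 2 * A ^ 2 + ((c * S + s * W) ^ 2 - 2 * A ^ 2) = (c * S + s * W) ^ 2 by ring]
    exact Real.sqrt_sq hP0.le
  refine ⟨hp, ?_⟩
  unfold vv
  rw [hp, ← hprod]
  field_simp

theorem chart_SS {k l n N c s L U Y w : ℝ} (hc : NC k l n N c s L)
    (hcone : U ^ 2 = Y ^ 2 + w ^ 2) (hU : 0 < U) :
    SS c s (fh k l U Y w) (fA k U Y) = fS k U Y := by
  obtain ⟨h1, h2⟩ := chart_point hc hcone hU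
  unfold SS; rw [h1, h2]
  linear_combination (fS k U Y) * hc.bc.cs

theorem chart_WW {k l n N c s L U Y w : ℝ} (hc : NC k l n N c s L)
    (hcone : U ^ 2 = Y ^ 2 + w ^ 2) (hU : 0 < U) :
    WW c s (fh k l U Y w) (fA k U Y) = n * w := by
  obtain ⟨h1, h2⟩ := chart_point hc hcone hU
  unfold WW; rw [h1, h2]
  linear_combination (n * w) * hc.bc.cs

theorem chart_ns {k l n N c s L U Y w : ℝ} (hc : NC k l n N c s L)
    (hcone : U ^ 2 = Y ^ 2 + w ^ 2) (hU : 0 < U) : fA k U Y ≠ 0 ∨ fh k l U Y w ≠ 1 := by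
  by_contra hcon
  push Not at hcon
  have hk : k ^ 2 < 1 := by have := hc.n2; have := hc.n0; nlinarith [sq_nonneg n, pow_pos hc.n0 2]
  have hS := fS_pos hk hcone hU
  have h1 := chart_SS hc hcone hU
  rw [hcon.1, hcon.2] at h1
  have hp0 : pp c s 1 0 = 0 := by unfold pp qq rr; simp
  have hv0 : vv c s 1 0 = 0 := by unfold vv; rw [hp0, div_zero]
  unfold SS at h1
  rw [hp0, hv0] at h1
  linarith

theorem chart_uu {k l n N c s L U Y w : ℝ} (hc : NC k l n N c s L)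
    (hcone : U ^ 2 = Y ^ 2 + w ^ 2) (hU : 0 < U) :
    uu N c s (fh k l U Y w) (fA k U Y) = fu k l U Y w := by
  unfold uu fu eta
  rw [chart_WW hc hcone hU, ← hc.n2, hc.hl]
  have hN2 : N ^ 2 = L ^ 2 - 1 := by
    obtain ⟨-, -, -, h2, h3, h4⟩ := hc.bc
    rw [h4]
    have h5 : (c ^ 2 + s ^ 2) ^ 2 = 1 + 4 * c ^ 2 * s ^ 2 := by rw [h2]; ring
    have h6 : 4 * N ^ 2 * c ^ 2 * s ^ 2 = 1 := by
      have : (2 * N * c * s) ^ 2 = 1 := by rw [h3]; ring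
      linarith [this]
    have h7 : ((c ^ 2 + s ^ 2) * N) ^ 2 = N ^ 2 + 4 * N ^ 2 * c ^ 2 * s ^ 2 := by
      rw [mul_pow, h5]; ring
    rw [h7, h6]; ring
  rw [hN2]; ring

/-! ### Along a solution -/

/-- Derivatives of `A` and `S` along a solution. -/
theorem sol_A {k l : ℝ} {U Y w : ℝ → ℝ} (hs : Sol k l U Y w) (t : ℝ) :
    HasDerivAt (fun s => fA k (U s) (Y s))
      ((k * XU k l (U t) (Y t) (w t) - XY k l (U t) (Y t) (w t)) / 2) t :=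
  (((hs.dU t).const_mul k).sub (hs.dY t)).div_const 2

theorem sol_S {k l : ℝ} {U Y w : ℝ → ℝ} (hs : Sol k l U Y w) (t : ℝ) :
    HasDerivAt (fun s => fS k (U s) (Y s))
      (XU k l (U t) (Y t) (w t) - k * XY k l (U t) (Y t) (w t)) t :=
  (hs.dU t).sub ((hs.dY t).const_mul k)

theorem nA {k l n L U Y w : ℝ} (hn : n ≠ 0) (hn2 : n ^ 2 = 1 - k ^ 2) (hl : l = n * L)
    (hc : U ^ 2 = Y ^ 2 + w ^ 2) :
    n * ((k * XU k l U Y w - XY k l U Y w) / 2)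
      = (n * w) * (1 - 3 * fA k U Y) - L * fA k U Y * fS k U Y
        + k * ((n * w) * fS k U Y + L * ((n * w) ^ 2 + 2 * fA k U Y ^ 2)) := by
  apply mul_left_cancel₀ hn
  have h1 : n * (n * ((k * XU k l U Y w - XY k l U Y w) / 2))
      = (1 - k ^ 2) * ((k * XU k l U Y w - XY k l U Y w) / 2) := by rw [← hn2]; ring
  have h2 : n * ((n * w) * (1 - 3 * fA k U Y) - L * fA k U Y * fS k U Y
        + k * ((n * w) * fS k U Y + L * ((n * w) ^ 2 + 2 * fA k U Y ^ 2)))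
      = (1 - k ^ 2) * w * (1 - 3 * fA k U Y) - l * fA k U Y * fS k U Y
        + k * ((1 - k ^ 2) * w * fS k U Y + l * ((1 - k ^ 2) * w ^ 2 + 2 * fA k U Y ^ 2)) := by
    rw [hl, ← hn2]; ring
  rw [h1, h2]
  simp only [XU, XY, fA, fS]
  linear_combination (-1 / 2 * k ^ 3 * l + 1 / 2 * k * l) * hc

theorem nS {k l n L U Y w : ℝ} (hn : n ≠ 0) (hn2 : n ^ 2 = 1 - k ^ 2) (hl : l = n * L)
    (hc : U ^ 2 = Y ^ 2 + w ^ 2) :
    n * (XU k l U Y w - k * XY k l U Y w)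
      = -2 * (n * w) * fS k U Y + L * ((n * w) ^ 2 - 4 * fA k U Y ^ 2)
        + k * (2 * (n * w) * (1 + fA k U Y) + 2 * L * fA k U Y * fS k U Y) := by
  apply mul_left_cancel₀ hn
  have h1 : n * (n * (XU k l U Y w - k * XY k l U Y w))
      = (1 - k ^ 2) * (XU k l U Y w - k * XY k l U Y w) := by rw [← hn2]; ring
  have h2 : n * (-2 * (n * w) * fS k U Y + L * ((n * w) ^ 2 - 4 * fA k U Y ^ 2)
        + k * (2 * (n * w) * (1 + fA k U Y) + 2 * L * fA k U Y * fS k U Y))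
      = -2 * (1 - k ^ 2) * w * fS k U Y + l * ((1 - k ^ 2) * w ^ 2 - 4 * fA k U Y ^ 2)
        + k * (2 * (1 - k ^ 2) * w * (1 + fA k U Y) + 2 * l * fA k U Y * fS k U Y) := by
    rw [hl, ← hn2]; ring
  rw [h1, h2]
  simp only [XU, XY, fA, fS]
  linear_combination (0) * hc

theorem nW {k l n L U Y w : ℝ} (hn2 : n ^ 2 = 1 - k ^ 2) (hl : l = n * L)
    (hc : U ^ 2 = Y ^ 2 + w ^ 2) :
    n * (n * Xw k l U Y w)
      = 2 * fh k l U Y w - 2 + 2 * fA k U Y ^ 2 - 3 * (n * w) ^ 2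
        + 2 * k * (fS k U Y * (1 - fA k U Y) - L * fA k U Y * (n * w)) := by
  have h1 : n * (n * Xw k l U Y w) = (1 - k ^ 2) * Xw k l U Y w := by rw [← hn2]; ring
  have h2 : 2 * fh k l U Y w - 2 + 2 * fA k U Y ^ 2 - 3 * (n * w) ^ 2
        + 2 * k * (fS k U Y * (1 - fA k U Y) - L * fA k U Y * (n * w))
      = 2 * fh k l U Y w - 2 + 2 * fA k U Y ^ 2 - 3 * (1 - k ^ 2) * w ^ 2
        + 2 * k * (fS k U Y * (1 - fA k U Y) - l * fA k U Y * w) := by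
    rw [hl, ← hn2]; ring
  rw [h1, h2]
  simp only [Xw, fA, fS, fh]
  linear_combination (2 * k ^ 2 - 2) * hc

/-- The polynomial identity behind `Z' = (5 T + C) h'`. -/
theorem sol_identity {k N c s L A S W h u nA nS nW : ℝ} (hb : BC N c s L)
    (hS2 : S ^ 2 = 4 * A ^ 2 + W ^ 2)
    (hh : h = (1 - A) ^ 2 + W ^ 2 / 2 + L * W * S / 2) (hu : u = 2 * h - N ^ 2 * W ^ 2)
    (hA : nA = W * (1 - 3 * A) - L * A * S + k * (W * S + L * (W ^ 2 + 2 * A ^ 2)))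
    (hS : nS = -2 * W * S + L * (W ^ 2 - 4 * A ^ 2) + k * (2 * W * (1 + A) + 2 * L * A * S))
    (hW : nW = 2 * h - 2 + 2 * A ^ 2 - 3 * W ^ 2 + 2 * k * (S * (1 - A) - L * A * W)) :
    -5 * (c * ((A - (c * S + s * W) / 2) * (nA + (c * nS + s * nW) / 2)
          - (2 * c * s - (c * W + s * S) / 2) * ((c * nW + s * nS) / 2))
        - s * ((A - (c * S + s * W) / 2) * ((c * nW + s * nS) / 2)
          + (2 * c * s - (c * W + s * S) / 2) * (nA + (c * nS + s * nW) / 2)))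
      + (-((nA * S + A * nS) / 2) - L * (nA * W + A * nW)
        + (1 - 5 * (2 * c * s) ^ 2 / 2) * nS - 5 * L * (2 * c * s) ^ 2 / 2 * nW)
      = (-k - 5 * c * s ^ 2) * (-(W * u)) := by
  obtain ⟨-, -, -, h2, h3, h4⟩ := hb
  obtain ⟨p, hp⟩ : ∃ p, p = c * S + s * W := ⟨_, rfl⟩
  obtain ⟨v, hv⟩ : ∃ v, v = c * W + s * S := ⟨_, rfl⟩
  have hSp : S = c * p - s * v := by rw [hp, hv]; linear_combination (-S) * h2
  have hWp : W = c * v - s * p := by rw [hp, hv]; linear_combination (-W) * h2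
  have hD1 : A ^ 2 - (p ^ 2 - v ^ 2) / 4 = 0 := by
    rw [hp, hv]; linear_combination (-(c ^ 2 - s ^ 2) / 4) * hS2 - A ^ 2 * h2
  have hh2 : h = 1 - 2 * A + N * p * v / 2 := by
    rw [hh, hSp, hWp, h4]
    linear_combination (1) * hD1 + (1 / 2 * c ^ 2 * N * p * v - 1 / 2 * c * N * s * p ^ 2 - 1 / 2 * c * N * s * v ^ 2 - 1 / 2 *
      N * s ^ 2 * p * v + 1 / 2 * N * p * v + 1 / 2 * v ^ 2) * h2
      + (c * s * p * v - 1 / 2 * s ^ 2 * p ^ 2 - 1 / 2 * s ^ 2 * v ^ 2 - 1 / 4 * p ^ 2 - 1 / 4 * v ^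
      2) * h3
  rw [← hp, ← hv, hu, hA, hS, hW, hh2, hSp, hWp, h4]
  linear_combination (10 * A * c ^ 4 * N - 10 * A * c ^ 3 * N * k - 10 * A * c * N * s ^ 2 * k - 10 * A * N * s ^
    4 - 5 * c ^ 5 * N * p * k - 20 * c ^ 4 * N * s ^ 2 + 5 * c ^ 4 * N * s * v * k + 20 * c ^ 3
    * N * s ^ 2 * k + 5 * c ^ 3 * N * s * v + 5 * c ^ 3 * N * p * k + 10 * c ^ 3 * s - 5 * c ^ 3
    * v * k - 20 * c ^ 2 * N * s ^ 4 + 5 * c ^ 2 * N * s ^ 2 * p - 5 * c ^ 2 * N * s * v * k + 5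
    * c ^ 2 * s * p * k + 25 / 2 * c ^ 2 * v + 5 * c * N * s ^ 4 * p * k + 20 * c * N * s ^ 4 *
    k + 5 * c * N * s ^ 3 * v + 5 * c * N * s ^ 2 * p * k + 10 * c * s ^ 3 + 5 * c * s ^ 2 * v *
    k - 15 * c * s * p - c * v * k - 5 * N * s ^ 5 * v * k + 5 * N * s ^ 4 * p - 5 * N * s ^ 3 *
    v * k - 5 * s ^ 3 * p * k - 5 / 2 * s ^ 2 * v + s * p * k) * hD1
    + (20 * A * c ^ 5 * N ^ 2 * s ^ 2 * v * k - 20 * A * c ^ 4 * N ^ 2 * s ^ 3 * p * k + A * c ^ 4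
    * N ^ 2 * p * v - 10 * A * c ^ 4 * N * s * v * k - 5 / 2 * A * c ^ 4 * N * v ^ 2 + 60 * A *
    c ^ 3 * N ^ 2 * s ^ 4 * v * k + 20 * A * c ^ 3 * N ^ 2 * s ^ 2 * v * k - A * c ^ 3 * N ^ 2 *
    s * p ^ 2 - A * c ^ 3 * N ^ 2 * s * v ^ 2 + 30 * A * c ^ 3 * N * s ^ 2 * p * k + 5 * A * c ^
    3 * N * s * p * v + 5 / 2 * A * c ^ 3 * N * p ^ 2 * k - 5 / 2 * A * c ^ 3 * N * v ^ 2 * k -
    60 * A * c ^ 2 * N ^ 2 * s ^ 5 * p * k - 20 * A * c ^ 2 * N ^ 2 * s ^ 3 * p * k + 4 * A * c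
    ^ 2 * N ^ 2 * s ^ 2 * p * v + A * c ^ 2 * N ^ 2 * p * v - 50 * A * c ^ 2 * N * s ^ 3 * v * k
    - 5 / 2 * A * c ^ 2 * N * s ^ 2 * p ^ 2 - 10 * A * c ^ 2 * N * s ^ 2 * p - 5 / 2 * A * c ^ 2
    * N * s ^ 2 * v ^ 2 + 40 * A * c ^ 2 * N * s ^ 2 - 10 * A * c ^ 2 * N * s * v * k + 1 / 2 *
    A * c ^ 2 * N * p ^ 2 + 1 / 2 * A * c ^ 2 * N * v ^ 2 - 10 * A * c ^ 2 * s * p * k + 5 * A *
    c ^ 2 * p * v + 80 * A * c * N ^ 2 * s ^ 6 * v * k + 80 * A * c * N ^ 2 * s ^ 4 * v * k - 3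
    * A * c * N ^ 2 * s ^ 3 * p ^ 2 - 3 * A * c * N ^ 2 * s ^ 3 * v ^ 2 + 20 * A * c * N ^ 2 * s
    ^ 2 * v * k - A * c * N ^ 2 * s * p ^ 2 - A * c * N ^ 2 * s * v ^ 2 + 70 * A * c * N * s ^ 4
    * p * k + 5 * A * c * N * s ^ 3 * p * v + 10 * A * c * N * s ^ 3 * v - 5 / 2 * A * c * N * s
    ^ 2 * p ^ 2 * k + 30 * A * c * N * s ^ 2 * p * k + 5 / 2 * A * c * N * s ^ 2 * v ^ 2 * k - 2
    * A * c * N * s * p * v + 10 * A * c * s ^ 2 * v * k - 5 * A * c * s * p ^ 2 - 5 * A * c * s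
    * v ^ 2 - 20 * A * c * s - 5 * A * c * v * k - A * N ^ 2 * s ^ 4 * p * v + A * N ^ 2 * s ^ 2
    * p * v - 40 * A * N * s ^ 5 * v * k - 5 / 2 * A * N * s ^ 4 * p ^ 2 - 40 * A * N * s ^ 3 *
    v * k + 3 / 2 * A * N * s ^ 2 * p ^ 2 + 3 / 2 * A * N * s ^ 2 * v ^ 2 - 10 * A * N * s * v *
    k + 1 / 2 * A * N * p ^ 2 + 1 / 2 * A * N * v ^ 2 - 20 * A * s ^ 3 * p * k + 5 * A * s ^ 2 *
    p * v - 10 * A * s ^ 2 * v + 5 / 2 * A * s * p ^ 2 * k - 5 * A * s * p * k - 5 / 2 * A * s *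
    v ^ 2 * k - c ^ 5 * N ^ 2 * v ^ 3 * k + 3 * c ^ 4 * N ^ 2 * s * p * v ^ 2 * k + 30 * c ^ 4 *
    N * s ^ 2 * v ^ 2 + 5 / 4 * c ^ 4 * N * p * v ^ 2 - 3 * c ^ 3 * N ^ 2 * s ^ 2 * p ^ 2 * v *
    k - 3 * c ^ 3 * N ^ 2 * s ^ 2 * v ^ 3 * k - c ^ 3 * N ^ 2 * v ^ 3 * k - 60 * c ^ 3 * N * s ^
    3 * p * v - 20 * c ^ 3 * N * s ^ 2 * p * k + 10 * c ^ 3 * N * s ^ 2 * v ^ 2 * k - 5 / 2 * c
    ^ 3 * N * s * p ^ 2 * v - 5 / 2 * c ^ 3 * N * s * v ^ 3 - 5 / 4 * c ^ 3 * N * p ^ 3 * k + 9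
    / 4 * c ^ 3 * N * p * v ^ 2 * k - 15 * c ^ 3 * s * v ^ 2 + c ^ 2 * N ^ 2 * s ^ 3 * p ^ 3 * k
    + 9 * c ^ 2 * N ^ 2 * s ^ 3 * p * v ^ 2 * k - 10 * c ^ 2 * N ^ 2 * s ^ 2 * p * v + 5 * c ^ 2
    * N ^ 2 * s ^ 2 * v ^ 3 + 3 * c ^ 2 * N ^ 2 * s * p * v ^ 2 * k + 30 * c ^ 2 * N * s ^ 4 * p
    ^ 2 + 60 * c ^ 2 * N * s ^ 4 * v ^ 2 - 20 * c ^ 2 * N * s ^ 3 * p * v * k + 20 * c ^ 2 * N *
    s ^ 3 * v * k + 5 / 4 * c ^ 2 * N * s ^ 2 * p ^ 3 - 5 * c ^ 2 * N * s ^ 2 * p ^ 2 + 25 / 4 *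
    c ^ 2 * N * s ^ 2 * p * v ^ 2 + 35 * c ^ 2 * N * s ^ 2 * v ^ 2 - 3 / 4 * c ^ 2 * N * s * p ^
    2 * v * k - 9 / 4 * c ^ 2 * N * s * v ^ 3 * k + 5 / 4 * c ^ 2 * N * p * v ^ 2 + 30 * c ^ 2 *
    s ^ 2 * p * v + 10 * c ^ 2 * s * p * k - 5 / 2 * c ^ 2 * p ^ 2 * v + 15 / 4 * c ^ 2 * v ^ 3
    - 9 * c * N ^ 2 * s ^ 4 * p ^ 2 * v * k - 4 * c * N ^ 2 * s ^ 4 * v ^ 3 * k - 15 * c * N ^ 2
    * s ^ 3 * p * v ^ 2 - 3 * c * N ^ 2 * s ^ 2 * p ^ 2 * v * k - 4 * c * N ^ 2 * s ^ 2 * v ^ 3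
    * k - 120 * c * N * s ^ 5 * p * v + 10 * c * N * s ^ 4 * p ^ 2 * k - 40 * c * N * s ^ 4 * p
    * k + 20 * c * N * s ^ 4 * v ^ 2 * k - 5 * c * N * s ^ 3 * p ^ 2 * v - 60 * c * N * s ^ 3 *
    p * v - 5 * c * N * s ^ 3 * v ^ 3 - 1 / 4 * c * N * s ^ 2 * p ^ 3 * k + 5 * c * N * s ^ 2 *
    p ^ 2 * k + 21 / 4 * c * N * s ^ 2 * p * v ^ 2 * k - 20 * c * N * s ^ 2 * p * k + 5 * c * N
    * s ^ 2 * v ^ 2 * k - 5 / 4 * c * N * s * p ^ 2 * v + 5 * c * N * s * p * v - 15 / 4 * c * N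
    * s * v ^ 3 + c * N * p * v ^ 2 * k - 15 * c * s ^ 3 * p ^ 2 - 30 * c * s ^ 3 * v ^ 2 + 10 *
    c * s ^ 2 * p * v * k - 10 * c * s ^ 2 * v * k + 5 / 2 * c * s * p ^ 3 + 5 / 2 * c * s * p ^
    2 - 35 / 2 * c * s * v ^ 2 + 3 / 4 * c * p ^ 2 * v * k + 5 / 4 * c * v ^ 3 * k - N ^ 2 * s ^
    5 * p ^ 3 * k + N ^ 2 * s ^ 3 * p ^ 3 * k + 5 / 4 * N * s ^ 4 * p ^ 3 + 33 / 4 * N * s ^ 3 *
    p ^ 2 * v * k + 3 / 4 * N * s ^ 3 * v ^ 3 * k + 35 / 4 * N * s ^ 2 * p * v ^ 2 - N * s * p ^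
    2 * v * k + 2 * N * s * v ^ 3 * k + 60 * s ^ 4 * p * v - 10 * s ^ 3 * p ^ 2 * k + 20 * s ^ 3
    * p * k - 10 * s ^ 3 * v ^ 2 * k - 15 / 4 * s ^ 2 * p ^ 2 * v + 30 * s ^ 2 * p * v + 5 / 2 *
    s ^ 2 * v ^ 3 - 3 / 4 * s * p ^ 3 * k - 5 / 2 * s * p ^ 2 * k - 21 / 4 * s * p * v ^ 2 * k +
    10 * s * p * k - 5 / 2 * s * v ^ 2 * k + 5 / 8 * p ^ 2 * v + 5 / 8 * v ^ 3) * h2
    + (-40 * A * c * N * s ^ 6 * p * k - 40 * A * c * N * s ^ 4 * p * k + 4 * A * c * N * s ^ 3 * p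
    * v - 10 * A * c * N * s ^ 2 * p * k + 2 * A * c * N * s * p * v - 20 * A * c * s ^ 4 * v *
    k - 10 * A * c * s ^ 3 * p + 40 * A * c * s ^ 3 - 10 * A * c * s ^ 2 * v * k - 5 * A * c * s
    * p + 20 * A * c * s + 40 * A * N * s ^ 7 * v * k + 80 * A * N * s ^ 5 * v * k - 2 * A * N *
    s ^ 4 * p ^ 2 - 2 * A * N * s ^ 4 * v ^ 2 + 50 * A * N * s ^ 3 * v * k - 2 * A * N * s ^ 2 *
    p ^ 2 - 2 * A * N * s ^ 2 * v ^ 2 + 10 * A * N * s * v * k - 1 / 2 * A * N * p ^ 2 - 1 / 2 *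
    A * N * v ^ 2 + 20 * A * s ^ 5 * p * k + 10 * A * s ^ 4 * v - 5 * A * s ^ 3 * p ^ 2 * k + 30
    * A * s ^ 3 * p * k + 5 * A * s ^ 3 * v ^ 2 * k + 5 * A * s ^ 2 * v - 5 / 2 * A * s * p ^ 2
    * k + 10 * A * s * p * k + 5 / 2 * A * s * v ^ 2 * k + 2 * c * N * s ^ 4 * p ^ 3 * k + 6 * c
    * N * s ^ 4 * p * v ^ 2 * k + 15 / 2 * c * N * s ^ 3 * p ^ 2 * v - 10 * c * N * s ^ 3 * p *
    v + 5 / 2 * c * N * s ^ 3 * v ^ 3 + 6 * c * N * s ^ 2 * p * v ^ 2 * k - 5 * c * N * s * p *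
    v + 5 / 2 * c * N * s * v ^ 3 + 30 * c * s ^ 5 * p ^ 2 + 30 * c * s ^ 5 * v ^ 2 - 20 * c * s
    ^ 4 * p * v * k + 20 * c * s ^ 4 * v * k + 10 * c * s ^ 3 * p ^ 2 + 5 * c * s ^ 3 * p * v ^
    2 + 50 * c * s ^ 3 * v ^ 2 - 6 * c * s ^ 2 * p ^ 2 * v * k - 10 * c * s ^ 2 * p * v * k - 2
    * c * s ^ 2 * v ^ 3 * k + 10 * c * s ^ 2 * v * k + 5 / 4 * c * s * p ^ 3 - 5 / 2 * c * s * p
    ^ 2 - 15 / 4 * c * s * p * v ^ 2 + 35 / 2 * c * s * v ^ 2 - 1 / 2 * c * p ^ 2 * v * k - 3 /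
    2 * c * v ^ 3 * k - 6 * N * s ^ 5 * p ^ 2 * v * k - 2 * N * s ^ 5 * v ^ 3 * k - 5 / 2 * N *
    s ^ 4 * p ^ 3 - 15 / 2 * N * s ^ 4 * p * v ^ 2 - 6 * N * s ^ 3 * p ^ 2 * v * k - 4 * N * s ^
    3 * v ^ 3 * k - 15 / 2 * N * s ^ 2 * p * v ^ 2 - 2 * N * s * v ^ 3 * k - 60 * s ^ 6 * p * v
    + 10 * s ^ 5 * p ^ 2 * k - 20 * s ^ 5 * p * k + 10 * s ^ 5 * v ^ 2 * k - 5 / 2 * s ^ 4 * p ^
    2 * v - 90 * s ^ 4 * p * v - 5 / 2 * s ^ 4 * v ^ 3 + 2 * s ^ 3 * p ^ 3 * k + 10 * s ^ 3 * p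
    ^ 2 * k + 6 * s ^ 3 * p * v ^ 2 * k - 30 * s ^ 3 * p * k + 10 * s ^ 3 * v ^ 2 * k + 15 / 4 *
    s ^ 2 * p ^ 2 * v - 30 * s ^ 2 * p * v - 15 / 4 * s ^ 2 * v ^ 3 + 1 / 2 * s * p ^ 3 * k + 5
    / 2 * s * p ^ 2 * k + 11 / 2 * s * p * v ^ 2 * k - 10 * s * p * k + 5 / 2 * s * v ^ 2 * k -
    5 / 8 * p ^ 2 * v - 5 / 8 * v ^ 3) * h3

/-- **`Z` along a solution.** -/
theorem hasDerivAt_ZZ_sol {k l n N c s L : ℝ} (hc : NC k l n N c s L) {U Y w : ℝ → ℝ}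
    (hs : Sol k l U Y w) (t : ℝ) :
    HasDerivAt (fun t => ZZ c s L (fh k l (U t) (Y t) (w t)) (fA k (U t) (Y t)))
      ((5 * TT c s (fh k l (U t) (Y t) (w t)) (fA k (U t) (Y t)) + (-k - 5 * c * s ^ 2))
        * (-(w t) * fu k l (U t) (Y t) (w t))) t := by
  have hF0 := fun t => FF_mem hc.bc.c0 hc.bc.s0 (fh k l (U t) (Y t) (w t)) (fA k (U t) (Y t))
  set dA := (k * XU k l (U t) (Y t) (w t) - XY k l (U t) (Y t) (w t)) / 2 with hdA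
  set dS := XU k l (U t) (Y t) (w t) - k * XY k l (U t) (Y t) (w t) with hdS
  set dW := n * Xw k l (U t) (Y t) (w t) with hdW
  have hA : HasDerivAt (fun s => fA k (U s) (Y s)) dA t := sol_A hs t
  have hS : HasDerivAt (fun s => fS k (U s) (Y s)) dS t := sol_S hs t
  have hW : HasDerivAt (fun s => n * w s) dW t := (hs.dw t).const_mul n
  have hH := hasDerivAt_h hs t
  have hp : ∀ t, pp c s (fh k l (U t) (Y t) (w t)) (fA k (U t) (Y t))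
      = c * fS k (U t) (Y t) + s * (n * w t) := fun t =>
    (chart_point hc (hs.cone t) (hs.pos t)).1
  have hv : ∀ t, vv c s (fh k l (U t) (Y t) (w t)) (fA k (U t) (Y t))
      = c * (n * w t) + s * fS k (U t) (Y t) := fun t =>
    (chart_point hc (hs.cone t) (hs.pos t)).2
  -- derivative of `F`
  have hF : HasDerivAt (fun t => FF c s (fh k l (U t) (Y t) (w t)) (fA k (U t) (Y t)))
      (((dA + (c * dS + s * dW) / 2 : ℝ) : ℂ) + (((c * dW + s * dS) / 2 : ℝ) : ℂ) * Complex.I) t := by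
    have e1 : HasDerivAt (fun t => fA k (U t) (Y t) + (c * fS k (U t) (Y t) + s * (n * w t)) / 2)
        (dA + (c * dS + s * dW) / 2) t :=
      hA.add (((hS.const_mul c).add (hW.const_mul s)).div_const 2)
    have e2 : HasDerivAt (fun t => 2 * c * s + (c * (n * w t) + s * fS k (U t) (Y t)) / 2)
        ((c * dW + s * dS) / 2) t :=
      (((hW.const_mul c).add (hS.const_mul s)).div_const 2).const_add _
    have e3 := e1.ofReal_comp.add (e2.ofReal_comp.mul_const Complex.I)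
    refine e3.congr_of_eventuallyEq (Eventually.of_forall fun r => ?_)
    simp only [FF, hp r, hv r, Pi.add_apply]
  have hlog := hF.clog_real (hF0 t)
  set z := (((dA + (c * dS + s * dW) / 2 : ℝ) : ℂ) + (((c * dW + s * dS) / 2 : ℝ) : ℂ) * Complex.I)
    / FF c s (fh k l (U t) (Y t) (w t)) (fA k (U t) (Y t)) with hz
  have hlr : HasDerivAt (fun t => lr c s (fh k l (U t) (Y t) (w t)) (fA k (U t) (Y t))) z.re t :=
    Complex.reCLM.hasFDerivAt.comp_hasDerivAt t hlog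
  have hli : HasDerivAt (fun t => li c s (fh k l (U t) (Y t) (w t)) (fA k (U t) (Y t))) z.im t :=
    Complex.imCLM.hasFDerivAt.comp_hasDerivAt t hlog
  have hT : HasDerivAt (fun t => TT c s (fh k l (U t) (Y t) (w t)) (fA k (U t) (Y t)))
      (-(2 * c * s) * (c * z.im + s * z.re)) t :=
    ((hli.const_mul c).add (hlr.const_mul s)).const_mul _
  have hAlg : HasDerivAt (fun t => Alg c s L (fA k (U t) (Y t))
      (SS c s (fh k l (U t) (Y t) (w t)) (fA k (U t) (Y t)))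
      (WW c s (fh k l (U t) (Y t) (w t)) (fA k (U t) (Y t))))
      (-((dA * fS k (U t) (Y t) + fA k (U t) (Y t) * dS) / 2)
        - L * (dA * (n * w t) + fA k (U t) (Y t) * dW)
        + (1 - 5 * (2 * c * s) ^ 2 / 2) * dS - 5 * L * (2 * c * s) ^ 2 / 2 * dW) t := by
    have e1 := (((((hA.mul hS).div_const 2).neg.sub ((hA.mul hW).const_mul L)).add
      (hS.const_mul (1 - 5 * (2 * c * s) ^ 2 / 2))).sub
      (hW.const_mul (5 * L * (2 * c * s) ^ 2 / 2)))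
    refine e1.congr_of_eventuallyEq (Eventually.of_forall fun r => ?_)
    simp only [Alg, chart_SS hc (hs.cone r) (hs.pos r), chart_WW hc (hs.cone r) (hs.pos r),
      Pi.add_apply, Pi.sub_apply, Pi.neg_apply, Pi.mul_apply]
    ring
  have hZ := ((((hlr.const_mul c).sub (hli.const_mul s)).const_mul (5 * (2 * c * s) ^ 2)).add
    (((hH.sub_const 1).const_mul 5).mul hT)).add hAlg
  refine (hZ.congr_deriv ?_).congr_of_eventuallyEq (Eventually.of_forall fun r => ?_)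
  swap
  · simp only [ZZ, Pi.add_apply, Pi.sub_apply, Pi.mul_apply]
  -- the algebra
  have hn := hc.n0.ne'
  have hFT := FF_mul_FT c s (fh k l (U t) (Y t) (w t)) (fA k (U t) (Y t))
  have hFne : FF c s (fh k l (U t) (Y t) (w t)) (fA k (U t) (Y t)) ≠ 0 :=
    Complex.slitPlane_ne_zero (hF0 t)
  have hzF : z * FF c s (fh k l (U t) (Y t) (w t)) (fA k (U t) (Y t))
      = (((dA + (c * dS + s * dW) / 2 : ℝ) : ℂ) + (((c * dW + s * dS) / 2 : ℝ) : ℂ) * Complex.I) := by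
    rw [hz]; field_simp
  have hkey : z * (-((2 * c * s : ℝ) : ℂ) ^ 2
      - ((2 * c * s * (fh k l (U t) (Y t) (w t) - 1) : ℝ) : ℂ) * Complex.I)
      = (((dA + (c * dS + s * dW) / 2 : ℝ) : ℂ) + (((c * dW + s * dS) / 2 : ℝ) : ℂ) * Complex.I)
        * FT c s (fh k l (U t) (Y t) (w t)) (fA k (U t) (Y t)) := by
    rw [← hzF, ← hFT]; ring
  have hre := congrArg Complex.re hkey
  have him := congrArg Complex.im hkey
  unfold FT at hre him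
  rw [hp t, hv t] at hre him
  simp only [Complex.add_re, Complex.mul_re, Complex.ofReal_re, Complex.ofReal_im,
      Complex.I_re, Complex.I_im, Complex.sub_re, Complex.sub_im, Complex.add_im,
      Complex.mul_im, Complex.neg_re, Complex.neg_im, pow_two] at hre him
  have hk2 : n ^ 2 = 1 - k ^ 2 := hc.n2
  have hS2 := cone_S (k := k) (hs.cone t)
  rw [← hk2] at hS2
  have hh : fh k l (U t) (Y t) (w t) = (1 - fA k (U t) (Y t)) ^ 2 + (n * w t) ^ 2 / 2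
      + L * (n * w t) * fS k (U t) (Y t) / 2 := by
    unfold fh; rw [hc.hl, ← hk2]; ring
  have huu : fu k l (U t) (Y t) (w t) = 2 * fh k l (U t) (Y t) (w t) - N ^ 2 * (n * w t) ^ 2 := by
    rw [← chart_uu hc (hs.cone t) (hs.pos t)]
    unfold uu
    rw [chart_WW hc (hs.cone t) (hs.pos t)]
  have hid := sol_identity (k := k) hc.bc (A := fA k (U t) (Y t)) (S := fS k (U t) (Y t))
    (W := n * w t) (by rw [hS2]; ring) hh huu
    (nA hn hk2 hc.hl (hs.cone t)) (nS hn hk2 hc.hl (hs.cone t)) (nW hk2 hc.hl (hs.cone t))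
  rw [← hdA, ← hdS, ← hdW] at hid
  apply mul_left_cancel₀ hn
  generalize TT c s (fh k l (U t) (Y t) (w t)) (fA k (U t) (Y t)) = T at *
  generalize fh k l (U t) (Y t) (w t) = h at *
  generalize fu k l (U t) (Y t) (w t) = u at *
  generalize fS k (U t) (Y t) = S at *
  generalize fA k (U t) (Y t) = A at *
  generalize z.re = zr at *
  generalize z.im = zi at *
  clear_value dA dS dW
  linear_combination hid - 5 * n * c * hre + 5 * n * s * him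

end B92.KB
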