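import Mathlib
import Pool.Agent.Lib.B92.KBd
import Pool.Agent.Lib.B92.Cmp
import Pool.Agent.Lib.B92.Slice
import Pool.Agent.Lib.B92.Assemble

/-!
# MP_b92fc8_an, module KBe: `|k| < 1`, `η < 0`: the comparison
-/

set_option autoImplicit false

open Set Filter Topology

noncomputable section

namespace B92.KB

/-- `T` along a solution is continuous. -/
theorem continuous_TT_sol {k l n N c s L : ℝ} (hc : NC k l n N c s L) {U Y w : ℝ → ℝ}
    (hs : Sol k l U Y w) :
    Continuous (fun t => TT c s (fh k l (U t) (Y t) (w t)) (fA k (U t) (Y t))) := by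
  have hU := hs.contU
  have hY := hs.contY
  have hw := hs.contw
  have hA : Continuous (fun t => fA k (U t) (Y t)) := by unfold fA; fun_prop
  have hS : Continuous (fun t => fS k (U t) (Y t)) := by unfold fS; fun_prop
  have hF : Continuous (fun t => FF c s (fh k l (U t) (Y t) (w t)) (fA k (U t) (Y t))) := by
    have e : (fun t => FF c s (fh k l (U t) (Y t) (w t)) (fA k (U t) (Y t)))
        = fun t => ((fA k (U t) (Y t) + (c * fS k (U t) (Y t) + s * (n * w t)) / 2 : ℝ) : ℂ)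
          + ((2 * c * s + (c * (n * w t) + s * fS k (U t) (Y t)) / 2 : ℝ) : ℂ) * Complex.I := by
      funext t
      rw [FF, (chart_point hc (hs.cone t) (hs.pos t)).1, (chart_point hc (hs.cone t) (hs.pos t)).2]
    rw [e]
    fun_prop
  have hlog : Continuous (fun t => Complex.log
      (FF c s (fh k l (U t) (Y t) (w t)) (fA k (U t) (Y t)))) := by
    rw [continuous_iff_continuousAt]
    intro t
    exact hF.continuousAt.clog (FF_mem hc.bc.c0 hc.bc.s0 _ _)
  have h1 := Complex.continuous_re.comp hlog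
  have h2 := Complex.continuous_im.comp hlog
  unfold TT lr li
  exact ((h2.const_mul c).add (h1.const_mul s)).const_mul _

theorem continuous_ZZ_sol {k l n N c s L : ℝ} (hc : NC k l n N c s L) {U Y w : ℝ → ℝ}
    (hs : Sol k l U Y w) :
    Continuous (fun t => ZZ c s L (fh k l (U t) (Y t) (w t)) (fA k (U t) (Y t))) :=
  continuous_iff_continuousAt.2 fun t => (hasDerivAt_ZZ_sol hc hs t).continuousAt

theorem continuous_H {k l : ℝ} {U Y w : ℝ → ℝ} (hs : Sol k l U Y w) :
    Continuous (fun t => fh k l (U t) (Y t) (w t)) :=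
  continuous_iff_continuousAt.2 fun t => (hasDerivAt_h hs t).continuousAt

theorem continuous_u {k l : ℝ} {U Y w : ℝ → ℝ} (hs : Sol k l U Y w) :
    Continuous (fun t => fu k l (U t) (Y t) (w t)) :=
  continuous_iff_continuousAt.2 fun t => (hasDerivAt_u hs t).continuousAt

/-- In `w > 0` the point lies between the rays. -/
theorem mem_of_pos {k l n N c s L U Y w : ℝ} (hc : NC k l n N c s L)
    (hcone : U ^ 2 = Y ^ 2 + w ^ 2) (hU : 0 < U) (hw : 0 < w) (hh : 0 < fh k l U Y w) :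
    fA k U Y ∈ Ioo (1 - Real.sqrt (fh k l U Y w)) (1 + Real.sqrt (fh k l U Y w)) := by
  obtain ⟨κ, hκ, h1⟩ := WW_sign hc.bc (chart_ns hc hcone hU)
  rw [chart_WW hc hcone hU] at h1
  have h2 : 0 < κ * (n * w) := mul_pos hκ (mul_pos hc.n0 hw)
  have h3 : (1 - fA k U Y) ^ 2 < Real.sqrt (fh k l U Y w) ^ 2 := by
    rw [Real.sq_sqrt hh.le]; linarith
  have h4 := abs_lt_of_sq_lt_sq h3 (Real.sqrt_nonneg _)
  obtain ⟨h5, h6⟩ := abs_lt.1 h4
  constructor <;> linarith

/-- In `w < 0`, `A < 1` the point lies on the piece `A < 1 - √h`. -/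
theorem lt_of_neg {k l n N c s L U Y w : ℝ} (hc : NC k l n N c s L)
    (hcone : U ^ 2 = Y ^ 2 + w ^ 2) (hU : 0 < U) (hw : w < 0) (hh : 0 < fh k l U Y w)
    (hA : fA k U Y < 1) : fA k U Y < 1 - Real.sqrt (fh k l U Y w) := by
  obtain ⟨κ, hκ, h1⟩ := WW_sign hc.bc (chart_ns hc hcone hU)
  rw [chart_WW hc hcone hU] at h1
  have h2 : κ * (n * w) < 0 := mul_neg_of_pos_of_neg hκ (mul_neg_of_pos_of_neg hc.n0 hw)
  have h3 : Real.sqrt (fh k l U Y w) ^ 2 < (1 - fA k U Y) ^ 2 := by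
    rw [Real.sq_sqrt hh.le]; linarith
  have h4 := lt_of_pow_lt_pow_left₀ 2 (by linarith : 0 ≤ 1 - fA k U Y) h3
  linarith

/-- On `w = 0`, `A < 1`: `A = 1 - √h`. -/
theorem eq_of_zero {k l U Y w : ℝ} (hw : w = 0) (hA : fA k U Y < 1) :
    fA k U Y = 1 - Real.sqrt (fh k l U Y w) := by
  rw [h_at_zero hw, Real.sqrt_sq (by linarith)]
  ring

/-- `u` is continuous in the chart at a non singular point. -/
theorem continuousAt_uu {N c s h A : ℝ} (hc : 0 < c) (hs : 0 < s) (hns : A ≠ 0 ∨ h ≠ 1) :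
    ContinuousAt (fun q : ℝ × ℝ => uu N c s q.1 q.2) (h, A) := by
  have h1 : Continuous (fun q : ℝ × ℝ => rr c s q.1 q.2) := by unfold rr; fun_prop
  have h2 : Continuous (fun q : ℝ × ℝ => pp c s q.1 q.2) := by unfold pp qq rr; fun_prop
  have h3 : ContinuousAt (fun q : ℝ × ℝ => vv c s q.1 q.2) (h, A) :=
    h1.continuousAt.div h2.continuousAt (pp_pos hc hs hns).ne'
  have h4 : ContinuousAt (fun q : ℝ × ℝ => WW c s q.1 q.2) (h, A) :=
    (h3.const_mul c).sub (h2.continuousAt.const_mul s)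
  exact (continuousAt_fst.const_mul 2).sub ((h4.pow 2).const_mul (N ^ 2))

/-- The data of the comparison, in the common frame. -/
structure Pair (k l n N c s L : ℝ) (U Y w : ℝ → ℝ) (a b : ℝ) (V X z : ℝ → ℝ) (α β : ℝ) :
    Prop where
  nc : NC k l n N c s L
  arc : Arc k l U Y w a b
  Aa : fA k (U a) (Y a) < 1
  sol' : Sol k l V X z
  αβ : α < β
  zα : z α = 0
  zβ : z β = 0
  zneg : ∀ σ ∈ Ioo α β, z σ < 0
  hpos' : ∀ σ ∈ Icc α β, 0 < fh k l (V σ) (X σ) (z σ)
  upos' : ∀ σ ∈ Icc α β, 0 < fu k l (V σ) (X σ) (z σ)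
  A' : ∀ σ ∈ Icc α β, fA k (V σ) (X σ) < 1
  U0 : U b = V α
  Y0 : Y b = X α

section
variable {k l n N c s L : ℝ} {U Y w : ℝ → ℝ} {a b : ℝ} {V X z : ℝ → ℝ} {α β : ℝ}

/-- `H` along the first arc. -/
private def H1 (k l : ℝ) (U Y w : ℝ → ℝ) (t : ℝ) : ℝ := fh k l (U t) (Y t) (w t)

/-- `A` along an arc. -/
private def A1 (k : ℝ) (U Y : ℝ → ℝ) (t : ℝ) : ℝ := fA k (U t) (Y t)

/-- `T` along an arc. -/
private def T1 (c s k l : ℝ) (U Y w : ℝ → ℝ) (t : ℝ) : ℝ :=
  TT c s (fh k l (U t) (Y t) (w t)) (fA k (U t) (Y t))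

/-- `Z` along an arc. -/
private def Z1 (c s L k l : ℝ) (U Y w : ℝ → ℝ) (t : ℝ) : ℝ :=
  ZZ c s L (fh k l (U t) (Y t) (w t)) (fA k (U t) (Y t))

/-- The inverse function of `H` on the second arc. -/
theorem Pair.exists_tau (P : Pair k l n N c s L U Y w a b V X z α β) :
    H1 k l V X z α < H1 k l V X z β ∧ ∃ τ : ℝ → ℝ, Continuous τ ∧ τ (H1 k l V X z α) = α ∧
      τ (H1 k l V X z β) = β ∧
      (∀ h ∈ Icc (H1 k l V X z α) (H1 k l V X z β), τ h ∈ Icc α β ∧ H1 k l V X z (τ h) = h) ∧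
      (∀ h ∈ Ioo (H1 k l V X z α) (H1 k l V X z β), τ h ∈ Ioo α β ∧
        HasDerivAt (fun h => Z1 c s L k l V X z (τ h))
          (5 * T1 c s k l V X z (τ h) + (-k - 5 * c * s ^ 2)) h) := by
  have hd : ∀ x, HasDerivAt (H1 k l V X z) (-(z x) * fu k l (V x) (X x) (z x)) x := fun x =>
    hasDerivAt_h P.sol' x
  have hcont : ContinuousOn (H1 k l V X z) (Icc α β) := fun x _ =>
    (hd x).continuousAt.continuousWithinAt
  have hpos : ∀ x ∈ Ioo α β, 0 < -(z x) * fu k l (V x) (X x) (z x) := fun x hx =>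
    mul_pos (by have := P.zneg x hx; linarith) (P.upos' x ⟨hx.1.le, hx.2.le⟩)
  obtain ⟨τ, h1, h2, h3, -, h5, h6⟩ := exists_inv P.αβ hcont (fun x _ => hd x) hpos
  have hlt : H1 k l V X z α < H1 k l V X z β := by
    have hmono : StrictMonoOn (H1 k l V X z) (Icc α β) := by
      apply strictMonoOn_of_deriv_pos (convex_Icc _ _) hcont
      intro x hx
      rw [interior_Icc] at hx
      rw [(hd x).deriv]
      exact hpos x hx
    exact hmono ⟨le_rfl, P.αβ.le⟩ ⟨P.αβ.le, le_rfl⟩ P.αβ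
  refine ⟨hlt, τ, h1, h2, h3, h5, fun h hh => ⟨(h6 h hh).1, ?_⟩⟩
  have h7 := (h6 h hh).2
  have h8 : HasDerivAt (Z1 c s L k l V X z) _ (τ h) := hasDerivAt_ZZ_sol P.nc P.sol' (τ h)
  have h9 := h8.comp h h7
  refine h9.congr_deriv ?_
  have h10 := (hpos (τ h) (h6 h hh).1).ne'
  rw [mul_assoc, mul_inv_cancel₀ h10, mul_one]
  rfl

/-- The exit point. -/
theorem Pair.exit_point (P : Pair k l n N c s L U Y w a b V X z α β) :
    H1 k l U Y w b = H1 k l V X z α ∧ A1 k U Y b = A1 k V X α ∧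
      T1 c s k l U Y w b = T1 c s k l V X z α ∧ Z1 c s L k l U Y w b = Z1 c s L k l V X z α := by
  have h1 : fh k l (U b) (Y b) (w b) = fh k l (V α) (X α) (z α) := by
    rw [P.arc.wb, P.zα, P.U0, P.Y0]
  have h2 : fA k (U b) (Y b) = fA k (V α) (X α) := by rw [P.U0, P.Y0]
  refine ⟨h1, h2, ?_, ?_⟩
  · simp only [T1]; rw [h1, h2]
  · simp only [Z1]; rw [h1, h2]

/-- Position on the first arc. -/
theorem Pair.pos1 (P : Pair k l n N c s L U Y w a b V X z α β) {t : ℝ} (ht : t ∈ Ioo a b) :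
    A1 k U Y t ∈ Ioo (1 - Real.sqrt (H1 k l U Y w t)) (1 + Real.sqrt (H1 k l U Y w t)) :=
  mem_of_pos P.nc (P.arc.sol.cone t) (P.arc.sol.pos t) (P.arc.wpos t ht)
    (P.arc.hpos t ⟨ht.1.le, ht.2.le⟩)

/-- Position on the second arc. -/
theorem Pair.pos2 (P : Pair k l n N c s L U Y w a b V X z α β) {σ : ℝ} (hσ : σ ∈ Ioo α β) :
    A1 k V X σ < 1 - Real.sqrt (H1 k l V X z σ) :=
  lt_of_neg P.nc (P.sol'.cone σ) (P.sol'.pos σ) (P.zneg σ hσ)
    (P.hpos' σ ⟨hσ.1.le, hσ.2.le⟩) (P.A' σ ⟨hσ.1.le, hσ.2.le⟩)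

/-- **Start of the comparison.** -/
theorem Pair.start (P : Pair k l n N c s L U Y w a b V X z α β) {τ : ℝ → ℝ}
    (hτc : Continuous τ) (hτα : τ (H1 k l V X z α) = α)
    (hτ : ∀ h ∈ Icc (H1 k l V X z α) (H1 k l V X z β), τ h ∈ Icc α β ∧ H1 k l V X z (τ h) = h)
    (hτd : ∀ h ∈ Ioo (H1 k l V X z α) (H1 k l V X z β), τ h ∈ Ioo α β ∧
        HasDerivAt (fun h => Z1 c s L k l V X z (τ h))
          (5 * T1 c s k l V X z (τ h) + (-k - 5 * c * s ^ 2)) h)
    (h12 : H1 k l V X z α < H1 k l V X z β) :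
    ∃ d, a < d ∧ d < b ∧ ∀ r ∈ Ico d b, H1 k l V X z α < H1 k l U Y w r ∧
      H1 k l U Y w r < H1 k l V X z β ∧
      T1 c s k l U Y w r < T1 c s k l V X z (τ (H1 k l U Y w r)) ∧
      0 < fu k l (U r) (Y r) (w r) := by
  have hc := P.nc.bc.c0
  have hs := P.nc.bc.s0
  obtain ⟨e1, e2, e3, e4⟩ := P.exit_point
  set h1 := H1 k l V X z α with hh1
  set h2 := H1 k l V X z β with hh2
  have hab := P.arc.lt
  have h1pos : 0 < h1 := P.hpos' α ⟨le_rfl, P.αβ.le⟩
  have hHc : Continuous (H1 k l U Y w) := continuous_H P.arc.sol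
  have huc : Continuous (fun t => fu k l (U t) (Y t) (w t)) := continuous_u P.arc.sol
  have hwc : Continuous w := P.arc.sol.contw
  have hAc : Continuous (A1 k U Y) := by
    have := P.arc.sol.contU; have := P.arc.sol.contY
    unfold A1 fA; fun_prop
  have hAb : A1 k U Y b = 1 - Real.sqrt h1 := by
    rw [e2]
    exact eq_of_zero P.zα (P.A' α ⟨le_rfl, P.αβ.le⟩)
  have hub : fu k l (U b) (Y b) (w b) = 2 * h1 := by
    have : fh k l (U b) (Y b) (w b) = h1 := e1
    unfold fu; rw [this, P.arc.wb]; ring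
  -- the chart near the exit
  have hnsb : A1 k U Y b ≠ 0 ∨ h1 ≠ 1 := by
    have := chart_ns P.nc (P.arc.sol.cone b) (P.arc.sol.pos b)
    rw [show fh k l (U b) (Y b) (w b) = h1 from e1] at this
    exact this
  have hcu := continuousAt_uu (N := N) hc hs hnsb
  have huu : uu N c s h1 (A1 k U Y b) = 2 * h1 := by
    have := chart_uu P.nc (P.arc.sol.cone b) (P.arc.sol.pos b)
    rw [show fh k l (U b) (Y b) (w b) = h1 from e1] at this
    rw [← hub]; exact this
  have hev : ∀ᶠ q in 𝓝 (h1, A1 k U Y b), h1 < uu N c s q.1 q.2 := by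
    apply hcu.eventually (lt_mem_nhds _)
    simp only [huu]; linarith
  obtain ⟨ε, hε, hball⟩ := Metric.eventually_nhds_iff.1 hev
  have hball' : ∀ h A, |h - h1| < ε → |A - A1 k U Y b| < ε → h1 < uu N c s h A := by
    intro h A h3 h4
    apply hball (y := (h, A))
    rw [Prod.dist_eq, Real.dist_eq, Real.dist_eq]
    exact max_lt h3 h4
  -- neighbourhoods of `b`
  have n1 : ∀ᶠ r in 𝓝 b, |H1 k l U Y w r - h1| < ε := by
    have := hHc.tendsto b
    rw [show H1 k l U Y w b = h1 from e1] at this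
    exact this.eventually (Metric.ball_mem_nhds h1 hε)
  have n2 : ∀ᶠ r in 𝓝 b, |A1 k U Y r - A1 k U Y b| < ε :=
    (hAc.tendsto b).eventually (Metric.ball_mem_nhds _ hε)
  have n3 : ∀ᶠ r in 𝓝 b, |(1 - Real.sqrt (H1 k l U Y w r)) - A1 k U Y b| < ε := by
    have h3 : Continuous (fun r => 1 - Real.sqrt (H1 k l U Y w r)) :=
      continuous_const.sub (Real.continuous_sqrt.comp hHc)
    have h4 := h3.tendsto b
    have h5 : 1 - Real.sqrt (H1 k l U Y w b) = A1 k U Y b := by rw [e1, hAb]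
    simp only [h5] at h4
    exact h4.eventually (Metric.ball_mem_nhds _ hε)
  have n4 : ∀ᶠ r in 𝓝 b, 0 < fu k l (U r) (Y r) (w r) := by
    apply huc.continuousAt.eventually (lt_mem_nhds _)
    simp only [hub]; linarith
  have n5 : ∀ᶠ r in 𝓝 b, H1 k l U Y w r < h2 := by
    apply hHc.continuousAt.eventually (gt_mem_nhds _)
    rw [e1]; exact h12
  obtain ⟨δ, hδ, hnear⟩ := Metric.eventually_nhds_iff.1 (n1.and (n2.and (n3.and (n4.and n5))))
  set d := max ((a + b) / 2) (b - δ / 2) with hd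
  have hda : a < d := lt_of_lt_of_le (by linarith) (le_max_left _ _)
  have hdb : d < b := max_lt (by linarith) (by linarith)
  have hnear' : ∀ r ∈ Icc d b, |H1 k l U Y w r - h1| < ε ∧ |A1 k U Y r - A1 k U Y b| < ε ∧
      |(1 - Real.sqrt (H1 k l U Y w r)) - A1 k U Y b| < ε ∧
      0 < fu k l (U r) (Y r) (w r) ∧ H1 k l U Y w r < h2 := by
    intro r hr
    apply hnear
    rw [Real.dist_eq, abs_sub_comm, abs_of_nonneg (by linarith [hr.2])]
    have := le_max_right ((a + b) / 2) (b - δ / 2)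
    linarith [hr.1]
  have hH' : ∀ r, HasDerivAt (H1 k l U Y w) (-(w r) * fu k l (U r) (Y r) (w r)) r := fun r =>
    hasDerivAt_h P.arc.sol r
  have hwu : ∀ r ∈ Ico d b, 0 < w r * fu k l (U r) (Y r) (w r) := fun r hr => by
    rcases eq_or_lt_of_le hr.1 with h3 | h3
    · exact mul_pos (P.arc.wpos r ⟨hda.trans_le hr.1, hr.2⟩) (hnear' r ⟨hr.1, hr.2.le⟩).2.2.2.1
    · exact mul_pos (P.arc.wpos r ⟨hda.trans h3, hr.2⟩) (hnear' r ⟨hr.1, hr.2.le⟩).2.2.2.1
  have hanti : StrictAntiOn (H1 k l U Y w) (Icc d b) := by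
    apply strictAntiOn_of_deriv_neg (convex_Icc _ _) hHc.continuousOn
    intro r hr
    rw [interior_Icc] at hr
    rw [(hH' r).deriv]
    have := hwu r ⟨hr.1.le, hr.2⟩
    linarith
  have hgt : ∀ r ∈ Ico d b, h1 < H1 k l U Y w r := fun r hr => by
    have := hanti ⟨hr.1, hr.2.le⟩ ⟨hdb.le, le_rfl⟩ hr.2
    rw [e1] at this; exact this
  have hmemI : ∀ r ∈ Ico d b, H1 k l U Y w r ∈ Ioo h1 h2 := fun r hr =>
    ⟨hgt r hr, (hnear' r ⟨hr.1, hr.2.le⟩).2.2.2.2⟩
  -- the bound
  obtain ⟨M, hM⟩ := (isCompact_Icc (a := d) (b := b)).exists_bound_of_continuousOn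
    ((hwc.mul huc).continuousOn)
  -- (F1) along the arc
  have hF1 : ∀ r ∈ Ico d b, T1 c s k l V X z (τ (H1 k l U Y w r)) ≤ T1 c s k l U Y w r →
      h1 * (T1 c s k l U Y w r - T1 c s k l V X z (τ (H1 k l U Y w r)))
        < Z1 c s L k l U Y w r - Z1 c s L k l V X z (τ (H1 k l U Y w r)) := by
    intro r hr hle
    have hI := hmemI r hr
    obtain ⟨hτm, -⟩ := hτd _ hI
    have hτe := (hτ _ ⟨hI.1.le, hI.2.le⟩).2
    have hrab : r ∈ Ioo a b := ⟨hda.trans_le hr.1, hr.2⟩
    have hp1 := P.pos1 hrab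
    have hp2 := P.pos2 hτm
    rw [hτe] at hp2
    have hTe : T1 c s k l V X z (τ (H1 k l U Y w r))
        = TT c s (H1 k l U Y w r) (A1 k V X (τ (H1 k l U Y w r))) := by
      simp only [T1]
      rw [show fh k l (V (τ (H1 k l U Y w r))) (X (τ (H1 k l U Y w r))) (z (τ (H1 k l U Y w r)))
        = H1 k l U Y w r from hτe]
      rfl
    have hZe : Z1 c s L k l V X z (τ (H1 k l U Y w r))
        = ZZ c s L (H1 k l U Y w r) (A1 k V X (τ (H1 k l U Y w r))) := by
      simp only [Z1]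
      rw [show fh k l (V (τ (H1 k l U Y w r))) (X (τ (H1 k l U Y w r))) (z (τ (H1 k l U Y w r)))
        = H1 k l U Y w r from hτe]
      rfl
    rw [hTe] at hle ⊢
    rw [hZe]
    have hhpos : 0 < H1 k l U Y w r := h1pos.trans hI.1
    refine F1 P.nc.bc hhpos hp2 hp1.1.le hp1.2.le hle ?_
    intro A hA
    obtain ⟨m1, m2, m3, -, -⟩ := hnear' r ⟨hr.1, hr.2.le⟩
    refine (hball' _ _ m1 ?_).le
    rw [abs_lt] at m2 m3 ⊢
    constructor
    · have : 1 - Real.sqrt (H1 k l U Y w r) ≤ A := hA.1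
      linarith [m3.1]
    · have : A ≤ A1 k U Y r := hA.2
      linarith [m2.2]
  have hTc : Continuous (T1 c s k l U Y w) := continuous_TT_sol P.nc P.arc.sol
  have hZc : Continuous (Z1 c s L k l U Y w) := continuous_ZZ_sol P.nc P.arc.sol
  have hZc' : Continuous (Z1 c s L k l V X z) := continuous_ZZ_sol P.nc P.sol'
  have hneg : ∀ r ∈ Ico d b, Z1 c s L k l U Y w r - Z1 c s L k l V X z (τ (H1 k l U Y w r)) < 0 := by
    refine neg_of_deriv_gt
      (f := fun r => Z1 c s L k l U Y w r - Z1 c s L k l V X z (τ (H1 k l U Y w r)))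
      (f' := fun r => 5 * (T1 c s k l U Y w r - T1 c s k l V X z (τ (H1 k l U Y w r)))
        * (-(w r) * fu k l (U r) (Y r) (w r))) (C := 5 * M / h1) ?_ ?_ ?_ ?_
    · exact (hZc.sub (hZc'.comp (hτc.comp hHc))).continuousOn
    · rw [e4, e1, hτα, sub_self]
    · intro r hr
      have hI := hmemI r hr
      have f1 : HasDerivAt (Z1 c s L k l U Y w) _ r := hasDerivAt_ZZ_sol P.nc P.arc.sol r
      have f2 := (hτd _ hI).2.comp r (hH' r)
      refine ((f1.sub f2).congr_deriv ?_).hasDerivWithinAt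
      simp only [T1]
      ring
    · intro r hr hf
      have hw := hwu r hr
      have hMr := hM r ⟨hr.1, hr.2.le⟩
      rw [Real.norm_eq_abs] at hMr
      have hMr' : w r * fu k l (U r) (Y r) (w r) ≤ M := (le_abs_self _).trans hMr
      rcases lt_or_ge (T1 c s k l U Y w r) (T1 c s k l V X z (τ (H1 k l U Y w r))) with h3 | h3
      · have h4 : 0 < 5 * (T1 c s k l U Y w r - T1 c s k l V X z (τ (H1 k l U Y w r)))
            * (-(w r) * fu k l (U r) (Y r) (w r)) := by
          apply mul_pos_of_neg_of_neg (by linarith) (by linarith)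
        have h5 : 0 ≤ 5 * M / h1 * (Z1 c s L k l U Y w r
            - Z1 c s L k l V X z (τ (H1 k l U Y w r))) := by
          apply mul_nonneg _ hf
          have : 0 ≤ M := hw.le.trans hMr'
          positivity
        linarith
      · have h4 := hF1 r hr h3
        set Dr := Z1 c s L k l U Y w r - Z1 c s L k l V X z (τ (H1 k l U Y w r)) with hDr
        set dT := T1 c s k l U Y w r - T1 c s k l V X z (τ (H1 k l U Y w r)) with hdT
        have h5 : dT < Dr / h1 := by
          rw [lt_div_iff₀ h1pos]; linarith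
        have h6 : 5 * dT * (w r * fu k l (U r) (Y r) (w r))
            < 5 * (Dr / h1) * (w r * fu k l (U r) (Y r) (w r)) :=
          mul_lt_mul_of_pos_right (by linarith) hw
        have h7 : 5 * (Dr / h1) * (w r * fu k l (U r) (Y r) (w r)) ≤ 5 * (Dr / h1) * M := by
          apply mul_le_mul_of_nonneg_left hMr'
          have : 0 ≤ Dr := hf
          positivity
        have h8 : 5 * M / h1 * Dr = 5 * (Dr / h1) * M := by ring
        rw [h8]
        have h9 : 5 * dT * (-(w r) * fu k l (U r) (Y r) (w r))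
            = -(5 * dT * (w r * fu k l (U r) (Y r) (w r))) := by ring
        rw [h9]
        linarith
  refine ⟨d, hda, hdb, fun r hr => ⟨hgt r hr, (hmemI r hr).2, ?_, (hnear' r ⟨hr.1, hr.2.le⟩).2.2.2.1⟩⟩
  by_contra hcon
  push Not at hcon
  have h3 := hF1 r hr hcon
  have h4 := hneg r hr
  have h5 : 0 ≤ h1 * (T1 c s k l U Y w r - T1 c s k l V X z (τ (H1 k l U Y w r))) :=
    mul_nonneg h1pos.le (by linarith)
  linarith

/-- **The comparison**: `H` at the entrance of the first arc is smaller. -/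
theorem Pair.main (P : Pair k l n N c s L U Y w a b V X z α β) :
    fh k l (U a) (Y a) (w a) < fh k l (V β) (X β) (z β) := by
  obtain ⟨h12, τ, hτc, hτα, hτβ, hτ, hτd⟩ := P.exists_tau
  obtain ⟨d, hda, hdb, hstart⟩ := P.start hτc hτα hτ hτd h12
  obtain ⟨e1, e2, e3, e4⟩ := P.exit_point
  have hb := P.nc.bc
  set h1 := H1 k l V X z α with hh1
  set h2 := H1 k l V X z β with hh2
  have hab := P.arc.lt
  have h1pos : 0 < h1 := P.hpos' α ⟨le_rfl, P.αβ.le⟩
  have hHc : Continuous (H1 k l U Y w) := continuous_H P.arc.sol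
  have huc : Continuous (fun t => fu k l (U t) (Y t) (w t)) := continuous_u P.arc.sol
  have hTc : Continuous (T1 c s k l U Y w) := continuous_TT_sol P.nc P.arc.sol
  have hZc : Continuous (Z1 c s L k l U Y w) := continuous_ZZ_sol P.nc P.arc.sol
  have hTc' : Continuous (T1 c s k l V X z) := continuous_TT_sol P.nc P.sol'
  have hZc' : Continuous (Z1 c s L k l V X z) := continuous_ZZ_sol P.nc P.sol'
  have hH' : ∀ r, HasDerivAt (H1 k l U Y w) (-(w r) * fu k l (U r) (Y r) (w r)) r := fun r =>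
    hasDerivAt_h P.arc.sol r
  set G : Set ℝ := {r | h1 < H1 k l U Y w r ∧ H1 k l U Y w r < h2 ∧
      T1 c s k l U Y w r < T1 c s k l V X z (τ (H1 k l U Y w r)) ∧
      0 < fu k l (U r) (Y r) (w r)} with hG
  have hGo : IsOpen G := by
    have g1 := isOpen_lt (continuous_const (y := h1)) hHc
    have g2 := isOpen_lt hHc (continuous_const (y := h2))
    have g3 := isOpen_lt hTc (hTc'.comp (hτc.comp hHc))
    have g4 := isOpen_lt (continuous_const (y := (0:ℝ))) huc
    have : G = {r | h1 < H1 k l U Y w r} ∩ ({r | H1 k l U Y w r < h2} ∩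
        ({r | T1 c s k l U Y w r < T1 c s k l V X z (τ (H1 k l U Y w r))} ∩
          {r | 0 < fu k l (U r) (Y r) (w r)})) := rfl
    rw [this]
    exact g1.inter (g2.inter (g3.inter g4))
  -- every point of `[a, d]` is good
  have hall : ∀ r ∈ Icc a d, r ∈ G := by
    by_contra hcon
    push Not at hcon
    obtain ⟨r', hr', hbad'⟩ := hcon
    have hcomp : IsCompact (Icc a d ∩ Gᶜ) := isCompact_Icc.inter_right hGo.isClosed_compl
    obtain ⟨r0, hr0, hmax⟩ := hcomp.exists_isMaxOn ⟨r', hr', hbad'⟩ continuousOn_id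
    have hr0d : r0 < b := hr0.1.2.trans_lt hdb
    have hgood : ∀ r ∈ Ioo r0 b, r ∈ G := by
      intro r hr
      rcases lt_or_ge r d with h3 | h3
      · by_contra h4
        have : r ≤ r0 := hmax ⟨⟨hr0.1.1.trans hr.1.le, h3.le⟩, h4⟩
        exact absurd hr.1 (not_lt.2 this)
      · exact hstart r ⟨h3, hr.2⟩
    apply hr0.2
    have hwpos : ∀ r ∈ Ioo r0 b, 0 < w r := fun r hr => P.arc.wpos r ⟨hr0.1.1.trans_lt hr.1, hr.2⟩
    -- `H` decreases
    have hanti : StrictAntiOn (H1 k l U Y w) (Icc r0 b) := by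
      apply strictAntiOn_of_deriv_neg (convex_Icc _ _) hHc.continuousOn
      intro r hr
      rw [interior_Icc] at hr
      rw [(hH' r).deriv]
      have := mul_pos (hwpos r hr) (hgood r hr).2.2.2
      linarith
    have hgt : h1 < H1 k l U Y w r0 := by
      have := hanti ⟨le_rfl, hr0d.le⟩ ⟨hr0d.le, le_rfl⟩ hr0d
      rw [e1] at this; exact this
    have hne : (𝓝[Ioo r0 b] r0).NeBot := by
      rw [← mem_closure_iff_nhdsWithin_neBot, closure_Ioo hr0d.ne]
      exact ⟨le_rfl, hr0d.le⟩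
    have hle2 : H1 k l U Y w r0 ≤ h2 := by
      refine le_of_tendsto (hHc.continuousAt.mono_left nhdsWithin_le_nhds :
        Tendsto _ (𝓝[Ioo r0 b] r0) _) ?_
      filter_upwards [self_mem_nhdsWithin] with r hr
      exact (hgood r hr).2.1.le
    have hTle : T1 c s k l U Y w r0 ≤ T1 c s k l V X z (τ (H1 k l U Y w r0)) := by
      have h3 : Continuous (fun r => T1 c s k l V X z (τ (H1 k l U Y w r))) :=
        hTc'.comp (hτc.comp hHc)
      refine le_of_tendsto_of_tendsto (hTc.continuousAt.mono_left nhdsWithin_le_nhds :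
        Tendsto _ (𝓝[Ioo r0 b] r0) _) (h3.continuousAt.mono_left nhdsWithin_le_nhds) ?_
      filter_upwards [self_mem_nhdsWithin] with r hr
      exact (hgood r hr).2.2.1.le
    -- `D < 0`
    have hD : Z1 c s L k l U Y w r0 - Z1 c s L k l V X z (τ (H1 k l U Y w r0)) < 0 := by
      have hmono : StrictMonoOn
          (fun r => Z1 c s L k l U Y w r - Z1 c s L k l V X z (τ (H1 k l U Y w r))) (Icc r0 b) := by
        apply strictMonoOn_of_deriv_pos (convex_Icc _ _)
          (hZc.sub (hZc'.comp (hτc.comp hHc))).continuousOn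
        intro r hr
        rw [interior_Icc] at hr
        obtain ⟨m1, m2, m3, m4⟩ := hgood r hr
        have f1 : HasDerivAt (Z1 c s L k l U Y w) _ r := hasDerivAt_ZZ_sol P.nc P.arc.sol r
        have f2 := (hτd _ ⟨m1, m2⟩).2.comp r (hH' r)
        have f3 : HasDerivAt
            (fun r => Z1 c s L k l U Y w r - Z1 c s L k l V X z (τ (H1 k l U Y w r)))
            (5 * (T1 c s k l U Y w r - T1 c s k l V X z (τ (H1 k l U Y w r)))
              * (-(w r) * fu k l (U r) (Y r) (w r))) r := by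
          refine (f1.sub f2).congr_deriv ?_
          simp only [T1]
          ring
        refine lt_of_lt_of_eq ?_ f3.deriv.symm
        have := mul_pos (hwpos r hr) m4
        exact mul_pos_of_neg_of_neg (by linarith) (by linarith)
      have h3 : Z1 c s L k l U Y w r0 - Z1 c s L k l V X z (τ (H1 k l U Y w r0))
          < Z1 c s L k l U Y w b - Z1 c s L k l V X z (τ (H1 k l U Y w b)) :=
        hmono ⟨le_rfl, hr0d.le⟩ ⟨hr0d.le, le_rfl⟩ hr0d
      rw [e4, e1, hτα, sub_self] at h3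
      exact h3
    have hhpos : 0 < H1 k l U Y w r0 := h1pos.trans hgt
    -- position of the first point
    have hp1 : A1 k U Y r0 ∈ Icc (1 - Real.sqrt (H1 k l U Y w r0))
          (1 + Real.sqrt (H1 k l U Y w r0)) ∧ (w r0 = 0 → A1 k U Y r0
          = 1 - Real.sqrt (H1 k l U Y w r0)) ∧ (w r0 ≠ 0 →
          A1 k U Y r0 ∈ Ioo (1 - Real.sqrt (H1 k l U Y w r0))
          (1 + Real.sqrt (H1 k l U Y w r0))) := by
      rcases eq_or_lt_of_le hr0.1.1 with h3 | h3
      · have h4 : A1 k U Y r0 = 1 - Real.sqrt (H1 k l U Y w r0) := by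
          rw [← h3]
          exact eq_of_zero P.arc.wa P.Aa
        refine ⟨?_, fun _ => h4, fun h5 => ?_⟩
        · rw [h4]; exact ⟨le_rfl, by linarith [Real.sqrt_nonneg (H1 k l U Y w r0)]⟩
        · rw [← h3] at h5; exact absurd P.arc.wa h5
      · have h4 := P.pos1 ⟨h3, hr0d⟩
        refine ⟨⟨h4.1.le, h4.2.le⟩, fun h5 => ?_, fun _ => h4⟩
        exact absurd h5 (P.arc.wpos r0 ⟨h3, hr0d⟩).ne'
    have hT0 : T1 c s k l U Y w r0 = TT c s (H1 k l U Y w r0) (A1 k U Y r0) := rfl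
    have hZ0 : Z1 c s L k l U Y w r0 = ZZ c s L (H1 k l U Y w r0) (A1 k U Y r0) := rfl
    have hτr := hτ (H1 k l U Y w r0) ⟨hgt.le, hle2⟩
    have hTe : T1 c s k l V X z (τ (H1 k l U Y w r0))
        = TT c s (H1 k l U Y w r0) (A1 k V X (τ (H1 k l U Y w r0))) := by
      simp only [T1]
      rw [show fh k l (V (τ (H1 k l U Y w r0))) (X (τ (H1 k l U Y w r0)))
        (z (τ (H1 k l U Y w r0))) = H1 k l U Y w r0 from hτr.2]
      rfl
    have hZe : Z1 c s L k l V X z (τ (H1 k l U Y w r0))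
        = ZZ c s L (H1 k l U Y w r0) (A1 k V X (τ (H1 k l U Y w r0))) := by
      simp only [Z1]
      rw [show fh k l (V (τ (H1 k l U Y w r0))) (X (τ (H1 k l U Y w r0)))
        (z (τ (H1 k l U Y w r0))) = H1 k l U Y w r0 from hτr.2]
      rfl
    have hmem1 : (1 - Real.sqrt (H1 k l U Y w r0)) ∈ Icc (1 - Real.sqrt (H1 k l U Y w r0))
          (1 + Real.sqrt (H1 k l U Y w r0)) :=
      ⟨le_rfl, by linarith [Real.sqrt_nonneg (H1 k l U Y w r0)]⟩
    rcases eq_or_lt_of_le hle2 with h3 | h3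
    · -- the second arc has ended
      exfalso
      have h4 : τ (H1 k l U Y w r0) = β := by rw [h3]; exact hτβ
      have h5 : A1 k V X (τ (H1 k l U Y w r0)) = 1 - Real.sqrt (H1 k l U Y w r0) := by
        rw [h4, h3]
        exact eq_of_zero P.zβ (P.A' β ⟨P.αβ.le, le_rfl⟩)
      rw [hT0, hTe, h5] at hTle
      have h6 : A1 k U Y r0 = 1 - Real.sqrt (H1 k l U Y w r0) := by
        refine le_antisymm ?_ hp1.1.1
        exact (TT_mono hb hhpos).le_iff_le hp1.1 hmem1 |>.1 hTle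
      rw [hZ0, hZe, h5, h6, sub_self] at hD
      exact lt_irrefl _ hD
    · have hτm := (hτd _ ⟨hgt, h3⟩).1
      have hp2 := P.pos2 hτm
      rw [hτr.2] at hp2
      -- `u > 0` on the second arc
      have hu2 : 0 < uu N c s (H1 k l U Y w r0) (A1 k V X (τ (H1 k l U Y w r0))) := by
        have h4 := chart_uu P.nc (P.sol'.cone (τ (H1 k l U Y w r0)))
          (P.sol'.pos (τ (H1 k l U Y w r0)))
        rw [show fh k l (V (τ (H1 k l U Y w r0))) (X (τ (H1 k l U Y w r0)))
          (z (τ (H1 k l U Y w r0))) = H1 k l U Y w r0 from hτr.2] at h4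
        have h5 := P.upos' (τ (H1 k l U Y w r0)) ⟨hτm.1.le, hτm.2.le⟩
        rw [← h4] at h5
        exact h5
      have hbase : TT c s (H1 k l U Y w r0) (1 - Real.sqrt (H1 k l U Y w r0))
          < TT c s (H1 k l U Y w r0) (A1 k V X (τ (H1 k l U Y w r0))) :=
        TT_anti hb hhpos (mem_Iic.2 hp2.le) (mem_Iic.2 le_rfl) hp2
      have hTlt : T1 c s k l U Y w r0 < T1 c s k l V X z (τ (H1 k l U Y w r0)) := by
        refine lt_of_le_of_ne hTle fun heq => ?_
        rw [hT0, hTe] at heq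
        by_cases hw0 : w r0 = 0
        · rw [hp1.2.1 hw0] at heq
          linarith
        · have h5 := hp1.2.2 hw0
          have h6 := F2 hb hhpos hp2 h5.1 h5.2.le heq
          rw [hZ0, hZe] at hD
          linarith
      refine ⟨hgt, h3, hTlt, ?_⟩
      by_cases hw0 : w r0 = 0
      · have : fh k l (U r0) (Y r0) (w r0) = H1 k l U Y w r0 := rfl
        unfold fu; rw [this, hw0]
        linarith
      · have h5 := hp1.2.2 hw0
        rw [hT0, hTe] at hTlt
        have h6 := F3 hb hhpos hp2 h5.1 h5.2 hTlt hu2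
        have h7 := chart_uu P.nc (P.arc.sol.cone r0) (P.arc.sol.pos r0)
        rw [← h7]
        exact h6
  exact (hall a ⟨le_rfl, hda.le⟩).2.1

end

/-- **Comparison of the entrances** (`|k| < 1`, `η < 0`). -/
theorem comp {k l : ℝ} (hk : k ^ 2 < 1) (hl : 0 < l) (he : 1 - k ^ 2 < l ^ 2)
    {U Y w U' Y' w' : ℝ → ℝ} {a b a' b' : ℝ} (ha : Arc k l U Y w a b)
    (ha' : Arc k (-l) U' Y' w' a' b') (hU : U b = U' b') (hY : Y b = Y' b')
    (hg : Y a = U a) :
    (1 - fA k (U a) (Y a)) ^ 2 < (1 - fA k (U' a') (Y' a')) ^ 2 := by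
  obtain ⟨n, N, c, s, L, hc⟩ := exists_NC hk hl he
  have hu := KB_u hk hl he ha'
  have hA := KB_A hk hl he ha'
  have hs' : Sol k l (fun t => U' (-t)) (fun t => Y' (-t)) (fun t => -w' (-t)) := by
    have := ha'.sol.reflect
    rwa [neg_neg] at this
  have hfh : ∀ t, fh k l (U' (-t)) (Y' (-t)) (-w' (-t)) = fh k (-l) (U' (-t)) (Y' (-t)) (w' (-t)) := by
    intro t; simp only [fh]; ring
  have hfu : ∀ t, fu k l (U' (-t)) (Y' (-t)) (-w' (-t)) = fu k (-l) (U' (-t)) (Y' (-t)) (w' (-t)) := by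
    intro t; simp only [fu, fh, eta]; ring
  have hmem : ∀ σ ∈ Icc (-b') (-a'), -σ ∈ Icc a' b' := fun σ hσ =>
    ⟨by linarith [hσ.2], by linarith [hσ.1]⟩
  have hP : Pair k l n N c s L U Y w a b (fun t => U' (-t)) (fun t => Y' (-t))
      (fun t => -w' (-t)) (-b') (-a') := by
    refine ⟨hc, ha, ?_, hs', by linarith [ha'.lt], ?_, ?_, ?_, ?_, ?_, ?_, ?_, ?_⟩
    · have := fA_rayA hk (ha.sol.pos a) hg
      linarith
    · simp only [neg_neg, ha'.wb, neg_zero]
    · simp only [neg_neg, ha'.wa, neg_zero]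
    · intro σ hσ
      have := ha'.wpos (-σ) ⟨by linarith [hσ.2], by linarith [hσ.1]⟩
      linarith
    · intro σ hσ
      simp only [hfh]
      exact ha'.hpos (-σ) (hmem σ hσ)
    · intro σ hσ
      simp only [hfu]
      exact hu (-σ) (hmem σ hσ)
    · intro σ hσ
      exact hA (-σ) (hmem σ hσ)
    · simp only [neg_neg]; exact hU
    · simp only [neg_neg]; exact hY
  have h1 := hP.main
  rw [h_at_zero ha.wa, h_at_zero (by simp only [neg_neg, ha'.wa, neg_zero])] at h1
  simpa using h1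

end B92.KB

/-- **`|k| < 1`, `η < 0`: no periodic solution with `w` changing sign.** -/
theorem B92.KB.no_orbit {k l : ℝ} (hk : k ^ 2 < 1) (hl : 0 < l) (he : 1 - k ^ 2 < l ^ 2)
    {U Y w : ℝ → ℝ} {P : ℝ} (hs : B92.Sol k l U Y w) (hP : 0 < P)
    (pU : ∀ t, U (t + P) = U t) (pY : ∀ t, Y (t + P) = Y t) (pw : ∀ t, w (t + P) = w t)
    (hneg : ∃ t, w t < 0) (hpos : ∃ t, 0 < w t) : False := by
  have heta : B92.eta k l ≠ 0 := by
    unfold B92.eta
    have : 1 - k ^ 2 - l ^ 2 < 0 := by linarith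
    exact this.ne
  refine B92.no_orbit_exit hl heta
    (fun U Y => Y = U) (fun U Y => (1 - B92.fA k U Y) ^ 2) ?_ ?_ hs hP pU pY pw hneg hpos
  · intro U Y w a b ha
    exact (B92.KB_rays hk hl he ha).1
  · intro U Y w a b U' Y' w' a' b' ha ha' hU hY hg _
    exact B92.KB.comp hk hl he ha ha' hU hY hg
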