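import Mathlib
import Pool.Agent.Lib.B92.Arc
import Pool.Agent.Lib.B92K.Star

/-! Weak star shape for arcs from ray a to ray b: `N ≥ 0`, so `Y / U` is antitone (all `k`, `l`). -/

set_option autoImplicit false

open Set Filter Topology

noncomputable section

namespace B92

/-- On an arc from ray a to ray b: `N = 2U + k(w² - Y²) + UY + 2lYw ≥ 0`. -/
theorem Arc.star {k l : ℝ} {U Y w : ℝ → ℝ} {a b : ℝ} (ha : Arc k l U Y w a b)
    (h1 : Y a = U a) (h2 : Y b = -U b) : ∀ t ∈ Icc a b,
    0 ≤ 2 * U t + k * (w t ^ 2 - Y t ^ 2) + U t * Y t + 2 * l * Y t * w t := by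
  have hU := ha.sol.contU
  have hY := ha.sol.contY
  have hw := ha.sol.contw
  have hcont : Continuous fun t => 2 * U t + k * (w t ^ 2 - Y t ^ 2) + U t * Y t +
      2 * l * Y t * w t := by fun_prop
  have hcl : IsClosed {t | 0 ≤ 2 * U t + k * (w t ^ 2 - Y t ^ 2) + U t * Y t +
      2 * l * Y t * w t} := isClosed_le continuous_const hcont
  have hsub : Ioo a b ⊆ {t | 0 ≤ 2 * U t + k * (w t ^ 2 - Y t ^ 2) + U t * Y t +
      2 * l * Y t * w t} := fun t ht => by
    have h3 := B92K.star ha.sol ha.wpos h1 h2 ht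
    simpa [B92K.fN] using h3
  intro t ht
  have h4 := closure_minimal hsub hcl
  rw [closure_Ioo ha.lt.ne] at h4
  exact h4 ht

/-- On an arc from ray a to ray b the ratio `Y / U` is antitone. -/
theorem Arc.ratio_antitoneOn {k l : ℝ} {U Y w : ℝ → ℝ} {a b : ℝ} (ha : Arc k l U Y w a b)
    (h1 : Y a = U a) (h2 : Y b = -U b) : AntitoneOn (fun s => Y s / U s) (Icc a b) := by
  refine antitoneOn_of_deriv_nonpos (convex_Icc _ _)
    (fun t _ => (B92K.hasDerivAt_ratio ha.sol t).continuousAt.continuousWithinAt)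
    (fun t _ => (B92K.hasDerivAt_ratio ha.sol t).differentiableAt.differentiableWithinAt)
    (fun t ht => ?_)
  rw [interior_Icc] at ht
  rw [(B92K.hasDerivAt_ratio ha.sol t).deriv, neg_div]
  have h3 := B92K.star ha.sol ha.wpos h1 h2 ht
  have h4 := ha.wpos t ht
  have h5 := ha.sol.pos t
  have : 0 ≤ w t * B92K.fN k l (U t) (Y t) (w t) / U t ^ 2 := by positivity
  linarith

end B92
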