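import Mathlib
import Pool.Agent.Lib.B92.Final
import Pool.Agent.Lib.B92.Bend
import Pool.Agent.Lib.B92.KBe
import Pool.Agent.Lib.B92.K1Fin
import Pool.Agent.Lib.B92KC.Fin

/-!
# MP_b92fc8_an, module Cases: the case split in `κ` for the normal form on the cone
-/

set_option autoImplicit false

open MvPolynomial

namespace B92

/-- The statement of the comparison theorem at the parameters `k`, `l`: no periodic solution
on which `w` takes both signs. -/
def NoOrbit (k l : ℝ) : Prop :=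
  ∀ (U Y w : ℝ → ℝ) (P : ℝ), Sol k l U Y w → 0 < P →
    (∀ t, U (t + P) = U t) → (∀ t, Y (t + P) = Y t) → (∀ t, w (t + P) = w t) →
    (∃ t, w t < 0) → (∃ t, 0 < w t) → False

/-- From `NoOrbit` to closed orbits of the quotient system. -/
theorem NoOrbit.cone {k l : ℝ} (h : NoOrbit k l) (U Y W : ℝ → ℝ) (T : ℝ) :
    ¬ ConeOrbit k l U Y W T := fun ho =>
  h U Y W T ho.toSol ho.hT ho.perU ho.perY ho.perW (exists_neg ho) (exists_pos ho)

/-- `|k| < 1`, `η < 0`. -/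
theorem noOrbit_KB {k l : ℝ} (hk : k ^ 2 < 1) (hl : 0 < l) (he : 1 - k ^ 2 < l ^ 2) :
    NoOrbit k l := fun _ _ _ _ hs hP pU pY pw hneg hpos =>
  KB.no_orbit hk hl he hs hP pU pY pw hneg hpos

/-- `k = ± 1`. -/
theorem noOrbit_K1 {k l : ℝ} (hk : k = 1 ∨ k = -1) (hl : 0 < l) :
    NoOrbit k l := fun _ _ _ _ hs hP pU pY pw hneg hpos =>
  K1.no_orbit hk hl hs hP pU pY pw hneg hpos

/-- `k < -1`. -/
theorem noOrbit_KC {k l : ℝ} (hk : k < -1) (hl : 0 < l) :
    NoOrbit k l := fun _ _ _ _ hs hP pU pY pw hneg hpos =>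
  KC.no_orbit hk hl hs hP pU pY pw hneg hpos

/-- The statement on the cone, from the two remaining cases. -/
theorem NF_of_cases
    (hA : ∀ k l : ℝ, k ^ 2 < 1 → 0 < l → l ^ 2 < 1 - k ^ 2 → NoOrbit k l)
    (hK : ∀ k l : ℝ, 1 < k → 0 < l → NoOrbit k l)
    (κ l : ℝ) (U Y W : ℝ → ℝ) (T : ℝ) (hl : 0 < l) (hκ : κ ^ 2 + l ^ 2 ≠ 1) :
    ¬ ConeOrbit κ l U Y W T := by
  refine NoOrbit.cone ?_ U Y W T
  rcases lt_trichotomy κ (-1) with h | h | h
  · exact noOrbit_KC h hl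
  · exact noOrbit_K1 (Or.inr h) hl
  · rcases lt_trichotomy κ 1 with h' | h' | h'
    · have hk : κ ^ 2 < 1 := by nlinarith
      rcases lt_or_gt_of_ne hκ with h2 | h2
      · exact hA κ l hk hl (by linarith)
      · exact noOrbit_KB hk hl (by linarith)
    · exact noOrbit_K1 (Or.inl h') hl
    · exact hK κ l h' hl

/-- The planar theorem, from the two remaining cases. -/
theorem no_periodic_of_cases
    (hA : ∀ k l : ℝ, k ^ 2 < 1 → 0 < l → l ^ 2 < 1 - k ^ 2 → NoOrbit k l)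
    (hK : ∀ k l : ℝ, 1 < k → 0 < l → NoOrbit k l)
    (lam : ℝ) (p q : MvPolynomial (Fin 2) ℝ) (hp : p.IsHomogeneous 3) (hq : q.IsHomogeneous 3)
    (h5 : IsFineFocus lam p q 5) (G : Set (ℝ × ℝ)) : ¬ IsPeriodicOrbit lam p q G :=
  no_periodic_of_NF (fun κ l U Y W T hl hκ => NF_of_cases hA hK κ l U Y W T hl hκ)
    lam p q hp hq h5 G

end B92
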