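import Mathlib
import Pool.Agent.Lib.B92.Defs
import Pool.Agent.Lib.B92.Alg
import Pool.Agent.Lib.B92.Arc

/-!
# MP_b92fc8_an, module KA1 (|kappa| < 1, l ^ 2 < 1 - kappa ^ 2): normalised system and
the constants.

`P = m w`, `Q = S / sqrt 2`, `2 m ^ 2 = 1 - kappa ^ 2`, `L = l / (sqrt 2 m)`, `κ = sqrt 2 kappa`;
`Q ^ 2 = 2 A ^ 2 + P ^ 2`, `H = (1 - A) ^ 2 + P ^ 2 + L P Q`.
-/

set_option autoImplicit false

open Set Filter Topology

noncomputable section

namespace B92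

/-- `h` in normalised variables. -/
def nH (L A P Q : ℝ) : ℝ := (1 - A) ^ 2 + P ^ 2 + L * P * Q

/-- `u` in normalised variables. -/
def nu' (L A P Q : ℝ) : ℝ := 2 * nH L A P Q + 2 * (1 - L ^ 2) * P ^ 2

/-- Normalised solution. -/
structure NA0 (m L κ : ℝ) (A P Q : ℝ → ℝ) : Prop where
  m_pos : 0 < m
  dA : ∀ t, HasDerivAt A ((P t * (1 - 3 * A t) - L * A t * Q t
    + κ * (P t * Q t + L * (P t ^ 2 + A t ^ 2))) / m) t
  dP : ∀ t, HasDerivAt P ((nH L (A t) (P t) (Q t) - 1 + A t ^ 2 - 3 * P t ^ 2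
    + κ * (Q t * (1 - A t) - L * A t * P t)) / m) t
  dQ : ∀ t, HasDerivAt Q ((-2 * P t * Q t + L * (P t ^ 2 - 2 * A t ^ 2)
    + κ * (P t * (1 + A t) + L * A t * Q t)) / m) t
  cone : ∀ t, Q t ^ 2 = 2 * A t ^ 2 + P t ^ 2
  pos : ∀ t, 0 < Q t

theorem Sol.toNA0 {k l : ℝ} {U Y w : ℝ → ℝ} (hs : Sol k l U Y w) {m r L : ℝ} (hk : k ^ 2 < 1)
    (hm : 0 < m) (hm2 : m ^ 2 = (1 - k ^ 2) / 2) (hr0 : 0 < r) (hr : r ^ 2 = 2)
    (hL : l = L * r * m) :
    NA0 m L (r * k) (fun t => fA k (U t) (Y t)) (fun t => m * w t)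
      (fun t => r / 2 * fS k (U t) (Y t)) := by
  have hm0 := hm.ne'
  refine ⟨hm, fun t => ?_, fun t => ?_, fun t => ?_, fun t => ?_, fun t => ?_⟩
  · have h1 := ((hs.dU t).const_mul k).sub (hs.dY t) |>.div_const 2
    refine h1.congr_deriv ?_
    rw [eq_div_iff hm0]
    have hc := hs.cone t
    generalize U t = a at *
    generalize Y t = b at *
    generalize w t = c at *
    subst hL
    simp only [XU, XY, fA, fS]
    linear_combination (-(1 / 2) * a * c * k * m + (1 / 2) * b * c * k ^ 2 * m) * hr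
      + ((1 / 2) * a * b * r * L - (1 / 2) * b ^ 2 * k * r * L - (1 / 2) * c ^ 2 * k * r * L) * hm2
      + (-(1 / 4) * k ^ 3 * r * L + (1 / 4) * k * r * L) * hc
  · have h1 := (hs.dw t).const_mul m
    refine h1.congr_deriv ?_
    rw [eq_div_iff hm0]
    have hc := hs.cone t
    generalize U t = a at *
    generalize Y t = b at *
    generalize w t = c at *
    subst hL
    simp only [Xw, fA, fS, nH]
    linear_combination ((1 / 4) * a ^ 2 * k ^ 2 - (1 / 4) * a * b * k ^ 3 - (1 / 4) * a * b * k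
        - (1 / 2) * a * k + (1 / 4) * b ^ 2 * k ^ 2 + (1 / 2) * b * k ^ 2) * hr
      + (-2 * a ^ 2 - a * b * k + a * c * m * r * L + 3 * b ^ 2 + 2 * b + 2 * c ^ 2) * hm2
      + (k ^ 2 - 1) * hc
  · have h1 := ((hs.dU t).sub ((hs.dY t).const_mul k)).const_mul (r / 2)
    refine h1.congr_deriv ?_
    rw [eq_div_iff hm0]
    have hc := hs.cone t
    generalize U t = a at *
    generalize Y t = b at *
    generalize w t = c at *
    subst hL
    simp only [XU, XY, fA, fS]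
    linear_combination (-(1 / 4) * a ^ 2 * k ^ 2 * L + (1 / 4) * a * b * k ^ 3 * L
        + (1 / 2) * a * b * k * m ^ 2 * L + (1 / 4) * a * b * k * L - (1 / 4) * b ^ 2 * k ^ 2 * L
        - (1 / 2) * b ^ 2 * m ^ 2 * L + (1 / 2) * c ^ 2 * m ^ 2 * L) * hr
      + (a * b * k * L - b ^ 2 * L) * hm2
  · have hc := hs.cone t
    have h1 := cone_S (k := k) hc
    linear_combination (1 / 4) * fS k (U t) (Y t) ^ 2 * hr + (1 / 2) * h1 - w t ^ 2 * hm2
  · have hU := hs.pos t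
    have hc := hs.cone t
    have hS : 0 < fS k (U t) (Y t) := by
      unfold fS
      have h2 : |k * Y t| < U t := by
        have : (k * Y t) ^ 2 < U t ^ 2 := by
          rw [hc, mul_pow]
          rcases eq_or_ne (Y t) 0 with h0 | h0
          · have hw : 0 < w t ^ 2 := by
              rw [h0] at hc
              nlinarith [pow_pos hU 2]
            rw [h0]; simpa using hw
          · have : 0 < Y t ^ 2 := by positivity
            nlinarith [sq_nonneg (w t)]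
        exact abs_lt_of_sq_lt_sq this hU.le
      linarith [(abs_lt.1 h2).2]
    positivity

theorem nH_eq {k l U Y w m r L : ℝ} (hm2 : m ^ 2 = (1 - k ^ 2) / 2)
    (hL : l = L * r * m) :
    nH L (fA k U Y) (m * w) (r / 2 * fS k U Y) = fh k l U Y w := by
  subst hL
  simp only [nH, fh]
  linear_combination w ^ 2 * hm2

theorem nu_eq {k l U Y w m r L : ℝ} (hm2 : m ^ 2 = (1 - k ^ 2) / 2) (hr : r ^ 2 = 2)
    (hL : l = L * r * m) :
    nu' L (fA k U Y) (m * w) (r / 2 * fS k U Y) = fu k l U Y w := by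
  simp only [nu', fu, nH_eq hm2 hL, eta]
  subst hL
  linear_combination (2 * w ^ 2) * hm2 + (w ^ 2 * L ^ 2 * m ^ 2) * hr

/-- Parameters `c = cosh b`, `s = sinh b`, `J = cosh 2 b`. -/
structure Par (c s J : ℝ) : Prop where
  c_pos : 0 < c
  s_pos : 0 < s
  hc : c ^ 2 = (J + 1) / 2
  hs : s ^ 2 = (J - 1) / 2

theorem Par.J_gt {c s J : ℝ} (h : Par c s J) : 1 < J := by
  have := pow_pos h.s_pos 2
  linarith [h.hs]

/-- Components of the field (times `m J`) in the variables `A, σ, υ`. -/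
def pA (c s J κ a q v : ℝ) : ℝ :=
  κ * q * v + J * (c * v - s * q) + a * (2 * J - 1) * s * q - a * (2 * J + 1) * c * v

def pS (c s J κ a q v : ℝ) : ℝ :=
  κ * v * (J + a) + (4 * J - 2) * s * a ^ 2 - 2 * J * s * a - (3 * J - 1) * c * q * v
    + (3 * J + 1) * s * v ^ 2

def pV (c s J κ a q v : ℝ) : ℝ :=
  κ * q * (J - a) - (2 * J - 4) * c * a ^ 2 - 2 * J * c * a + (3 * J + 1) * s * q * v
    - (3 * J - 1) * c * v ^ 2

/-- `P` in terms of `σ, υ`. -/
def gP (c s q v : ℝ) : ℝ := c * v - s * q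

/-- `h`. -/
def gH (J a v : ℝ) : ℝ := 1 - 2 * a + (a ^ 2 + v ^ 2) / J

/-- `u`. -/
def gu (c s J a q v : ℝ) : ℝ := 2 * gH J a v + 2 * gP c s q v ^ 2 / J ^ 2

/-- Solution in the variables `A, σ, υ`. -/
structure NA (m c s J κ : ℝ) (A σ υ : ℝ → ℝ) : Prop where
  par : Par c s J
  m_pos : 0 < m
  dA : ∀ t, HasDerivAt A (pA c s J κ (A t) (σ t) (υ t) / (m * J)) t
  dS : ∀ t, HasDerivAt σ (pS c s J κ (A t) (σ t) (υ t) / (m * J)) t
  dV : ∀ t, HasDerivAt υ (pV c s J κ (A t) (σ t) (υ t) / (m * J)) t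
  cone : ∀ t, σ t ^ 2 = 2 * A t ^ 2 + υ t ^ 2
  pos : ∀ t, 0 < σ t

theorem NA0.toNA {m L κ : ℝ} {A P Q : ℝ → ℝ} (hs : NA0 m L κ A P Q) {c s J : ℝ}
    (par : Par c s J) (hL : L * J = 2 * s * c) :
    NA m c s J κ A (fun t => c * Q t + s * P t) (fun t => c * P t + s * Q t) := by
  have hJ := par.J_gt
  have hJ0 : J ≠ 0 := by linarith
  have hm := hs.m_pos.ne'
  have hc := par.hc
  have hs2 := par.hs
  have hL2 : L = 2 * s * c / J := by rw [eq_div_iff hJ0]; exact hL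
  subst hL2
  have hcone : ∀ t, (c * Q t + s * P t) ^ 2 = 2 * A t ^ 2 + (c * P t + s * Q t) ^ 2 := by
    intro t
    have := hs.cone t
    linear_combination this + (Q t ^ 2 - P t ^ 2) * (hc - hs2)
  refine ⟨par, hs.m_pos, fun t => ?_, fun t => ?_, fun t => ?_, hcone, fun t => ?_⟩
  · refine (hs.dA t).congr_deriv ?_
    have h0 := hs.cone t
    simp only [pA]
    generalize A t = a at *
    generalize P t = p at *
    generalize Q t = q at *
    field_simp
    linear_combination (-c * s * κ) * h0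
      + (2 * a * p * J + a * p - p * q * κ - p * J) * hc
      + (-2 * a * p * J + a * p - p * q * κ + p * J) * hs2
  · have h1 := ((hs.dQ t).const_mul c).add ((hs.dP t).const_mul s)
    refine h1.congr_deriv ?_
    have h0 := hs.cone t
    simp only [pS, nH]
    generalize A t = a at *
    generalize P t = p at *
    generalize Q t = q at *
    field_simp
    linear_combination (3 * c ^ 2 * s * J - c ^ 2 * s - 3 * s ^ 3 * J - s ^ 3) * h0
      + (6 * a ^ 2 * s * J - 6 * a ^ 2 * s + 2 * a * q * s * κ + 3 * p ^ 2 * s * J - p ^ 2 * s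
        + 3 * p * q * c * J - p * q * c) * hc
      + (-6 * a ^ 2 * s * J - 2 * a ^ 2 * s - 2 * a * p * c * κ - 3 * p ^ 2 * s * J - p ^ 2 * s
        - 3 * p * q * c * J - p * q * c) * hs2
  · have h1 := ((hs.dP t).const_mul c).add ((hs.dQ t).const_mul s)
    refine h1.congr_deriv ?_
    have h0 := hs.cone t
    simp only [pV, nH]
    generalize A t = a at *
    generalize P t = p at *
    generalize Q t = q at *
    field_simp
    linear_combination (-2 * c * s ^ 2) * h0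
      + (-2 * a * p * s * κ + 3 * p ^ 2 * c * J - p ^ 2 * c + 3 * p * q * s * J - p * q * s) * hc
      + (-8 * a ^ 2 * c + 2 * a * q * c * κ - 3 * p ^ 2 * c * J - p ^ 2 * c - 3 * p * q * s * J
        - p * q * s) * hs2
  · have h1 := hs.pos t
    have h2 := hs.cone t
    have h3 : |P t| ≤ Q t := by
      apply abs_le_of_sq_le_sq _ h1.le
      nlinarith [sq_nonneg (A t)]
    have h4 : s < c := by
      apply lt_of_pow_lt_pow_left₀ 2 par.c_pos.le
      linarith
    have h5 : s * (-P t) ≤ s * Q t := mul_le_mul_of_nonneg_left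
      ((neg_le_abs _).trans h3) par.s_pos.le
    show 0 < c * Q t + s * P t
    nlinarith [mul_pos (sub_pos.2 h4) h1]

theorem NA.dH {m c s J κ : ℝ} {A σ υ : ℝ → ℝ} (hs : NA m c s J κ A σ υ) (t : ℝ) :
    HasDerivAt (fun t => gH J (A t) (υ t))
      (-(gP c s (σ t) (υ t)) * gu c s J (A t) (σ t) (υ t) / m) t := by
  have hJ := hs.par.J_gt
  have hJ0 : J ≠ 0 := by linarith
  have hm := hs.m_pos.ne'
  have hc := hs.par.hc
  have hs2 := hs.par.hs
  have h1 := (((hs.dA t).const_mul 2).const_sub 1).add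
    ((((hs.dA t).pow 2).add ((hs.dV t).pow 2)).div_const J)
  refine (h1.congr_deriv ?_).congr_of_eventuallyEq (Filter.Eventually.of_forall fun s => ?_)
  · have h0 := hs.cone t
    simp only [gu, gH, gP, pA, pV]
    generalize A t = a at *
    generalize σ t = q at *
    generalize υ t = v at *
    field_simp
    push_cast
    linear_combination (-2 * q * s ^ 3 + 6 * v * c * s ^ 2) * h0
      + (-6 * q * v ^ 2 * s + 2 * v ^ 3 * c) * hc
      + (-4 * a ^ 2 * q * s + 12 * a ^ 2 * v * c - 2 * q * v ^ 2 * s + 6 * v ^ 3 * c) * hs2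
  · simp only [gH, Pi.add_apply, Pi.pow_apply]

theorem gP_eq {c s J P Q : ℝ} (par : Par c s J) : gP c s (c * Q + s * P) (c * P + s * Q) = P := by
  simp only [gP]
  linear_combination P * (par.hc - par.hs)

theorem gH_eq {k l U Y w m r c s J : ℝ} (hr : r ^ 2 = 2) (hm2 : m ^ 2 = (1 - k ^ 2) / 2)
    (par : Par c s J) (hc : U ^ 2 = Y ^ 2 + w ^ 2) (hl : l * J = 2 * s * c * r * m) :
    gH J (fA k U Y) (c * (m * w) + s * (r / 2 * fS k U Y)) = fh k l U Y w := by
  have hJ := par.J_gt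
  have hJ0 : J ≠ 0 := by linarith
  have h1 : (r / 2 * fS k U Y) ^ 2 = 2 * fA k U Y ^ 2 + (m * w) ^ 2 := by
    have h2 := cone_S (k := k) hc
    linear_combination (1 / 4) * fS k U Y ^ 2 * hr + (1 / 2) * h2 - w ^ 2 * hm2
  have h3 : l = 2 * s * c * r * m / J := by rw [eq_div_iff hJ0]; exact hl
  subst h3
  simp only [gH, fh]
  generalize fA k U Y = A at *
  generalize fS k U Y = S at *
  have h4 := par.hc
  have h5 := par.hs
  field_simp
  linear_combination (4 * s ^ 2) * h1 + 4 * (m * w) ^ 2 * h4 + (8 * A ^ 2 + 4 * (m * w) ^ 2) * h5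
    + 4 * J * w ^ 2 * hm2

theorem gu_eq {k l U Y w m r c s J : ℝ} (hr : r ^ 2 = 2) (hm2 : m ^ 2 = (1 - k ^ 2) / 2)
    (par : Par c s J) (hc : U ^ 2 = Y ^ 2 + w ^ 2) (hl : l * J = 2 * s * c * r * m) :
    gu c s J (fA k U Y) (c * (r / 2 * fS k U Y) + s * (m * w))
      (c * (m * w) + s * (r / 2 * fS k U Y)) = fu k l U Y w := by
  have hJ := par.J_gt
  have hJ0 : J ≠ 0 := by linarith
  simp only [gu, gH_eq hr hm2 par hc hl, gP_eq par, fu, eta]
  have h3 : l ^ 2 * J ^ 2 = 2 * (J ^ 2 - 1) * m ^ 2 := by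
    have h4 := par.hc
    have h5 := par.hs
    calc l ^ 2 * J ^ 2 = (l * J) ^ 2 := by ring
      _ = 4 * s ^ 2 * c ^ 2 * r ^ 2 * m ^ 2 := by rw [hl]; ring
      _ = 2 * (J ^ 2 - 1) * m ^ 2 := by rw [h4, h5, hr]; ring
  field_simp
  linear_combination w ^ 2 * h3 + (2 * J ^ 2 * w ^ 2) * hm2

theorem Sol.toNA {k l : ℝ} {U Y w : ℝ → ℝ} (hs : Sol k l U Y w) {m r c s J : ℝ} (hk : k ^ 2 < 1)
    (hm : 0 < m) (hm2 : m ^ 2 = (1 - k ^ 2) / 2) (hr0 : 0 < r) (hr : r ^ 2 = 2)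
    (par : Par c s J) (hl : l * J = 2 * s * c * r * m) :
    NA m c s J (r * k) (fun t => fA k (U t) (Y t))
      (fun t => c * (r / 2 * fS k (U t) (Y t)) + s * (m * w t))
      (fun t => c * (m * w t) + s * (r / 2 * fS k (U t) (Y t))) := by
  have hJ := par.J_gt
  have hJ0 : J ≠ 0 := by linarith
  have hL : 2 * s * c / J * J = 2 * s * c := by field_simp
  refine (hs.toNA0 (L := 2 * s * c / J) hk hm hm2 hr0 hr ?_).toNA par hL
  field_simp
  linear_combination hl

theorem exists_par {k l : ℝ} (hl : 0 < l) (he : 0 < eta k l) :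
    ∃ m r c s J : ℝ, 0 < m ∧ m ^ 2 = (1 - k ^ 2) / 2 ∧ 0 < r ∧ r ^ 2 = 2 ∧ Par c s J ∧
      l * J = 2 * s * c * r * m := by
  have hl2 : 0 < l ^ 2 := by positivity
  have he' : 0 < 1 - k ^ 2 - l ^ 2 := he
  have hk : 0 < 1 - k ^ 2 := by linarith
  have hq : 1 < (1 - k ^ 2) / (1 - k ^ 2 - l ^ 2) := by
    rw [lt_div_iff₀ he']; linarith
  set J := Real.sqrt ((1 - k ^ 2) / (1 - k ^ 2 - l ^ 2)) with hJ
  have hJ2 : J ^ 2 = (1 - k ^ 2) / (1 - k ^ 2 - l ^ 2) := Real.sq_sqrt (by linarith)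
  have hJ1 : 1 < J := by
    rw [hJ]; apply Real.lt_sqrt_of_sq_lt; linarith
  set m := Real.sqrt ((1 - k ^ 2) / 2) with hm
  have hm0 : 0 < m := Real.sqrt_pos.2 (by linarith)
  have hm2 : m ^ 2 = (1 - k ^ 2) / 2 := Real.sq_sqrt (by linarith)
  set c := Real.sqrt ((J + 1) / 2) with hc
  have hc0 : 0 < c := Real.sqrt_pos.2 (by linarith)
  have hc2 : c ^ 2 = (J + 1) / 2 := Real.sq_sqrt (by linarith)
  set s := Real.sqrt ((J - 1) / 2) with hs
  have hs0 : 0 < s := Real.sqrt_pos.2 (by linarith)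
  have hs2 : s ^ 2 = (J - 1) / 2 := Real.sq_sqrt (by linarith)
  set r := Real.sqrt 2 with hr
  have hr0 : 0 < r := Real.sqrt_pos.2 (by norm_num)
  have hr2 : r ^ 2 = 2 := Real.sq_sqrt (by norm_num)
  refine ⟨m, r, c, s, J, hm0, hm2, hr0, hr2, ⟨hc0, hs0, hc2, hs2⟩, ?_⟩
  have h1 : (l * J) ^ 2 = (2 * s * c * r * m) ^ 2 := by
    have e1 : (2 * s * c * r * m) ^ 2 = 4 * s ^ 2 * c ^ 2 * r ^ 2 * m ^ 2 := by ring
    rw [e1, hs2, hc2, hr2, hm2, mul_pow]
    have e2 : 4 * ((J - 1) / 2) * ((J + 1) / 2) * 2 * ((1 - k ^ 2) / 2)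
      = (J ^ 2 - 1) * (1 - k ^ 2) := by ring
    rw [e2, hJ2]
    field_simp
    ring
  exact (pow_left_inj₀ (by positivity) (by positivity) two_ne_zero).1 h1

end B92
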