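import Mathlib

/-!
# MP_b92fc8_an, module KLift: lifted polar angle along a curve in the plane
-/

set_option autoImplicit false

open Set Filter Topology

namespace B92

theorem const_on_Icc {f : ℝ → ℝ} {a b : ℝ} (hf : ∀ t ∈ Icc a b, HasDerivAt f 0 t) {s t : ℝ}
    (hs : s ∈ Icc a b) (ht : t ∈ Icc a b) : f t = f s := by
  have h := Convex.norm_image_sub_le_of_norm_hasDerivWithin_le (f := f) (f' := fun _ => 0)
    (C := 0) (s := Icc a b) (fun x hx => (hf x hx).hasDerivWithinAt) (fun x _ => by simp)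
    (convex_Icc a b) hs ht
  rw [zero_mul, norm_le_zero_iff, sub_eq_zero] at h
  exact h

/-- **Lifted angle.** -/
theorem exists_lift {ξ υ ξ' υ' : ℝ → ℝ} {a b t0 x0 : ℝ} (hab : a ≤ b) (ht0 : t0 ∈ Icc a b)
    (hξ : ∀ t ∈ Icc a b, HasDerivAt ξ (ξ' t) t) (hυ : ∀ t ∈ Icc a b, HasDerivAt υ (υ' t) t)
    (cξ : ContinuousOn ξ' (Icc a b)) (cυ : ContinuousOn υ' (Icc a b))
    (h0 : ∀ t ∈ Icc a b, 0 < ξ t ^ 2 + υ t ^ 2)
    (e1 : ξ t0 = Real.sqrt (ξ t0 ^ 2 + υ t0 ^ 2) * Real.cos x0)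
    (e2 : υ t0 = Real.sqrt (ξ t0 ^ 2 + υ t0 ^ 2) * Real.sin x0) :
    ∃ x : ℝ → ℝ, Continuous x ∧ x t0 = x0 ∧
      (∀ t ∈ Icc a b, ξ t = Real.sqrt (ξ t ^ 2 + υ t ^ 2) * Real.cos (x t) ∧
        υ t = Real.sqrt (ξ t ^ 2 + υ t ^ 2) * Real.sin (x t)) ∧
      (∀ t ∈ Icc a b, HasDerivAt x ((ξ t * υ' t - υ t * ξ' t) / (ξ t ^ 2 + υ t ^ 2)) t) := by
  set ω : ℝ → ℝ := fun t => (ξ t * υ' t - υ t * ξ' t) / (ξ t ^ 2 + υ t ^ 2) with hω
  have cξ0 : ContinuousOn ξ (Icc a b) := fun t ht => (hξ t ht).continuousAt.continuousWithinAt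
  have cυ0 : ContinuousOn υ (Icc a b) := fun t ht => (hυ t ht).continuousAt.continuousWithinAt
  have cω : ContinuousOn ω (Icc a b) :=
    ((cξ0.mul cυ).sub (cυ0.mul cξ)).div ((cξ0.pow 2).add (cυ0.pow 2)) fun t ht => (h0 t ht).ne'
  set Ω : ℝ → ℝ := IccExtend hab ((Icc a b).domRestrict ω) with hΩ
  have cΩ : Continuous Ω := (continuousOn_iff_continuous_domRestrict.1 cω).Icc_extend'
  have hΩe : ∀ t ∈ Icc a b, Ω t = ω t := fun t ht => IccExtend_of_mem hab _ ht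
  set x : ℝ → ℝ := fun t => x0 + ∫ s in t0..t, Ω s with hx
  have hxd : ∀ t, HasDerivAt x (Ω t) t := fun t =>
    ((cΩ.integral_hasStrictDerivAt t0 t).hasDerivAt).const_add x0
  have hxd' : ∀ t ∈ Icc a b, HasDerivAt x (ω t) t := fun t ht => by
    rw [← hΩe t ht]; exact hxd t
  have hx0 : x t0 = x0 := by simp [hx]
  refine ⟨x, continuous_iff_continuousAt.2 fun t => (hxd t).continuousAt, hx0, ?_, hxd'⟩
  set N : ℝ → ℝ := fun t => ξ t ^ 2 + υ t ^ 2 with hN
  have hNd : ∀ t ∈ Icc a b, HasDerivAt N (2 * (ξ t * ξ' t + υ t * υ' t)) t := fun t ht => by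
    refine (((hξ t ht).pow 2).add ((hυ t ht).pow 2)).congr_deriv ?_
    simp only [Nat.cast_ofNat]
    ring
  have hsq : ∀ t ∈ Icc a b, HasDerivAt (fun t => Real.sqrt (N t))
      ((ξ t * ξ' t + υ t * υ' t) / Real.sqrt (N t)) t := fun t ht => by
    refine ((hNd t ht).sqrt (h0 t ht).ne').congr_deriv ?_
    rw [mul_div_mul_left _ _ two_ne_zero]
  have hs0 : ∀ t ∈ Icc a b, 0 < Real.sqrt (N t) := fun t ht => Real.sqrt_pos.2 (h0 t ht)
  have hss : ∀ t ∈ Icc a b, Real.sqrt (N t) ^ 2 = N t := fun t ht => Real.sq_sqrt (h0 t ht).le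
  have hcos : ∀ t ∈ Icc a b, HasDerivAt (fun t => Real.cos (x t)) (-Real.sin (x t) * ω t) t :=
    fun t ht => (hxd' t ht).cos
  have hsin : ∀ t ∈ Icc a b, HasDerivAt (fun t => Real.sin (x t)) (Real.cos (x t) * ω t) t :=
    fun t ht => (hxd' t ht).sin
  have key : ∀ t ∈ Icc a b, (υ' t - ξ t * ω t) * N t = υ t * (ξ t * ξ' t + υ t * υ' t) ∧
      (ξ' t + υ t * ω t) * N t = ξ t * (ξ t * ξ' t + υ t * υ' t) := by
    intro t ht
    have h1 : ω t * N t = ξ t * υ' t - υ t * ξ' t := div_mul_cancel₀ _ (h0 t ht).ne'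
    constructor
    · have : (υ' t - ξ t * ω t) * N t = υ' t * N t - ξ t * (ω t * N t) := by ring
      rw [this, h1]; simp only [hN]; ring
    · have : (ξ' t + υ t * ω t) * N t = ξ' t * N t + υ t * (ω t * N t) := by ring
      rw [this, h1]; simp only [hN]; ring
  have hf : ∀ t ∈ Icc a b, HasDerivAt
      (fun t => (ξ t * Real.cos (x t) + υ t * Real.sin (x t)) / Real.sqrt (N t)) 0 t := by
    intro t ht
    have h1 := (((hξ t ht).mul (hcos t ht)).add ((hυ t ht).mul (hsin t ht))).div (hsq t ht)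
      (hs0 t ht).ne'
    refine h1.congr_deriv ?_
    have h2 := (hs0 t ht).ne'
    have h3 := hss t ht
    obtain ⟨k1, k2⟩ := key t ht
    rw [div_eq_zero_iff]; left
    simp only [Pi.add_apply, Pi.mul_apply]
    rw [sub_eq_zero]
    field_simp
    rw [h3]
    linear_combination Real.cos (x t) * k2 + Real.sin (x t) * k1
  have hg : ∀ t ∈ Icc a b, HasDerivAt
      (fun t => (υ t * Real.cos (x t) - ξ t * Real.sin (x t)) / Real.sqrt (N t)) 0 t := by
    intro t ht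
    have h1 := (((hυ t ht).mul (hcos t ht)).sub ((hξ t ht).mul (hsin t ht))).div (hsq t ht)
      (hs0 t ht).ne'
    refine h1.congr_deriv ?_
    have h2 := (hs0 t ht).ne'
    have h3 := hss t ht
    obtain ⟨k1, k2⟩ := key t ht
    rw [div_eq_zero_iff]; left
    simp only [Pi.sub_apply, Pi.mul_apply]
    rw [sub_eq_zero]
    field_simp
    rw [h3]
    linear_combination Real.cos (x t) * k1 - Real.sin (x t) * k2
  intro t ht
  have hft := const_on_Icc hf ht0 ht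
  have hgt := const_on_Icc hg ht0 ht
  have hp0 := (hs0 t0 ht0).ne'
  have hpt := (hs0 t ht).ne'
  have e1' : ξ t0 = Real.sqrt (N t0) * Real.cos x0 := e1
  have e2' : υ t0 = Real.sqrt (N t0) * Real.sin x0 := e2
  have hf0 : (ξ t0 * Real.cos (x t0) + υ t0 * Real.sin (x t0)) / Real.sqrt (N t0) = 1 := by
    rw [hx0, e1', e2', div_eq_one_iff_eq hp0]
    linear_combination Real.sqrt (N t0) * Real.cos_sq_add_sin_sq x0
  have hg0 : (υ t0 * Real.cos (x t0) - ξ t0 * Real.sin (x t0)) / Real.sqrt (N t0) = 0 := by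
    rw [hx0, e1', e2', div_eq_zero_iff]; left; ring
  rw [hf0, div_eq_one_iff_eq hpt] at hft
  rw [hg0, div_eq_zero_iff] at hgt
  have hgt' := hgt.resolve_right hpt
  have hcs := Real.cos_sq_add_sin_sq (x t)
  have hsc := hcs
  refine ⟨?_, ?_⟩
  · show ξ t = Real.sqrt (N t) * Real.cos (x t)
    linear_combination Real.cos (x t) * hft - Real.sin (x t) * hgt' - ξ t * hcs
  · show υ t = Real.sqrt (N t) * Real.sin (x t)
    linear_combination Real.sin (x t) * hft + Real.cos (x t) * hgt' - υ t * hcs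

end B92
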