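import Mathlib
import Pool.Agent.Lib.B92.KA1
import Pool.Agent.Lib.B92.KLift

/-!
# MP_b92fc8_an, module KA2 (|kappa| < 1, eta > 0): the explicit primitives `T`, `Z` and their
derivative along a solution.
-/

set_option autoImplicit false

open Set Filter Topology

noncomputable section

namespace B92

/-- `Q` in terms of `σ, υ`. -/
def gQ (c s q v : ℝ) : ℝ := c * q - s * v

/-- The primitive `T`. -/
def cT (c s J a q x : ℝ) : ℝ := c * Real.log (q + a + J) - s * x

/-- Algebraic part of `Z`. -/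
def cAlg (c s J a q v : ℝ) : ℝ :=
  (-J * a * gQ c s q v - 4 * s * c * a * gP c s q v + (2 * J + 5 * J ^ 3) * gQ c s q v
    + 10 * s * c * J ^ 2 * gP c s q v) / J ^ 2

/-- The primitive `Z`. -/
def cZ (c s J a q v x : ℝ) : ℝ :=
  5 * (c * (gH J a v - 1 - J) * Real.log (q + a + J) - s * (gH J a v - 1 + J) * x)
    + cAlg c s J a q v

/-- `Λ > 0`. -/
theorem Lam_pos {J a q v : ℝ} (hJ : 1 < J) (hc : q ^ 2 = 2 * a ^ 2 + v ^ 2) (hq : 0 ≤ q) :
    0 < q + a + J := by
  have h1 : |a| ≤ q := by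
    apply abs_le_of_sq_le_sq _ hq
    nlinarith [sq_nonneg a, sq_nonneg v]
  have := (abs_le.1 h1)
  have h2 := neg_abs_le a
  linarith

set_option maxRecDepth 4000 in
/-- The polynomial identity behind `X Z = (5 T + c₀) X H`. -/
theorem dZ_poly {c s J a q v : ℝ} (κ : ℝ) (hc : c ^ 2 = (J + 1) / 2) (hs2 : s ^ 2 = (J - 1) / 2)
    (h0 : q ^ 2 = 2 * a ^ 2 + v ^ 2) :
    5 * J * (-(c * ((a + J - q) * (pS c s J κ a q v + pA c s J κ a q v)))
        - s * ((J - a) * pV c s J κ a q v + v * pA c s J κ a q v))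
      + (-J * (pA c s J κ a q v * (c * q - s * v) + a *
          (c * pS c s J κ a q v - s * pV c s J κ a q v))
        - 4 * s * c * (pA c s J κ a q v * gP c s q v + a *
          (c * pV c s J κ a q v - s * pS c s J κ a q v))
        + (2 * J + 5 * J ^ 3) * (c * pS c s J κ a q v - s * pV c s J κ a q v)
        + 10 * s * c * J ^ 2 * (c * pV c s J κ a q v - s * pS c s J κ a q v))
      = -(5 * c * J - 2 * κ) / 2 * (gP c s q v * (2 * J * (J * (1 - 2 * a) + (a ^ 2 + v ^ 2))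
        + 2 * gP c s q v ^ 2)) := by
  simp only [pA, pS, pV, gP]
  linear_combination (8 * a * c * s ^ 3 * J - 4 * a * c * s ^ 3 + 8 * a * c * s * J ^ 2 - 4 * a * c * s * J - 5 * q
        * c * s ^ 3 * J + 2 * q * s ^ 3 * κ + 15 * v * c ^ 2 * s ^ 2 * J - 15 * v * c ^ 2 * J ^ 2 + 5
        * v * c ^ 2 * J - 2 * v * c * s ^ 2 * κ + 4 * v * c * J * κ - 4 * c * s ^ 3 * J - 4 * c * s *
        J ^ 2) * h0
        + (8 * a ^ 3 * c * s * J - 16 * a ^ 3 * c * s + 4 * a ^ 2 * q * s * κ + 30 * a ^ 2 * v * s ^ 2 *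
        J - 15 * a ^ 2 * v * J ^ 2 + 15 * a ^ 2 * v * J - 20 * a ^ 2 * c * s * J ^ 3 + 40 * a ^ 2 * c
        * s * J ^ 2 + 8 * a ^ 2 * c * s * J - 40 * a * q * v * s ^ 2 * J + 10 * a * q * v * J ^ 2 - 10
        * a * q * v * J - 10 * a * q * s * J ^ 2 * κ - 4 * a * q * s * J * κ + 20 * a * v ^ 2 * c * s
        * J - 20 * a * c * s * J ^ 3 - 15 * q * v ^ 2 * c * s * J + 2 * q * v ^ 2 * s * κ + 60 * q * v
        * s ^ 2 * J ^ 3 + 8 * q * v * s ^ 2 * J - 15 * q * v * J ^ 4 + 20 * q * v * J ^ 3 - 7 * q * v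
        * J ^ 2 + 2 * q * v * J + 10 * q * s * J ^ 3 * κ + 5 * v ^ 3 * c ^ 2 * J - 2 * v ^ 3 * c * κ +
        15 * v ^ 3 * s ^ 2 * J - (15 / 2) * v ^ 3 * J ^ 2 + (15 / 2) * v ^ 3 * J - 30 * v ^ 2 * c * s
        * J ^ 3 + 10 * v ^ 2 * c * s * J ^ 2 - 4 * v ^ 2 * c * s * J) * hc
        + (32 * a ^ 3 * c * s * J - 16 * a ^ 3 * c * s - 10 * a ^ 2 * q * c * s * J + 4 * a ^ 2 * q * s
        * κ + 15 * a ^ 2 * v * J ^ 2 + 15 * a ^ 2 * v * J - 40 * a ^ 2 * c * s * J ^ 3 + 20 * a ^ 2 *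
        c * s * J ^ 2 - 16 * a ^ 2 * c * s * J - 10 * a * q * v * J ^ 2 - 10 * a * q * v * J + 20 * a
        * v ^ 2 * c * s * J - 10 * a * v * c * J ^ 2 * κ + 4 * a * v * c * J * κ + 20 * a * c * s * J
        ^ 3 - 5 * q * v ^ 2 * c * s * J + 2 * q * v ^ 2 * s * κ + 15 * q * v * J ^ 4 + 10 * q * v * J
        ^ 3 - 3 * q * v * J ^ 2 + 2 * q * v * J - 2 * v ^ 3 * c * κ + (15 / 2) * v ^ 3 * J ^ 2 + (15 /
        2) * v ^ 3 * J - 30 * v ^ 2 * c * s * J ^ 3 - 10 * v ^ 2 * c * s * J ^ 2 - 4 * v ^ 2 * c * s *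
        J - 10 * v * c * J ^ 3 * κ) * hs2

theorem NA.dZ {m c s J κ : ℝ} {A σ υ x : ℝ → ℝ} (hs : NA m c s J κ A σ υ) {t : ℝ}
    (hR : 0 < (J - A t) ^ 2 + υ t ^ 2)
    (hx : HasDerivAt x (((J - A t) * (pV c s J κ (A t) (σ t) (υ t) / (m * J))
      - υ t * (-(pA c s J κ (A t) (σ t) (υ t) / (m * J)))) / ((J - A t) ^ 2 + υ t ^ 2)) t) :
    HasDerivAt (fun t => cZ c s J (A t) (σ t) (υ t) (x t))
      ((5 * cT c s J (A t) (σ t) (x t) + (5 * c / 2 - κ / J)) *
        (-(gP c s (σ t) (υ t)) * gu c s J (A t) (σ t) (υ t) / m)) t := by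
  have hJ := hs.par.J_gt
  have hJ0 : J ≠ 0 := by linarith
  have hm := hs.m_pos.ne'
  have hc := hs.par.hc
  have hs2 := hs.par.hs
  have hL : 0 < σ t + A t + J := Lam_pos hJ (hs.cone t) (hs.pos t).le
  have hlog : HasDerivAt (fun t => Real.log (σ t + A t + J))
      ((pS c s J κ (A t) (σ t) (υ t) / (m * J) + pA c s J κ (A t) (σ t) (υ t) / (m * J))
        / (σ t + A t + J)) t :=
    (((hs.dS t).add (hs.dA t)).add_const J).log hL.ne'
  have hH := hs.dH t
  have hAlg : HasDerivAt (fun t => cAlg c s J (A t) (σ t) (υ t))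
      ((-J * (pA c s J κ (A t) (σ t) (υ t) * gQ c s (σ t) (υ t) + A t *
          (c * pS c s J κ (A t) (σ t) (υ t) - s * pV c s J κ (A t) (σ t) (υ t)))
        - 4 * s * c * (pA c s J κ (A t) (σ t) (υ t) * gP c s (σ t) (υ t) + A t *
          (c * pV c s J κ (A t) (σ t) (υ t) - s * pS c s J κ (A t) (σ t) (υ t)))
        + (2 * J + 5 * J ^ 3) *
          (c * pS c s J κ (A t) (σ t) (υ t) - s * pV c s J κ (A t) (σ t) (υ t))
        + 10 * s * c * J ^ 2 *
          (c * pV c s J κ (A t) (σ t) (υ t) - s * pS c s J κ (A t) (σ t) (υ t)))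
        / (m * J ^ 3)) t := by
    have hP : HasDerivAt (fun t => gP c s (σ t) (υ t))
        ((c * pV c s J κ (A t) (σ t) (υ t) - s * pS c s J κ (A t) (σ t) (υ t)) / (m * J)) t :=
      (((hs.dV t).const_mul c).sub ((hs.dS t).const_mul s)).congr_deriv (by ring)
    have hQ : HasDerivAt (fun t => gQ c s (σ t) (υ t))
        ((c * pS c s J κ (A t) (σ t) (υ t) - s * pV c s J κ (A t) (σ t) (υ t)) / (m * J)) t :=
      (((hs.dS t).const_mul c).sub ((hs.dV t).const_mul s)).congr_deriv (by ring)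
    have h1 := (((((hs.dA t).const_mul (-J)).mul hQ).sub
      (((hs.dA t).const_mul (4 * s * c)).mul hP)).add (hQ.const_mul (2 * J + 5 * J ^ 3))).add
      (hP.const_mul (10 * s * c * J ^ 2)) |>.div_const (J ^ 2)
    refine (h1.congr_deriv ?_).congr_of_eventuallyEq (Eventually.of_forall fun y => ?_)
    · field_simp
      ring
    · simp only [cAlg, Pi.add_apply, Pi.sub_apply, Pi.mul_apply]
  have h1 := (((((hH.sub_const 1).sub_const J).const_mul c).mul hlog).sub
    ((((hH.sub_const 1).add_const J).const_mul s).mul hx)).const_mul 5 |>.add hAlg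
  refine (h1.congr_deriv ?_).congr_of_eventuallyEq (Eventually.of_forall fun y => ?_)
  · have h0 := hs.cone t
    clear h1 hAlg hH hlog
    simp only [cT, gQ]
    generalize hlg : Real.log (σ t + A t + J) = lg
    generalize x t = X at *
    have hHJ : J * gH J (A t) (υ t) = J * (1 - 2 * A t) + (A t ^ 2 + υ t ^ 2) := by
      simp only [gH]; field_simp
    have hu : J ^ 2 * gu c s J (A t) (σ t) (υ t) = 2 * J * (J * gH J (A t) (υ t))
        + 2 * gP c s (σ t) (υ t) ^ 2 := by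
      simp only [gu]; field_simp
    have e1 : (gH J (A t) (υ t) - 1 - J) * ((pS c s J κ (A t) (σ t) (υ t) / (m * J)
        + pA c s J κ (A t) (σ t) (υ t) / (m * J)) / (σ t + A t + J))
        = -((A t + J - σ t) * (pS c s J κ (A t) (σ t) (υ t) + pA c s J κ (A t) (σ t) (υ t)))
          / (m * J ^ 2) := by
      have h2 : (gH J (A t) (υ t) - 1 - J) = -((σ t + A t + J) * (A t + J - σ t)) / J := by
        rw [eq_div_iff hJ0]
        linear_combination hHJ - h0
      rw [h2]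
      field_simp
    have e2 : (gH J (A t) (υ t) - 1 + J) * (((J - A t) * (pV c s J κ (A t) (σ t) (υ t) / (m * J))
        - υ t * (-(pA c s J κ (A t) (σ t) (υ t) / (m * J)))) / ((J - A t) ^ 2 + υ t ^ 2))
        = ((J - A t) * pV c s J κ (A t) (σ t) (υ t) + υ t * pA c s J κ (A t) (σ t) (υ t))
          / (m * J ^ 2) := by
      have h2 : (gH J (A t) (υ t) - 1 + J) = ((J - A t) ^ 2 + υ t ^ 2) / J := by
        rw [eq_div_iff hJ0]
        linear_combination hHJ
      rw [h2]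
      field_simp
      ring
    have e3 : gu c s J (A t) (σ t) (υ t) = (2 * J * (J * (1 - 2 * A t) + (A t ^ 2 + υ t ^ 2))
        + 2 * gP c s (σ t) (υ t) ^ 2) / J ^ 2 := by
      rw [eq_div_iff (pow_ne_zero 2 hJ0), mul_comm, hu, hHJ]
    have hfin := dZ_poly κ hc hs2 h0
    have e4 : 5 * (c * (-((A t + J - σ t) * (pS c s J κ (A t) (σ t) (υ t)
          + pA c s J κ (A t) (σ t) (υ t))) / (m * J ^ 2))
        - s * (((J - A t) * pV c s J κ (A t) (σ t) (υ t) + υ t * pA c s J κ (A t) (σ t) (υ t))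
          / (m * J ^ 2))) + (-J * (pA c s J κ (A t) (σ t) (υ t) * (c * σ t - s * υ t) + A t *
          (c * pS c s J κ (A t) (σ t) (υ t) - s * pV c s J κ (A t) (σ t) (υ t)))
        - 4 * s * c * (pA c s J κ (A t) (σ t) (υ t) * gP c s (σ t) (υ t) + A t *
          (c * pV c s J κ (A t) (σ t) (υ t) - s * pS c s J κ (A t) (σ t) (υ t)))
        + (2 * J + 5 * J ^ 3) *
          (c * pS c s J κ (A t) (σ t) (υ t) - s * pV c s J κ (A t) (σ t) (υ t))
        + 10 * s * c * J ^ 2 *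
          (c * pV c s J κ (A t) (σ t) (υ t) - s * pS c s J κ (A t) (σ t) (υ t)))
        / (m * J ^ 3) = (5 * c / 2 - κ / J) *
          (-(gP c s (σ t) (υ t)) * gu c s J (A t) (σ t) (υ t) / m) := by
      rw [e3]
      generalize A t = a at *
      generalize σ t = q at *
      generalize υ t = v at *
      generalize gP c s q v = P at *
      generalize pA c s J κ a q v = FA at *
      generalize pS c s J κ a q v = FS at *
      generalize pV c s J κ a q v = FV at *
      field_simp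
      linear_combination hfin
    linear_combination (5 * c) * e1 - (5 * s) * e2 + e4
  · simp only [cZ, Pi.add_apply, Pi.sub_apply, Pi.mul_apply]

end B92
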