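import Mathlib
import Pool.Agent.Lib.B92.KA2
import Pool.Agent.Lib.B92.KInv

/-!
# MP_b92fc8_an, module KA3 (|kappa| < 1, eta > 0): level curves as circles, primitives on them,
and the K-lemma.
-/

set_option autoImplicit false

open Set Filter Topology

noncomputable section

namespace B92

/-- `A` on the circle. -/
def ca (J R x : ℝ) : ℝ := J - R * Real.cos x

/-- `υ` on the circle. -/
def cv (R x : ℝ) : ℝ := R * Real.sin x

/-- `σ` on the circle. -/
def cq (J R x : ℝ) : ℝ := Real.sqrt (2 * ca J R x ^ 2 + cv R x ^ 2)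

/-- `T` on the circle. -/
def kT (c s J R x : ℝ) : ℝ := cT c s J (ca J R x) (cq J R x) x

/-- `Z` on the circle. -/
def kZ (c s J R x : ℝ) : ℝ := cZ c s J (ca J R x) (cq J R x) (cv R x) x

/-- `P` on the circle. -/
def kP (c s J R x : ℝ) : ℝ := gP c s (cq J R x) (cv R x)

theorem cq_sq (J R x : ℝ) : cq J R x ^ 2 = 2 * ca J R x ^ 2 + cv R x ^ 2 :=
  Real.sq_sqrt (by positivity)

theorem cq_nonneg (J R x : ℝ) : 0 ≤ cq J R x := Real.sqrt_nonneg _

theorem hasDerivAt_ca (J R x : ℝ) : HasDerivAt (ca J R) (cv R x) x := by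
  refine (((Real.hasDerivAt_cos x).const_mul R).const_sub J).congr_deriv ?_
  simp only [cv]; ring

theorem hasDerivAt_cv (J R x : ℝ) : HasDerivAt (cv R) (J - ca J R x) x := by
  refine ((Real.hasDerivAt_sin x).const_mul R).congr_deriv ?_
  simp only [ca]; ring

theorem hasDerivAt_cq {J R x : ℝ} (h : 0 < cq J R x) :
    HasDerivAt (cq J R) (cv R x * (J + ca J R x) / cq J R x) x := by
  have h0 : 2 * ca J R x ^ 2 + cv R x ^ 2 ≠ 0 := by
    rw [← cq_sq]; positivity
  have h1 : HasDerivAt (fun y => 2 * ca J R y ^ 2 + cv R y ^ 2)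
      (2 * (cv R x * (J + ca J R x))) x := by
    refine ((((hasDerivAt_ca J R x).pow 2).const_mul 2).add
      ((hasDerivAt_cv J R x).pow 2)).congr_deriv ?_
    simp only [Nat.cast_ofNat]; ring
  refine (h1.sqrt h0).congr_deriv ?_
  rw [mul_div_mul_left _ _ two_ne_zero]
  rfl

theorem continuous_cq (J R : ℝ) : Continuous (cq J R) := by
  unfold cq ca cv; fun_prop

theorem continuous_ca (J R : ℝ) : Continuous (ca J R) := by
  unfold ca; fun_prop

theorem continuous_cv (R : ℝ) : Continuous (cv R) := by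
  unfold cv; fun_prop

theorem circ_gH {J R h : ℝ} (hJ : 1 < J) (hR : R ^ 2 = J * (h - 1 + J)) (x : ℝ) :
    gH J (ca J R x) (cv R x) = h := by
  have hJ0 : J ≠ 0 := by linarith
  have h1 := Real.cos_sq_add_sin_sq x
  simp only [gH, ca, cv]
  field_simp
  linear_combination R ^ 2 * h1 + hR

theorem circ_Lam {J R : ℝ} (hJ : 1 < J) (x : ℝ) : 0 < cq J R x + ca J R x + J :=
  Lam_pos hJ (cq_sq J R x) (cq_nonneg J R x)

theorem continuous_kT {c s J R : ℝ} (hJ : 1 < J) : Continuous (kT c s J R) := by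
  unfold kT cT
  have h1 : Continuous fun x => Real.log (cq J R x + ca J R x + J) :=
    (((continuous_cq J R).add (continuous_ca J R)).add continuous_const).log
      fun x => (circ_Lam hJ x).ne'
  exact (continuous_const.mul h1).sub (continuous_const.mul continuous_id)

theorem kZ_eq {c s J R h : ℝ} (hJ : 1 < J) (hR : R ^ 2 = J * (h - 1 + J)) (x : ℝ) :
    kZ c s J R x = 5 * (c * (h - 1 - J) * Real.log (cq J R x + ca J R x + J)
      - s * (h - 1 + J) * x) + cAlg c s J (ca J R x) (cq J R x) (cv R x) := by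
  simp only [kZ, cZ, circ_gH hJ hR]

theorem continuous_kZ {c s J R h : ℝ} (hJ : 1 < J) (hR : R ^ 2 = J * (h - 1 + J)) :
    Continuous (kZ c s J R) := by
  have h0 : kZ c s J R = fun x => 5 * (c * (h - 1 - J) * Real.log (cq J R x + ca J R x + J)
      - s * (h - 1 + J) * x) + cAlg c s J (ca J R x) (cq J R x) (cv R x) :=
    funext fun x => kZ_eq hJ hR x
  rw [h0]
  have h1 : Continuous fun x => Real.log (cq J R x + ca J R x + J) :=
    (((continuous_cq J R).add (continuous_ca J R)).add continuous_const).log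
      fun x => (circ_Lam hJ x).ne'
  have h2 := continuous_cq J R
  have h3 := continuous_ca J R
  have h4 := continuous_cv R
  unfold cAlg gP gQ
  fun_prop

theorem hasDerivAt_kLog {J R x : ℝ} (hJ : 1 < J) (h : 0 < cq J R x) :
    HasDerivAt (fun x => Real.log (cq J R x + ca J R x + J)) (cv R x / cq J R x) x := by
  have h1 := (((hasDerivAt_cq h).add (hasDerivAt_ca J R x)).add_const J).log
    (circ_Lam (R := R) hJ x).ne'
  refine h1.congr_deriv ?_
  have h2 := (circ_Lam (R := R) hJ x).ne'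
  have h3 := h.ne'
  simp only [Pi.add_apply]
  rw [div_eq_div_iff h2 h3]
  field_simp
  ring

theorem hasDerivAt_kT {c s J R x : ℝ} (hJ : 1 < J) (h : 0 < cq J R x) :
    HasDerivAt (kT c s J R) (kP c s J R x / cq J R x) x := by
  have h1 := ((hasDerivAt_kLog hJ h).const_mul c).sub ((hasDerivAt_id x).const_mul s)
  refine h1.congr_deriv ?_
  have h3 := h.ne'
  simp only [kP, gP]
  field_simp

theorem dZx_poly {c s J a q v : ℝ} (hc : c ^ 2 = (J + 1) / 2) (hs2 : s ^ 2 = (J - 1) / 2)
    (h0 : q ^ 2 = 2 * a ^ 2 + v ^ 2) :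
    5 * J * (c * (q ^ 2 - (a + J) ^ 2) * v - s * ((J - a) ^ 2 + v ^ 2) * q)
      + (-J * (q * v * (c * q - s * v) + a * (c * (v * (J + a)) - s * (q * (J - a))))
        - 4 * s * c * (q * v * (c * v - s * q) + a * (c * (q * (J - a)) - s * (v * (J + a))))
        + (2 * J + 5 * J ^ 3) * (c * (v * (J + a)) - s * (q * (J - a)))
        + 10 * s * c * J ^ 2 * (c * (q * (J - a)) - s * (v * (J + a))))
      = (c * v - s * q) * (2 * J * (J * (1 - 2 * a) + (a ^ 2 + v ^ 2))
        + 2 * (c * v - s * q) ^ 2) := by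
  linear_combination (2 * q * s ^ 3 - 2 * v * c * s ^ 2 + 4 * v * c * J) * h0
    + (4 * a ^ 2 * q * s - 10 * a * q * s * J ^ 2 - 4 * a * q * s * J + 2 * q * v ^ 2 * s
      + 10 * q * s * J ^ 3 - 2 * v ^ 3 * c) * hc
    + (4 * a ^ 2 * q * s - 10 * a * v * c * J ^ 2 + 4 * a * v * c * J + 2 * q * v ^ 2 * s
      - 2 * v ^ 3 * c - 10 * v * c * J ^ 3) * hs2

theorem hasDerivAt_kZ {c s J R h x : ℝ} (par : Par c s J) (hR : R ^ 2 = J * (h - 1 + J))
    (hq : 0 < cq J R x) :
    HasDerivAt (kZ c s J R) ((2 * h + 2 * kP c s J R x ^ 2 / J ^ 2) *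
      (kP c s J R x / cq J R x)) x := by
  have hJ := par.J_gt
  have hJ0 : J ≠ 0 := by linarith
  have h0 : kZ c s J R = fun x => 5 * (c * (h - 1 - J) * Real.log (cq J R x + ca J R x + J)
      - s * (h - 1 + J) * x) + cAlg c s J (ca J R x) (cq J R x) (cv R x) :=
    funext fun x => kZ_eq hJ hR x
  rw [h0]
  have hdA := hasDerivAt_ca J R x
  have hdV := hasDerivAt_cv J R x
  have hdQ := hasDerivAt_cq hq
  have hP : HasDerivAt (fun t => gP c s (cq J R t) (cv R t))
      (c * (J - ca J R x) - s * (cv R x * (J + ca J R x) / cq J R x)) x :=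
    (hdV.const_mul c).sub (hdQ.const_mul s)
  have hQ : HasDerivAt (fun t => gQ c s (cq J R t) (cv R t))
      (c * (cv R x * (J + ca J R x) / cq J R x) - s * (J - ca J R x)) x :=
    (hdQ.const_mul c).sub (hdV.const_mul s)
  have hAlg : HasDerivAt (fun t => cAlg c s J (ca J R t) (cq J R t) (cv R t)) _ x :=
    ((((hdA.const_mul (-J)).mul hQ).sub
      ((hdA.const_mul (4 * s * c)).mul hP)).add (hQ.const_mul (2 * J + 5 * J ^ 3))).add
      (hP.const_mul (10 * s * c * J ^ 2)) |>.div_const (J ^ 2)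
  have h1 := ((((hasDerivAt_kLog hJ hq).const_mul (c * (h - 1 - J))).sub
    ((hasDerivAt_id x).const_mul (s * (h - 1 + J)))).const_mul 5).add hAlg
  refine h1.congr_deriv ?_
  have hH := circ_gH hJ hR x
  have hcone := cq_sq J R x
  have hpoly := dZx_poly par.hc par.hs hcone
  simp only [kP]
  generalize ca J R x = a at *
  generalize cv R x = v at *
  generalize cq J R x = q at *
  simp only [gH] at hH
  have hq0 := hq.ne'
  have hH' : J * h = J * (1 - 2 * a) + (a ^ 2 + v ^ 2) := by
    rw [← hH]; field_simp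
  simp only [gP, gQ]
  field_simp
  linear_combination hpoly + 5 * J * c * v * (hH' - hcone) - 5 * J * q * s * hH'
    - 2 * J * (c * v - q * s) * hH'

/-! ### The ray points -/

/-- Ray point `A = 1 - sqrt h`. -/
def xb (J R h : ℝ) : ℝ := Real.arccos ((J - 1 + Real.sqrt h) / R)

/-- Ray point `A = 1 + sqrt h`. -/
def xE (J R h : ℝ) : ℝ := Real.arccos ((J - 1 - Real.sqrt h) / R)

/-- A level circle. -/
structure Circ (c s J R h : ℝ) : Prop where
  par : Par c s J
  hpos : 0 < h
  Rpos : 0 < R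
  hR : R ^ 2 = J * (h - 1 + J)

variable {c s J R h : ℝ}

theorem Circ.cos_b (C : Circ c s J R h) : R * Real.cos (xb J R h) = J - 1 + Real.sqrt h := by
  have hJ := C.par.J_gt
  have h1 := Real.sqrt_pos.2 C.hpos
  have h2 := Real.sq_sqrt C.hpos.le
  have h3 : 0 ≤ (J - 1 + Real.sqrt h) / R := div_nonneg (by linarith) C.Rpos.le
  have h4 : (J - 1 + Real.sqrt h) / R ≤ 1 := by
    rw [div_le_one C.Rpos]
    refine (abs_le_of_sq_le_sq' ?_ C.Rpos.le).2
    rw [C.hR]
    nlinarith [mul_nonneg (by linarith : (0:ℝ) ≤ J - 1) (sq_nonneg (1 - Real.sqrt h))]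
  rw [xb, Real.cos_arccos (by linarith) h4]
  field_simp [C.Rpos.ne']

theorem Circ.arg_E (C : Circ c s J R h) : -1 < (J - 1 - Real.sqrt h) / R ∧
    (J - 1 - Real.sqrt h) / R < 1 := by
  have hJ := C.par.J_gt
  have h1 := Real.sqrt_pos.2 C.hpos
  have h2 := Real.sq_sqrt C.hpos.le
  rw [← abs_lt, ← sq_lt_one_iff_abs_lt_one, div_pow, div_lt_one (pow_pos C.Rpos 2), C.hR]
  nlinarith [mul_pos (by linarith : (0:ℝ) < J - 1) (pow_pos (by linarith :
    (0:ℝ) < 1 + Real.sqrt h) 2)]

theorem Circ.cos_E (C : Circ c s J R h) : R * Real.cos (xE J R h) = J - 1 - Real.sqrt h := by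
  have h := C.arg_E
  rw [xE, Real.cos_arccos h.1.le h.2.le]
  field_simp [C.Rpos.ne']

theorem Circ.xb_nonneg (_C : Circ c s J R h) : 0 ≤ xb J R h := Real.arccos_nonneg _

theorem Circ.xE_lt (C : Circ c s J R h) : xE J R h < Real.pi := by
  rw [xE, ← Real.arccos_neg_one]
  have := C.arg_E
  exact Real.arccos_lt_arccos le_rfl this.1 this.2.le

theorem Circ.xb_lt_xE (C : Circ c s J R h) : xb J R h < xE J R h := by
  have h1 := Real.sqrt_pos.2 C.hpos
  have h2 := C.cos_b
  have h3 := C.cos_E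
  by_contra hcon
  push Not at hcon
  have h4 : Real.cos (xb J R h) ≤ Real.cos (xE J R h) :=
    Real.cos_le_cos_of_nonneg_of_le_pi (Real.arccos_nonneg _) (Real.arccos_le_pi _) hcon
  have := mul_le_mul_of_nonneg_left h4 C.Rpos.le
  linarith

/-- `(c υ)² - (s σ)² = J (h - (ξ - (J - 1))²)`. -/
theorem Circ.key (C : Circ c s J R h) (x : ℝ) : (c * cv R x) ^ 2 - (s * cq J R x) ^ 2
    = J * (h - (R * Real.cos x - (J - 1)) ^ 2) := by
  have h1 := cq_sq J R x
  have h2 := Real.cos_sq_add_sin_sq x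
  have h3 := C.hR
  have hc := C.par.hc
  have hs2 := C.par.hs
  have h4 : (R * Real.sin x) ^ 2 = J * (h - 1 + J) - (R * Real.cos x) ^ 2 := by
    rw [← h3]; linear_combination R ^ 2 * h2
  rw [mul_pow, mul_pow, h1, hc, hs2]
  simp only [ca, cv]
  rw [h4]
  ring

theorem Circ.kP_pos (C : Circ c s J R h) {x : ℝ} (h1 : xb J R h < x) (h2 : x < xE J R h) :
    0 < kP c s J R x ∧ 0 < cv R x := by
  have h0 := C.xb_nonneg
  have hE := C.xE_lt
  have hsin : 0 < Real.sin x := Real.sin_pos_of_pos_of_lt_pi (by linarith) (by linarith)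
  have hv : 0 < cv R x := mul_pos C.Rpos hsin
  refine ⟨?_, hv⟩
  have c1 : Real.cos x < Real.cos (xb J R h) :=
    Real.cos_lt_cos_of_nonneg_of_le_pi h0 (by linarith) h1
  have c2 : Real.cos (xE J R h) < Real.cos x :=
    Real.cos_lt_cos_of_nonneg_of_le_pi (by linarith) hE.le h2
  have c1' := mul_lt_mul_of_pos_left c1 C.Rpos
  have c2' := mul_lt_mul_of_pos_left c2 C.Rpos
  rw [C.cos_b] at c1'
  rw [C.cos_E] at c2'
  have h3 := Real.sq_sqrt C.hpos.le
  have hJ := C.par.J_gt
  have h4 : (R * Real.cos x - (J - 1)) ^ 2 < h := by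
    rw [← h3]
    apply sq_lt_sq'
    · linarith
    · linarith
  have key := C.key x
  have h5 : (s * cq J R x) ^ 2 < (c * cv R x) ^ 2 := by
    have := mul_pos (by linarith : 0 < J) (sub_pos.2 h4)
    linarith
  have h6 := abs_lt_of_sq_lt_sq h5 (mul_pos C.par.c_pos hv).le
  have := (abs_lt.1 h6).2
  simp only [kP, gP]; linarith

theorem Circ.kP_nonneg (C : Circ c s J R h) {x : ℝ} (h1 : xb J R h ≤ x) (h2 : x ≤ xE J R h) :
    0 ≤ kP c s J R x := by
  have hcont : Continuous (kP c s J R) := by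
    have h2 := continuous_cq J R
    have h4 := continuous_cv R
    unfold kP gP
    fun_prop
  have hcl : IsClosed {x | 0 ≤ kP c s J R x} := isClosed_le continuous_const hcont
  have hsub : Ioo (xb J R h) (xE J R h) ⊆ {x | 0 ≤ kP c s J R x} := fun x hx =>
    (C.kP_pos hx.1 hx.2).1.le
  have := closure_minimal hsub hcl
  rw [closure_Ioo C.xb_lt_xE.ne] at this
  exact this ⟨h1, h2⟩

theorem per_ca (J R x : ℝ) : ca J R (x - 2 * Real.pi) = ca J R x := by
  simp only [ca, Real.cos_sub_two_pi]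

theorem per_cv (R x : ℝ) : cv R (x - 2 * Real.pi) = cv R x := by
  simp only [cv, Real.sin_sub_two_pi]

theorem per_cq (J R x : ℝ) : cq J R (x - 2 * Real.pi) = cq J R x := by
  simp only [cq, per_ca, per_cv]

theorem per_kP (c s J R x : ℝ) : kP c s J R (x - 2 * Real.pi) = kP c s J R x := by
  simp only [kP, per_cq, per_cv]

/-- Sign on the lower side; the apex is excluded. -/
theorem Circ.kP_neg (C : Circ c s J R h) {x : ℝ} (h1 : xE J R h - 2 * Real.pi < x)
    (h2 : x < xb J R h) : kP c s J R x < 0 ∧ 0 < cq J R x := by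
  have h0 := C.xb_nonneg
  have hE := C.xE_lt
  have hbE := C.xb_lt_xE
  have hJ := C.par.J_gt
  have hpi := Real.pi_pos
  have hsq := C.hpos
  have h3 := Real.sq_sqrt C.hpos.le
  have hsp := Real.sqrt_pos.2 C.hpos
  -- the apex
  have hq : 0 < cq J R x := by
    rcases (cq_nonneg J R x).eq_or_lt with hz | hz
    · exfalso
      have h5 := cq_sq J R x
      rw [← hz] at h5
      have hA : ca J R x = 0 := by nlinarith [sq_nonneg (ca J R x), sq_nonneg (cv R x)]
      have hV : cv R x = 0 := by nlinarith [sq_nonneg (ca J R x), sq_nonneg (cv R x)]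
      have hH := circ_gH hJ C.hR x
      simp only [gH, hA, hV] at hH
      have hcos : R * Real.cos x = J := by simp only [ca] at hA; linarith
      have hsin : Real.sin x = 0 := by
        simp only [cv] at hV
        exact (mul_eq_zero.1 hV).resolve_left C.Rpos.ne'
      have h1' : Real.sqrt h = 1 := by
        rw [← hH]; norm_num
      have hcb := C.cos_b
      rw [h1'] at hcb
      have hceq : Real.cos (xb J R h) = Real.cos x := by
        have : R * Real.cos (xb J R h) = R * Real.cos x := by rw [hcb, hcos]; ring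
        exact mul_left_cancel₀ C.Rpos.ne' this
      have hcp : 0 < Real.cos x := by
        have : 0 < R * Real.cos x := by rw [hcos]; linarith
        exact (mul_pos_iff_of_pos_left C.Rpos).1 this
      have hc1 : Real.cos x = 1 := by
        have h7 := Real.cos_sq_add_sin_sq x
        rw [hsin] at h7
        nlinarith
      have hx0 : x = 0 := (Real.cos_eq_one_iff_of_lt_of_lt (by linarith) (by linarith)).1 hc1
      have hb0 : xb J R h = 0 :=
        (Real.cos_eq_one_iff_of_lt_of_lt (by linarith) (by linarith)).1 (hceq.trans hc1)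
      linarith
    · exact hz
  refine ⟨?_, hq⟩
  by_contra hcon
  push Not at hcon
  have h4 : s * cq J R x ≤ c * cv R x := by
    simp only [kP, gP] at hcon; linarith
  have h5 : 0 < s * cq J R x := mul_pos C.par.s_pos hq
  have hv : 0 < cv R x := (mul_pos_iff_of_pos_left C.par.c_pos).1 (h5.trans_le h4)
  have hsin : 0 < Real.sin x := (mul_pos_iff_of_pos_left C.Rpos).1 hv
  have h6 : (s * cq J R x) ^ 2 ≤ (c * cv R x) ^ 2 := pow_le_pow_left₀ h5.le h4 2
  have key := C.key x
  have h7 : (R * Real.cos x - (J - 1)) ^ 2 ≤ Real.sqrt h ^ 2 := by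
    rw [h3]
    have : 0 ≤ J * (h - (R * Real.cos x - (J - 1)) ^ 2) := by linarith
    have := (mul_nonneg_iff_of_pos_left (by linarith : 0 < J)).1 this
    linarith
  have h8 := abs_le_of_sq_le_sq' h7 hsp.le
  have hcb := C.cos_b
  have hcE := C.cos_E
  have hc1 : Real.cos x ≤ Real.cos (xb J R h) :=
    le_of_mul_le_mul_left (by linarith [h8.2]) C.Rpos
  have hc2 : Real.cos (xE J R h) ≤ Real.cos x :=
    le_of_mul_le_mul_left (by linarith [h8.1]) C.Rpos
  rcases lt_or_ge 0 x with hx | hx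
  · have := Real.cos_lt_cos_of_nonneg_of_le_pi hx.le (by linarith) h2
    linarith
  · have hx2 : x < -Real.pi := by
      by_contra hcon2
      push Not at hcon2
      have := Real.sin_nonpos_of_nonpos_of_neg_pi_le hx hcon2
      linarith
    have hx3 : Real.cos (x + 2 * Real.pi) < Real.cos (xE J R h) :=
      Real.cos_lt_cos_of_nonneg_of_le_pi (by linarith) (by linarith) (by linarith)
    rw [Real.cos_add_two_pi] at hx3
    linarith

/-! ### The inequality behind the K-lemma -/

theorem phiKA_pos {c s X : ℝ} (hc : 0 < c) (hs : 0 < s) (hX0 : 0 < X) (hX : X < Real.pi) :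
    c * Real.cos X * Real.sinh (s * X / c) < s * Real.sin X * Real.cosh (s * X / c) := by
  have hd : ∀ y : ℝ, HasDerivAt (fun y => s * Real.sin y * Real.cosh (s * y / c)
      - c * Real.cos y * Real.sinh (s * y / c))
      ((s ^ 2 / c + c) * (Real.sin y * Real.sinh (s * y / c))) y := by
    intro y
    have h0 : HasDerivAt (fun y : ℝ => s * y / c) (s / c) y := by
      refine (((hasDerivAt_id y).const_mul s).div_const c).congr_deriv ?_
      ring
    have h1 := (((Real.hasDerivAt_sin y).const_mul s).mul h0.cosh).sub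
      (((Real.hasDerivAt_cos y).const_mul c).mul h0.sinh)
    refine h1.congr_deriv ?_
    field_simp
    ring
  have hmono : StrictMonoOn (fun y => s * Real.sin y * Real.cosh (s * y / c)
      - c * Real.cos y * Real.sinh (s * y / c)) (Icc 0 Real.pi) := by
    apply strictMonoOn_of_deriv_pos (convex_Icc _ _)
      (continuous_iff_continuousAt.2 fun y => (hd y).continuousAt).continuousOn
    intro y hy
    rw [interior_Icc] at hy
    rw [(hd y).deriv]
    have h1 := Real.sin_pos_of_pos_of_lt_pi hy.1 hy.2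
    have h2 : 0 < Real.sinh (s * y / c) := by
      rw [Real.sinh_pos_iff]; have := hy.1; positivity
    positivity
  have h := hmono ⟨le_rfl, Real.pi_pos.le⟩ ⟨hX0.le, hX.le⟩ hX0
  simp only [Real.sin_zero, mul_zero, zero_mul, zero_div, Real.sinh_zero, sub_zero] at h
  linarith

/-- **Pair formula.** At equal `T`, `(P₁ + P₂) < 0`. -/
theorem Circ.pair (C : Circ c s J R h) {x1 x2 : ℝ} (h12 : x2 < x1) (h12' : x1 < x2 + 2 * Real.pi)
    (hq1 : 0 < cq J R x1) (hT : kT c s J R x1 = kT c s J R x2) :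
    kP c s J R x1 + kP c s J R x2 < 0 := by
  have hJ := C.par.J_gt
  have hc := C.par.c_pos
  have hs := C.par.s_pos
  have hL1 := circ_Lam (R := R) hJ x1
  have hL2 := circ_Lam (R := R) hJ x2
  have hq2 := cq_nonneg J R x2
  have hX0 : 0 < (x1 - x2) / 2 := by linarith
  have hXp : (x1 - x2) / 2 < Real.pi := by linarith
  have hsX := Real.sin_pos_of_pos_of_lt_pi hX0 hXp
  have hphi := phiKA_pos hc hs hX0 hXp
  set X := (x1 - x2) / 2 with hX
  set δ := s * X / c with hδ
  have hcosh := Real.cosh_pos δ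
  -- the sums
  have hV : (cv R x1 + cv R x2) * Real.sin X = (ca J R x1 - ca J R x2) * Real.cos X := by
    have e1 : x1 = (x1 + x2) / 2 + X := by rw [hX]; ring
    have e2 : x2 = (x1 + x2) / 2 - X := by rw [hX]; ring
    set M := (x1 + x2) / 2
    rw [e1, e2]
    simp only [cv, ca, Real.sin_add, Real.sin_sub, Real.cos_add, Real.cos_sub]
    ring
  have hS : (cq J R x1 + cq J R x2) * ((cq J R x1 + ca J R x1 + J) - (cq J R x2 + ca J R x2 + J))
      = (ca J R x1 - ca J R x2) * ((cq J R x1 + ca J R x1 + J) + (cq J R x2 + ca J R x2 + J)) := by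
    have f1 := cq_sq J R x1
    have f2 := cq_sq J R x2
    have g1 := circ_gH hJ C.hR x1
    have g2 := circ_gH hJ C.hR x2
    have hJ0 : J ≠ 0 := by linarith
    simp only [gH] at g1 g2
    have g3 : (ca J R x1 ^ 2 + cv R x1 ^ 2) - (ca J R x2 ^ 2 + cv R x2 ^ 2)
        = 2 * J * (ca J R x1 - ca J R x2) := by
      have := g1.trans g2.symm
      field_simp at this
      linear_combination this
    linear_combination f1 - f2 + g3
  have hlog : Real.log (cq J R x1 + ca J R x1 + J) - Real.log (cq J R x2 + ca J R x2 + J)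
      = 2 * δ := by
    simp only [kT, cT] at hT
    have : c * (Real.log (cq J R x1 + ca J R x1 + J) - Real.log (cq J R x2 + ca J R x2 + J))
        = 2 * s * X := by rw [hX]; linear_combination hT
    rw [hδ]
    field_simp
    linear_combination this
  have hexp : cq J R x1 + ca J R x1 + J = (cq J R x2 + ca J R x2 + J) * Real.exp (2 * δ) := by
    rw [← hlog, Real.exp_sub, Real.exp_log hL1, Real.exp_log hL2]
    field_simp
  set Λ1 := cq J R x1 + ca J R x1 + J with hΛ1
  set Λ2 := cq J R x2 + ca J R x2 + J with hΛ2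
  have hth : (Λ1 - Λ2) * Real.cosh δ = (Λ1 + Λ2) * Real.sinh δ := by
    rw [hexp, Real.cosh_eq, Real.sinh_eq]
    have e1 : Real.exp (2 * δ) = Real.exp δ * Real.exp δ := by
      rw [← Real.exp_add]; ring_nf
    have e2 : Real.exp δ * Real.exp (-δ) = 1 := by
      rw [← Real.exp_add]; simp
    rw [e1]
    linear_combination (Λ2 * Real.exp δ) * e2
  have hA : (ca J R x1 - ca J R x2) * Real.cosh δ = (cq J R x1 + cq J R x2) * Real.sinh δ := by
    have h1 : (Λ1 + Λ2) * ((ca J R x1 - ca J R x2) * Real.cosh δ)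
        = (Λ1 + Λ2) * ((cq J R x1 + cq J R x2) * Real.sinh δ) := by
      linear_combination (-Real.cosh δ) * hS + (cq J R x1 + cq J R x2) * hth
    exact mul_left_cancel₀ (by linarith : Λ1 + Λ2 ≠ 0) h1
  have hSg : 0 < cq J R x1 + cq J R x2 := by linarith
  have hfin : (kP c s J R x1 + kP c s J R x2) * (Real.sin X * Real.cosh δ)
      = (cq J R x1 + cq J R x2) * (c * Real.cos X * Real.sinh δ
        - s * Real.sin X * Real.cosh δ) := by
    simp only [kP, gP]
    linear_combination (c * Real.cosh δ) * hV + (c * Real.cos X) * hA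
  have h2 : (kP c s J R x1 + kP c s J R x2) * (Real.sin X * Real.cosh δ) < 0 := by
    rw [hfin]
    exact mul_neg_of_pos_of_neg hSg (by linarith)
  by_contra hcon
  push Not at hcon
  have := mul_nonneg hcon (mul_pos hsX hcosh).le
  linarith

/-- `K` on the circle: `Z - 2 h T`. -/
def kG (c s J R h x : ℝ) : ℝ := kZ c s J R x - 2 * h * kT c s J R x

theorem Circ.cq_pos (C : Circ c s J R h) {x : ℝ} (h1 : xb J R h < x) (h2 : x < xE J R h) :
    0 < cq J R x := by
  have hv := (C.kP_pos h1 h2).2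
  rcases (cq_nonneg J R x).eq_or_lt with hz | hz
  · have := cq_sq J R x
    rw [← hz] at this
    nlinarith [sq_nonneg (ca J R x), pow_pos hv 2]
  · exact hz

theorem Circ.dT (C : Circ c s J R h) {x : ℝ} (hq : 0 < cq J R x) :
    HasDerivAt (kT c s J R) (kP c s J R x / cq J R x) x := hasDerivAt_kT C.par.J_gt hq

theorem Circ.dZ (C : Circ c s J R h) {x : ℝ} (hq : 0 < cq J R x) :
    HasDerivAt (kZ c s J R) ((2 * h + 2 * kP c s J R x ^ 2 / J ^ 2) *
      (kP c s J R x / cq J R x)) x := hasDerivAt_kZ C.par C.hR hq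

theorem Circ.dG (C : Circ c s J R h) {x : ℝ} (hq : 0 < cq J R x) :
    HasDerivAt (kG c s J R h) ((2 * kP c s J R x ^ 2 / J ^ 2) *
      (kP c s J R x / cq J R x)) x := by
  refine ((C.dZ hq).sub ((C.dT hq).const_mul (2 * h))).congr_deriv ?_
  ring

theorem Circ.contT (C : Circ c s J R h) : Continuous (kT c s J R) := continuous_kT C.par.J_gt

theorem Circ.contZ (C : Circ c s J R h) : Continuous (kZ c s J R) :=
  continuous_kZ C.par.J_gt C.hR

theorem Circ.contG (C : Circ c s J R h) : Continuous (kG c s J R h) :=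
  C.contZ.sub (continuous_const.mul C.contT)

/-- Monotonicity on the two sides of `xb`. -/
theorem Circ.mono (C : Circ c s J R h) {F g : ℝ → ℝ} (hF : Continuous F)
    (hd : ∀ x, 0 < cq J R x → HasDerivAt F (g x * (kP c s J R x / cq J R x)) x)
    (hg : ∀ x, kP c s J R x ≠ 0 → 0 < g x) :
    StrictMonoOn F (Icc (xb J R h) (xE J R h)) ∧
      StrictAntiOn F (Icc (xE J R h - 2 * Real.pi) (xb J R h)) := by
  constructor
  · refine strictMonoOn_of_deriv_pos (convex_Icc _ _) hF.continuousOn fun x hx => ?_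
    rw [interior_Icc] at hx
    have h1 := (C.kP_pos hx.1 hx.2).1
    have h2 := C.cq_pos hx.1 hx.2
    rw [(hd x h2).deriv]
    have := hg x h1.ne'
    positivity
  · refine strictAntiOn_of_deriv_neg (convex_Icc _ _) hF.continuousOn fun x hx => ?_
    rw [interior_Icc] at hx
    obtain ⟨h1, h2⟩ := C.kP_neg hx.1 hx.2
    rw [(hd x h2).deriv]
    have := hg x h1.ne
    exact mul_neg_of_pos_of_neg this (div_neg_of_neg_of_pos h1 h2)

theorem Circ.monoT (C : Circ c s J R h) :
    StrictMonoOn (kT c s J R) (Icc (xb J R h) (xE J R h)) ∧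
      StrictAntiOn (kT c s J R) (Icc (xE J R h - 2 * Real.pi) (xb J R h)) :=
  C.mono (g := fun _ => 1) C.contT (fun x hq => by simpa using C.dT hq) fun _ _ => one_pos

theorem Circ.monoZ (C : Circ c s J R h) :
    StrictMonoOn (kZ c s J R) (Icc (xb J R h) (xE J R h)) ∧
      StrictAntiOn (kZ c s J R) (Icc (xE J R h - 2 * Real.pi) (xb J R h)) :=
  C.mono (g := fun x => 2 * h + 2 * kP c s J R x ^ 2 / J ^ 2) C.contZ (fun x hq => C.dZ hq)
    fun x _ => by have := C.hpos; positivity

theorem Circ.monoG (C : Circ c s J R h) :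
    StrictMonoOn (kG c s J R h) (Icc (xb J R h) (xE J R h)) ∧
      StrictAntiOn (kG c s J R h) (Icc (xE J R h - 2 * Real.pi) (xb J R h)) :=
  C.mono (g := fun x => 2 * kP c s J R x ^ 2 / J ^ 2) C.contG (fun x hq => C.dG hq)
    fun x hx => by have := C.par.J_gt; positivity

/-- **K-lemma.** -/
theorem Circ.K_lt (C : Circ c s J R h) {x1 x2 : ℝ} (h1 : xb J R h < x1) (h1' : x1 ≤ xE J R h)
    (h2 : xE J R h - 2 * Real.pi ≤ x2) (h2' : x2 < xb J R h)
    (hT : kT c s J R x1 ≤ kT c s J R x2) : kG c s J R h x1 < kG c s J R h x2 := by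
  have hJ := C.par.J_gt
  have hJp : 0 < J := by linarith
  -- matched points
  have hmatch : ∀ y2, xE J R h - 2 * Real.pi ≤ y2 → y2 < xb J R h →
      kT c s J R x1 = kT c s J R y2 → kG c s J R h x1 < kG c s J R h y2 := by
    intro y2 hy hy' hTy
    refine match_lt (T := kT c s J R) (Z := kG c s J R h)
      (T' := fun x => kP c s J R x / cq J R x) (u := fun x => 2 * kP c s J R x ^ 2 / J ^ 2)
      hy' h1 C.contT.continuousOn C.contG.continuousOn ?_ ?_ ?_ ?_ ?_ ?_ ?_ hTy
    · intro x hx; exact C.dT (C.kP_neg (hy.trans_lt hx.1) hx.2).2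
    · intro x hx; exact C.dT (C.cq_pos hx.1 (hx.2.trans_le h1'))
    · intro x hx; exact C.dG (C.kP_neg (hy.trans_lt hx.1) hx.2).2
    · intro x hx; exact C.dG (C.cq_pos hx.1 (hx.2.trans_le h1'))
    · intro x hx
      obtain ⟨e1, e2⟩ := C.kP_neg (hy.trans_lt hx.1) hx.2
      exact div_neg_of_neg_of_pos e1 e2
    · intro x hx
      exact div_pos (C.kP_pos hx.1 (hx.2.trans_le h1')).1 (C.cq_pos hx.1 (hx.2.trans_le h1'))
    · intro z1 hz1 z2 hz2 hz
      have e1 := (C.kP_pos hz1.1 (hz1.2.trans_le h1')).1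
      have e2 := (C.kP_neg (hy.trans_lt hz2.1) hz2.2).1
      have e3 := C.pair (x1 := z1) (x2 := z2) (hz2.2.trans hz1.1)
        (by linarith [hz1.2, hz2.1]) (C.cq_pos hz1.1 (hz1.2.trans_le h1')) hz
      have e4 : kP c s J R z1 ^ 2 < kP c s J R z2 ^ 2 := by nlinarith
      have e5 : 0 < 2 / J ^ 2 := by positivity
      have e6 := mul_lt_mul_of_pos_left e4 e5
      calc 2 * kP c s J R z1 ^ 2 / J ^ 2 = 2 / J ^ 2 * kP c s J R z1 ^ 2 := by ring
        _ < 2 / J ^ 2 * kP c s J R z2 ^ 2 := e6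
        _ = 2 * kP c s J R z2 ^ 2 / J ^ 2 := by ring
  rcases hT.eq_or_lt with hT | hT
  · exact hmatch x2 h2 h2' hT
  · have hb : kT c s J R (xb J R h) < kT c s J R x1 :=
      C.monoT.1 ⟨le_rfl, C.xb_lt_xE.le⟩ ⟨h1.le, h1'⟩ h1
    obtain ⟨y, hy, hyT⟩ := intermediate_value_Ioo' h2'.le
      (C.contT.continuousOn (s := Icc x2 (xb J R h))) ⟨hb, hT⟩
    have h3 := hmatch y (h2.trans hy.1.le) hy.2 hyT.symm
    have h4 := C.monoG.2 ⟨h2, h2'.le⟩ ⟨h2.trans hy.1.le, hy.2.le⟩ hy.1
    exact h3.trans h4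

/-- The full circle. -/
theorem Circ.Z_full (C : Circ c s J R h) :
    kZ c s J R (xE J R h) < kZ c s J R (xE J R h - 2 * Real.pi) := by
  have hJ := C.par.J_gt
  have hJp : 0 < J := by linarith
  rw [kZ_eq hJ C.hR, kZ_eq hJ C.hR, per_ca, per_cv, per_cq]
  have h1 : 0 < h - 1 + J := by
    have := C.hR
    have h2 := pow_pos C.Rpos 2
    rw [this] at h2
    exact (mul_pos_iff_of_pos_left hJp).1 h2
  have h3 : 0 < s * (h - 1 + J) * (2 * Real.pi) := by
    have := C.par.s_pos
    have := Real.pi_pos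
    positivity
  nlinarith

end B92
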