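import Mathlib
import Pool.Agent.Lib.B92.KA3

/-!
# MP_b92fc8_an, module KA4 (|kappa| < 1, eta > 0): location of the angles, lifted arcs.
-/

set_option autoImplicit false

open Set Filter Topology

noncomputable section

namespace B92

variable {c s J R h : ℝ}

theorem Circ.key_of_eq (C : Circ c s J R h) {x : ℝ} (hP : kP c s J R x = 0) :
    ca J R x = 1 - Real.sqrt h ∧ Real.cos x = (J - 1 + Real.sqrt h) / R ∨
      ca J R x = 1 + Real.sqrt h ∧ Real.cos x = (J - 1 - Real.sqrt h) / R := by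
  have hJ := C.par.J_gt
  have key := C.key x
  have h1 : c * cv R x = s * cq J R x := by simp only [kP, gP] at hP; linarith
  rw [h1, sub_self] at key
  have h2 : h - (R * Real.cos x - (J - 1)) ^ 2 = 0 := by
    rcases mul_eq_zero.1 key.symm with h | h
    · linarith
    · exact h
  have h3 := Real.sq_sqrt C.hpos.le
  have h4 : (R * Real.cos x - (J - 1) - Real.sqrt h) * (R * Real.cos x - (J - 1) + Real.sqrt h)
      = 0 := by linear_combination -h2 - h3
  have hR := C.Rpos.ne'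
  rcases mul_eq_zero.1 h4 with h5 | h5
  · left
    refine ⟨by simp only [ca]; linarith, ?_⟩
    rw [eq_div_iff hR]; linarith
  · right
    refine ⟨by simp only [ca]; linarith, ?_⟩
    rw [eq_div_iff hR]; linarith

theorem Circ.loc_plus (C : Circ c s J R h) {x : ℝ} (hx0 : 0 < x) (hxp : x < Real.pi)
    (hP : 0 < kP c s J R x) : xb J R h < x ∧ x < xE J R h := by
  have hJ := C.par.J_gt
  have key := C.key x
  have h1 : s * cq J R x < c * cv R x := by simp only [kP, gP] at hP; linarith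
  have h0 : 0 ≤ s * cq J R x := mul_nonneg C.par.s_pos.le (cq_nonneg _ _ _)
  have h2 : (s * cq J R x) ^ 2 < (c * cv R x) ^ 2 := pow_lt_pow_left₀ h1 h0 two_ne_zero
  have h3 : (R * Real.cos x - (J - 1)) ^ 2 < Real.sqrt h ^ 2 := by
    rw [Real.sq_sqrt C.hpos.le]
    have : 0 < J * (h - (R * Real.cos x - (J - 1)) ^ 2) := by linarith
    have := (mul_pos_iff_of_pos_left (by linarith : 0 < J)).1 this
    linarith
  have h4 := abs_lt_of_sq_lt_sq' h3 (Real.sqrt_nonneg h)
  constructor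
  · by_contra hcon
    push Not at hcon
    have h5 : Real.cos (xb J R h) ≤ Real.cos x :=
      Real.cos_le_cos_of_nonneg_of_le_pi hx0.le (Real.arccos_le_pi _) hcon
    have := mul_le_mul_of_nonneg_left h5 C.Rpos.le
    rw [C.cos_b] at this
    linarith [h4.2]
  · by_contra hcon
    push Not at hcon
    have h5 : Real.cos x ≤ Real.cos (xE J R h) :=
      Real.cos_le_cos_of_nonneg_of_le_pi (Real.arccos_nonneg _) hxp.le hcon
    have := mul_le_mul_of_nonneg_left h5 C.Rpos.le
    rw [C.cos_E] at this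
    linarith [h4.1]

theorem Circ.loc_plus0 (C : Circ c s J R h) {x : ℝ} (hx0 : 0 < x) (hxp : x < Real.pi)
    (hP : kP c s J R x = 0) : (x = xb J R h ∧ ca J R x = 1 - Real.sqrt h) ∨
      (x = xE J R h ∧ ca J R x = 1 + Real.sqrt h) := by
  have hac := Real.arccos_cos hx0.le hxp.le
  rcases C.key_of_eq hP with ⟨h1, h2⟩ | ⟨h1, h2⟩
  · left; refine ⟨?_, h1⟩
    rw [h2] at hac; exact hac.symm
  · right; refine ⟨?_, h1⟩
    rw [h2] at hac; exact hac.symm

/-- Middle angle. -/
def xm (J R : ℝ) : ℝ := Real.arccos ((J - 1) / R)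

theorem Circ.xb_lt_xm (C : Circ c s J R h) : xb J R h < xm J R := by
  have hJ := C.par.J_gt
  have h1 := Real.sqrt_pos.2 C.hpos
  have h2 := C.cos_b
  have h3 : 0 ≤ (J - 1) / R := div_nonneg (by linarith) C.Rpos.le
  have h4 : (J - 1 + Real.sqrt h) / R ≤ 1 := by
    rw [← h2, mul_div_cancel_left₀ _ C.Rpos.ne']; exact Real.cos_le_one _
  apply Real.arccos_lt_arccos _ _ h4
  · linarith
  · exact div_lt_div_of_pos_right (by linarith) C.Rpos

theorem Circ.xm_lt_xE (C : Circ c s J R h) : xm J R < xE J R h := by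
  have hJ := C.par.J_gt
  have h1 := Real.sqrt_pos.2 C.hpos
  have h2 := C.cos_b
  have h4 : (J - 1 + Real.sqrt h) / R ≤ 1 := by
    rw [← h2, mul_div_cancel_left₀ _ C.Rpos.ne']; exact Real.cos_le_one _
  have h5 : (J - 1) / R < (J - 1 + Real.sqrt h) / R :=
    div_lt_div_of_pos_right (by linarith) C.Rpos
  apply Real.arccos_lt_arccos C.arg_E.1.le
  · exact div_lt_div_of_pos_right (by linarith) C.Rpos
  · linarith

theorem Circ.loc_minus (C : Circ c s J R h) {x : ℝ} (h1 : xm J R - 2 * Real.pi < x)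
    (h2 : x < xm J R) (hP : kP c s J R x < 0) : xE J R h - 2 * Real.pi < x ∧ x < xb J R h := by
  have h3 := C.xm_lt_xE
  have h4 := C.xb_lt_xm
  constructor
  · by_contra hcon
    push Not at hcon
    have h5 := C.kP_nonneg (x := x + 2 * Real.pi) (by linarith) (by linarith)
    have h6 := per_kP c s J R (x + 2 * Real.pi)
    rw [show x + 2 * Real.pi - 2 * Real.pi = x by ring] at h6
    linarith
  · by_contra hcon
    push Not at hcon
    have h5 := C.kP_nonneg (x := x) hcon (by linarith)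
    linarith

theorem Circ.loc_minus0 (C : Circ c s J R h) {x : ℝ} (h1 : xm J R - 2 * Real.pi < x)
    (h2 : x < xm J R) (hq : 0 < cq J R x) (hP : kP c s J R x = 0) :
    (x = xb J R h ∧ ca J R x = 1 - Real.sqrt h) ∨
      (x = xE J R h - 2 * Real.pi ∧ ca J R x = 1 + Real.sqrt h) := by
  have h3 := C.xm_lt_xE
  have h4 := C.xb_lt_xm
  have h0 := C.xb_nonneg
  have hE := C.xE_lt
  have hpi := Real.pi_pos
  have hv : 0 < cv R x := by
    have h5 : c * cv R x = s * cq J R x := by simp only [kP, gP] at hP; linarith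
    have h6 : 0 < c * cv R x := by rw [h5]; exact mul_pos C.par.s_pos hq
    exact (mul_pos_iff_of_pos_left C.par.c_pos).1 h6
  have hsin : 0 < Real.sin x := (mul_pos_iff_of_pos_left C.Rpos).1 hv
  rcases lt_or_ge 0 x with hx | hx
  · rcases C.loc_plus0 hx (by linarith) hP with h | h
    · left; exact h
    · exfalso; linarith [h.1]
  · have hx2 : x < -Real.pi := by
      by_contra hcon2
      push Not at hcon2
      have := Real.sin_nonpos_of_nonpos_of_neg_pi_le hx hcon2
      linarith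
    have h6 := per_kP c s J R (x + 2 * Real.pi)
    have h7 := per_ca J R (x + 2 * Real.pi)
    rw [show x + 2 * Real.pi - 2 * Real.pi = x by ring] at h6 h7
    rcases C.loc_plus0 (x := x + 2 * Real.pi) (by linarith) (by linarith)
      (by rw [← h6]; exact hP) with h | h
    · exfalso; linarith [h.1]
    · right; exact ⟨by linarith [h.1], by rw [h7]; exact h.2⟩

/-- An arc with a lifted angle. -/
structure LA (m c s J κ : ℝ) (A σ υ x : ℝ → ℝ) (a b : ℝ) : Prop where
  na : NA m c s J κ A σ υ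
  lt : a < b
  hpos : ∀ t ∈ Icc a b, 0 < gH J (A t) (υ t)
  cx : Continuous x
  hx : ∀ t ∈ Icc a b, J - A t = Real.sqrt ((J - A t) ^ 2 + υ t ^ 2) * Real.cos (x t) ∧
    υ t = Real.sqrt ((J - A t) ^ 2 + υ t ^ 2) * Real.sin (x t)
  dx : ∀ t ∈ Icc a b, HasDerivAt x (((J - A t) * (pV c s J κ (A t) (σ t) (υ t) / (m * J))
      - υ t * (-(pA c s J κ (A t) (σ t) (υ t) / (m * J)))) / ((J - A t) ^ 2 + υ t ^ 2)) t

theorem NA.contA {m c s J κ : ℝ} {A σ υ : ℝ → ℝ} (hs : NA m c s J κ A σ υ) : Continuous A :=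
  continuous_iff_continuousAt.2 fun t => (hs.dA t).continuousAt

theorem NA.contS {m c s J κ : ℝ} {A σ υ : ℝ → ℝ} (hs : NA m c s J κ A σ υ) : Continuous σ :=
  continuous_iff_continuousAt.2 fun t => (hs.dS t).continuousAt

theorem NA.contV {m c s J κ : ℝ} {A σ υ : ℝ → ℝ} (hs : NA m c s J κ A σ υ) : Continuous υ :=
  continuous_iff_continuousAt.2 fun t => (hs.dV t).continuousAt

theorem R2_eq {J a v : ℝ} (hJ : 1 < J) : (J - a) ^ 2 + v ^ 2 = J * (gH J a v - 1 + J) := by
  have hJ0 : J ≠ 0 := by linarith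
  simp only [gH]; field_simp; ring

theorem R2_pos {J a v : ℝ} (hJ : 1 < J) (hH : 0 < gH J a v) : 0 < (J - a) ^ 2 + v ^ 2 := by
  rw [R2_eq hJ]
  have : 0 < gH J a v - 1 + J := by linarith
  exact mul_pos (by linarith) this

theorem NA.exists_lift {m c s J κ : ℝ} {A σ υ : ℝ → ℝ} (hs : NA m c s J κ A σ υ) {a b t0 x0 : ℝ}
    (hab : a < b) (ht0 : t0 ∈ Icc a b) (hpos : ∀ t ∈ Icc a b, 0 < gH J (A t) (υ t))
    (e1 : J - A t0 = Real.sqrt ((J - A t0) ^ 2 + υ t0 ^ 2) * Real.cos x0)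
    (e2 : υ t0 = Real.sqrt ((J - A t0) ^ 2 + υ t0 ^ 2) * Real.sin x0) :
    ∃ x : ℝ → ℝ, x t0 = x0 ∧ LA m c s J κ A σ υ x a b := by
  have hJ := hs.par.J_gt
  have cA := hs.contA
  have cS := hs.contS
  have cV := hs.contV
  obtain ⟨x, h1, h2, h3, h4⟩ := B92.exists_lift (ξ := fun t => J - A t) (υ := υ)
    (ξ' := fun t => -(pA c s J κ (A t) (σ t) (υ t) / (m * J)))
    (υ' := fun t => pV c s J κ (A t) (σ t) (υ t) / (m * J)) (a := a) (b := b) (t0 := t0)
    (x0 := x0) hab.le ht0 (fun t _ => (hs.dA t).const_sub J) (fun t _ => hs.dV t)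
    (by unfold pA; fun_prop) (by unfold pV; fun_prop)
    (fun t ht => R2_pos hJ (hpos t ht)) e1 e2
  exact ⟨x, h2, hs, hab, hpos, h1, h3, h4⟩

variable {m κ : ℝ} {A σ υ x : ℝ → ℝ} {a b : ℝ}

/-- Radius at time `t`. -/
def rad (J a v : ℝ) : ℝ := Real.sqrt ((J - a) ^ 2 + v ^ 2)

theorem LA.circ (L : LA m c s J κ A σ υ x a b) {t : ℝ} (ht : t ∈ Icc a b) :
    Circ c s J (rad J (A t) (υ t)) (gH J (A t) (υ t)) := by
  have hJ := L.na.par.J_gt
  have h1 := R2_pos hJ (L.hpos t ht)
  exact ⟨L.na.par, L.hpos t ht, Real.sqrt_pos.2 h1, by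
    rw [rad, Real.sq_sqrt h1.le]; exact R2_eq hJ⟩

theorem LA.ca_eq (L : LA m c s J κ A σ υ x a b) {t : ℝ} (ht : t ∈ Icc a b) :
    ca J (rad J (A t) (υ t)) (x t) = A t := by
  have := (L.hx t ht).1
  simp only [ca, rad]; rw [← this]; ring

theorem LA.cv_eq (L : LA m c s J κ A σ υ x a b) {t : ℝ} (ht : t ∈ Icc a b) :
    cv (rad J (A t) (υ t)) (x t) = υ t := ((L.hx t ht).2).symm

theorem LA.cq_eq (L : LA m c s J κ A σ υ x a b) {t : ℝ} (ht : t ∈ Icc a b) :
    cq J (rad J (A t) (υ t)) (x t) = σ t := by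
  simp only [cq, L.ca_eq ht, L.cv_eq ht]
  rw [← L.na.cone t, Real.sqrt_sq (L.na.pos t).le]

theorem LA.kP_eq (L : LA m c s J κ A σ υ x a b) {t : ℝ} (ht : t ∈ Icc a b) :
    kP c s J (rad J (A t) (υ t)) (x t) = gP c s (σ t) (υ t) := by
  simp only [kP, L.cq_eq ht, L.cv_eq ht]

theorem LA.kT_eq (L : LA m c s J κ A σ υ x a b) {t : ℝ} (ht : t ∈ Icc a b) :
    kT c s J (rad J (A t) (υ t)) (x t) = cT c s J (A t) (σ t) (x t) := by
  simp only [kT, L.cq_eq ht, L.ca_eq ht]

theorem LA.kZ_eq (L : LA m c s J κ A σ υ x a b) {t : ℝ} (ht : t ∈ Icc a b) :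
    kZ c s J (rad J (A t) (υ t)) (x t) = cZ c s J (A t) (σ t) (υ t) (x t) := by
  simp only [kZ, L.cq_eq ht, L.ca_eq ht, L.cv_eq ht]

theorem rad_eq {J a v a' v' : ℝ} (hJ : 1 < J) (h : gH J a v = gH J a' v') :
    rad J a v = rad J a' v' := by
  simp only [rad, R2_eq hJ, h]

theorem LA.dZ (L : LA m c s J κ A σ υ x a b) {t : ℝ} (ht : t ∈ Icc a b) :
    HasDerivAt (fun t => cZ c s J (A t) (σ t) (υ t) (x t))
      ((5 * cT c s J (A t) (σ t) (x t) + (5 * c / 2 - κ / J)) *
        (-(gP c s (σ t) (υ t)) * gu c s J (A t) (σ t) (υ t) / m)) t :=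
  L.na.dZ (R2_pos L.na.par.J_gt (L.hpos t ht)) (L.dx t ht)

theorem LA.contT (L : LA m c s J κ A σ υ x a b) :
    Continuous (fun t => cT c s J (A t) (σ t) (x t)) := by
  have cA := L.na.contA
  have cS := L.na.contS
  have cx := L.cx
  have hJ := L.na.par.J_gt
  have h1 : Continuous fun t => Real.log (σ t + A t + J) :=
    ((cS.add cA).add continuous_const).log
      fun t => (Lam_pos hJ (L.na.cone t) (L.na.pos t).le).ne'
  unfold cT
  exact (continuous_const.mul h1).sub (continuous_const.mul cx)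

theorem LA.contZ (L : LA m c s J κ A σ υ x a b) :
    ContinuousOn (fun t => cZ c s J (A t) (σ t) (υ t) (x t)) (Icc a b) :=
  fun _ ht => (L.dZ ht).continuousAt.continuousWithinAt

theorem gu_pos {J a q v : ℝ} (hH : 0 < gH J a v) : 0 < gu c s J a q v := by
  unfold gu; positivity

/-- Trap for the upper arc. -/
theorem LA.trap_plus (L : LA m c s J κ A σ υ x a b) (hP : ∀ t ∈ Icc a b, 0 ≤ gP c s (σ t) (υ t))
    {t0 : ℝ} (ht0 : t0 ∈ Icc a b) (h0 : 0 < x t0) (h0' : x t0 < Real.pi) :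
    ∀ t ∈ Icc a b, 0 < x t ∧ x t < Real.pi := by
  have hsin : ∀ t ∈ Icc a b, 0 < Real.sin (x t) := by
    intro t ht
    have h1 := hP t ht
    have h2 := L.na.pos t
    have h3 : 0 < υ t := by
      have h4 : 0 < s * σ t := mul_pos L.na.par.s_pos h2
      have h5 : 0 < c * υ t := by simp only [gP] at h1; linarith
      exact (mul_pos_iff_of_pos_left L.na.par.c_pos).1 h5
    have h4 := (L.circ ht).Rpos
    have h5 := L.cv_eq ht
    simp only [cv] at h5
    rw [← h5] at h3
    exact (mul_pos_iff_of_pos_left h4).1 h3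
  intro t ht
  have hcon := isPreconnected_Icc (a := a) (b := b)
  have himg := hcon.image x L.cx.continuousOn
  have hord := himg.ordConnected
  constructor
  · by_contra hc
    push Not at hc
    have : (0:ℝ) ∈ x '' Icc a b := hord.out ⟨t, ht, rfl⟩ ⟨t0, ht0, rfl⟩ ⟨hc, h0.le⟩
    obtain ⟨r, hr, hr0⟩ := this
    have := hsin r hr
    rw [hr0, Real.sin_zero] at this
    exact lt_irrefl _ this
  · by_contra hc
    push Not at hc
    have : Real.pi ∈ x '' Icc a b := hord.out ⟨t0, ht0, rfl⟩ ⟨t, ht, rfl⟩ ⟨h0'.le, hc⟩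
    obtain ⟨r, hr, hr0⟩ := this
    have := hsin r hr
    rw [hr0, Real.sin_pi] at this
    exact lt_irrefl _ this

/-- Trap for the lower arc. -/
theorem LA.trap_minus (L : LA m c s J κ A σ υ x a b) (hP : ∀ t ∈ Icc a b, gP c s (σ t) (υ t) ≤ 0)
    {t0 : ℝ} (ht0 : t0 ∈ Icc a b) (h0 : xm J (rad J (A t0) (υ t0)) - 2 * Real.pi < x t0)
    (h0' : x t0 < xm J (rad J (A t0) (υ t0))) :
    ∀ t ∈ Icc a b, xm J (rad J (A t) (υ t)) - 2 * Real.pi < x t ∧
      x t < xm J (rad J (A t) (υ t)) := by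
  have cA := L.na.contA
  have cV := L.na.contV
  have crad : Continuous fun t => rad J (A t) (υ t) := by unfold rad; fun_prop
  set f : ℝ → ℝ := fun t => x t - xm J (rad J (A t) (υ t)) with hf
  have cf : ContinuousOn f (Icc a b) := by
    refine L.cx.continuousOn.sub ?_
    unfold xm
    refine Real.continuous_arccos.comp_continuousOn ?_
    exact continuousOn_const.div crad.continuousOn fun t ht => (L.circ ht).Rpos.ne'
  have hne : ∀ t ∈ Icc a b, f t ≠ 0 ∧ f t ≠ -(2 * Real.pi) := by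
    intro t ht
    have C := L.circ ht
    have h1 := hP t ht
    rw [← L.kP_eq ht] at h1
    have h2 := (C.kP_pos C.xb_lt_xm C.xm_lt_xE).1
    constructor
    · intro h3
      have h4 : x t = xm J (rad J (A t) (υ t)) := by simp only [hf] at h3; linarith
      rw [h4] at h1; linarith
    · intro h3
      have h4 : x t = xm J (rad J (A t) (υ t)) - 2 * Real.pi := by simp only [hf] at h3; linarith
      rw [h4, per_kP] at h1; linarith
  intro t ht
  have himg := (isPreconnected_Icc (a := a) (b := b)).image f cf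
  have hord := himg.ordConnected
  have hf0 : -(2 * Real.pi) < f t0 := by simp only [hf]; linarith
  have hf0' : f t0 < 0 := by simp only [hf]; linarith
  constructor
  · by_contra hc
    push Not at hc
    have : -(2 * Real.pi) ∈ f '' Icc a b := hord.out ⟨t, ht, rfl⟩ ⟨t0, ht0, rfl⟩
      ⟨by simp only [hf]; linarith, hf0.le⟩
    obtain ⟨r, hr, hr0⟩ := this
    exact (hne r hr).2 hr0
  · by_contra hc
    push Not at hc
    have : (0:ℝ) ∈ f '' Icc a b := hord.out ⟨t0, ht0, rfl⟩ ⟨t, ht, rfl⟩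
      ⟨hf0'.le, by simp only [hf]; linarith⟩
    obtain ⟨r, hr, hr0⟩ := this
    exact (hne r hr).1 hr0

end B92
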