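import Mathlib
import Pool.Agent.Lib.B92.KA4
import Pool.Agent.Lib.B92.Cmp
import Pool.Agent.Lib.B92.Assemble

/-!
# MP_b92fc8_an, module KA5 (|kappa| < 1, eta > 0): comparison of the two arcs.
-/

set_option autoImplicit false

open Set Filter Topology

noncomputable section

namespace B92

variable {c s J R h : ℝ}

/-- Radius of the level circle. -/
def Rf (J y : ℝ) : ℝ := Real.sqrt (J * (y - 1 + J))

theorem circ_Rf (par : Par c s J) {y : ℝ} (hy : 0 < y) : Circ c s J (Rf J y) y := by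
  have hJ := par.J_gt
  have h1 : 0 < J * (y - 1 + J) := mul_pos (by linarith) (by linarith)
  exact ⟨par, hy, Real.sqrt_pos.2 h1, Real.sq_sqrt h1.le⟩

theorem rad_Rf {a v : ℝ} (hJ : 1 < J) : rad J a v = Rf J (gH J a v) := by
  simp only [rad, Rf, R2_eq hJ]

/-- Comparison on `(h₁, h₂]`. -/
theorem cmp_abs (par : Par c s J) {h1 h2 c0 : ℝ} (h1pos : 0 < h1) (h12 : h1 < h2)
    {X X' Zp Tp Zm Tm : ℝ → ℝ}
    (hX : ∀ y ∈ Ioo h1 h2, xb J (Rf J y) y < X y ∧ X y < xE J (Rf J y) y)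
    (hX' : ∀ y ∈ Ioo h1 h2, xE J (Rf J y) y - 2 * Real.pi < X' y ∧ X' y < xb J (Rf J y) y)
    (eZp : ∀ y ∈ Ioo h1 h2, Zp y = kZ c s J (Rf J y) (X y))
    (eZm : ∀ y ∈ Ioo h1 h2, Zm y = kZ c s J (Rf J y) (X' y))
    (eTp : ∀ y ∈ Ioo h1 h2, Tp y = kT c s J (Rf J y) (X y))
    (eTm : ∀ y ∈ Ioo h1 h2, Tm y = kT c s J (Rf J y) (X' y))
    (cZp : ContinuousOn Zp (Icc h1 h2)) (cZm : ContinuousOn Zm (Icc h1 h2))
    (dp : ∀ y ∈ Ioo h1 h2, HasDerivAt Zp (5 * Tp y + c0) y)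
    (dm : ∀ y ∈ Ioo h1 h2, HasDerivAt Zm (5 * Tm y + c0) y)
    (h0 : Zp h1 = Zm h1) : Zm h2 < Zp h2 := by
  have hK : ∀ y ∈ Ioo h1 h2, Tp y ≤ Tm y →
      kG c s J (Rf J y) y (X y) < kG c s J (Rf J y) y (X' y) := by
    intro y hy hT
    rw [eTp y hy, eTm y hy] at hT
    exact (circ_Rf par (h1pos.trans hy.1)).K_lt (hX y hy).1 (hX y hy).2.le (hX' y hy).1.le
      (hX' y hy).2 hT
  have hz : ∀ y ∈ Ioo h1 h2, Zp y - Zm y = 2 * y * (Tp y - Tm y)
      + 1 * (kG c s J (Rf J y) y (X y) - kG c s J (Rf J y) y (X' y)) := by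
    intro y hy
    rw [eZp y hy, eZm y hy, eTp y hy, eTm y hy]
    simp only [kG]; ring
  have hd : ∀ y ∈ Ioo h1 h2, HasDerivAt (fun y => Zp y - Zm y) (5 * (Tp y - Tm y)) y :=
    fun y hy => ((dp y hy).sub (dm y hy)).congr_deriv (by ring)
  have hpos : ∀ t ∈ Ioo h1 h2, 0 < Zp t - Zm t := by
    intro t ht
    have hsub : ∀ y ∈ Ioc h1 t, y ∈ Ioo h1 h2 := fun y hy => ⟨hy.1, hy.2.trans_lt ht.2⟩
    exact cmpPos one_pos (D := fun y => Zp y - Zm y) (Tp := Tp) (Tm := Tm)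
      (Kp := fun y => kG c s J (Rf J y) y (X y)) (Km := fun y => kG c s J (Rf J y) y (X' y))
      (h1 := h1) (h2 := t) h1pos
      ((cZp.sub cZm).mono (Icc_subset_Icc_right ht.2.le)) (by simp only [h0, sub_self]; exact le_rfl)
      (fun y hy => (hd y (hsub y hy)).hasDerivWithinAt) (fun y hy => hz y (hsub y hy))
      (fun y hy hT => hK y (hsub y hy) hT) t ⟨ht.1, le_rfl⟩
  have hT : ∀ y ∈ Ioo h1 h2, Tm y < Tp y := by
    intro y hy
    by_contra hcon
    push Not at hcon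
    have e1 := hK y hy hcon
    have e2 := hz y hy
    have e3 := hpos y hy
    have e4 : 2 * y * (Tp y - Tm y) ≤ 0 :=
      mul_nonpos_of_nonneg_of_nonpos (by linarith [hy.1]) (by linarith)
    linarith
  have hmono : StrictMonoOn (fun y => Zp y - Zm y) (Icc h1 h2) := by
    refine strictMonoOn_of_deriv_pos (convex_Icc _ _) (cZp.sub cZm) fun y hy => ?_
    rw [interior_Icc] at hy
    rw [(hd y hy).deriv]
    linarith [hT y hy]
  have := hmono ⟨le_rfl, h12.le⟩ ⟨h12.le, le_rfl⟩ h12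
  simp only [h0, sub_self] at this
  linarith

variable {m κ : ℝ} {A σ υ x A' σ' υ' x' : ℝ → ℝ} {a b a' b' : ℝ}

/-- **Comparison of the two arcs.** -/
theorem LA.compare (L : LA m c s J κ A σ υ x a b) (L' : LA m c s J κ A' σ' υ' x' a' b')
    (hP : ∀ t ∈ Ioo a b, 0 < gP c s (σ t) (υ t)) (hPa : gP c s (σ a) (υ a) = 0)
    (hPb : gP c s (σ b) (υ b) = 0)
    (hP' : ∀ t ∈ Ioo a' b', gP c s (σ' t) (υ' t) < 0) (hPa' : gP c s (σ' a') (υ' a') = 0)
    (hPb' : gP c s (σ' b') (υ' b') = 0)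
    (eA : A b = A' a') (eS : σ b = σ' a') (eV : υ b = υ' a') (ex : x b = x' a')
    (hx0 : 0 < x b) (hxp : x b < Real.pi) (hAb : A b < 1)
    (hAa : A a < 0 ∨ 1 < A a) (hAb' : A' b' < 0 ∨ 1 < A' b') :
    -(A a)⁻¹ < -(A' b')⁻¹ := by
  have hab := L.lt
  have hab' := L'.lt
  have hJ := L.na.par.J_gt
  have par := L.na.par
  have hm := L.na.m_pos
  have hPn : ∀ t ∈ Icc a b, 0 ≤ gP c s (σ t) (υ t) := by
    intro t ht
    rcases eq_or_lt_of_le ht.1 with h1 | h1
    · rw [← h1, hPa]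
    · rcases eq_or_lt_of_le ht.2 with h2 | h2
      · rw [h2, hPb]
      · exact (hP t ⟨h1, h2⟩).le
  have hPn' : ∀ t ∈ Icc a' b', gP c s (σ' t) (υ' t) ≤ 0 := by
    intro t ht
    rcases eq_or_lt_of_le ht.1 with h1 | h1
    · rw [← h1, hPa']
    · rcases eq_or_lt_of_le ht.2 with h2 | h2
      · rw [h2, hPb']
      · exact (hP' t ⟨h1, h2⟩).le
  have ha : a ∈ Icc a b := ⟨le_rfl, hab.le⟩
  have hb : b ∈ Icc a b := ⟨hab.le, le_rfl⟩
  have ha' : a' ∈ Icc a' b' := ⟨le_rfl, hab'.le⟩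
  have hb' : b' ∈ Icc a' b' := ⟨hab'.le, le_rfl⟩
  -- traps
  have trap := L.trap_plus hPn hb hx0 hxp
  have hxb : x b = xb J (rad J (A b) (υ b)) (gH J (A b) (υ b)) := by
    have C := L.circ hb
    rcases C.loc_plus0 hx0 hxp (by rw [L.kP_eq hb]; exact hPb) with h | h
    · exact h.1
    · exfalso
      rw [L.ca_eq hb] at h
      have := Real.sqrt_nonneg (gH J (A b) (υ b))
      linarith [h.2]
  have hrad : rad J (A' a') (υ' a') = rad J (A b) (υ b) := by rw [eA, eV]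
  have hm1 := (L.circ hb).xb_lt_xm
  have trap' := L'.trap_minus hPn' ha' (by
      rw [← ex, hrad]
      have h1 := (L.circ hb).xm_lt_xE
      have h2 := (L.circ hb).xE_lt
      have := Real.pi_pos
      linarith) (by rw [← ex, hrad, hxb]; exact hm1)
  -- graphs
  have hHd : ∀ t ∈ Ioo a b, HasDerivAt (fun t => gH J (A t) (υ t))
      (-(gP c s (σ t) (υ t)) * gu c s J (A t) (σ t) (υ t) / m) t := fun t _ => L.na.dH t
  have hHd' : ∀ t ∈ Ioo a' b', HasDerivAt (fun t => gH J (A' t) (υ' t))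
      (-(gP c s (σ' t) (υ' t)) * gu c s J (A' t) (σ' t) (υ' t) / m) t := fun t _ => L'.na.dH t
  have hHc : Continuous fun t => gH J (A t) (υ t) :=
    continuous_iff_continuousAt.2 fun t => (L.na.dH t).continuousAt
  have hHc' : Continuous fun t => gH J (A' t) (υ' t) :=
    continuous_iff_continuousAt.2 fun t => (L'.na.dH t).continuousAt
  obtain ⟨φ, g1, g2, g3, g4, g5, g6, g7, g8, g9⟩ := graph_anti (h := fun t => gH J (A t) (υ t))
    (Z := fun t => cZ c s J (A t) (σ t) (υ t) (x t)) (T := fun t => cT c s J (A t) (σ t) (x t))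
    (h' := fun t => -(gP c s (σ t) (υ t)) * gu c s J (A t) (σ t) (υ t) / m)
    (c := 5 * c / 2 - κ / J) hab hHc.continuousOn L.contZ L.contT.continuousOn hHd
    (fun t ht => by
      have e1 := hP t ht
      have e2 : 0 < gu c s J (A t) (σ t) (υ t) := gu_pos (L.hpos t (Ioo_subset_Icc_self ht))
      have e3 : 0 < gP c s (σ t) (υ t) * gu c s J (A t) (σ t) (υ t) / m := by positivity
      have e4 : -(gP c s (σ t) (υ t)) * gu c s J (A t) (σ t) (υ t) / m
        = -(gP c s (σ t) (υ t) * gu c s J (A t) (σ t) (υ t) / m) := by ring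
      rw [e4]; linarith)
    (fun t ht => L.dZ (Ioo_subset_Icc_self ht))
  obtain ⟨ψ, k1, k2, k3, k4, k5, k6, k7, k8, k9⟩ := graph_mono (h := fun t => gH J (A' t) (υ' t))
    (Z := fun t => cZ c s J (A' t) (σ' t) (υ' t) (x' t))
    (T := fun t => cT c s J (A' t) (σ' t) (x' t))
    (h' := fun t => -(gP c s (σ' t) (υ' t)) * gu c s J (A' t) (σ' t) (υ' t) / m)
    (c := 5 * c / 2 - κ / J) hab' hHc'.continuousOn L'.contZ L'.contT.continuousOn hHd'
    (fun t ht => by
      have e1 := hP' t ht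
      have e2 : 0 < gu c s J (A' t) (σ' t) (υ' t) := gu_pos (L'.hpos t (Ioo_subset_Icc_self ht))
      exact div_pos (mul_pos (by linarith) e2) hm)
    (fun t ht => L'.dZ (Ioo_subset_Icc_self ht))
  have eH : gH J (A' a') (υ' a') = gH J (A b) (υ b) := by rw [eA, eV]
  rw [eH] at k1 k2 k3 k4 k6 k7 k8 k9
  set h1 := gH J (A b) (υ b) with hh1
  set hp := gH J (A a) (υ a) with hhp
  set hm' := gH J (A' b') (υ' b') with hhm
  have h1pos : 0 < h1 := L.hpos b hb
  -- the comparison up to `h2`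
  have key : ∀ h2, h1 < h2 → h2 ≤ hp → h2 ≤ hm' →
      cZ c s J (A' (ψ h2)) (σ' (ψ h2)) (υ' (ψ h2)) (x' (ψ h2))
        < cZ c s J (A (φ h2)) (σ (φ h2)) (υ (φ h2)) (x (φ h2)) := by
    intro h2 h12 h2p h2m
    have radp : ∀ y ∈ Icc h1 hp, rad J (A (φ y)) (υ (φ y)) = Rf J y := fun y hy => by
      rw [rad_Rf hJ, (g2 y hy).2]
    have radm : ∀ y ∈ Icc h1 hm', rad J (A' (ψ y)) (υ' (ψ y)) = Rf J y := fun y hy => by
      rw [rad_Rf hJ, (k2 y hy).2]
    refine cmp_abs par (c0 := 5 * c / 2 - κ / J) h1pos h12 (X := fun y => x (φ y))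
      (X' := fun y => x' (ψ y)) (Zp := fun y => cZ c s J (A (φ y)) (σ (φ y)) (υ (φ y)) (x (φ y)))
      (Tp := fun y => cT c s J (A (φ y)) (σ (φ y)) (x (φ y)))
      (Zm := fun y => cZ c s J (A' (ψ y)) (σ' (ψ y)) (υ' (ψ y)) (x' (ψ y)))
      (Tm := fun y => cT c s J (A' (ψ y)) (σ' (ψ y)) (x' (ψ y))) ?_ ?_ ?_ ?_ ?_ ?_ ?_ ?_ ?_ ?_ ?_
    · intro y hy
      have hy1 : y ∈ Ioo h1 hp := ⟨hy.1, hy.2.trans_le h2p⟩
      have ht := Ioo_subset_Icc_self (g3 y hy1)
      have C := L.circ ht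
      have hPy : 0 < kP c s J (rad J (A (φ y)) (υ (φ y))) (x (φ y)) := by
        rw [L.kP_eq ht]; exact hP _ (g3 y hy1)
      have := C.loc_plus (trap _ ht).1 (trap _ ht).2 hPy
      rw [radp y (Ioo_subset_Icc_self hy1), (g2 y (Ioo_subset_Icc_self hy1)).2] at this
      exact this
    · intro y hy
      have hy1 : y ∈ Ioo h1 hm' := ⟨hy.1, hy.2.trans_le h2m⟩
      have ht := Ioo_subset_Icc_self (k3 y hy1)
      have C := L'.circ ht
      have hPy : kP c s J (rad J (A' (ψ y)) (υ' (ψ y))) (x' (ψ y)) < 0 := by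
        rw [L'.kP_eq ht]; exact hP' _ (k3 y hy1)
      have := C.loc_minus (trap' _ ht).1 (trap' _ ht).2 hPy
      rw [radm y (Ioo_subset_Icc_self hy1), (k2 y (Ioo_subset_Icc_self hy1)).2] at this
      exact this
    · intro y hy
      have hy1 : y ∈ Icc h1 hp := ⟨hy.1.le, hy.2.le.trans h2p⟩
      rw [← radp y hy1, L.kZ_eq (g2 y hy1).1]
    · intro y hy
      have hy1 : y ∈ Icc h1 hm' := ⟨hy.1.le, hy.2.le.trans h2m⟩
      rw [← radm y hy1, L'.kZ_eq (k2 y hy1).1]
    · intro y hy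
      have hy1 : y ∈ Icc h1 hp := ⟨hy.1.le, hy.2.le.trans h2p⟩
      rw [← radp y hy1, L.kT_eq (g2 y hy1).1]
    · intro y hy
      have hy1 : y ∈ Icc h1 hm' := ⟨hy.1.le, hy.2.le.trans h2m⟩
      rw [← radm y hy1, L'.kT_eq (k2 y hy1).1]
    · exact g7.mono (Icc_subset_Icc_right h2p)
    · exact k7.mono (Icc_subset_Icc_right h2m)
    · intro y hy; exact g9 y ⟨hy.1, hy.2.trans_le h2p⟩
    · intro y hy; exact k9 y ⟨hy.1, hy.2.trans_le h2m⟩
    · simp only [g4, k4]
      rw [eA, eS, eV, ex]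
  -- end points
  have Ca := L.circ ha
  have Cb' := L'.circ hb'
  rw [← hhp] at Ca
  rw [← hhm] at Cb'
  have hPa0 : kP c s J (rad J (A a) (υ a)) (x a) = 0 := by rw [L.kP_eq ha]; exact hPa
  have hPb0 : kP c s J (rad J (A' b') (υ' b')) (x' b') = 0 := by rw [L'.kP_eq hb']; exact hPb'
  have ea := Ca.loc_plus0 (trap a ha).1 (trap a ha).2 hPa0
  have eb := Cb'.loc_minus0 (trap' b' hb').1 (trap' b' hb').2
    (by rw [L'.cq_eq hb']; exact L'.na.pos b') hPb0
  rw [L.ca_eq ha] at ea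
  rw [L'.ca_eq hb'] at eb
  have hsp := Real.sqrt_nonneg hp
  have hsm := Real.sqrt_nonneg hm'
  have hinv : ∀ {u v : ℝ}, u < 0 → 1 < v → u⁻¹ < v⁻¹ := fun hu hv =>
    (inv_lt_zero.2 hu).trans (inv_pos.2 (by linarith))
  rcases lt_or_ge hp hm' with hlt | hge
  · -- the upper arc ends first
    have hk := key hp g1 le_rfl hlt.le
    rw [g5] at hk
    have hpm : hp ∈ Ioo h1 hm' := ⟨g1, hlt⟩
    have hpm' := Ioo_subset_Icc_self hpm
    have ht := Ioo_subset_Icc_self (k3 hp hpm)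
    have C := L'.circ ht
    have hPy : kP c s J (rad J (A' (ψ hp)) (υ' (ψ hp))) (x' (ψ hp)) < 0 := by
      rw [L'.kP_eq ht]; exact hP' _ (k3 hp hpm)
    have hloc := C.loc_minus (trap' _ ht).1 (trap' _ ht).2 hPy
    have erad : rad J (A' (ψ hp)) (υ' (ψ hp)) = rad J (A a) (υ a) := by
      rw [rad_Rf hJ, rad_Rf hJ, (k2 hp hpm').2]
    rw [← L'.kZ_eq ht, ← L.kZ_eq ha, erad] at hk
    rw [(k2 hp hpm').2, erad] at hloc
    rcases ea with ⟨ea1, ea2⟩ | ⟨ea1, ea2⟩
    · -- `e₊` on the left ray: impossible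
      exfalso
      have := Ca.monoZ.2 ⟨hloc.1.le, hloc.2.le⟩
        ⟨by have := Ca.xb_nonneg; have := Ca.xE_lt; have := Real.pi_pos; linarith, le_rfl⟩ hloc.2
      rw [ea1] at hk
      linarith
    · rcases eb with ⟨eb1, eb2⟩ | ⟨eb1, eb2⟩
      · have h3 : A' b' < 0 := by
          rcases hAb' with h | h
          · exact h
          · linarith
        have h4 : 1 < A a := by
          rcases hAa with h | h
          · linarith
          · exact h
        have := hinv h3 h4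
        linarith
      · have h4 : 1 < A a := by
          rcases hAa with h | h
          · linarith
          · exact h
        have h5 : A a < A' b' := by
          rw [ea2, eb2]
          have := Real.sqrt_lt_sqrt (h1pos.trans g1).le hlt
          linarith
        have := (inv_lt_inv₀ (by linarith : 0 < A' b') (by linarith : 0 < A a)).2 h5
        linarith
  · -- the lower arc ends first or at the same level
    have hk := key hm' k1 hge le_rfl
    rw [k5] at hk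
    have hmm : hm' ∈ Icc h1 hp := ⟨k1.le, hge⟩
    have ht := (g2 hm' hmm).1
    have C := L.circ ht
    have erad : rad J (A (φ hm')) (υ (φ hm')) = rad J (A' b') (υ' b') := by
      rw [rad_Rf hJ, rad_Rf hJ, (g2 hm' hmm).2]
    have hloc : xb J (rad J (A' b') (υ' b')) hm' ≤ x (φ hm') ∧
        x (φ hm') ≤ xE J (rad J (A' b') (υ' b')) hm' := by
      have hPy : 0 ≤ kP c s J (rad J (A (φ hm')) (υ (φ hm'))) (x (φ hm')) := by
        rw [L.kP_eq ht]; exact hPn _ ht
      rcases hPy.eq_or_lt with h | h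
      · have h6 := C.loc_plus0 (trap _ ht).1 (trap _ ht).2 h.symm
        rw [(g2 hm' hmm).2, erad] at h6
        have h7 := Cb'.xb_lt_xE
        rcases h6 with h6 | h6
        · rw [h6.1]; exact ⟨le_rfl, h7.le⟩
        · rw [h6.1]; exact ⟨h7.le, le_rfl⟩
      · have h6 := C.loc_plus (trap _ ht).1 (trap _ ht).2 h
        rw [(g2 hm' hmm).2, erad] at h6
        exact ⟨h6.1.le, h6.2.le⟩
    rw [← L'.kZ_eq hb', ← L.kZ_eq ht, erad] at hk
    rcases eb with ⟨eb1, eb2⟩ | ⟨eb1, eb2⟩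
    · have h3 : A' b' < 0 := by
        rcases hAb' with h | h
        · exact h
        · linarith
      rcases ea with ⟨ea1, ea2⟩ | ⟨ea1, ea2⟩
      · have h4 : A a < 0 := by
          rcases hAa with h | h
          · exact h
          · linarith
        rcases hge.eq_or_lt with heq | hgt
        · -- both arcs end at the same point
          exfalso
          rw [heq, g5] at hk
          have e1 : rad J (A a) (υ a) = rad J (A' b') (υ' b') := by
            rw [rad_Rf hJ, rad_Rf hJ, ← hhp, ← hhm, heq]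
          rw [e1, ← heq] at ea1
          rw [ea1, ← eb1] at hk
          exact lt_irrefl _ hk
        · have h5 : A a < A' b' := by
            rw [ea2, eb2]
            have := Real.sqrt_lt_sqrt (h1pos.trans k1).le hgt
            linarith
          have := (inv_lt_inv_of_neg h3 h4).2 h5
          linarith
      · have h4 : 1 < A a := by
          rcases hAa with h | h
          · linarith
          · exact h
        have := hinv h3 h4
        linarith
    · -- `e₋` on the right ray: impossible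
      exfalso
      have h6 := Cb'.Z_full
      have h7 := Cb'.monoZ.1.monotoneOn hloc ⟨Cb'.xb_lt_xE.le, le_rfl⟩ hloc.2
      rw [eb1] at hk
      linarith

/-- A point with `υ > 0` has an angle in `(0, π)`. -/
theorem exists_angle {J a v : ℝ} (hJ : 1 < J) (hH : 0 < gH J a v) (hv : 0 < v) :
    ∃ x0 : ℝ, 0 < x0 ∧ x0 < Real.pi ∧
      J - a = Real.sqrt ((J - a) ^ 2 + v ^ 2) * Real.cos x0 ∧
      v = Real.sqrt ((J - a) ^ 2 + v ^ 2) * Real.sin x0 := by
  have h0 := R2_pos hJ hH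
  set R := Real.sqrt ((J - a) ^ 2 + v ^ 2) with hR
  have hRp : 0 < R := Real.sqrt_pos.2 h0
  have hR2 : R ^ 2 = (J - a) ^ 2 + v ^ 2 := Real.sq_sqrt h0.le
  have h1 : |(J - a) / R| < 1 := by
    rw [← sq_lt_one_iff_abs_lt_one, div_pow, div_lt_one (pow_pos hRp 2), hR2]
    have := pow_pos hv 2
    linarith
  obtain ⟨h2, h3⟩ := abs_lt.1 h1
  refine ⟨Real.arccos ((J - a) / R), Real.arccos_pos.2 h3, ?_, ?_, ?_⟩
  · rw [← Real.arccos_neg_one]
    exact Real.arccos_lt_arccos le_rfl h2 h3.le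
  · rw [Real.cos_arccos h2.le h3.le]; field_simp
  · rw [Real.sin_arccos]
    have h4 : 1 - ((J - a) / R) ^ 2 = (v / R) ^ 2 := by
      field_simp
      linarith
    rw [h4, Real.sqrt_sq (by positivity)]
    field_simp

namespace KA

/-- The comparison of arcs for `|k| < 1`, `eta > 0`. -/
theorem Hc {k l : ℝ} (hk : k ^ 2 < 1) (hl : 0 < l) (he : 0 < eta k l)
    {U Y w : ℝ → ℝ} {a b : ℝ} {U' Y' w' : ℝ → ℝ} {a' b' : ℝ}
    (L : Arc k l U Y w a b) (L' : Arc k (-l) U' Y' w' a' b') (eU : U b = U' b')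
    (eY : Y b = Y' b') : -(fA k (U a) (Y a))⁻¹ < -(fA k (U' a') (Y' a'))⁻¹ := by
  obtain ⟨m, r, c, s, J, hm, hm2, hr0, hr, par, hlJ⟩ := exists_par hl he
  have hJ := par.J_gt
  have hk1 : k < 1 := by nlinarith
  have hk2 : -1 < k := by nlinarith
  have hs' := L'.sol.reflect
  rw [neg_neg] at hs'
  have na := L.sol.toNA hk hm hm2 hr0 hr par hlJ
  have na' := hs'.toNA hk hm hm2 hr0 hr par hlJ
  have hcone := L.sol.cone
  have hcone' := hs'.cone
  have hH : ∀ t, gH J (fA k (U t) (Y t)) (c * (m * w t) + s * (r / 2 * fS k (U t) (Y t)))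
      = fh k l (U t) (Y t) (w t) := fun t => gH_eq hr hm2 par (hcone t) hlJ
  have hH' : ∀ t, gH J (fA k (U' (-t)) (Y' (-t)))
      (c * (m * -w' (-t)) + s * (r / 2 * fS k (U' (-t)) (Y' (-t))))
      = fh k l (U' (-t)) (Y' (-t)) (-w' (-t)) := fun t => gH_eq hr hm2 par (hcone' t) hlJ
  have hP : ∀ t, gP c s (c * (r / 2 * fS k (U t) (Y t)) + s * (m * w t))
      (c * (m * w t) + s * (r / 2 * fS k (U t) (Y t))) = m * w t := fun t => gP_eq par
  have hP' : ∀ t, gP c s (c * (r / 2 * fS k (U' (-t)) (Y' (-t))) + s * (m * -w' (-t)))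
      (c * (m * -w' (-t)) + s * (r / 2 * fS k (U' (-t)) (Y' (-t)))) = m * -w' (-t) :=
    fun t => gP_eq par
  have hbI : b ∈ Icc a b := ⟨L.lt.le, le_rfl⟩
  have hpos : ∀ t ∈ Icc a b, 0 < gH J (fA k (U t) (Y t))
      (c * (m * w t) + s * (r / 2 * fS k (U t) (Y t))) := fun t ht => by
    rw [hH]; exact L.hpos t ht
  have hlt' : -b' < -a' := by linarith [L'.lt]
  have hb'I : -b' ∈ Icc (-b') (-a') := ⟨le_rfl, hlt'.le⟩
  have hpos' : ∀ t ∈ Icc (-b') (-a'), 0 < gH J (fA k (U' (-t)) (Y' (-t)))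
      (c * (m * -w' (-t)) + s * (r / 2 * fS k (U' (-t)) (Y' (-t)))) := fun t ht => by
    rw [hH']
    have h1 := L'.hpos (-t) ⟨by linarith [ht.2], by linarith [ht.1]⟩
    have h2 : fh k l (U' (-t)) (Y' (-t)) (-w' (-t)) = fh k (-l) (U' (-t)) (Y' (-t)) (w' (-t)) := by
      simp only [fh]; ring
    rw [h2]; exact h1
  -- the common end point
  have hwb := L.wb
  have hwb' := L'.wb
  have hvb : 0 < c * (m * w b) + s * (r / 2 * fS k (U b) (Y b)) := by
    have h1 := na.pos b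
    simp only [hwb, mul_zero, add_zero, zero_add] at h1 ⊢
    have h2 := (mul_pos_iff_of_pos_left par.c_pos).1 h1
    exact mul_pos par.s_pos h2
  obtain ⟨x0, hx0, hxp, e1, e2⟩ := exists_angle hJ (hpos b hbI) hvb
  obtain ⟨x, hxb, LL⟩ := na.exists_lift L.lt hbI hpos e1 e2
  have e1' : J - fA k (U' (-(-b'))) (Y' (-(-b'))) = Real.sqrt ((J - fA k (U' (-(-b')))
      (Y' (-(-b')))) ^ 2 + (c * (m * -w' (-(-b'))) + s * (r / 2 * fS k (U' (-(-b')))
      (Y' (-(-b'))))) ^ 2) * Real.cos x0 := by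
    rw [neg_neg, ← eU, ← eY, hwb', neg_zero, ← hwb]; exact e1
  have e2' : c * (m * -w' (-(-b'))) + s * (r / 2 * fS k (U' (-(-b'))) (Y' (-(-b'))))
      = Real.sqrt ((J - fA k (U' (-(-b')))
      (Y' (-(-b')))) ^ 2 + (c * (m * -w' (-(-b'))) + s * (r / 2 * fS k (U' (-(-b')))
      (Y' (-(-b'))))) ^ 2) * Real.sin x0 := by
    rw [neg_neg, ← eU, ← eY, hwb', neg_zero, ← hwb]; exact e2
  obtain ⟨x', hxb', LL'⟩ := na'.exists_lift hlt' hb'I hpos' e1' e2'
  -- rays
  have hray : ∀ {U Y : ℝ}, 0 < U → Y = U → fA k U Y < 0 := fun {U Y} hU hY => by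
    rw [hY]; simp only [fA]; nlinarith
  have hAb : fA k (U b) (Y b) < 1 := by
    rcases L.exit with h | h
    · exact h.2
    · have := hray (L.sol.pos b) h.1
      linarith [h.2]
  have hAa : fA k (U a) (Y a) < 0 ∨ 1 < fA k (U a) (Y a) := by
    rcases L.entrance with h | h
    · left; exact hray (L.sol.pos a) h.1
    · right; exact h.2
  have hAb' : fA k (U' (-(-a'))) (Y' (-(-a'))) < 0 ∨ 1 < fA k (U' (-(-a'))) (Y' (-(-a'))) := by
    rw [neg_neg]
    rcases L'.entrance with h | h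
    · left; exact hray (L'.sol.pos a') h.1
    · right; exact h.2
  have key := LL.compare LL'
    (fun t ht => by rw [hP]; exact mul_pos hm (L.wpos t ht))
    (by rw [hP, L.wa, mul_zero]) (by rw [hP, L.wb, mul_zero])
    (fun t ht => by
      rw [hP']
      have := L'.wpos (-t) ⟨by linarith [ht.2], by linarith [ht.1]⟩
      exact mul_neg_of_pos_of_neg hm (by linarith))
    (by rw [hP', neg_neg, L'.wb]; simp) (by rw [hP', neg_neg, L'.wa]; simp)
    (by rw [neg_neg, eU, eY]) (by rw [neg_neg, eU, eY, hwb, hwb']; simp)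
    (by rw [neg_neg, eU, eY, hwb, hwb']; simp) (by rw [hxb, hxb'])
    (by rw [hxb]; exact hx0) (by rw [hxb]; exact hxp) hAb hAa hAb'
  simpa only [neg_neg] using key

/-- **Case `|k| < 1`, `eta > 0`.** -/
theorem no_orbit {k l : ℝ} (hk : k ^ 2 < 1) (hl : 0 < l) (he : l ^ 2 < 1 - k ^ 2)
    {U Y w : ℝ → ℝ} {P : ℝ} (hs : Sol k l U Y w) (hP : 0 < P)
    (pU : ∀ t, U (t + P) = U t) (pY : ∀ t, Y (t + P) = Y t) (pw : ∀ t, w (t + P) = w t)
    (hneg : ∃ t, w t < 0) (hpos : ∃ t, 0 < w t) : False := by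
  have he' : 0 < eta k l := by simp only [eta]; linarith
  exact no_orbit_exit hl he'.ne' (fun _ _ => True) (fun U Y => -(fA k U Y)⁻¹)
    (fun _ _ _ _ _ _ => trivial)
    (fun U Y w a b U' Y' w' a' b' L L' eU eY _ _ => Hc hk hl he' L L' eU eY)
    hs hP pU pY pw hneg hpos

end KA

end B92
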