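import Mathlib

/-! Differentiation of `∫ y in a t..b t, f (x t) y` along a path. -/

open Set Filter Topology MeasureTheory

noncomputable section

namespace B92

/-- A compact rectangle around a segment in an open set. -/
theorem exists_rect {Om : Set (ℝ × ℝ)} (hO : IsOpen Om) {x0 c d : ℝ} (hcd : c ≤ d)
    (hseg : ∀ y ∈ Icc c d, (x0, y) ∈ Om) :
    ∃ e > 0, ∀ x y, |x - x0| ≤ e → y ∈ Icc (c - e) (d + e) → (x, y) ∈ Om := by
  have hK : IsCompact ({x0} ×ˢ Icc c d : Set (ℝ × ℝ)) := isCompact_singleton.prod isCompact_Icc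
  have hsub : ({x0} ×ˢ Icc c d : Set (ℝ × ℝ)) ⊆ Om := by
    rintro ⟨x, y⟩ ⟨hx, hy⟩
    simp only [mem_singleton_iff] at hx
    subst hx
    exact hseg y hy
  obtain ⟨e, he, h⟩ := hK.exists_cthickening_subset_open hO hsub
  refine ⟨e, he, fun x y hx hy => h ?_⟩
  -- nearest point
  set y' := max c (min y d) with hy'
  have hy1 : y' ∈ Icc c d := ⟨le_max_left _ _, max_le hcd (min_le_right _ _)⟩
  have hy2 : |y - y'| ≤ e := by
    rw [hy']
    rcases le_total y d with h1 | h1
    · rw [min_eq_left h1]
      rcases le_total c y with h2 | h2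
      · rw [max_eq_right h2]; simpa using he.le
      · rw [max_eq_left h2, abs_of_nonpos (by linarith)]; linarith [hy.1]
    · rw [min_eq_right h1, max_eq_right hcd, abs_of_nonneg (by linarith)]; linarith [hy.2]
  have hmem : ((x0, y') : ℝ × ℝ) ∈ ({x0} ×ˢ Icc c d : Set (ℝ × ℝ)) := ⟨rfl, hy1⟩
  refine Metric.mem_cthickening_of_dist_le (x, y) (x0, y') e _ hmem ?_
  rw [Prod.dist_eq, Real.dist_eq, Real.dist_eq]
  exact max_le hx hy2

theorem hasDerivAt_endpoint {Om : Set (ℝ × ℝ)} (hO : IsOpen Om) {f : ℝ → ℝ → ℝ}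
    (hf : ContinuousOn (Function.uncurry f) Om) {x b : ℝ → ℝ} {b' t : ℝ}
    (hx : ContinuousAt x t) (hb : HasDerivAt b b' t) (hm : (x t, b t) ∈ Om) :
    HasDerivAt (fun s => ∫ y in b t..b s, f (x s) y) (b' * f (x t) (b t)) t := by
  obtain ⟨e, he, hrect⟩ := exists_rect hO (le_refl (b t)) (x0 := x t) (by
    intro y hy
    have : y = b t := le_antisymm hy.2 hy.1
    rw [this]; exact hm)
  -- main estimate
  have hlit : (fun s => (∫ y in b t..b s, f (x s) y) - (b s - b t) * f (x t) (b t))
      =o[𝓝 t] fun s => b s - b t := by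
    rw [Asymptotics.isLittleO_iff]
    intro c hc
    have hca : ContinuousAt (Function.uncurry f) (x t, b t) := hf.continuousAt (hO.mem_nhds hm)
    obtain ⟨d, hd, hd2⟩ := Metric.continuousAt_iff.1 hca c hc
    have e1 : ∀ᶠ s in 𝓝 t, |x s - x t| < min d e := by
      have := Metric.continuousAt_iff.1 hx (min d e) (lt_min hd he)
      obtain ⟨r, hr, hr2⟩ := this
      filter_upwards [Metric.ball_mem_nhds t hr] with s hs
      simpa [Real.dist_eq] using hr2 hs
    have e2 : ∀ᶠ s in 𝓝 t, |b s - b t| < min d e := by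
      have := Metric.continuousAt_iff.1 hb.continuousAt (min d e) (lt_min hd he)
      obtain ⟨r, hr, hr2⟩ := this
      filter_upwards [Metric.ball_mem_nhds t hr] with s hs
      simpa [Real.dist_eq] using hr2 hs
    filter_upwards [e1, e2] with s hs1 hs2
    have habs : ∀ y ∈ uIcc (b t) (b s), |y - b t| ≤ |b s - b t| := by
      intro y hy
      rcases le_total (b t) (b s) with h | h
      · rw [uIcc_of_le h] at hy
        rw [abs_of_nonneg (by linarith [hy.1]), abs_of_nonneg (by linarith)]; linarith [hy.2]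
      · rw [uIcc_of_ge h] at hy
        rw [abs_of_nonpos (by linarith [hy.2]), abs_of_nonpos (by linarith)]; linarith [hy.1]
    have hmem : ∀ y ∈ uIcc (b t) (b s), (x s, y) ∈ Om := by
      intro y hy
      have h1 := habs y hy
      have h2 : |y - b t| < e := lt_of_le_of_lt h1 (lt_of_lt_of_le hs2 (min_le_right _ _))
      rw [abs_lt] at h2
      exact hrect _ _ (hs1.le.trans (min_le_right _ _)) ⟨by linarith, by linarith⟩
    have hint : IntervalIntegrable (fun y => f (x s) y) volume (b t) (b s) := by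
      apply ContinuousOn.intervalIntegrable
      have hg : ContinuousOn (fun y => ((x s, y) : ℝ × ℝ)) (uIcc (b t) (b s)) := by fun_prop
      exact hf.comp hg hmem
    have heq : (∫ y in b t..b s, f (x s) y) - (b s - b t) * f (x t) (b t)
        = ∫ y in b t..b s, (f (x s) y - f (x t) (b t)) := by
      rw [intervalIntegral.integral_sub hint (by simp)]
      simp
    rw [heq]
    have := intervalIntegral.norm_integral_le_of_norm_le_const (a := b t) (b := b s)
      (f := fun y => f (x s) y - f (x t) (b t)) (C := c) (by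
        intro y hy
        have hy' : y ∈ uIcc (b t) (b s) := uIoc_subset_uIcc hy
        have h1 := habs y hy'
        have h3 : dist ((x s, y) : ℝ × ℝ) (x t, b t) < d := by
          rw [Prod.dist_eq, Real.dist_eq, Real.dist_eq]
          exact max_lt (lt_of_lt_of_le hs1 (min_le_left _ _))
            (lt_of_le_of_lt h1 (lt_of_lt_of_le hs2 (min_le_left _ _)))
        have := hd2 h3
        rw [Real.dist_eq] at this
        exact this.le)
    simpa using this
  have hbO : (fun s => b s - b t) =O[𝓝 t] fun s => s - t := hb.isBigO_sub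
  have h1 : (fun s => (∫ y in b t..b s, f (x s) y) - (b s - b t) * f (x t) (b t))
      =o[𝓝 t] fun s => s - t := hlit.trans_isBigO hbO
  have h2 : HasDerivAt (fun s => (b s - b t) * f (x t) (b t)) (b' * f (x t) (b t)) t :=
    (hb.sub_const (b t)).mul_const _
  have h3 : HasDerivAt (fun s => (∫ y in b t..b s, f (x s) y) - (b s - b t) * f (x t) (b t)) 0 t := by
    rw [hasDerivAt_iff_isLittleO]
    simpa using h1
  have h4 := h3.add h2
  refine (h4.congr_deriv (by ring)).congr_of_eventuallyEq (Eventually.of_forall fun s => ?_)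
  simp

/-- **Leibniz rule along a path.** -/
theorem leibniz {Om : Set (ℝ × ℝ)} (hO : IsOpen Om) {f fx : ℝ → ℝ → ℝ}
    (hf : ContinuousOn (Function.uncurry f) Om) (hfx : ContinuousOn (Function.uncurry fx) Om)
    (hd : ∀ x y, (x, y) ∈ Om → HasDerivAt (fun x => f x y) (fx x y) x)
    {x a b : ℝ → ℝ} {x' a' b' t : ℝ}
    (hx : HasDerivAt x x' t) (ha : HasDerivAt a a' t) (hb : HasDerivAt b b' t)
    (hseg : ∀ y ∈ uIcc (a t) (b t), (x t, y) ∈ Om) :
    HasDerivAt (fun s => ∫ y in a s..b s, f (x s) y)
      (x' * (∫ y in a t..b t, fx (x t) y) + b' * f (x t) (b t) - a' * f (x t) (a t)) t := by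
  obtain ⟨e, he, hrect⟩ := exists_rect hO (c := min (a t) (b t)) (d := max (a t) (b t))
    (min_le_max) (x0 := x t) (fun y hy => hseg y hy)
  have hma : (x t, a t) ∈ Om := hseg _ left_mem_uIcc
  have hmb : (x t, b t) ∈ Om := hseg _ right_mem_uIcc
  -- the compact rectangle and the bound
  set K : Set (ℝ × ℝ) := Icc (x t - e) (x t + e) ×ˢ Icc (min (a t) (b t) - e) (max (a t) (b t) + e)
    with hK
  have hKc : IsCompact K := isCompact_Icc.prod isCompact_Icc
  have hKO : K ⊆ Om := by
    rintro ⟨p, q⟩ ⟨hp, hq⟩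
    exact hrect p q (abs_le.2 ⟨by linarith [hp.1], by linarith [hp.2]⟩) hq
  obtain ⟨M, hM⟩ := hKc.exists_bound_of_continuousOn (hfx.mono hKO)
  -- integrability for parameters near `x t`
  have hintg : ∀ (g : ℝ → ℝ → ℝ), ContinuousOn (Function.uncurry g) Om → ∀ p, |p - x t| ≤ e →
      ∀ c d, c ∈ Icc (min (a t) (b t) - e) (max (a t) (b t) + e) →
      d ∈ Icc (min (a t) (b t) - e) (max (a t) (b t) + e) →
      IntervalIntegrable (fun y => g p y) volume c d := by
    intro g hg p hp c d hc hd
    apply ContinuousOn.intervalIntegrable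
    have h1 : ContinuousOn (fun y => ((p, y) : ℝ × ℝ)) (uIcc c d) := by fun_prop
    refine hg.comp h1 fun y hy => hrect p y hp ?_
    exact ⟨(le_min hc.1 hd.1).trans hy.1, hy.2.trans (max_le hc.2 hd.2)⟩
  have hae : a t ∈ Icc (min (a t) (b t) - e) (max (a t) (b t) + e) :=
    ⟨by linarith [min_le_left (a t) (b t)], by linarith [le_max_left (a t) (b t)]⟩
  have hbe : b t ∈ Icc (min (a t) (b t) - e) (max (a t) (b t) + e) :=
    ⟨by linarith [min_le_right (a t) (b t)], by linarith [le_max_right (a t) (b t)]⟩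
  -- fixed end points
  have h1 : HasDerivAt (fun p => ∫ y in a t..b t, f p y) (∫ y in a t..b t, fx (x t) y) (x t) := by
    have := intervalIntegral.hasDerivAt_integral_of_dominated_loc_of_deriv_le
      (μ := volume) (a := a t) (b := b t) (F := f) (F' := fx) (x₀ := x t)
      (s := Metric.ball (x t) e) (bound := fun _ => M) (Metric.ball_mem_nhds _ he)
      (by
        filter_upwards [Metric.ball_mem_nhds (x t) he] with p hp
        rw [Metric.mem_ball, Real.dist_eq] at hp
        exact (intervalIntegrable_iff.1 (hintg f hf p hp.le _ _ hae hbe)).aestronglyMeasurable)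
      (hintg f hf (x t) (by simpa using he.le) _ _ hae hbe)
      (intervalIntegrable_iff.1 (hintg fx hfx (x t) (by simpa using he.le) _ _ hae hbe)).aestronglyMeasurable
      (by
        refine Eventually.of_forall fun y hy p hp => ?_
        rw [Metric.mem_ball, Real.dist_eq] at hp
        have hy' : y ∈ uIcc (a t) (b t) := uIoc_subset_uIcc hy
        have := hM (p, y) ⟨⟨by linarith [(abs_lt.1 hp).1], by linarith [(abs_lt.1 hp).2]⟩,
          ⟨by linarith [hy'.1], by linarith [hy'.2]⟩⟩
        exact this)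
      (by simp)
      (by
        refine Eventually.of_forall fun y hy p hp => ?_
        rw [Metric.mem_ball, Real.dist_eq] at hp
        have hy' : y ∈ uIcc (a t) (b t) := uIoc_subset_uIcc hy
        exact hd p y (hrect p y hp.le ⟨by linarith [hy'.1], by linarith [hy'.2]⟩))
    exact this.2
  have h1' : HasDerivAt (fun s => ∫ y in a t..b t, f (x s) y)
      ((∫ y in a t..b t, fx (x t) y) * x') t := HasDerivAt.comp t h1 hx
  have h2 := hasDerivAt_endpoint hO hf hx.continuousAt hb hmb
  have h3 := hasDerivAt_endpoint hO hf hx.continuousAt ha hma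
  have h4 := (h1'.add h2).sub h3
  refine (h4.congr_deriv (by ring)).congr_of_eventuallyEq ?_
  have ex : ∀ᶠ s in 𝓝 t, |x s - x t| < e := by
    have := Metric.continuousAt_iff.1 hx.continuousAt e he
    obtain ⟨r, hr, hr2⟩ := this
    filter_upwards [Metric.ball_mem_nhds t hr] with s hs
    simpa [Real.dist_eq] using hr2 hs
  have ea : ∀ᶠ s in 𝓝 t, |a s - a t| < e := by
    have := Metric.continuousAt_iff.1 ha.continuousAt e he
    obtain ⟨r, hr, hr2⟩ := this
    filter_upwards [Metric.ball_mem_nhds t hr] with s hs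
    simpa [Real.dist_eq] using hr2 hs
  have eb : ∀ᶠ s in 𝓝 t, |b s - b t| < e := by
    have := Metric.continuousAt_iff.1 hb.continuousAt e he
    obtain ⟨r, hr, hr2⟩ := this
    filter_upwards [Metric.ball_mem_nhds t hr] with s hs
    simpa [Real.dist_eq] using hr2 hs
  filter_upwards [ex, ea, eb] with s hs1 hs2 hs3
  have hae' : a s ∈ Icc (min (a t) (b t) - e) (max (a t) (b t) + e) := by
    rw [abs_lt] at hs2
    exact ⟨by linarith [min_le_left (a t) (b t)], by linarith [le_max_left (a t) (b t)]⟩
  have hbe' : b s ∈ Icc (min (a t) (b t) - e) (max (a t) (b t) + e) := by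
    rw [abs_lt] at hs3
    exact ⟨by linarith [min_le_right (a t) (b t)], by linarith [le_max_right (a t) (b t)]⟩
  have i1 := hintg f hf (x s) hs1.le _ _ hae' hae
  have i2 := hintg f hf (x s) hs1.le _ _ hae hbe
  have i3 := hintg f hf (x s) hs1.le _ _ hbe hbe'
  have e1 := intervalIntegral.integral_add_adjacent_intervals i2 i3
  have e2 := intervalIntegral.integral_add_adjacent_intervals i1 (i2.trans i3)
  have e3 := intervalIntegral.integral_symm (μ := volume) (f := fun y => f (x s) y) (a s) (a t)
  simp only [Pi.add_apply, Pi.sub_apply]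
  rw [← e2, ← e1, e3]
  ring

/-- **Potential along a path.** If `∂_x f = ∂_y q + 5 τ` then the derivative of
`∫ f` along the path is explicit. -/
theorem potential {Om : Set (ℝ × ℝ)} (hO : IsOpen Om) {f fx q tau : ℝ → ℝ → ℝ}
    (hf : ContinuousOn (Function.uncurry f) Om) (hfx : ContinuousOn (Function.uncurry fx) Om)
    (htau : ContinuousOn (Function.uncurry tau) Om)
    (hd : ∀ x y, (x, y) ∈ Om → HasDerivAt (fun x => f x y) (fx x y) x)
    (hq : ∀ x y, (x, y) ∈ Om → HasDerivAt (fun y => q x y) (fx x y - 5 * tau x y) y)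
    {x a b : ℝ → ℝ} {x' a' b' t : ℝ}
    (hx : HasDerivAt x x' t) (ha : HasDerivAt a a' t) (hb : HasDerivAt b b' t)
    (hseg : ∀ y ∈ uIcc (a t) (b t), (x t, y) ∈ Om) :
    HasDerivAt (fun s => ∫ y in a s..b s, f (x s) y)
      (x' * (q (x t) (b t) - q (x t) (a t) + 5 * ∫ y in a t..b t, tau (x t) y)
        + b' * f (x t) (b t) - a' * f (x t) (a t)) t := by
  have h := leibniz hO hf hfx hd hx ha hb hseg
  have hcont : ∀ (g : ℝ → ℝ → ℝ), ContinuousOn (Function.uncurry g) Om →
      ContinuousOn (fun y => g (x t) y) (uIcc (a t) (b t)) := by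
    intro g hg
    have h1 : ContinuousOn (fun y => ((x t, y) : ℝ × ℝ)) (uIcc (a t) (b t)) := by fun_prop
    exact hg.comp h1 hseg
  have h5 : (∫ y in a t..b t, (fx (x t) y - 5 * tau (x t) y)) = q (x t) (b t) - q (x t) (a t) := by
    apply intervalIntegral.integral_eq_sub_of_hasDerivAt (fun y hy => hq _ _ (hseg y hy))
    exact ((hcont fx hfx).sub (continuousOn_const.mul (hcont tau htau))).intervalIntegrable
  rw [intervalIntegral.integral_sub (hcont fx hfx).intervalIntegrable
    ((hcont tau htau).intervalIntegrable.const_mul 5),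
    intervalIntegral.integral_const_mul] at h5
  refine h.congr_deriv ?_
  rw [← h5]; ring

end B92
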